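import Pool.Agent.HSP.Defs
import Pool.Agent.HLV.Dir
import Pool.Agent.HLV.Cw
import Pool.Agent.HLV.Rng

/-!
# HSP-Cim: coding over a fixed alphabet

`cimg M m L` is the image of `L` under the extension of the good code `a ↦ cw m M a`; direct and inverse
images preserve the half levels.
-/

namespace Pool.Agent.HSP

open Pool.Agent.DD Pool.Agent.HLV

private theorem cim_eq (M m : ℕ) (L : Lang (Fin M)) :
    cimg M m L = img (fun a : Fin M => cw m M a.val) L := rfl

private theorem cim_ne (M m : ℕ) (a : Fin M) : (fun a : Fin M => cw m M a.val) a ≠ [] := by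
  intro e
  have h1 := cw_length (m := m) a.isLt
  have h2 : cw m M a.val = [] := e
  rw [h2, List.length_nil] at h1
  omega

theorem cimg_disj {M m : ℕ} {X Y : Lang (Fin M)} (h : ∀ w ∈ X, w ∉ Y) :
    ∀ w ∈ cimg M m X, w ∉ cimg M m Y := by
  rintro _ ⟨v, hv, rfl⟩ ⟨v', hv', e⟩
  have e' : v = v' := ext_inj (good_code M m) e
  exact h v hv (e' ▸ hv')

theorem cimg_sep {M m n : ℕ} (hn : 1 ≤ n) (X Y : Lang (Fin M)) :
    Separable (Half (B (Fin (m + 2)) n)) (cimg M m X) (cimg M m Y) ↔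
      Separable (Half (B (Fin M) n)) X Y := by
  constructor
  · rintro ⟨Z, hZ, h1, h2⟩
    refine ⟨iq (fun a : Fin M => cw m M a.val) [] [] Z,
      half_iff.2 (iq_pol (cim_ne M m) (half_iff.1 hZ) [] []), ?_, ?_⟩
    · intro v hv
      rw [mem_iq, List.nil_append, List.append_nil]
      exact h1 ⟨v, hv, rfl⟩
    · intro v hv hvY
      rw [mem_iq, List.nil_append, List.append_nil] at hv
      exact h2 _ hv ⟨v, hvY, rfl⟩
  · rintro ⟨Z, hZ, h1, h2⟩
    refine ⟨cimg M m Z, half_iff.2 (img_pol (good_code M m) hn (half_iff.1 hZ)), ?_, ?_⟩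
    · rintro _ ⟨v, hv, rfl⟩
      exact ⟨v, h1 hv, rfl⟩
    · exact cimg_disj h2

theorem cimg_compl {M m n : ℕ} (hn : 1 ≤ n) {X Y : Lang (Fin M)}
    (h : (X ∪ Y)ᶜ ∈ Half (B (Fin M) n)) :
    (cimg M m X ∪ cimg M m Y)ᶜ ∈ Half (B (Fin (m + 2)) n) := by
  have h1 : Pol (B (Fin (m + 2)) n) (cimg M m (X ∪ Y)ᶜ) :=
    img_pol (good_code M m) hn (half_iff.1 h)
  have h2 : Pol (B (Fin (m + 2)) n) (Set.range (ext fun a : Fin M => cw m M a.val))ᶜ :=
    Pol.base (B_compl (B_mono hn (range_B (good_code M m))))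
  have e : (cimg M m X ∪ cimg M m Y)ᶜ =
      cimg M m (X ∪ Y)ᶜ ∪ (Set.range (ext fun a : Fin M => cw m M a.val))ᶜ := by
    ext w
    constructor
    · intro hw
      by_cases hr : w ∈ Set.range (ext fun a : Fin M => cw m M a.val)
      · left
        obtain ⟨v, rfl⟩ := hr
        refine ⟨v, ?_, rfl⟩
        rintro (hv | hv)
        · exact hw (Or.inl ⟨v, hv, rfl⟩)
        · exact hw (Or.inr ⟨v, hv, rfl⟩)
      · exact Or.inr hr
    · rintro (⟨v, hv, rfl⟩ | hr)
      · rintro (⟨v', hv', e⟩ | ⟨v', hv', e⟩)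
        · have e' : v = v' := ext_inj (good_code M m) e
          exact hv (Or.inl (e' ▸ hv'))
        · have e' : v = v' := ext_inj (good_code M m) e
          exact hv (Or.inr (e' ▸ hv'))
      · rintro (⟨v', hv', e⟩ | ⟨v', hv', e⟩)
        · exact hr ⟨v', e.symm⟩
        · exact hr ⟨v', e.symm⟩
  rw [e]
  exact half_iff.2 (Pol.union h1 h2)

end Pool.Agent.HSP
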