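import Pool.Agent.HSP.Snd
import Pool.Agent.HLV.Inv

/-!
# HSP-Lift: separators are lifted

If `K` separates the languages of the automaton, `iq ψ [] [] K · dl · S*` separates the certified words:
the letter `dl` occurs exactly once in a certified word.
-/

namespace Pool.Agent.HSP

open Pool.Agent.DD Pool.Agent.HLV

variable {A P S : Type}

private theorem htk_ne {N : ℕ} (G : Alph A P N S) (a₀ : A) (s : S) : htk a₀ (G.tk s) ≠ [] := by
  have h := G.small s
  cases ht : G.tk s with
  | fr a => simp [htk]
  | lp w l =>
    rw [ht] at h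
    exact h.1
  | dl => simp [htk]
  | fl p => simp [htk]

private theorem one_fin [Finite S] {N : ℕ} (G : Alph A P N S) (p : Tok A P → Prop) :
    (one G p).Finite := by
  refine (Set.finite_range fun s : S => [s]).subset ?_
  rintro w ⟨s, -, rfl⟩
  exact ⟨s, rfl⟩

/-- Main result of this module. -/
theorem lift [Finite A] [Nonempty A] [Finite S] {n N : ℕ} (G : Alph A P N S) (U : Aut A) (V : Dfa P)
    (h : Separable (Half (B A n)) (U.lang true) (U.lang false)) :
    Separable (Half (B S n)) (Cert G U V true) (Cert G U V false) := by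
  obtain ⟨K, hK, h1, h2⟩ := h
  obtain ⟨a₀⟩ := (inferInstance : Nonempty A)
  have hKp : Pol (B A n) K := half_iff.1 hK
  have hp : Pol (B S n) (cat (iq (fun s => htk a₀ (G.tk s)) [] [] K)
      (cat (one G IsDl) Set.univ)) :=
    Pol.cat (iq_pol (htk_ne G a₀) hKp [] [])
      (Pol.cat (Pol.base (finite_mem_B (one_fin G IsDl) n)) (Pol.base (univ_mem_B n)))
  refine ⟨_, half_iff.2 hp, ?_, ?_⟩
  · intro x hx
    obtain ⟨y, r, z, rfl, hr, -, -, hy⟩ := cert_sound G U V a₀ hx
    refine ⟨y, ?_, r :: z, ⟨[r], ⟨r, hr, rfl⟩, z, trivial, rfl⟩, rfl⟩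
    rw [mem_iq, List.nil_append, List.append_nil]
    exact h1 hy
  · rintro x ⟨y', hy', x', ⟨r'', ⟨r', hr', rfl⟩, z', -, rfl⟩, rfl⟩ hx
    obtain ⟨y, r, z, he, hr, hyd, hzd, hy⟩ := cert_sound G U V a₀ hx
    rw [mem_iq, List.nil_append, List.append_nil] at hy'
    have hyy : y' = y := by
      rcases List.append_eq_append_iff.1 he with ⟨t, h3, h4⟩ | ⟨t, h3, h4⟩
      · cases t with
        | nil => rw [h3, List.append_nil]
        | cons a t =>
          exfalso
          have h5 : r' = a := by
            have := congrArg List.head? h4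
            simpa using this
          refine hyd r' ?_ hr'
          rw [h3, h5]
          simp
      · cases t with
        | nil => rw [h3, List.append_nil]
        | cons a t =>
          exfalso
          have h5 : z = t ++ ([r'] ++ z') := by
            have := congrArg List.tail h4
            simpa using this
          refine hzd r' ?_ hr'
          rw [h5]
          simp
    rw [hyy] at hy'
    exact h2 _ hy' hy

end Pool.Agent.HSP
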