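import Pool.Agent.HSP.LevB

/-!
# HSP-LevC: level of the errors
-/

namespace Pool.Agent.HSP

open Pool.Agent.DD Pool.Agent.HLV

variable {A P S : Type}

private theorem lc_gen [Finite S] {n N : ℕ} (c : List S → S → Prop) (L : List S → Lang S)
    (hL : ∀ v, Pol (B S n) (L v)) :
    Pol (B S n) {z | ∃ v s x, z = v ++ s :: x ∧ v.length ≤ N + 1 ∧ c v s ∧ x ∈ L v} := by
  have : Finite {v : List S // v.length ≤ N + 1} := (List.finite_length_le S (N + 1)).to_subtype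
  have h := pol_finite_union (i := n) (ι := {v : List S // v.length ≤ N + 1} × S)
    (fun p => {z | c p.1.1 p.2 ∧ ∃ x ∈ L p.1.1, z = p.1.1 ++ p.2 :: x}) (by
    rintro ⟨⟨v, hv⟩, s⟩
    by_cases hc : c v s
    · have e : {z | c v s ∧ ∃ x ∈ L v, z = v ++ s :: x} = cat {v ++ [s]} (L v) := by
        ext z
        constructor
        · rintro ⟨_, x, hx, rfl⟩
          exact ⟨v ++ [s], rfl, x, hx, by simp⟩
        · rintro ⟨w, hw, x, hx, rfl⟩
          rw [Set.mem_singleton_iff] at hw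
          subst hw
          exact ⟨hc, x, hx, by simp⟩
      show Pol (B S n) {z | c v s ∧ ∃ x ∈ L v, z = v ++ s :: x}
      rw [e]
      exact Pol.cat (Pol.base (finite_mem_B (Set.finite_singleton _) n)) (hL v)
    · have e : {z | c v s ∧ ∃ x ∈ L v, z = v ++ s :: x} = ∅ := by
        ext z
        constructor
        · rintro ⟨h, _⟩
          exact absurd h hc
        · intro h
          exact absurd h (Set.notMem_empty z)
      show Pol (B S n) {z | c v s ∧ ∃ x ∈ L v, z = v ++ s :: x}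
      rw [e]
      exact Pol.base (empty_mem_B n))
  have e : {z | ∃ v s x, z = v ++ s :: x ∧ v.length ≤ N + 1 ∧ c v s ∧ x ∈ L v} =
      {z | ∃ p : {v : List S // v.length ≤ N + 1} × S,
        z ∈ {z | c p.1.1 p.2 ∧ ∃ x ∈ L p.1.1, z = p.1.1 ++ p.2 :: x}} := by
    ext z
    constructor
    · rintro ⟨v, s, x, h1, h2, h3, h4⟩
      exact ⟨⟨⟨v, h2⟩, s⟩, h3, x, h4, h1⟩
    · rintro ⟨⟨⟨v, h2⟩, s⟩, h3, x, h4, h1⟩
      exact ⟨v, s, x, h1, h2, h3, h4⟩
  rw [e]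
  exact h

/-- Main result of this module. -/
theorem Err_half [Finite S] [Finite P] {N : ℕ} (G : Alph A P N S) (U : Aut A) (V : Dfa P) {n : ℕ}
    (hn : 1 ≤ n) (h1 : V.lang ∈ Half (B P n)) (h2 : V.langᶜ ∈ Half (B P n)) (q : ℕ) :
    Err G U V q ∈ Half (B S n) := by
  rw [half_iff]
  have p1 : Pol (B S n) (all G IsFr) := Pol.base (all_B G IsFr hn)
  have pu : Pol (B S n) (Set.univ : Lang S) := Pol.base (univ_mem_B n)
  have p2 : Pol (B S n) (cat {v | v ∈ all G IsFr ∧ v.length = N + 2} Set.univ) :=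
    Pol.cat (Pol.base (finite_mem_B ((List.finite_length_eq S (N + 2)).subset
      fun v hv => hv.2) n)) pu
  have p3 := lc_gen (n := n) (N := N) (fun v s => v ∈ all G IsFr ∧ ¬ IsFr (G.tk s) ∧
      ¬ IsDl (G.tk s) ∧
      ¬ ∃ w, G.tk s = .lp w .op ∧ U.run (U.run q (frs G v)) w = U.run q (frs G v))
      (fun _ => Set.univ) (fun _ => pu)
  have p4 := lc_gen (n := n) (N := N) (fun v s => v ∈ all G IsFr ∧ IsOp (G.tk s))
      (fun v => PErr G U V (U.run q (frs G v)))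
      (fun v => half_iff.1 (PErr_half G U V hn h1 h2 _))
  have p5 := lc_gen (n := n) (N := N) (fun v s => v ∈ all G IsFr ∧ IsDl (G.tk s))
      (fun v => FErr G U V (U.run q (frs G v)))
      (fun v => half_iff.1 (FErr_half G U V hn h1 h2 _))
  have p := Pol.union p1 (Pol.union p2 (Pol.union p3 (Pol.union p4 p5)))
  refine (congrArg (Pol (B S n)) ?_).mpr p
  · apply Set.ext
    intro z
    constructor
    · rintro (h | ⟨v, x, h3, h4, h5⟩ | ⟨v, s, x, h3, h4, h5, h6, h7, h8⟩ |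
        ⟨v, s, x, h3, h4, h5, h6, h7⟩ | ⟨v, s, x, h3, h4, h5, h6, h7⟩)
      · exact Or.inl h
      · exact Or.inr (Or.inl ⟨v, ⟨h4, h5⟩, x, trivial, h3⟩)
      · exact Or.inr (Or.inr (Or.inl ⟨v, s, x, h3, h5, ⟨h4, h6, h7, h8⟩, trivial⟩))
      · exact Or.inr (Or.inr (Or.inr (Or.inl ⟨v, s, x, h3, h5, ⟨h4, h6⟩, h7⟩)))
      · exact Or.inr (Or.inr (Or.inr (Or.inr ⟨v, s, x, h3, h5, ⟨h4, h6⟩, h7⟩)))
    · rintro (h | ⟨v, ⟨h4, h5⟩, x, _, h3⟩ | ⟨v, s, x, h3, h5, ⟨h4, h6, h7, h8⟩, _⟩ |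
        ⟨v, s, x, h3, h5, ⟨h4, h6⟩, h7⟩ | ⟨v, s, x, h3, h5, ⟨h4, h6⟩, h7⟩)
      · exact Or.inl h
      · exact Or.inr (Or.inl ⟨v, x, h3, h4, h5⟩)
      · exact Or.inr (Or.inr (Or.inl ⟨v, s, x, h3, h4, h5, h6, h7, h8⟩))
      · exact Or.inr (Or.inr (Or.inr (Or.inl ⟨v, s, x, h3, h4, h5, h6, h7⟩)))
      · exact Or.inr (Or.inr (Or.inr (Or.inr ⟨v, s, x, h3, h4, h5, h6, h7⟩)))

end Pool.Agent.HSP
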