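import Pool.Agent.HSP.RejP

/-!
# HSP-RejB: words with an error are rejected

The states reached by the pieces of the words in `Err` and `Gam`.
-/

namespace Pool.Agent.HSP

open Pool.Agent.DD Pool.Agent.HLV

variable {A P S : Type}

private theorem rb_step_dead {N : ℕ} (U : Aut A) (V : Dfa P) (t : Tok A P) :
    step U V N .dead t = .dead := by
  cases t <;> rfl

private theorem rb_cons {N : ℕ} (G : Alph A P N S) (U : Aut A) (V : Dfa P) (x : St) (r : S)
    (y : List S) : runT G U V x (r :: y) = runT G U V (step U V N x (G.tk r)) y := rfl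

private theorem rb_dead {N : ℕ} (G : Alph A P N S) (U : Aut A) (V : Dfa P) (y : List S) :
    ¬ Acc U V (runT G U V .dead y) := by
  rw [runT_dead]
  exact fun h => h

private theorem rb_op {t : Tok A P} (h : IsOp t) : ∃ w, t = .lp w .op := by
  cases t with
  | fr a => exact h.elim
  | dl => exact h.elim
  | fl p => exact h.elim
  | lp w l =>
    cases l with
    | op => exact ⟨w, rfl⟩
    | pl p => exact h.elim
    | hs => exact h.elim
    | cl => exact h.elim

private theorem rb_pl {t : Tok A P} (h : IsPl t) : ∃ w p, t = .lp w (.pl p) := by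
  cases t with
  | fr a => exact h.elim
  | dl => exact h.elim
  | fl p => exact h.elim
  | lp w l =>
    cases l with
    | op => exact h.elim
    | pl p => exact ⟨w, p, rfl⟩
    | hs => exact h.elim
    | cl => exact h.elim

private theorem rb_hs {t : Tok A P} (h : IsHs t) : ∃ w, t = .lp w .hs := by
  cases t with
  | fr a => exact h.elim
  | dl => exact h.elim
  | fl p => exact h.elim
  | lp w l =>
    cases l with
    | op => exact h.elim
    | pl p => exact h.elim
    | hs => exact ⟨w, rfl⟩
    | cl => exact h.elim

private theorem rb_cl {t : Tok A P} (h : IsCl t) : ∃ w, t = .lp w .cl := by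
  cases t with
  | fr a => exact h.elim
  | dl => exact h.elim
  | fl p => exact h.elim
  | lp w l =>
    cases l with
    | op => exact h.elim
    | pl p => exact h.elim
    | hs => exact h.elim
    | cl => exact ⟨w, rfl⟩

private theorem rb_isfl {t : Tok A P} (h : IsFl t) : ∃ p, t = .fl p := by
  cases t with
  | fr a => exact h.elim
  | dl => exact h.elim
  | fl p => exact ⟨p, rfl⟩
  | lp w l => exact h.elim

private theorem rb_isfr {t : Tok A P} (h : IsFr t) : ∃ a, t = .fr a := by
  cases t with
  | fr a => exact ⟨a, rfl⟩
  | dl => exact h.elim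
  | fl p => exact h.elim
  | lp w l => exact h.elim

/-- a word of free tokens -/
private theorem rb_run_fr {N : ℕ} (G : Alph A P N S) (U : Aut A) (V : Dfa P) {v : List S}
    (hv : v ∈ all G IsFr) : ∀ q l, l ≤ N + 1 →
      (runT G U V (.free q l) v = .free (U.run q (frs G v)) (l + v.length) ∧
        l + v.length ≤ N + 1) ∨ runT G U V (.free q l) v = .dead := by
  induction v with
  | nil => exact fun q l hl => Or.inl ⟨rfl, hl⟩
  | cons r v ih =>
    intro q l hl
    obtain ⟨a, ha⟩ := rb_isfr (hv r List.mem_cons_self)
    have hv' : v ∈ all G IsFr := fun s hs => hv s (List.mem_cons_of_mem _ hs)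
    have hf : frs G (r :: v) = a :: frs G v := by
      unfold frs
      rw [List.filterMap_cons, ha]
      rfl
    have hst : step U V N (.free q l) (.fr a) =
        if l ≤ N then .free (U.δ q a) (l + 1) else .dead := rfl
    rw [rb_cons, ha, hst]
    by_cases h : l ≤ N
    · rw [if_pos h]
      rcases ih hv' (U.δ q a) (l + 1) (by omega) with ⟨h1, h2⟩ | h1
      · refine Or.inl ⟨?_, by rw [List.length_cons]; omega⟩
        rw [h1, hf, List.length_cons]
        have h3 : l + 1 + v.length = l + (v.length + 1) := by omega
        rw [h3]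
        rfl
      · exact Or.inr h1
    · rw [if_neg h]
      exact Or.inr (runT_dead G U V v)

/-- a word of tokens `fl` -/
private theorem rb_run_fl {N : ℕ} (G : Alph A P N S) (U : Aut A) (V : Dfa P) (s : ℕ) {v : List S}
    (hv : v ∈ all G IsFl) : ∀ d, runT G U V (.fin s d) v = .fin s (V.run d (pls G v)) := by
  induction v with
  | nil => exact fun d => rfl
  | cons r v ih =>
    intro d
    obtain ⟨p, hp⟩ := rb_isfl (hv r List.mem_cons_self)
    have hv' : v ∈ all G IsFl := fun s hs => hv s (List.mem_cons_of_mem _ hs)
    have hf : pls G (r :: v) = p :: pls G v := by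
      unfold pls
      rw [List.filterMap_cons, hp]
      rfl
    have hst : step U V N (.fin s d) (.fl p) = .fin s (V.δ d p) := rfl
    rw [rb_cons, hp, hst, ih hv', hf]
    rfl

/-- a word of tokens `pl` -/
private theorem rb_run_pl {N : ℕ} (G : Alph A P N S) (U : Aut A) (V : Dfa P) (s j : ℕ) {x : List S}
    (hx : x ∈ all G IsPl) : ∀ d, runT G U V (.pad s j d) x = .pad s j (V.run d (pls G x)) ∨
      runT G U V (.pad s j d) x = .dead := by
  induction x with
  | nil => exact fun d => Or.inl rfl
  | cons r x ih =>
    intro d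
    obtain ⟨w, p, hp⟩ := rb_pl (hx r List.mem_cons_self)
    have hx' : x ∈ all G IsPl := fun q hq => hx q (List.mem_cons_of_mem _ hq)
    have hf : pls G (r :: x) = p :: pls G x := by
      unfold pls
      rw [List.filterMap_cons, hp]
      rfl
    have hst : step U V N (.pad s j d) (.lp w (.pl p)) =
        if U.run s w = s then .pad s j (V.δ d p) else .dead := rfl
    rw [rb_cons, hp, hst]
    by_cases hw : U.run s w = s
    · rw [if_pos hw, hf]
      exact ih hx' (V.δ d p)
    · rw [if_neg hw]
      exact Or.inr (runT_dead G U V x)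

/-- Main result 1. -/
theorem err_rej {N : ℕ} (G : Alph A P N S) (U : Aut A) (V : Dfa P) (q : ℕ) :
    Err G U V q ⊆ Rej G U V q := by
  intro z hz
  show ¬ Acc U V (runT G U V (.free q 0) z)
  rcases hz with h | ⟨v, x, rfl, hv, hl⟩ | ⟨v, s, x, rfl, hv, -, h1, h2, h3⟩ |
    ⟨v, s, x, rfl, hv, -, h1, h2⟩ | ⟨v, s, x, rfl, hv, -, h1, h2⟩
  · rcases rb_run_fr G U V h q 0 (by omega) with ⟨h1, -⟩ | h1
    · rw [h1]
      exact fun h => h
    · rw [h1]
      exact fun h => h
  · rw [runT_append]
    rcases rb_run_fr G U V hv q 0 (by omega) with ⟨-, h2⟩ | h2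
    · omega
    · rw [h2]
      exact rb_dead G U V x
  · rw [runT_append]
    rcases rb_run_fr G U V hv q 0 (by omega) with ⟨h4, -⟩ | h4
    · rw [h4, rb_cons]
      have h5 : step U V N (.free (U.run q (frs G v)) (0 + v.length)) (G.tk s) = .dead := by
        cases ht : G.tk s with
        | fr a =>
          rw [ht] at h1
          exact absurd trivial h1
        | dl =>
          rw [ht] at h2
          exact absurd trivial h2
        | fl p => rfl
        | lp w l =>
          cases l with
          | pl p => rfl
          | hs => rfl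
          | cl => rfl
          | op =>
            have hst : step U V N (.free (U.run q (frs G v)) (0 + v.length)) (.lp w .op) =
                if U.run (U.run q (frs G v)) w = U.run q (frs G v) then
                  .pad (U.run q (frs G v)) 0 0 else .dead := rfl
            rw [hst, if_neg]
            exact fun hw => h3 ⟨w, ht, hw⟩
      rw [h5]
      exact rb_dead G U V x
    · rw [h4]
      exact rb_dead G U V _
  · rw [runT_append]
    rcases rb_run_fr G U V hv q 0 (by omega) with ⟨h4, -⟩ | h4
    · rw [h4, rb_cons]
      obtain ⟨w, hw⟩ := rb_op h1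
      have hst : step U V N (.free (U.run q (frs G v)) (0 + v.length)) (.lp w .op) =
          if U.run (U.run q (frs G v)) w = U.run q (frs G v) then
            .pad (U.run q (frs G v)) 0 0 else .dead := rfl
      rw [hw, hst]
      by_cases h5 : U.run (U.run q (frs G v)) w = U.run q (frs G v)
      · rw [if_pos h5]
        exact perr_rej G U V h2
      · rw [if_neg h5]
        exact rb_dead G U V x
    · rw [h4]
      exact rb_dead G U V _
  · rw [runT_append]
    rcases rb_run_fr G U V hv q 0 (by omega) with ⟨h4, -⟩ | h4
    · rw [h4, rb_cons]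
      have h5 : step U V N (.free (U.run q (frs G v)) (0 + v.length)) (G.tk s) =
          .fin (U.run q (frs G v)) 0 := by
        cases ht : G.tk s with
        | fr a =>
          rw [ht] at h1
          exact h1.elim
        | dl => rfl
        | fl p =>
          rw [ht] at h1
          exact h1.elim
        | lp w l =>
          rw [ht] at h1
          exact h1.elim
      rw [h5]
      rcases h2 with ⟨a, ha, b, ⟨c, ⟨r, hr, rfl⟩, e, -, rfl⟩, rfl⟩ | ⟨h2, h3⟩
      · rw [runT_append, runT_append, rb_run_fl G U V _ ha, rb_cons]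
        have h6 : step U V N (.fin (U.run q (frs G v)) (V.run 0 (pls G a))) (G.tk r) = .dead := by
          cases ht : G.tk r with
          | fr a => rfl
          | dl => rfl
          | lp w l => rfl
          | fl p =>
            exfalso
            apply hr
            rw [ht]
            trivial
        rw [h6, runT_dead, runT_dead]
        exact fun h => h
      · rw [rb_run_fl G U V _ h2]
        intro h6
        have h7 : U.F (V.acc (V.run 0 (pls G x))) (U.run q (frs G v)) = true := h6
        rw [h3] at h7
        exact Bool.false_ne_true h7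
    · rw [h4]
      exact rb_dead G U V _

/-- blocks with the code of `q'` -/
private theorem rb_run_hot {N : ℕ} (G : Alph A P N S) (U : Aut A) (V : Dfa P) (q' s : ℕ) (i : ℕ) :
    ∀ x : List S, x ∈ hotB G V q' i →
      (runT G U V (.pad s 0 0) x = .pad s i 0 ∧ ∀ j < i, decide (j = q') = decide (j = s)) ∨
        runT G U V (.pad s 0 0) x = .dead := by
  induction i with
  | zero =>
    intro x hx
    have h1 : x = [] := hx
    rw [h1]
    exact Or.inl ⟨rfl, fun j hj => absurd hj (Nat.not_lt_zero _)⟩
  | succ i ih =>
    rintro x ⟨x1, h1, y, ⟨b, ⟨hb, hb2⟩, c, ⟨r, hr, rfl⟩, rfl⟩, rfl⟩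
    rw [runT_append, runT_append]
    rcases ih x1 h1 with ⟨h2, h3⟩ | h2
    · rw [h2]
      rcases rb_run_pl G U V s i hb 0 with h4 | h4
      · obtain ⟨w, hw⟩ := rb_hs hr
        have hst : step U V N (.pad s i (V.run 0 (pls G b))) (.lp w .hs) =
            if U.run s w = s ∧ i < U.b ∧ V.acc (V.run 0 (pls G b)) = decide (i = s) then
              .pad s (i + 1) 0 else .dead := rfl
        rw [h4, rb_cons, hw, hst]
        by_cases h5 : U.run s w = s ∧ i < U.b ∧ V.acc (V.run 0 (pls G b)) = decide (i = s)
        · rw [if_pos h5]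
          refine Or.inl ⟨rfl, fun j hj => ?_⟩
          rcases Nat.lt_or_ge j i with h6 | h6
          · exact h3 j h6
          · have h7 : j = i := by omega
            rw [h7, ← h5.2.2, hb2]
        · rw [if_neg h5]
          exact Or.inr rfl
      · rw [h4]
        exact Or.inr (runT_dead G U V _)
    · rw [h2, runT_dead, runT_dead]
      exact Or.inr rfl

/-- Main result 2. -/
theorem gam_rej {N : ℕ} (G : Alph A P N S) (U : Aut A) (V : Dfa P) (q : ℕ) {q' : ℕ} (hq : q' < U.b) :
    cat Set.univ (cat (Gam G U V q') (Err G U V q')) ⊆ Rej G U V q := by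
  rintro z ⟨y1, -, y2, ⟨g, ⟨o, ⟨ro, hro, rfl⟩, g1, ⟨h, hh, g2, ⟨x, hx, c, ⟨rc, hrc, rfl⟩, rfl⟩, rfl⟩,
    rfl⟩, e, he, rfl⟩, rfl⟩
  show ¬ Acc U V (runT G U V (.free q 0) _)
  rw [runT_append, runT_append, runT_append, runT_append, runT_append]
  obtain ⟨X, hX⟩ : ∃ X, X = runT G U V (.free q 0) y1 := ⟨_, rfl⟩
  rw [← hX]
  have hend : ∀ Y : St, (Y = .free q' 0 ∨ Y = .dead) → ¬ Acc U V (runT G U V Y e) := by
    rintro Y (rfl | rfl)
    · exact err_rej G U V q' he
    · exact rb_dead G U V e
  obtain ⟨w, hw⟩ := rb_op hro
  have h1 : (∃ s, runT G U V X [ro] = .pad s 0 0) ∨ runT G U V X [ro] = .dead := by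
    have h0 : runT G U V X [ro] = step U V N X (G.tk ro) := rfl
    rw [h0, hw]
    clear hX h0
    cases X with
    | free s l =>
      have hst : step U V N (.free s l) (.lp w .op : Tok A P) =
          if U.run s w = s then .pad s 0 0 else .dead := rfl
      rw [hst]
      by_cases h2 : U.run s w = s
      · rw [if_pos h2]
        exact Or.inl ⟨s, rfl⟩
      · rw [if_neg h2]
        exact Or.inr rfl
    | pad s j d => exact Or.inr rfl
    | fin s d => exact Or.inr rfl
    | dead => exact Or.inr rfl
  apply hend
  rcases h1 with ⟨s, h1⟩ | h1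
  · rw [h1]
    rcases rb_run_hot G U V q' s U.b h hh with ⟨h2, h3⟩ | h2
    · have hs : q' = s := by
        have h4 := h3 q' hq
        rw [decide_eq_true rfl] at h4
        exact of_decide_eq_true h4.symm
      rw [h2]
      rcases rb_run_pl G U V s U.b hx 0 with h4 | h4
      · obtain ⟨w', hw'⟩ := rb_cl hrc
        have hst : step U V N (.pad s U.b (V.run 0 (pls G x))) (.lp w' .cl) =
            if U.run s w' = s ∧ U.b = U.b then .free s 0 else .dead := rfl
        rw [h4, rb_cons, hw', hst]
        by_cases h5 : U.run s w' = s ∧ U.b = U.b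
        · rw [if_pos h5, hs]
          exact Or.inl rfl
        · rw [if_neg h5]
          exact Or.inr rfl
      · rw [h4]
        exact Or.inr (runT_dead G U V _)
    · rw [h2, runT_dead, runT_dead]
      exact Or.inr rfl
  · rw [h1, runT_dead, runT_dead, runT_dead]
    exact Or.inr rfl

end Pool.Agent.HSP
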