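import Pool.Agent.HSP.RejA
import Pool.Agent.HSP.RejB
import Pool.Agent.HSP.LevC

/-!
# HSP-RejL: the words without certificate

The complement of the certified words is `Rej 0`, the union of `Err 0` and of
`cat univ (cat (Gam q) (Err q))`, `q < b`.
-/

namespace Pool.Agent.HSP

open Pool.Agent.DD Pool.Agent.HLV

variable {A P S : Type}

private theorem cert_iff {N : ℕ} (G : Alph A P N S) (U : Aut A) (V : Dfa P) (y : List S) :
    (y ∈ Cert G U V true ∪ Cert G U V false) ↔ Acc U V (runT G U V (.free 0 0) y) := by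
  constructor
  · rintro (⟨s, d, h1, h2, h3⟩ | ⟨s, d, h1, h2, h3⟩)
    · rw [h1]; show U.F (V.acc d) s = true; rw [h2]; exact h3
    · rw [h1]; show U.F (V.acc d) s = true; rw [h2]; exact h3
  · intro h
    cases hx : runT G U V (.free 0 0) y with
    | free s l => rw [hx] at h; exact h.elim
    | pad s j d => rw [hx] at h; exact h.elim
    | dead => rw [hx] at h; exact h.elim
    | fin s d =>
      rw [hx] at h
      have h' : U.F (V.acc d) s = true := h
      cases hd : V.acc d with
      | true => rw [hd] at h'; exact Or.inl ⟨s, d, hx, hd, h'⟩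
      | false => rw [hd] at h'; exact Or.inr ⟨s, d, hx, hd, h'⟩

/-- Main result of this module. -/
theorem cert_half [Finite S] [Finite P] {N : ℕ} (G : Alph A P N S) (U : Aut A) (V : Dfa P) {n : ℕ}
    (hn : 1 ≤ n) (h1 : V.lang ∈ Half (B P n)) (h2 : V.langᶜ ∈ Half (B P n)) :
    (Cert G U V true ∪ Cert G U V false)ᶜ ∈ Half (B S n) := by
  have e : (Cert G U V true ∪ Cert G U V false)ᶜ = Err G U V 0 ∪
      {w | ∃ q ∈ List.range U.b, w ∈ cat Set.univ (cat (Gam G U V q) (Err G U V q))} := by
    ext y
    have h3 : y ∈ (Cert G U V true ∪ Cert G U V false)ᶜ ↔ y ∈ Rej G U V 0 := by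
      show ¬ _ ↔ ¬ _
      exact not_congr (cert_iff G U V y)
    rw [h3]
    constructor
    · intro h
      rcases rej_sub G U V U.pos h with h | ⟨q, hq, h⟩
      · exact Or.inl h
      · exact Or.inr ⟨q, List.mem_range.2 hq, h⟩
    · rintro (h | ⟨q, hq, h⟩)
      · exact err_rej G U V 0 h
      · exact gam_rej G U V 0 (List.mem_range.1 hq) h
  rw [e, half_iff]
  refine Pol.union (half_iff.1 (Err_half G U V hn h1 h2 0)) ?_
  refine pol_list_union (List.range U.b) (fun q => cat Set.univ (cat (Gam G U V q) (Err G U V q)))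
    fun q _ => Pol.cat (Pol.base (univ_mem_B n)) (Pol.cat (half_iff.1 (Gam_half G U V hn h1 h2 q))
      (half_iff.1 (Err_half G U V hn h1 h2 q)))

end Pool.Agent.HSP
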