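import Pool.Agent.HSP.Defs
import Pool.Agent.HLV.SepOp

/-!
# HSP-TopL: the lower bound for the operation on pairs
-/

namespace Pool.Agent.HSP

open Pool.Agent.DD Pool.Agent.HLV

private theorem tl_append {m : ℕ} (ys zs : List (List (Fin (m + 2)))) :
    blocks m (ys ++ zs) = blocks m ys ++ blocks m zs := by
  unfold blocks
  rw [List.map_append, List.flatten_append]

private theorem tl_cons {m : ℕ} (y : List (Fin (m + 2))) (ys : List (List (Fin (m + 2)))) :
    blocks m (y :: ys) = (HLV.hash m ++ enc m y) ++ blocks m ys := by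
  unfold blocks
  rw [List.map_cons, List.flatten_cons]

/-- Main result of this module. -/
theorem top_low {m n : ℕ} {X Y : Lang (Fin (m + 2))} (hd : ∀ w ∈ X, w ∉ Y)
    (h : Top X Y ∈ Half (B (Fin (m + 2)) (n + 1))) : Separable (Half (B (Fin (m + 2)) n)) X Y := by
  apply sep_down
  refine ⟨Top X Y, h, ?_, ?_⟩
  · rintro w ⟨ys, hys, rfl⟩
    right
    intro u hu hinf
    have h3 : u ∈ ys := infix_blocks.1 hinf
    have h4 : ¬ ¬ u ∈ X := fun h5 => hu h5
    exact h4 fun h5 => hd u h5 (hys u h3)
  · rintro w hw ⟨ys, zs, x, hx, hy, hz, rfl⟩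
    have h2 : blocks m ys ++ (HLV.hash m ++ enc m x) ++ blocks m zs ++ HLV.hash m =
        blocks m (ys ++ x :: zs) ++ HLV.hash m := by
      rw [tl_append, tl_cons]
      simp only [List.append_assoc]
    rw [h2] at hw
    rcases hw with (hw | hw) | hw
    · exact hw ⟨_, rfl⟩
    · apply hw
      intro u hu hinf
      have h3 : u ∈ ys ++ x :: zs := infix_blocks.1 hinf
      rcases List.mem_append.1 h3 with h4 | h4
      · exact hu (Or.inr (hy u h4))
      · rcases List.mem_cons.1 h4 with h5 | h5
        · rw [h5] at hu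
          exact hu (Or.inl hx)
        · exact hu (Or.inr (hz u h5))
    · exact hw x (fun h => h hx) (infix_blocks.2 (by simp))

end Pool.Agent.HSP
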