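import Pool.Agent.HSP.Seq
import Pool.Agent.HLV.OpF

/-!
# HSP-TopU: the upper bound for the operation on pairs

If `Z` separates `X` from `Y`, then `Top X Y = (SEQ m)ᶜ ∪ (opF (X ∪ Y))ᶜ ∪ opF Zᶜ`.
-/

namespace Pool.Agent.HSP

open Pool.Agent.DD Pool.Agent.HLV

private theorem opF_blocks {m : ℕ} (K : Lang (Fin (m + 2))) (ys : List (List (Fin (m + 2)))) :
    blocks m ys ++ HLV.hash m ∈ opF K ↔ ∀ y ∈ ys, y ∈ K := by
  constructor
  · intro h y hy
    by_contra hyK
    exact h y hyK (infix_blocks.2 hy)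
  · intro h u hu hinf
    exact hu (h u (infix_blocks.1 hinf))

/-- Main result of this module. -/
theorem top_up {m n : ℕ} (hn : 1 ≤ n) {X Y : Lang (Fin (m + 2))}
    (hC : (X ∪ Y)ᶜ ∈ Half (B (Fin (m + 2)) (n + 1)))
    (h : Separable (Half (B (Fin (m + 2)) n)) X Y) : Top X Y ∈ Half (B (Fin (m + 2)) (n + 1)) := by
  obtain ⟨Z, hZ, h1, h2⟩ := h
  have e : Top X Y = (SEQ m)ᶜ ∪ (opF (X ∪ Y))ᶜ ∪ opF Zᶜ := by
    ext w
    unfold Top
    by_cases hs : w ∈ SEQ m
    · by_cases ho : w ∈ opF (X ∪ Y)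
      · obtain ⟨ys, rfl⟩ := hs
        have h3 := (opF_blocks _ _).1 ho
        have h4 : blocks m ys ++ HLV.hash m ∈ opF Xᶜ ↔ blocks m ys ++ HLV.hash m ∈ opF Zᶜ := by
          rw [opF_blocks, opF_blocks]
          constructor
          · intro h5 y hy hyZ
            rcases h3 y hy with h6 | h6
            · exact h5 y hy h6
            · exact h2 y hyZ h6
          · intro h5 y hy hyX
            exact h5 y hy (h1 hyX)
        constructor
        · rintro ((h5 | h5) | h5)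
          · exact Or.inl (Or.inl h5)
          · exact Or.inl (Or.inr h5)
          · exact Or.inr (h4.1 h5)
        · rintro ((h5 | h5) | h5)
          · exact Or.inl (Or.inl h5)
          · exact Or.inl (Or.inr h5)
          · exact Or.inr (h4.2 h5)
      · exact ⟨fun _ => Or.inl (Or.inr ho), fun _ => Or.inl (Or.inr ho)⟩
    · exact ⟨fun _ => Or.inl (Or.inl hs), fun _ => Or.inl (Or.inl hs)⟩
  have p1 : Pol (B (Fin (m + 2)) (n + 1)) (SEQ m)ᶜ :=
    Pol.base (B_compl (B_mono (by omega) (SEQ_B m)))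
  have p2 : Pol (B (Fin (m + 2)) (n + 1)) (opF (X ∪ Y))ᶜ :=
    half_iff.1 ((opF_half (by omega) (X ∪ Y)).2 hC)
  have h3 : (opF Zᶜ)ᶜ ∈ Half (B (Fin (m + 2)) n) := by
    refine (opF_half hn Zᶜ).2 ?_
    rw [compl_compl]
    exact hZ
  have h4 := B_compl (half_sub_B h3)
  rw [compl_compl] at h4
  rw [e]
  exact half_iff.2 (Pol.union (Pol.union p1 p2) (Pol.base h4))

end Pool.Agent.HSP
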