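import Pool.Agent.HSP.Hide
import Pool.Agent.HSP.Lift
import Pool.Agent.HSP.RejL
import Pool.Agent.HSP.TopU
import Pool.Agent.HSP.TopL
import Pool.Agent.HSP.Cim

/-!
# HSP-Abs: the reduction for a given pair

Everything together, without computability.
-/

namespace Pool.Agent.HSP

open Pool.Agent.DD Pool.Agent.HLV

variable {A P S : Type}

theorem cert_disj {N : ℕ} (G : Alph A P N S) (U : Aut A) (V : Dfa P) :
    ∀ w ∈ Cert G U V true, w ∉ Cert G U V false := by
  rintro w ⟨s, d, h1, h2, -⟩ ⟨s', d', h1', h2', -⟩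
  rw [h1] at h1'
  injection h1' with e1 e2
  rw [e2, h2'] at h2
  exact absurd h2 (by decide)

/-- Main result of this module. -/
theorem abs_iff [Finite A] [Nonempty A] [Finite P] {M m n N : ℕ} (hn : 1 ≤ n)
    (G : Alph A P N (Fin M)) (U : Aut A) (V : Dfa P) (hN : U.b ^ U.b ≤ N)
    (hD : V.lang ∉ B P (n + 1)) (h1 : V.lang ∈ Half (B P (n + 1)))
    (h2 : V.langᶜ ∈ Half (B P (n + 1))) :
    Top (cimg M m (Cert G U V true)) (cimg M m (Cert G U V false)) ∈ Half (B (Fin (m + 2)) (n + 1)) ↔
      Separable (Half (B A n)) (U.lang true) (U.lang false) := by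
  constructor
  · intro h
    exact hide G U V hN hD ((cimg_sep hn _ _).1 (top_low (cimg_disj (cert_disj G U V)) h))
  · intro h
    exact top_up hn (cimg_compl (by omega) (cert_half G U V (by omega) h1 h2))
      ((cimg_sep hn _ _).2 (lift G U V h))

end Pool.Agent.HSP
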