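import Pool.Agent.HSP.Pad

/-!
# HSP-Can: the check accepts the canonical words
-/

namespace Pool.Agent.HSP

open Pool.Agent.DD Pool.Agent.HLV

variable {A P S : Type}

private theorem can_sfx_append {N : ℕ} (t x : List A) (hx : x.length ≤ N) :
    ∃ t', sfx N (t ++ x) = t' ++ x := by
  unfold sfx
  refine ⟨t.drop ((t ++ x).length - N), ?_⟩
  rw [List.drop_append_of_le_length]
  rw [List.length_append]
  omega

private theorem can_sfx_snoc {N : ℕ} (hN : 1 ≤ N) (w : List A) (a : A) :
    sfx N (sfx N w ++ [a]) = sfx N (w ++ [a]) := by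
  unfold sfx
  have h1 : (w ++ [a]).length = w.length + 1 := by simp
  have h2 : (w.drop (w.length - N) ++ [a]).length = w.length - (w.length - N) + 1 := by simp
  rw [h1, h2, List.drop_append_of_le_length (l₁ := w) (by omega),
    List.drop_append_of_le_length (l₁ := w.drop (w.length - N)) (by rw [List.length_drop]; omega), List.drop_drop]
  congr 2
  omega

private theorem can_suffix {N : ℕ} (h : List A) : ∃ t, h = t ++ sfx N h :=
  ⟨h.take (h.length - N), (List.take_append_drop _ _).symm⟩

/-- the invariant -/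
private def CInv (N : ℕ) (lw : List A → Option (List A)) (h : List A) (l : ℕ) : Prop :=
  l ≤ h.length ∧ ∀ h' r, h = h' ++ r → r.length < l → lw (sfx N h') = none

private theorem cinv_le {N : ℕ} {U : Aut A} (hN : U.b ^ U.b ≤ N) {lw : List A → Option (List A)}
    (hl : Loops U N lw) {h : List A} {l : ℕ} (hI : CInv N lw h l) : l ≤ N := by
  by_contra hcon
  obtain ⟨h1, h2⟩ := hI
  have hx : (sfx N h).length = N := by
    unfold sfx
    rw [List.length_drop]
    omega
  obtain ⟨x₁, x₂, w, hxx, hst⟩ := exists_stab U hN hx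
  obtain ⟨t, ht⟩ := can_suffix (N := N) h
  have h3 : x₁.length + x₂.length = N := by
    rw [← hx, hxx, List.length_append]
  have h4 := h2 (t ++ x₁) x₂ (by rw [List.append_assoc, ← hxx]; exact ht) (by omega)
  obtain ⟨t', ht'⟩ := can_sfx_append (N := N) t x₁ (by omega)
  rw [ht'] at h4
  exact hl.ex _ ⟨w, stab_left U hst t'⟩ h4

private theorem cinv_snoc {N : ℕ} {lw : List A → Option (List A)} {h : List A} {l : ℕ}
    (hI : CInv N lw h l) (a : A) (ha : lw (sfx N (h ++ [a])) = none) :
    CInv N lw (h ++ [a]) (l + 1) := by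
  obtain ⟨h1, h2⟩ := hI
  refine ⟨by rw [List.length_append, List.length_singleton]; omega, fun h' r hr hlen => ?_⟩
  rcases List.eq_nil_or_concat r with rfl | ⟨r', b, rfl⟩
  · rw [List.append_nil] at hr
    rw [← hr]
    exact ha
  · rw [List.concat_eq_append] at hr hlen
    rw [← List.append_assoc] at hr
    obtain ⟨h3, _⟩ := List.append_inj' hr rfl
    refine h2 h' r' h3 ?_
    rw [List.length_append, List.length_singleton] at hlen
    omega

private theorem runT_cons {N : ℕ} (G : Alph A P N S) (U : Aut A) (V : Dfa P) (x : St) (s : S)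
    (y : List S) : runT G U V x (s :: y) = runT G U V (step U V N x (G.tk s)) y := rfl

private theorem can_aux {N : ℕ} (G : Alph A P N S) (U : Aut A) (V : Dfa P) (hN : U.b ^ U.b ≤ N)
    {lw : List A → Option (List A)} (hl : Loops U N lw) {x y : List P}
    (hx : x ∈ V.lang) (hy : y ∉ V.lang) (u : List A) : ∀ (h : List A) (l : ℕ), CInv N lw h l →
    ∃ l', runT G U V (.free (U.run 0 h) l)
      (can U N (fun a => G.ch (.fr a)) (pdq G U lw x y) (sfx N h) (U.run 0 h) u) =
      .free (U.run 0 (h ++ u)) l' := by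
  have hN1 : 1 ≤ N := le_trans (Nat.one_le_pow _ _ U.pos) hN
  induction u with
  | nil =>
    intro h l _
    exact ⟨l, by rw [List.append_nil]; rfl⟩
  | cons a u ih =>
    intro h l hI
    have hle := cinv_le hN hl hI
    have hrun : U.δ (U.run 0 h) a = U.run 0 (h ++ [a]) := by
      rw [run_append]
      rfl
    have hcan : can U N (fun a => G.ch (.fr a)) (pdq G U lw x y) (sfx N h) (U.run 0 h) (a :: u) =
        G.ch (.fr a) :: (pdq G U lw x y (sfx N (h ++ [a])) (U.run 0 (h ++ [a])) ++
          can U N (fun a => G.ch (.fr a)) (pdq G U lw x y) (sfx N (h ++ [a])) (U.run 0 (h ++ [a])) u) := by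
      rw [← can_sfx_snoc hN1 h a, ← hrun]
      rfl
    have hstep : step U V N (.free (U.run 0 h) l) (G.tk (G.ch (.fr a))) =
        .free (U.run 0 (h ++ [a])) (l + 1) := by
      rw [G.inv (.fr a) trivial, ← hrun]
      show (if l ≤ N then St.free (U.δ (U.run 0 h) a) (l + 1) else St.dead) = _
      rw [if_pos hle]
    have happ : h ++ a :: u = (h ++ [a]) ++ u := by rw [List.append_assoc, List.singleton_append]
    rw [hcan, runT_cons, hstep, runT_append, happ]
    cases hlw : lw (sfx N (h ++ [a])) with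
    | none =>
      have h1 : pdq G U lw x y (sfx N (h ++ [a])) (U.run 0 (h ++ [a])) = [] := by
        unfold pdq
        rw [hlw]
      rw [h1]
      exact ih (h ++ [a]) (l + 1) (cinv_snoc hI a hlw)
    | some w =>
      obtain ⟨hw1, hw2, hw3⟩ := hl.stab _ _ hlw
      have h1 : pdq G U lw x y (sfx N (h ++ [a])) (U.run 0 (h ++ [a])) =
          padW G U.b w (fun j => if j = U.run 0 (h ++ [a]) then x else y) := by
        unfold pdq
        rw [hlw]
      have hf : U.run (U.run 0 (h ++ [a])) w = U.run 0 (h ++ [a]) := by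
        obtain ⟨t, ht⟩ := can_suffix (N := N) (h ++ [a])
        have h2 : U.run 0 (h ++ [a]) = U.run (U.run 0 t) (sfx N (h ++ [a])) := by
          rw [← run_append, ← ht]
        rw [h2, ← run_append]
        exact hw3 _ (run_lt U U.pos t)
      rw [h1, run_padW G U V hw1 hw2 (run_lt U U.pos _) hf hx hy (l + 1)]
      exact ih (h ++ [a]) 0 ⟨Nat.zero_le _, fun _ _ _ hr => absurd hr (Nat.not_lt_zero _)⟩

/-- Main result of this module. -/
theorem can_run {N : ℕ} (G : Alph A P N S) (U : Aut A) (V : Dfa P) (hN : U.b ^ U.b ≤ N)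
    {lw : List A → Option (List A)} (hl : Loops U N lw) {x y : List P}
    (hx : x ∈ V.lang) (hy : y ∉ V.lang) (u : List A) :
    ∃ l, runT G U V (.free 0 0) (can U N (fun a => G.ch (.fr a)) (pdq G U lw x y) [] 0 u) =
      .free (U.run 0 u) l := by
  have h := can_aux G U V hN hl hx hy u [] 0
    ⟨Nat.zero_le _, fun _ _ _ hr => absurd hr (Nat.not_lt_zero _)⟩
  have e : sfx N ([] : List A) = [] := by
    unfold sfx
    exact List.drop_nil
  rw [e] at h
  exact h

private theorem fin_run {N : ℕ} (G : Alph A P N S) (U : Aut A) (V : Dfa P) (s : ℕ) (z : List P) :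
    ∀ d, runT G U V (.fin s d) (z.map fun p => G.ch (.fl p)) = .fin s (V.run d z) := by
  induction z with
  | nil => intro d; rfl
  | cons p z ih =>
    intro d
    rw [List.map_cons, runT_cons, G.inv (.fl p) trivial]
    exact ih (V.δ d p)

theorem can_cert {N : ℕ} (G : Alph A P N S) (U : Aut A) (V : Dfa P) (hN : U.b ^ U.b ≤ N)
    {lw : List A → Option (List A)} (hl : Loops U N lw) {x y : List P}
    (hx : x ∈ V.lang) (hy : y ∉ V.lang) (u : List A) {t : Bool} (hu : u ∈ U.lang t) {z : List P}
    (hz : V.acc (V.run 0 z) = t) :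
    can U N (fun a => G.ch (.fr a)) (pdq G U lw x y) [] 0 u ++
      (G.ch .dl :: z.map fun p => G.ch (.fl p)) ∈ Cert G U V t := by
  obtain ⟨l, hr⟩ := can_run G U V hN hl hx hy u
  refine ⟨U.run 0 u, V.run 0 z, ?_, hz, hu⟩
  rw [runT_append, hr, runT_cons, G.inv .dl trivial]
  exact fin_run G U V (U.run 0 u) z 0

end Pool.Agent.HSP
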