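import Pool.Agent.HLV.Defs
import Mathlib.Computability.Halting

/-!
# Project HSP: the decision problems
-/

namespace Pool.Agent.HSP

open Pool.Agent.DD Pool.Agent.HLV

/-- Membership in `B i` is decidable for automata over `Fin M`. -/
def DecMem (M i : ℕ) : Prop := ComputablePred fun c : Code => langC M c ∈ B (Fin M) i

/-- Separation by `B i` is decidable for automata over `Fin M`. -/
def DecSepB (M i : ℕ) : Prop :=
  ComputablePred fun p : Code × Code => Separable (B (Fin M) i) (langC M p.1) (langC M p.2)

/-- The level `k / 2` of the dot-depth hierarchy: `B (k / 2)` for even `k`, and the half level above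
`B ((k - 1) / 2)` for odd `k`. -/
def Lev (A : Type) (k : ℕ) : Set (Lang A) := if k % 2 = 0 then B A (k / 2) else Half (B A (k / 2))

end Pool.Agent.HSP
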