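import Pool.Agent.HLV.MDefs

/-!
# Project HSP (MP_21f263_lc): separation by a half level reduces to membership one half level higher

Definitions.  `Aut`: an automaton with states `< b` and two sets of final states, `F true` for the first
language and `F false` for the second.  `Dfa`: the automaton of a language `D` over `P`.  A certified
word is a sequence of tokens: free letters `fr a`, and pads `op (x₀ hs) (x₁ hs) ... (x_(b-1) hs) x cl`
whose tokens are letters `lp w l` with a word `w` (a loop) and a label `l`; the word `x_i` of the labels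
`pl p` is in `D` iff `i` is the current state (one-hot code), and all loops fix the current state; at the
end there is `dl` and a word of letters `fl p`, which is in `D` iff the type is `true`.
`step` is the automaton which checks this.  Overview: /team-store/hsp_blueprint.md
-/

namespace Pool.Agent.HSP

open Pool.Agent.DD Pool.Agent.HLV

variable {A P S : Type}

/-- Labels of pad letters. -/
inductive Lab (P : Type) : Type
  | op : Lab P
  | pl : P → Lab P
  | hs : Lab P
  | cl : Lab P

/-- Tokens. -/
inductive Tok (A P : Type) : Type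
  | fr : A → Tok A P
  | lp : List A → Lab P → Tok A P
  | dl : Tok A P
  | fl : P → Tok A P

/-- Tokens whose loop is nonempty and has length at most `N`. -/
def Tok.Small (N : ℕ) : Tok A P → Prop
  | .lp w _ => w ≠ [] ∧ w.length ≤ N
  | _ => True

/-- An automaton with states `< b`, start state `0` and two sets of final states. -/
structure Aut (A : Type) where
  b : ℕ
  δ : ℕ → A → ℕ
  F : Bool → ℕ → Bool
  pos : 0 < b
  lt : ∀ q a, δ q a < b

/-- The run of an automaton. -/
def Aut.run (U : Aut A) (q : ℕ) (u : List A) : ℕ := u.foldl U.δ q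

/-- The two languages of an automaton. -/
def Aut.lang (U : Aut A) (t : Bool) : Lang A := {u | U.F t (U.run 0 u) = true}

/-- An automaton with start state `0`. -/
structure Dfa (P : Type) where
  δ : ℕ → P → ℕ
  acc : ℕ → Bool

/-- The run. -/
def Dfa.run (V : Dfa P) (d : ℕ) (x : List P) : ℕ := x.foldl V.δ d

/-- The language. -/
def Dfa.lang (V : Dfa P) : Lang P := {x | V.acc (V.run 0 x) = true}

/-- The states of the automaton which checks certificates. -/
inductive St : Type
  | free : ℕ → ℕ → St
  | pad : ℕ → ℕ → ℕ → St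
  | fin : ℕ → ℕ → St
  | dead : St

/-- One step of the check.  `free s l`: state `s`, `l` free letters since the last pad; `pad s j d`:
inside a pad, `j` blocks complete, `d` the state of `V` in the current block; `fin s d`: after `dl`. -/
def step (U : Aut A) (V : Dfa P) (N : ℕ) : St → Tok A P → St
  | .free s l, .fr a => if l ≤ N then .free (U.δ s a) (l + 1) else .dead
  | .free s _, .lp w .op => if U.run s w = s then .pad s 0 0 else .dead
  | .free s _, .dl => .fin s 0
  | .pad s j d, .lp w (.pl p) => if U.run s w = s then .pad s j (V.δ d p) else .dead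
  | .pad s j d, .lp w .hs =>
      if U.run s w = s ∧ j < U.b ∧ V.acc d = decide (j = s) then .pad s (j + 1) 0 else .dead
  | .pad s j _, .lp w .cl => if U.run s w = s ∧ j = U.b then .free s 0 else .dead
  | .fin s d, .fl p => .fin s (V.δ d p)
  | _, _ => .dead

/-- An alphabet `S` for the tokens. -/
structure Alph (A P : Type) (N : ℕ) (S : Type) where
  tk : S → Tok A P
  ch : Tok A P → S
  inv : ∀ t, Tok.Small N t → tk (ch t) = t
  small : ∀ s, Tok.Small N (tk s)

/-- The run of the check on a word over the alphabet `S`. -/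
def runT {N : ℕ} (G : Alph A P N S) (U : Aut A) (V : Dfa P) (x : St) (y : List S) : St :=
  y.foldl (fun z s => step U V N z (G.tk s)) x

/-- Accepting states. -/
def Acc (U : Aut A) (V : Dfa P) : St → Prop
  | .fin s d => U.F (V.acc d) s = true
  | _ => False

/-- The certified words of type `t`. -/
def Cert {N : ℕ} (G : Alph A P N S) (U : Aut A) (V : Dfa P) (t : Bool) : Lang S :=
  {y | ∃ s d, runT G U V (.free 0 0) y = .fin s d ∧ V.acc d = t ∧ U.F t s = true}

/-- The loop `w` fixes all states that can be reached by `x`. -/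
def Stab (U : Aut A) (N : ℕ) (x w : List A) : Prop :=
  w ≠ [] ∧ w.length ≤ N ∧ ∀ q, q < U.b → U.run q (x ++ w) = U.run q x

/-- The canonical words: a pad `pd c q` may be inserted after each letter; `c` is the window (the last
`N` letters read), `q` the current state. -/
def can (U : Aut A) (N : ℕ) (f : A → S) (pd : List A → ℕ → List S) : List A → ℕ → List A → List S
  | _, _, [] => []
  | c, q, a :: u =>
      f a :: (pd (sfx N (c ++ [a])) (U.δ q a) ++
        can U N f pd (sfx N (c ++ [a])) (U.δ q a) u)

/-- The same with pads which do not depend on the state. -/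
def canon (N : ℕ) (f : A → S) (pd : List A → List S) : List A → List A → List S
  | _, [] => []
  | c, a :: u => f a :: (pd (sfx N (c ++ [a])) ++ canon N f pd (sfx N (c ++ [a])) u)

/-- The pad with the loop `w` and the blocks `x 0, ..., x (b - 1)`. -/
def padW {N : ℕ} (G : Alph A P N S) (b : ℕ) (w : List A) (x : ℕ → List P) : List S :=
  G.ch (.lp w .op) :: ((List.range b).flatMap fun j =>
    ((x j).map fun p => G.ch (.lp w (.pl p))) ++ [G.ch (.lp w .hs)]) ++ [G.ch (.lp w .cl)]

/-- The pads of the certificate: loops given by `lw`, the block number `q` is `x`, the others are `y`. -/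
def pdq {N : ℕ} (G : Alph A P N S) (U : Aut A) (lw : List A → Option (List A)) (x y : List P)
    (c : List A) (q : ℕ) : List S :=
  match lw c with
  | some w => padW G U.b w (fun j => if j = q then x else y)
  | none => []

/-- The same with all blocks equal to `y`. -/
def pd0 {N : ℕ} (G : Alph A P N S) (U : Aut A) (lw : List A → Option (List A)) (y : List P)
    (c : List A) : List S :=
  match lw c with
  | some w => padW G U.b w (fun _ => y)
  | none => []

/-- A choice of stable loops. -/
structure Loops (U : Aut A) (N : ℕ) (lw : List A → Option (List A)) : Prop where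
  stab : ∀ c w, lw c = some w → Stab U N c w
  ex : ∀ c, (∃ w, Stab U N c w) → lw c ≠ none

/-- The word over `A` of a token (`a₀` is a dummy letter). -/
def htk (a₀ : A) : Tok A P → List A
  | .fr a => [a]
  | .lp w _ => w
  | _ => [a₀]

/-! ### Pieces of the rejected words -/

/-- Kinds of tokens. -/
def IsFr : Tok A P → Prop
  | .fr _ => True
  | _ => False

def IsOp : Tok A P → Prop
  | .lp _ .op => True
  | _ => False

def IsPl : Tok A P → Prop
  | .lp _ (.pl _) => True
  | _ => False

def IsHs : Tok A P → Prop
  | .lp _ .hs => True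
  | _ => False

def IsCl : Tok A P → Prop
  | .lp _ .cl => True
  | _ => False

def IsDl : Tok A P → Prop
  | .dl => True
  | _ => False

def IsFl : Tok A P → Prop
  | .fl _ => True
  | _ => False

/-- Letters (as words of length one) whose token satisfies `p`. -/
def one {N : ℕ} (G : Alph A P N S) (p : Tok A P → Prop) : Lang S := {w | ∃ s, p (G.tk s) ∧ w = [s]}

/-- Words all of whose tokens satisfy `p`. -/
def all {N : ℕ} (G : Alph A P N S) (p : Tok A P → Prop) : Lang S := {w | ∀ s ∈ w, p (G.tk s)}

/-- The letter of `A` of a free token. -/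
def frOf : Tok A P → Option A
  | .fr a => some a
  | _ => none

/-- The letter of `P` of a token `pl p` or `fl p`. -/
def plOf : Tok A P → Option P
  | .lp _ (.pl p) => some p
  | .fl p => some p
  | _ => none

/-- The free letters of a word. -/
def frs {N : ℕ} (G : Alph A P N S) (w : List S) : List A := w.filterMap fun s => frOf (G.tk s)

/-- The letters of `P` of a word. -/
def pls {N : ℕ} (G : Alph A P N S) (w : List S) : List P := w.filterMap fun s => plOf (G.tk s)

/-- Blocks (words of tokens `pl`) with contents in `D` (`t = true`) or not in `D` (`t = false`). -/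
def blkL {N : ℕ} (G : Alph A P N S) (V : Dfa P) (t : Bool) : Lang S :=
  {w | w ∈ all G IsPl ∧ V.acc (V.run 0 (pls G w)) = t}

/-- `j` arbitrary blocks, each closed by `hs`. -/
def anyB {N : ℕ} (G : Alph A P N S) : ℕ → Lang S
  | 0 => {[]}
  | j + 1 => cat (anyB G j) (cat (all G IsPl) (one G IsHs))

/-- `j` blocks, each closed by `hs`, such that exactly the block number `q` is in `D`. -/
def hotB {N : ℕ} (G : Alph A P N S) (V : Dfa P) (q : ℕ) : ℕ → Lang S
  | 0 => {[]}
  | j + 1 => cat (hotB G V q j) (cat (blkL G V (decide (j = q))) (one G IsHs))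

/-- A complete pad with contents the code of `q` (the loops are arbitrary). -/
def Gam {N : ℕ} (G : Alph A P N S) (U : Aut A) (V : Dfa P) (q : ℕ) : Lang S :=
  cat (one G IsOp) (cat (hotB G V q U.b) (cat (all G IsPl) (one G IsCl)))

/-- Errors inside a pad, in state `s`. -/
def PErr {N : ℕ} (G : Alph A P N S) (U : Aut A) (V : Dfa P) (s : ℕ) : Lang S :=
  {z | z ∈ cat (all G fun t => IsPl t ∨ IsHs t)
      (cat (one G fun t => ¬ ∃ w l, t = .lp w l ∧ l ≠ .op ∧ U.run s w = s) Set.univ) ∨
    (∃ j < U.b, z ∈ cat (anyB G j) (cat (blkL G V (!decide (j = s))) (cat (one G IsHs) Set.univ))) ∨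
    z ∈ cat (anyB G U.b) (cat (all G IsPl) (cat (one G IsHs) Set.univ)) ∨
    (∃ j < U.b, z ∈ cat (anyB G j) (cat (all G IsPl) (cat (one G IsCl) Set.univ))) ∨
    z ∈ all G fun t => IsPl t ∨ IsHs t}

/-- Errors after `dl`, in state `s`. -/
def FErr {N : ℕ} (G : Alph A P N S) (U : Aut A) (V : Dfa P) (s : ℕ) : Lang S :=
  {z | z ∈ cat (all G IsFl) (cat (one G fun t => ¬ IsFl t) Set.univ) ∨
    (z ∈ all G IsFl ∧ U.F (V.acc (V.run 0 (pls G z))) s = false)}

/-- Errors before the end of the next pad, in state `q` just after a pad. -/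
def Err {N : ℕ} (G : Alph A P N S) (U : Aut A) (V : Dfa P) (q : ℕ) : Lang S :=
  {z | z ∈ all G IsFr ∨
    (∃ v x, z = v ++ x ∧ v ∈ all G IsFr ∧ v.length = N + 2) ∨
    (∃ v s x, z = v ++ s :: x ∧ v ∈ all G IsFr ∧ v.length ≤ N + 1 ∧ ¬ IsFr (G.tk s) ∧
      ¬ IsDl (G.tk s) ∧
      ¬ ∃ w, G.tk s = .lp w .op ∧ U.run (U.run q (frs G v)) w = U.run q (frs G v)) ∨
    (∃ v s x, z = v ++ s :: x ∧ v ∈ all G IsFr ∧ v.length ≤ N + 1 ∧ IsOp (G.tk s) ∧
      x ∈ PErr G U V (U.run q (frs G v))) ∨
    (∃ v s x, z = v ++ s :: x ∧ v ∈ all G IsFr ∧ v.length ≤ N + 1 ∧ IsDl (G.tk s) ∧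
      x ∈ FErr G U V (U.run q (frs G v)))}

/-- The words rejected from the state `free q 0`. -/
def Rej {N : ℕ} (G : Alph A P N S) (U : Aut A) (V : Dfa P) (q : ℕ) : Lang S :=
  {y | ¬ Acc U V (runT G U V (.free q 0) y)}

/-! ### Windows -/

/-- Windows: words of length at most `N`. -/
abbrev Wd (A : Type) (N : ℕ) : Type := {l : List A // l.length ≤ N}

/-- The word of the windows. -/
def win (N : ℕ) : List A → List A → List (Wd A N)
  | _, [] => []
  | c, a :: u => ⟨sfx N (c ++ [a]), sfx_length N _⟩ :: win N (sfx N (c ++ [a])) u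

/-! ### The hidden language -/

/-- Sequences of blocks which are not in `K`, each closed by a mark. -/
def NK {Q : Type} (K : Lang Q) : Lang (Q ⊕ Bool) :=
  {y | ∃ bs : List (List Q × Bool), (∀ p ∈ bs, p.1 ∉ K) ∧
    y = (bs.map fun p => p.1.map Sum.inl ++ [Sum.inr p.2]).flatten}

/-- The first block in `K` carries the mark `true`. -/
def HD {Q : Type} (K : Lang Q) : Lang (Q ⊕ Bool) :=
  {x | ∃ y ∈ NK K, ∃ u ∈ K, ∃ z, x = y ++ (u.map Sum.inl ++ Sum.inr true :: z)}

/-! ### The operation on pairs -/

/-- Sequences of blocks, closed by `#`. -/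
def SEQ (m : ℕ) : Lang (Fin (m + 2)) := {w | ∃ ys, w = blocks m ys ++ HLV.hash m}

/-- The language of the pair `X, Y`: no sequence of blocks, or some block is not in `X ∪ Y`, or no
block is in `X`. -/
def Top {m : ℕ} (X Y : Lang (Fin (m + 2))) : Lang (Fin (m + 2)) :=
  (SEQ m)ᶜ ∪ (opF (X ∪ Y))ᶜ ∪ opF Xᶜ

/-- The image of a language under the coding. -/
def cimg (M m : ℕ) (L : Lang (Fin M)) : Lang (Fin (m + 2)) := {w | ∃ v ∈ L, w = code M m v}

/-! ### The decision problem -/

/-- Separation by the half level above `B n` is decidable for automata over `Fin M`. -/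
def DecSep (M n : ℕ) : Prop :=
  ComputablePred fun p : Code × Code => Separable (Half (B (Fin M) n)) (langC M p.1) (langC M p.2)

end Pool.Agent.HSP
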