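import Pool.Agent.HSP.EDefs

/-!
# HSP-EAlph: the alphabet of the small tokens
-/

namespace Pool.Agent.HSP

open Pool.Agent.DD Pool.Agent.HLV

private theorem mem_wds (M : ℕ) : ∀ (i : ℕ) (w : List ℕ),
    w ∈ wds M i ↔ w.length = i ∧ ∀ a ∈ w, a < M := by
  intro i
  induction i with
  | zero =>
    intro w
    show w ∈ [[]] ↔ _
    rw [List.mem_singleton]
    constructor
    · rintro rfl
      exact ⟨rfl, by simp⟩
    · rintro ⟨h, _⟩
      exact List.eq_nil_of_length_eq_zero h
  | succ i ih =>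
    intro w
    show w ∈ (wds M i).flatMap (fun w => (List.range M).map fun a => a :: w) ↔ _
    rw [List.mem_flatMap]
    constructor
    · rintro ⟨u, hu, h⟩
      obtain ⟨a, ha, rfl⟩ := List.mem_map.1 h
      obtain ⟨h1, h2⟩ := (ih u).1 hu
      refine ⟨by simp [h1], ?_⟩
      intro b hb
      rcases List.mem_cons.1 hb with rfl | hb
      · exact List.mem_range.1 ha
      · exact h2 b hb
    · rintro ⟨h1, h2⟩
      cases w with
      | nil => simp at h1
      | cons a u =>
        refine ⟨u, (ih u).2 ⟨by simpa using h1, fun b hb => h2 b (List.mem_cons_of_mem _ hb)⟩, ?_⟩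
        exact List.mem_map.2 ⟨a, List.mem_range.2 (h2 a List.mem_cons_self), rfl⟩

private theorem lift_w (M : ℕ) : ∀ w : List ℕ, (∀ a ∈ w, a < M) →
    ∃ w' : List (Fin M), w'.map Fin.val = w := by
  intro w
  induction w with
  | nil => exact fun _ => ⟨[], rfl⟩
  | cons a w ih =>
    intro h
    obtain ⟨w', hw'⟩ := ih fun b hb => h b (List.mem_cons_of_mem _ hb)
    exact ⟨⟨a, h a List.mem_cons_self⟩ :: w', by simp [hw']⟩

private theorem mem_lp {N : ℕ} {M : ℕ} (w : List (Fin M)) (h0 : w ≠ []) (h1 : w.length ≤ N) :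
    ∃ i ∈ List.range N, w.map Fin.val ∈ wds M (i + 1) := by
  have h2 : 0 < w.length := List.length_pos_iff.2 h0
  refine ⟨w.length - 1, List.mem_range.2 (by omega), (mem_wds M _ _).2 ⟨?_, ?_⟩⟩
  · rw [List.length_map]
    omega
  · intro a ha
    obtain ⟨x, _, rfl⟩ := List.mem_map.1 ha
    exact x.2

private theorem toks_of_small (M k N : ℕ) (t : Tok (Fin M) (Fin k)) (ht : Tok.Small N t) :
    cod t ∈ toks M k N := by
  unfold toks
  rw [List.mem_append, List.mem_append]
  cases t with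
  | fr a =>
    left
    exact List.mem_map.2 ⟨a.val, List.mem_range.2 a.2, rfl⟩
  | dl =>
    right; right
    exact List.mem_cons_self
  | fl p =>
    right; right
    exact List.mem_cons_of_mem _ (List.mem_map.2 ⟨p.val, List.mem_range.2 p.2, rfl⟩)
  | lp w l =>
    right; left
    obtain ⟨h0, h1⟩ := ht
    obtain ⟨i, hi, hw⟩ := mem_lp w h0 h1
    refine List.mem_flatMap.2 ⟨i, hi, List.mem_flatMap.2 ⟨_, hw, ?_⟩⟩
    cases l with
    | op => exact List.mem_cons_self
    | pl p =>
      refine List.mem_cons_of_mem _ (List.mem_cons_of_mem _ (List.mem_cons_of_mem _ ?_))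
      exact List.mem_map.2 ⟨p.val, List.mem_range.2 p.2, rfl⟩
    | hs => exact List.mem_cons_of_mem _ List.mem_cons_self
    | cl => exact List.mem_cons_of_mem _ (List.mem_cons_of_mem _ List.mem_cons_self)

private theorem small_of_toks (M k N : ℕ) (τ : NTok) (h : τ ∈ toks M k N) :
    ∃ t : Tok (Fin M) (Fin k), Tok.Small N t ∧ cod t = τ := by
  unfold toks at h
  rw [List.mem_append, List.mem_append] at h
  rcases h with h | h | h
  · obtain ⟨a, ha, rfl⟩ := List.mem_map.1 h
    exact ⟨.fr ⟨a, List.mem_range.1 ha⟩, trivial, rfl⟩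
  · obtain ⟨i, hi, h⟩ := List.mem_flatMap.1 h
    obtain ⟨w, hw, h⟩ := List.mem_flatMap.1 h
    obtain ⟨h1, h2⟩ := (mem_wds M _ _).1 hw
    obtain ⟨w', rfl⟩ := lift_w M w h2
    have hi' := List.mem_range.1 hi
    rw [List.length_map] at h1
    have h3 : w' ≠ [] := by
      rintro rfl
      simp at h1
    have h4 : w'.length ≤ N := by omega
    rcases List.mem_cons.1 h with rfl | h
    · exact ⟨.lp w' .op, ⟨h3, h4⟩, rfl⟩
    rcases List.mem_cons.1 h with rfl | h
    · exact ⟨.lp w' .hs, ⟨h3, h4⟩, rfl⟩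
    rcases List.mem_cons.1 h with rfl | h
    · exact ⟨.lp w' .cl, ⟨h3, h4⟩, rfl⟩
    obtain ⟨p, hp, rfl⟩ := List.mem_map.1 h
    exact ⟨.lp w' (.pl ⟨p, List.mem_range.1 hp⟩), ⟨h3, h4⟩, rfl⟩
  · rcases List.mem_cons.1 h with rfl | h
    · exact ⟨.dl, trivial, rfl⟩
    obtain ⟨p, hp, rfl⟩ := List.mem_map.1 h
    exact ⟨.fl ⟨p, List.mem_range.1 hp⟩, trivial, rfl⟩

private theorem map_val_inj {M : ℕ} {w w' : List (Fin M)} (h : w.map Fin.val = w'.map Fin.val) :
    w = w' := (List.map_injective_iff.2 Fin.val_injective) h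

private theorem cod_inj {M k : ℕ} {t t' : Tok (Fin M) (Fin k)} (h : cod t = cod t') : t = t' := by
  rcases t with a | ⟨w, l⟩ | _ | p <;> rcases t' with a' | ⟨w', l'⟩ | _ | p' <;>
    (try rcases l with _ | q | _ | _) <;> (try rcases l' with _ | q' | _ | _) <;>
    simp only [cod, Prod.mk.injEq, List.cons.injEq, and_true, true_and, reduceCtorEq,
      OfNat.ofNat_ne_zero, OfNat.zero_ne_ofNat, OfNat.ofNat_ne_one, OfNat.one_ne_ofNat,
      zero_ne_one, one_ne_zero, false_and, and_false, Nat.reduceEqDiff] at h <;>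
    first
      | rfl
      | (rw [Fin.ext h])
      | (rw [map_val_inj h])
      | (rw [map_val_inj h.1, Fin.ext h.2])

/-- Main result of this module. -/
theorem exists_alph (M k N : ℕ) : ∃ G : Alph (Fin M) (Fin k) N (Fin (toks M k N).length),
    ∀ i, cod (G.tk i) = (toks M k N)[i.val] := by
  classical
  have h1 : ∀ i : Fin (toks M k N).length, ∃ t : Tok (Fin M) (Fin k), Tok.Small N t ∧
      cod t = (toks M k N)[i.val] := fun i => small_of_toks M k N _ (List.getElem_mem i.2)
  choose tk h2 h3 using h1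
  have h4 : ∀ t : Tok (Fin M) (Fin k), ∃ i : Fin (toks M k N).length, Tok.Small N t →
      (toks M k N)[i.val] = cod t := by
    intro t
    by_cases ht : Tok.Small N t
    · obtain ⟨i, hi, he⟩ := List.getElem_of_mem (toks_of_small M k N t ht)
      exact ⟨⟨i, hi⟩, fun _ => he⟩
    · obtain ⟨i, hi, he⟩ := List.getElem_of_mem (toks_of_small M k N .dl trivial)
      exact ⟨⟨i, hi⟩, fun h => absurd h ht⟩
  choose ch h5 using h4
  refine ⟨⟨tk, ch, ?_, h2⟩, h3⟩
  intro t ht
  refine cod_inj ?_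
  rw [h3, h5 t ht]

end Pool.Agent.HSP
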