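import Pool.Agent.HSP.EDefs

/-!
# HSP-EFin: finitely many states
-/

namespace Pool.Agent.HSP

open Pool.Agent.DD Pool.Agent.HLV

private def Inv (V : Code) (p : Code × Code) (x : NSt) : Prop :=
  x.1 ≤ 3 ∧ x.2.1 < nst p ∧ x.2.2.1 ≤ NN p + 1 + nst p ∧ x.2.2.2 < bnd V

private theorem nst_pos (p : Code × Code) : 0 < nst p := Nat.mul_pos (bnd_pos _) (bnd_pos _)

private theorem inv_dead (V : Code) (p : Code × Code) : Inv V p (3, (0, (0, 0))) :=
  ⟨le_rfl, nst_pos p, Nat.zero_le _, bnd_pos V⟩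

private theorem inv_step {V : Code} {p : Code × Code} {x : NSt} (h : Inv V p x) (t : NTok) :
    Inv V p (stepN V p x t) := by
  obtain ⟨h1, h2, h3, h4⟩ := h
  unfold stepN
  split_ifs with c1 c2 c3 c4 c5 c6 c7 c8 c9 c10 c11 c12
  · exact ⟨by omega, dlN_lt p _ _, by show x.2.2.1 + 1 ≤ _; omega, bnd_pos V⟩
  · exact inv_dead V p
  · exact ⟨by omega, h2, Nat.zero_le _, bnd_pos V⟩
  · exact inv_dead V p
  · exact ⟨by omega, h2, Nat.zero_le _, bnd_pos V⟩
  · exact ⟨by omega, h2, h3, stepC_lt V _ _⟩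
  · exact inv_dead V p
  · exact ⟨by omega, h2, by show x.2.2.1 + 1 ≤ _; omega, bnd_pos V⟩
  · exact inv_dead V p
  · exact ⟨by omega, h2, Nat.zero_le _, bnd_pos V⟩
  · exact inv_dead V p
  · exact ⟨by omega, h2, Nat.zero_le _, stepC_lt V _ _⟩
  · exact inv_dead V p

/-- Main result of this module. -/
theorem fin_stN (M k : ℕ) (V : Code) (p : Code × Code) :
    Set.Finite {x | ∃ w : List ℕ, x = w.foldl (stN M k V p) (0, (0, (0, 0)))} := by
  have h0 : ∀ w : List ℕ, ∀ x : NSt, Inv V p x → Inv V p (w.foldl (stN M k V p) x) := by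
    intro w
    induction w with
    | nil => exact fun x h => h
    | cons a w ih =>
      intro x h
      exact ih _ (inv_step h _)
  refine Set.Finite.subset ((Set.finite_Iic 3).prod ((Set.finite_Iio (nst p)).prod
    ((Set.finite_Iic (NN p + 1 + nst p)).prod (Set.finite_Iio (bnd V))))) ?_
  rintro x ⟨w, rfl⟩
  obtain ⟨h1, h2, h3, h4⟩ := h0 w (0, (0, (0, 0))) ⟨Nat.zero_le _, nst_pos p, Nat.zero_le _, bnd_pos V⟩
  exact ⟨h1, h2, h3, h4⟩

end Pool.Agent.HSP
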