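import Pool.Agent.HSP.EImP
import Pool.Agent.HLV.Cw

/-!
# HSP-EImC: the coding machine recognizes the coded language

The machine reads the word in pieces of length `M + 4`; strong induction on the length of the word.
-/

namespace Pool.Agent.HSP

open Pool.Agent.DD Pool.Agent.HLV

private theorem val_cw (m M a : ℕ) : (cw m M a).map Fin.val = cwN M a := by
  unfold cw cwN
  simp only [List.map_append, List.map_replicate, List.map_cons, List.map_nil, Fin.val_zero, Fin.val_one]

private theorem map_inj {m : ℕ} {u v : List (Fin (m + 2))} (h : u.map Fin.val = v.map Fin.val) : u = v :=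
  List.map_injective_iff.2 Fin.val_injective h

private theorem cwN_inj {M a b : ℕ} (ha : a < M) (hb : b < M) (h : cwN M a = cwN M b) : a = b := by
  rw [← val_cw 0, ← val_cw 0] at h
  exact cw_inj ha hb (map_inj h)

private theorem fold_eq (m : ℕ) (c : ℕ × Code) (w : List (Fin (m + 2))) (x : MSt) :
    (w.map Fin.val).foldl (stM' m c) x = (w.map Fin.val).foldl (stM c) x := by
  induction w generalizing x with
  | nil => rfl
  | cons a w ih =>
    rw [List.map_cons, List.foldl_cons, List.foldl_cons, ih]
    have h : stM' m c x a.val = stM c x a.val := by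
      unfold stM'
      rw [min_eq_left (by have := a.2; omega)]
    rw [h]

private theorem stM_short (c : ℕ × Code) (r : List ℕ) (q a : ℕ) (h : (r ++ [a]).length < c.1 + 4) :
    stM c (r, (q, 1)) a = (r ++ [a], (q, 1)) := by
  unfold stM
  rw [if_neg (by simp), if_pos h]

private theorem fold_short (c : ℕ × Code) (q : ℕ) : ∀ (u r : List ℕ), (r ++ u).length < c.1 + 4 →
    u.foldl (stM c) (r, (q, 1)) = (r ++ u, (q, 1)) := by
  intro u
  induction u with
  | nil =>
    intro r _
    rw [List.foldl_nil, List.append_nil]
  | cons a u ih =>
    intro r h
    have h1 : (r ++ a :: u) = (r ++ [a]) ++ u := by simp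
    rw [h1] at h ⊢
    have h2 : (r ++ [a]).length < c.1 + 4 := by
      rw [List.length_append] at h
      omega
    rw [List.foldl_cons, stM_short c r q a h2, ih _ h]

private theorem fold_dead (c : ℕ × Code) (u : List ℕ) : u.foldl (stM c) ([], (0, 0)) = ([], (0, 0)) := by
  induction u with
  | nil => rfl
  | cons a u ih =>
    rw [List.foldl_cons]
    have h : stM c ([], (0, 0)) a = ([], (0, 0)) := by
      unfold stM
      rw [if_pos rfl]
    rw [h]
    exact ih

/-- the index of a block -/
private def ix (c : ℕ × Code) (u : List ℕ) : ℕ := ((List.range c.1).map fun b => cwN c.1 b).idxOf u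

private theorem fold_block (c : ℕ × Code) (q : ℕ) (u : List ℕ) (h : u.length = c.1 + 4) :
    u.foldl (stM c) ([], (q, 1)) =
      if ix c u < c.1 then ([], (stepC c.2 q (ix c u), 1)) else ([], (0, 0)) := by
  obtain ⟨u', a, rfl⟩ : ∃ u' a, u = u' ++ [a] := by
    rcases List.eq_nil_or_concat u with h0 | ⟨u', a, h0⟩
    · rw [h0, List.length_nil] at h
      omega
    · exact ⟨u', a, by rw [h0, List.concat_eq_append]⟩
  rw [List.foldl_append, fold_short c q u' [] (by
    rw [List.nil_append]
    rw [List.length_append, List.length_singleton] at h
    omega), List.nil_append, List.foldl_cons, List.foldl_nil]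
  unfold stM ix
  rw [if_neg (by simp), if_neg (by
    show ¬ (u' ++ [a]).length < c.1 + 4
    omega)]

private theorem ix_lt {c : ℕ × Code} {u : List ℕ} (h : ix c u < c.1) : u = cwN c.1 (ix c u) := by
  have h1 : ix c u < ((List.range c.1).map fun b => cwN c.1 b).length := by
    rw [List.length_map, List.length_range]
    exact h
  have h2 := List.getElem_idxOf (x := u) (xs := (List.range c.1).map fun b => cwN c.1 b) h1
  rw [List.getElem_map, List.getElem_range] at h2
  exact h2.symm

private theorem ix_cw {c : ℕ × Code} {a : ℕ} (h : a < c.1) : ix c (cwN c.1 a) = a := by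
  have h1 : cwN c.1 a ∈ (List.range c.1).map fun b => cwN c.1 b :=
    List.mem_map.2 ⟨a, List.mem_range.2 h, rfl⟩
  have h2 : ix c (cwN c.1 a) < c.1 := by
    have h3 := List.idxOf_lt_length_iff.2 h1
    rw [List.length_map, List.length_range] at h3
    exact h3
  exact cwN_inj h2 h (ix_lt h2).symm

private theorem code_cons (M m : ℕ) (a : Fin M) (v : List (Fin M)) :
    code M m (a :: v) = cw m M a.val ++ code M m v := rfl

private theorem main_aux (m : ℕ) (c : ℕ × Code) : ∀ (n : ℕ) (w : List (Fin (m + 2))), w.length ≤ n → ∀ q : ℕ,
    (acM c ((w.map Fin.val).foldl (stM c) ([], (q, 1))) = true ↔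
      ∃ v : List (Fin c.1), w = code c.1 m v ∧
        v.foldl (fun (q : ℕ) (a : Fin c.1) => stepC c.2 q a.val) q ∈ c.2.2) := by
  intro n
  induction n with
  | zero =>
    intro w hw q
    have h0 : w = [] := List.length_eq_zero_iff.1 (Nat.le_zero.1 hw)
    subst h0
    constructor
    · intro h
      refine ⟨[], rfl, ?_⟩
      simpa [acM] using h
    · rintro ⟨v, hv, hq⟩
      cases v with
      | nil =>
        have hq' : q ∈ c.2.2 := hq
        simp [acM, hq']
      | cons a v =>
        rw [code_cons] at hv
        have h1 := congrArg List.length hv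
        rw [List.length_append, cw_length a.2, List.length_nil] at h1
        omega
  | succ n ih =>
    intro w hw q
    by_cases hs : w.length < c.1 + 4
    · rw [fold_short c q _ [] (by rw [List.nil_append, List.length_map]; exact hs), List.nil_append]
      constructor
      · intro h
        have h1 : w = [] ∧ q ∈ c.2.2 := by simpa [acM] using h
        exact ⟨[], h1.1, h1.2⟩
      · rintro ⟨v, hv, hq⟩
        cases v with
        | nil =>
          have hq' : q ∈ c.2.2 := hq
          have hv' : w = [] := hv
          simp [acM, hq', hv']
        | cons a v =>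
          rw [code_cons] at hv
          have h1 := congrArg List.length hv
          rw [List.length_append, cw_length a.2] at h1
          omega
    · have hlen : (w.take (c.1 + 4)).length = c.1 + 4 := by
        rw [List.length_take]
        omega
      have hdl : (w.drop (c.1 + 4)).length ≤ n := by
        rw [List.length_drop]
        omega
      have hsplit : w.map Fin.val = (w.take (c.1 + 4)).map Fin.val ++ (w.drop (c.1 + 4)).map Fin.val := by
        rw [← List.map_append, List.take_append_drop]
      rw [hsplit, List.foldl_append, fold_block c q _ (by rw [List.length_map]; exact hlen)]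
      have hcw : ∀ (a : Fin c.1) (v : List (Fin c.1)), w = code c.1 m (a :: v) →
          w.take (c.1 + 4) = cw m c.1 a.val ∧ w.drop (c.1 + 4) = code c.1 m v := by
        intro a v hv
        rw [code_cons] at hv
        have h1 : (cw m c.1 a.val).length = c.1 + 4 := cw_length a.2
        rw [hv, ← h1, List.take_left, List.drop_left]
        exact ⟨rfl, rfl⟩
      by_cases hi : ix c ((w.take (c.1 + 4)).map Fin.val) < c.1
      · rw [if_pos hi, ih _ hdl]
        have hb := ix_lt hi
        generalize ix c ((w.take (c.1 + 4)).map Fin.val) = b at hi hb
        rw [← val_cw m] at hb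
        have hb' := map_inj hb
        constructor
        · rintro ⟨v, hv, hq⟩
          refine ⟨⟨b, hi⟩ :: v, ?_, hq⟩
          rw [code_cons, ← hv, ← hb', List.take_append_drop]
        · rintro ⟨v, hv, hq⟩
          cases v with
          | nil =>
            have hv' : w = [] := hv
            rw [hv'] at hs
            simp at hs
          | cons a v =>
            obtain ⟨h1, h2⟩ := hcw a v hv
            rw [hb'] at h1
            have h3 : b = a.val := cw_inj hi a.2 h1
            refine ⟨v, h2, ?_⟩
            rw [h3]
            exact hq
      · rw [if_neg hi, fold_dead]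
        constructor
        · intro h
          simp [acM] at h
        · rintro ⟨v, hv, hq⟩
          exfalso
          cases v with
          | nil =>
            have hv' : w = [] := hv
            rw [hv'] at hs
            simp at hs
          | cons a v =>
            obtain ⟨h1, h2⟩ := hcw a v hv
            apply hi
            rw [h1, val_cw, ix_cw a.2]
            exact a.2

/-- Main result of this module. -/
theorem cimg_num (m : ℕ) (c : ℕ × Code) (w : List (Fin (m + 2))) :
    w ∈ cimg c.1 m (langC c.1 c.2) ↔
      acM c ((w.map Fin.val).foldl (stM' m c) ([], (0, 1))) = true := by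
  rw [fold_eq, main_aux m c w.length w le_rfl 0]
  constructor
  · rintro ⟨v, hv, hw⟩
    exact ⟨v, hw, hv⟩
  · rintro ⟨v, hw, hv⟩
    exact ⟨v, hv, hw⟩

end Pool.Agent.HSP
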