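import Pool.Agent.HSP.EPrT

/-!
# HSP-EPrS: the check is primitive recursive
-/

namespace Pool.Agent.HSP

open Pool.Agent.DD Pool.Agent.HLV

private theorem es_step : Primrec fun p : Code × (ℕ × ℕ) => stepC p.1 p.2.1 p.2.2 :=
  (Primrec.list_getD 0).comp
    ((Primrec.list_getD []).comp (Primrec.fst.comp Primrec.fst) (Primrec.fst.comp Primrec.snd))
    (Primrec.snd.comp Primrec.snd)

private theorem es_mem : Primrec₂ fun (q : ℕ) (l : List ℕ) => decide (q ∈ l) := by
  have h : Primrec₂ fun (q : ℕ) (l : List ℕ) => decide (l.idxOf q < l.length) := by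
    have h1 : PrimrecRel fun (q : ℕ) (l : List ℕ) => l.idxOf q < l.length :=
      Primrec.nat_lt.comp₂ (Primrec.list_idxOf.comp₂ Primrec₂.left Primrec₂.right)
        (Primrec.list_length.comp₂ Primrec₂.right)
    exact h1.decide
  refine h.of_eq fun q l => ?_
  rw [decide_eq_decide]
  exact List.idxOf_lt_length_iff

/-- the input of the step -/
private abbrev EsI : Type := ((Code × Code) × NSt) × NTok

private theorem es_stepN (V : Code) : Primrec fun z : EsI => stepN V z.1.1 z.1.2 z.2 := by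
  have hp : Primrec fun z : EsI => z.1.1 := Primrec.fst.comp Primrec.fst
  have hx : Primrec fun z : EsI => z.1.2 := Primrec.snd.comp Primrec.fst
  have hx1 : Primrec fun z : EsI => z.1.2.1 := Primrec.fst.comp hx
  have hxs : Primrec fun z : EsI => z.1.2.2.1 := Primrec.fst.comp (Primrec.snd.comp hx)
  have hxl : Primrec fun z : EsI => z.1.2.2.2.1 :=
    Primrec.fst.comp (Primrec.snd.comp (Primrec.snd.comp hx))
  have hxd : Primrec fun z : EsI => z.1.2.2.2.2 :=
    Primrec.snd.comp (Primrec.snd.comp (Primrec.snd.comp hx))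
  have ht1 : Primrec fun z : EsI => z.2.1 := Primrec.fst.comp Primrec.snd
  have htw : Primrec fun z : EsI => z.2.2.1 := Primrec.fst.comp (Primrec.snd.comp Primrec.snd)
  have htp : Primrec fun z : EsI => z.2.2.2 := Primrec.snd.comp (Primrec.snd.comp Primrec.snd)
  have hNN : Primrec fun z : EsI => NN z.1.1 := pr_NN.comp hp
  have hns : Primrec fun z : EsI => nst z.1.1 := pr_nst.comp hp
  have hrun : Primrec fun z : EsI => runN z.1.1 z.1.2.2.1 z.2.2.1 := by
    have h0 : Primrec fun q : EsI × (ℕ × ℕ) => (q.1.1.1, (q.2.1, q.2.2)) :=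
      (hp.comp Primrec.fst).pair ((Primrec.fst.comp Primrec.snd).pair
        (Primrec.snd.comp Primrec.snd))
    have h1 := pr_dlN.comp h0
    have h2 : Primrec₂ fun (z : EsI) (y : ℕ × ℕ) => dlN z.1.1 y.1 y.2 := h1
    have h3 := Primrec.list_foldl htw hxs h2
    exact h3
  have hst0 := es_step.comp ((Primrec.const V).pair (hxd.pair htp))
  have hst : Primrec fun z : EsI => stepC V z.1.2.2.2.2 z.2.2.2 := hst0
  have hdl0 := pr_dlN.comp (hp.pair (hxs.pair ((Primrec.list_getD 0).comp htw (Primrec.const 0))))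
  have hdl : Primrec fun z : EsI => dlN z.1.1 z.1.2.2.1 (z.2.2.1.getD 0 0) := hdl0
  have hmem : Primrec fun z : EsI => decide (z.1.2.2.2.2 ∈ V.2) :=
    es_mem.comp hxd (Primrec.const V.2)
  have hls : Primrec fun z : EsI => decide (z.1.2.2.2.1 = z.1.2.2.1) :=
    (Primrec.eq.comp hxl hxs).decide
  have hxt : ∀ i j : ℕ, PrimrecPred fun z : EsI => z.1.2.1 = i ∧ z.2.1 = j := fun i j =>
    (Primrec.eq.comp hx1 (Primrec.const i)).and (Primrec.eq.comp ht1 (Primrec.const j))
  have hrs : PrimrecPred fun z : EsI => runN z.1.1 z.1.2.2.1 z.2.2.1 = z.1.2.2.1 :=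
    Primrec.eq.comp hrun hxs
  have hout : ∀ (i : ℕ) {f g h : EsI → ℕ}, Primrec f → Primrec g → Primrec h →
      Primrec fun z : EsI => ((i, (f z, (g z, h z))) : NSt) := fun i _ _ _ hf hg hh =>
    (Primrec.const i).pair (hf.pair (hg.pair hh))
  have hdead : Primrec fun _ : EsI => ((3, (0, (0, 0))) : NSt) := Primrec.const _
  have h0 : Primrec fun _ : EsI => 0 := Primrec.const 0
  unfold stepN
  refine Primrec.ite (hxt 0 0) (Primrec.ite (Primrec.nat_le.comp hxl hNN)
    (hout 0 hdl (Primrec.succ.comp hxl) h0) hdead) ?_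
  refine Primrec.ite (hxt 0 1) (Primrec.ite hrs (hout 1 hxs h0 h0) hdead) ?_
  refine Primrec.ite (hxt 0 5) (hout 2 hxs h0 h0) ?_
  refine Primrec.ite (hxt 1 2) (Primrec.ite hrs (hout 1 hxs hxl hst) hdead) ?_
  refine Primrec.ite (hxt 1 3) (Primrec.ite (hrs.and ((Primrec.nat_lt.comp hxl hns).and
    (Primrec.eq.comp hmem hls))) (hout 1 hxs (Primrec.succ.comp hxl) h0) hdead) ?_
  refine Primrec.ite (hxt 1 4) (Primrec.ite (hrs.and (Primrec.eq.comp hxl hns))
    (hout 0 hxs h0 h0) hdead) ?_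
  exact Primrec.ite (hxt 2 6) (hout 2 hxs h0 hst) hdead

theorem pr_stN (M k : ℕ) (V : Code) :
    Primrec fun x : (Code × Code) × (NSt × ℕ) => stN M k V x.1 x.2.1 x.2.2 := by
  have hx : Primrec fun x : (Code × Code) × (NSt × ℕ) => x.2.1 := Primrec.fst.comp Primrec.snd
  have ha : Primrec fun x : (Code × Code) × (NSt × ℕ) => x.2.2 := Primrec.snd.comp Primrec.snd
  have ht : Primrec fun x : (Code × Code) × (NSt × ℕ) =>
      (toks M k (NN x.1)).getD x.2.2 (5, ([], 0)) :=
    (Primrec.list_getD (5, ([], 0))).comp ((pr_toks M k).comp (pr_NN.comp Primrec.fst)) ha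
  have h := (es_stepN V).comp ((Primrec.fst.pair hx).pair ht)
  exact h

theorem pr_acT (V : Code) (t : Bool) : Primrec fun x : (Code × Code) × NSt => acT V t x.1 x.2 := by
  have h1 : Primrec fun x : (Code × Code) × NSt => decide (x.2.1 = 2) :=
    (Primrec.eq.comp (Primrec.fst.comp Primrec.snd) (Primrec.const 2)).decide
  have hd : Primrec fun x : (Code × Code) × NSt => x.2.2.2.2 :=
    Primrec.snd.comp (Primrec.snd.comp (Primrec.snd.comp Primrec.snd))
  have h2 : Primrec fun x : (Code × Code) × NSt => decide (x.2.2.2.2 ∈ V.2) :=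
    es_mem.comp hd (Primrec.const V.2)
  have h3 : Primrec fun x : (Code × Code) × NSt => (decide (x.2.2.2.2 ∈ V.2) == t) :=
    Primrec.beq.comp h2 (Primrec.const t)
  have h5 : Primrec fun x : (Code × Code) × NSt => (x.1, x.2.2.1) :=
    Primrec.fst.pair (Primrec.fst.comp (Primrec.snd.comp Primrec.snd))
  have h4 := (pr_FN t).comp h5
  exact Primrec.and.comp h1 (Primrec.and.comp h3 h4)

end Pool.Agent.HSP
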