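import Pool.Agent.HSP.Stab

/-!
# HSP-Pad: the check accepts a correct pad
-/

namespace Pool.Agent.HSP

open Pool.Agent.DD Pool.Agent.HLV

variable {A P S : Type}

theorem runT_append {N : ℕ} (G : Alph A P N S) (U : Aut A) (V : Dfa P) (x : St) (y z : List S) :
    runT G U V x (y ++ z) = runT G U V (runT G U V x y) z := by
  unfold runT
  rw [List.foldl_append]

private theorem pad_cons {N : ℕ} (G : Alph A P N S) (U : Aut A) (V : Dfa P) {w : List A}
    (hw : w ≠ []) (hw' : w.length ≤ N) (x : St) (t : Lab P) (y : List S) :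
    runT G U V x (G.ch (.lp w t) :: y) = runT G U V (step U V N x (.lp w t)) y := by
  unfold runT
  rw [List.foldl_cons, G.inv (.lp w t) ⟨hw, hw'⟩]

private theorem pad_pl {N : ℕ} (G : Alph A P N S) (U : Aut A) (V : Dfa P) {w : List A} (hw : w ≠ [])
    (hw' : w.length ≤ N) {q : ℕ} (hf : U.run q w = q) (j : ℕ) (z : List P) (d : ℕ) :
    runT G U V (.pad q j d) (z.map fun p => G.ch (.lp w (.pl p))) = .pad q j (V.run d z) := by
  induction z generalizing d with
  | nil => rfl
  | cons p z ih =>
    rw [List.map_cons, pad_cons G U V hw hw']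
    have h1 : step U V N (.pad q j d) (.lp w (.pl p)) = .pad q j (V.δ d p) := if_pos hf
    rw [h1, ih]
    rfl

private theorem pad_blk {N : ℕ} (G : Alph A P N S) (U : Aut A) (V : Dfa P) {w : List A} (hw : w ≠ [])
    (hw' : w.length ≤ N) {q : ℕ} (hf : U.run q w = q) {j : ℕ} (hj : j < U.b) (z : List P)
    (hz : V.acc (V.run 0 z) = decide (j = q)) :
    runT G U V (.pad q j 0) ((z.map fun p => G.ch (.lp w (.pl p))) ++ [G.ch (.lp w .hs)]) =
      .pad q (j + 1) 0 := by
  rw [runT_append, pad_pl G U V hw hw' hf, pad_cons G U V hw hw']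
  have h1 : step U V N (.pad q j (V.run 0 z)) (.lp w .hs) = .pad q (j + 1) 0 := if_pos ⟨hf, hj, hz⟩
  rw [h1]
  rfl

private theorem pad_blks {N : ℕ} (G : Alph A P N S) (U : Aut A) (V : Dfa P) {w : List A} (hw : w ≠ [])
    (hw' : w.length ≤ N) {q : ℕ} (hf : U.run q w = q) (x : ℕ → List P)
    (hx : ∀ j, V.acc (V.run 0 (x j)) = decide (j = q)) (i : ℕ) (hi : i ≤ U.b) :
    runT G U V (.pad q 0 0) ((List.range i).flatMap fun j =>
      ((x j).map fun p => G.ch (.lp w (.pl p))) ++ [G.ch (.lp w .hs)]) = .pad q i 0 := by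
  induction i with
  | zero => rfl
  | succ i ih =>
    rw [List.range_succ, List.flatMap_append, runT_append, ih (by omega), List.flatMap_cons,
      List.flatMap_nil, List.append_nil]
    exact pad_blk G U V hw hw' hf (by omega) (x i) (hx i)

/-- Main result of this module. -/
theorem run_padW {N : ℕ} (G : Alph A P N S) (U : Aut A) (V : Dfa P) {w : List A} (hw : w ≠ [])
    (hw' : w.length ≤ N) {q : ℕ} (hq : q < U.b) (hf : U.run q w = q) {x y : List P}
    (hx : x ∈ V.lang) (hy : y ∉ V.lang) (l : ℕ) :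
    runT G U V (.free q l) (padW G U.b w (fun j => if j = q then x else y)) = .free q 0 := by
  unfold padW
  have hacc : ∀ j, V.acc (V.run 0 (if j = q then x else y)) = decide (j = q) := by
    intro j
    by_cases hj : j = q
    · rw [if_pos hj, decide_eq_true hj]
      exact hx
    · rw [if_neg hj, decide_eq_false hj]
      exact Bool.eq_false_iff.2 hy
  rw [List.cons_append, pad_cons G U V hw hw']
  have h1 : step U V N (.free q l) (.lp w .op) = .pad q 0 0 := if_pos hf
  rw [h1, runT_append, pad_blks G U V hw hw' hf (fun j => if j = q then x else y) hacc U.b le_rfl,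
    pad_cons G U V hw hw']
  have h2 : step U V N (.pad q U.b 0) (.lp w .cl) = .free q 0 := if_pos ⟨hf, rfl⟩
  rw [h2]
  rfl

end Pool.Agent.HSP
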