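import Pool.Agent.HSP.EDefs
import Pool.Agent.HSP.Pad

/-!
# HSP-ESim: the check on numbers

The numbers code the states and the tokens, so the fold over the numbers is the code of the run.
-/

namespace Pool.Agent.HSP

open Pool.Agent.DD Pool.Agent.HLV

private theorem es_run {M : ℕ} (p : Code × Code) (s : ℕ) (w : List (Fin M)) :
    (autOf M p).run s w = runN p s (w.map Fin.val) := by
  unfold runN
  rw [List.foldl_map]
  rfl

theorem codS_step {M k : ℕ} (V : Code) (p : Code × Code) (x : St) (t : Tok (Fin M) (Fin k)) :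
    codS (step (autOf M p) (dfaOf k V) (NN p) x t) = stepN V p (codS x) (cod t) := by
  rcases x with ⟨s, l⟩ | ⟨s, j, d⟩ | ⟨s, d⟩ | _ <;>
    rcases t with a | ⟨w, (_ | q | _ | _)⟩ | _ | q <;>
    simp [step, stepN, codS, cod, es_run] <;> (try simp only [autOf, dfaOf, decide_eq_decide]) <;> split_ifs <;> rfl

private theorem es_fold {M k : ℕ} (V : Code) (p : Code × Code)
    (G : Alph (Fin M) (Fin k) (NN p) (Fin (toks M k (NN p)).length))
    (hG : ∀ i, cod (G.tk i) = (toks M k (NN p))[i.val])
    (w : List (Fin (toks M k (NN p)).length)) : ∀ x : St,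
    (w.map Fin.val).foldl (stN M k V p) (codS x) =
      codS (runT G (autOf M p) (dfaOf k V) x w) := by
  induction w with
  | nil =>
    intro x
    rfl
  | cons i w ih =>
    intro x
    have h1 : stN M k V p (codS x) i.val = codS (step (autOf M p) (dfaOf k V) (NN p) x (G.tk i)) := by
      rw [codS_step, hG i]
      unfold stN
      rw [List.getD_eq_getElem _ _ i.2]
    rw [List.map_cons, List.foldl_cons, h1, ih]
    rfl

/-- Main result of this module. -/
theorem cert_num {M k : ℕ} (V : Code) (p : Code × Code)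
    (G : Alph (Fin M) (Fin k) (NN p) (Fin (toks M k (NN p)).length))
    (hG : ∀ i, cod (G.tk i) = (toks M k (NN p))[i.val]) (t : Bool)
    (w : List (Fin (toks M k (NN p)).length)) :
    w ∈ Cert G (autOf M p) (dfaOf k V) t ↔
      acT V t p ((w.map Fin.val).foldl (stN M k V p) (0, (0, (0, 0)))) = true := by
  have h1 := es_fold V p G hG w (.free 0 0)
  have h2 : codS (.free 0 0) = (0, (0, (0, 0))) := rfl
  rw [h2] at h1
  rw [h1]
  unfold Cert
  rw [Set.mem_ofPred_eq]
  generalize runT G (autOf M p) (dfaOf k V) (.free 0 0) w = y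
  constructor
  · rintro ⟨s, d, rfl, h3, h4⟩
    have h5 : decide (d ∈ V.2) = t := h3
    have h6 : FN t p s = true := h4
    show (decide ((2 : ℕ) = 2) && ((decide (d ∈ V.2) == t) && FN t p s)) = true
    rw [h5, h6]
    simp
  · intro h3
    rcases y with ⟨s, l⟩ | ⟨s, j, d⟩ | ⟨s, d⟩ | _
    · simp [acT, codS] at h3
    · simp [acT, codS] at h3
    · refine ⟨s, d, rfl, ?_, ?_⟩
      · have h4 : (decide ((2 : ℕ) = 2) && ((decide (d ∈ V.2) == t) && FN t p s)) = true := h3
        rw [Bool.and_eq_true, Bool.and_eq_true, beq_iff_eq] at h4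
        exact h4.2.1
      · have h4 : (decide ((2 : ℕ) = 2) && ((decide (d ∈ V.2) == t) && FN t p s)) = true := h3
        rw [Bool.and_eq_true, Bool.and_eq_true, beq_iff_eq] at h4
        exact h4.2.2
    · simp [acT, codS] at h3

end Pool.Agent.HSP
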