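import Pool.Agent.HSP.Gen
import Pool.Agent.HSP.ESim
import Pool.Agent.HSP.EAlph
import Pool.Agent.HSP.EPrS
import Pool.Agent.HSP.EFin
import Pool.Agent.HSP.EImC

/-!
# HSP-ECert: computable codes for the coded certificates
-/

namespace Pool.Agent.HSP

open Pool.Agent.DD Pool.Agent.HLV

/-- The alphabet. -/
noncomputable def alp (M k : ℕ) (p : Code × Code) :
    Alph (Fin M) (Fin k) (NN p) (Fin (toks M k (NN p)).length) :=
  Classical.choose (exists_alph M k (NN p))

theorem alp_spec (M k : ℕ) (p : Code × Code) (i : Fin (toks M k (NN p)).length) :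
    cod ((alp M k p).tk i) = (toks M k (NN p))[i.val] :=
  Classical.choose_spec (exists_alph M k (NN p)) i

theorem exists_cert (M k : ℕ) (V : Code) (t : Bool) : ∃ f : Code × Code → Code, Computable f ∧
    ∀ p, langC (toks M k (NN p)).length (f p) = Cert (alp M k p) (autOf M p) (dfaOf k V) t := by
  obtain ⟨f, hf, h⟩ := gen (C := Code × Code) (σ := NSt) (fun p => (toks M k (NN p)).length)
    (fun _ => (0, (0, (0, 0)))) (stN M k V) (acT V t)
    (Primrec.list_length.comp ((pr_toks M k).comp pr_NN)) (Primrec.const _) (pr_stN M k V)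
    (pr_acT V t) (fin_stN M k V)
  refine ⟨f, hf, fun p => ?_⟩
  ext w
  exact (h p w).trans (cert_num V p (alp M k p) (alp_spec M k p) t w).symm

theorem exists_cimg (m : ℕ) : ∃ g : ℕ × Code → Code, Computable g ∧
    ∀ c, langC (m + 2) (g c) = cimg c.1 m (langC c.1 c.2) := by
  obtain ⟨g, hg, h⟩ := gen (C := ℕ × Code) (σ := MSt) (fun _ => m + 2)
    (fun _ => ([], (0, 1))) (stM' m) acM (Primrec.const _) (Primrec.const _) (pr_stM' m)
    pr_acM (fin_stM' m)
  refine ⟨g, hg, fun c => ?_⟩
  ext w
  exact (h c w).trans (cimg_num m c w).symm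

/-- Main result of this module. -/
theorem exists_ccert (M k m : ℕ) (V : Code) (t : Bool) : ∃ f : Code × Code → Code, Computable f ∧
    ∀ p, langC (m + 2) (f p) = cimg (toks M k (NN p)).length m
      (Cert (alp M k p) (autOf M p) (dfaOf k V) t) := by
  obtain ⟨f, hf, h⟩ := exists_cert M k V t
  obtain ⟨g, hg, h'⟩ := exists_cimg m
  refine ⟨fun p => g ((toks M k (NN p)).length, f p), ?_, fun p => ?_⟩
  · exact hg.comp (((Primrec.list_length.comp ((pr_toks M k).comp pr_NN)).to_comp).pair hf)
  · rw [h', h]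

end Pool.Agent.HSP
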