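import Pool.Agent.HSP.Defs

/-!
# HSP, effective part: definitions

The product automaton of a pair of codes, the tokens and the states of the check as tuples of natural
numbers.
-/

namespace Pool.Agent.HSP

open Pool.Agent.DD Pool.Agent.HLV

/-- The number of states of the product automaton. -/
def nst (p : Code × Code) : ℕ := bnd p.1 * bnd p.2

/-- The step of the product automaton. -/
def dlN (p : Code × Code) (s a : ℕ) : ℕ :=
  stepC p.1 (s / bnd p.2) a * bnd p.2 + stepC p.2 (s % bnd p.2) a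

/-- The final states of the product automaton. -/
def FN (t : Bool) (p : Code × Code) (s : ℕ) : Bool :=
  if t then decide (s / bnd p.2 ∈ p.1.2) else decide (s % bnd p.2 ∈ p.2.2)

theorem bnd_pos (c : Code) : 0 < bnd c := Nat.succ_pos _

theorem stepC_lt (c : Code) (q b : ℕ) : stepC c q b < bnd c := by
  unfold stepC bnd
  apply Nat.lt_succ_of_le
  by_cases h1 : q < c.1.length
  · rw [List.getD_eq_getElem _ _ h1]
    by_cases h2 : b < (c.1[q]).length
    · rw [List.getD_eq_getElem _ _ h2]
      refine List.le_sum_of_mem ?_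
      exact List.mem_flatten.2 ⟨c.1[q], List.getElem_mem h1, List.getElem_mem h2⟩
    · rw [List.getD_eq_default _ _ (by omega)]
      exact Nat.zero_le _
  · have h2 : c.1.getD q [] = [] := List.getD_eq_default _ _ (by omega)
    rw [h2]
    exact Nat.zero_le _

theorem dlN_lt (p : Code × Code) (s a : ℕ) : dlN p s a < nst p := by
  have h1 := stepC_lt p.1 (s / bnd p.2) a
  have h2 := stepC_lt p.2 (s % bnd p.2) a
  unfold dlN nst
  have h3 : (stepC p.1 (s / bnd p.2) a + 1) * bnd p.2 ≤ bnd p.1 * bnd p.2 :=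
    Nat.mul_le_mul_right _ h1
  have h4 : (stepC p.1 (s / bnd p.2) a + 1) * bnd p.2 =
      stepC p.1 (s / bnd p.2) a * bnd p.2 + bnd p.2 := by ring
  omega

/-- The product automaton. -/
def autOf (M : ℕ) (p : Code × Code) : Aut (Fin M) where
  b := nst p
  δ := fun s a => dlN p s a.val
  F := fun t s => FN t p s
  pos := Nat.mul_pos (bnd_pos _) (bnd_pos _)
  lt := fun q a => dlN_lt p q a.val

/-- The automaton of a code. -/
def dfaOf (k : ℕ) (V : Code) : Dfa (Fin k) where
  δ := fun d a => stepC V d a.val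
  acc := fun d => decide (d ∈ V.2)

/-- The length of the windows. -/
def NN (p : Code × Code) : ℕ := nst p ^ nst p

/-- Tokens as tuples of numbers. -/
abbrev NTok : Type := ℕ × (List ℕ × ℕ)

/-- All words of length `i` over the letters `< M`. -/
def wds (M : ℕ) : ℕ → List (List ℕ)
  | 0 => [[]]
  | i + 1 => (wds M i).flatMap fun w => (List.range M).map fun a => a :: w

/-- All small tokens. -/
def toks (M k N : ℕ) : List NTok :=
  ((List.range M).map fun a => (0, ([a], 0))) ++
    (((List.range N).flatMap fun i => (wds M (i + 1)).flatMap fun w =>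
      (1, (w, 0)) :: (3, (w, 0)) :: (4, (w, 0)) :: (List.range k).map fun p => (2, (w, p))) ++
    ((5, ([], 0)) :: (List.range k).map fun p => (6, ([], p))))

/-- The code of a token. -/
def cod {M k : ℕ} : Tok (Fin M) (Fin k) → NTok
  | .fr a => (0, ([a.val], 0))
  | .lp w .op => (1, (w.map Fin.val, 0))
  | .lp w (.pl p) => (2, (w.map Fin.val, p.val))
  | .lp w .hs => (3, (w.map Fin.val, 0))
  | .lp w .cl => (4, (w.map Fin.val, 0))
  | .dl => (5, ([], 0))
  | .fl p => (6, ([], p.val))

/-- States as tuples of numbers. -/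
abbrev NSt : Type := ℕ × (ℕ × (ℕ × ℕ))

/-- The code of a state. -/
def codS : St → NSt
  | .free s l => (0, (s, (l, 0)))
  | .pad s j d => (1, (s, (j, d)))
  | .fin s d => (2, (s, (0, d)))
  | .dead => (3, (0, (0, 0)))

/-- The run of the product automaton on words of numbers. -/
def runN (p : Code × Code) (s : ℕ) (w : List ℕ) : ℕ := w.foldl (dlN p) s

/-- The step of the check on tuples of numbers. -/
def stepN (V : Code) (p : Code × Code) (x : NSt) (t : NTok) : NSt :=
  if x.1 = 0 ∧ t.1 = 0 then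
    (if x.2.2.1 ≤ NN p then (0, (dlN p x.2.1 (t.2.1.getD 0 0), (x.2.2.1 + 1, 0)))
      else (3, (0, (0, 0))))
  else if x.1 = 0 ∧ t.1 = 1 then
    (if runN p x.2.1 t.2.1 = x.2.1 then (1, (x.2.1, (0, 0))) else (3, (0, (0, 0))))
  else if x.1 = 0 ∧ t.1 = 5 then (2, (x.2.1, (0, 0)))
  else if x.1 = 1 ∧ t.1 = 2 then
    (if runN p x.2.1 t.2.1 = x.2.1 then (1, (x.2.1, (x.2.2.1, stepC V x.2.2.2 t.2.2)))
      else (3, (0, (0, 0))))
  else if x.1 = 1 ∧ t.1 = 3 then
    (if runN p x.2.1 t.2.1 = x.2.1 ∧ x.2.2.1 < nst p ∧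
        decide (x.2.2.2 ∈ V.2) = decide (x.2.2.1 = x.2.1) then (1, (x.2.1, (x.2.2.1 + 1, 0)))
      else (3, (0, (0, 0))))
  else if x.1 = 1 ∧ t.1 = 4 then
    (if runN p x.2.1 t.2.1 = x.2.1 ∧ x.2.2.1 = nst p then (0, (x.2.1, (0, 0)))
      else (3, (0, (0, 0))))
  else if x.1 = 2 ∧ t.1 = 6 then (2, (x.2.1, (0, stepC V x.2.2.2 t.2.2)))
  else (3, (0, (0, 0)))

/-- The step on the number of a letter. -/
def stN (M k : ℕ) (V : Code) (p : Code × Code) (x : NSt) (a : ℕ) : NSt :=
  stepN V p x ((toks M k (NN p)).getD a (5, ([], 0)))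

/-- Acceptance with type `t`. -/
def acT (V : Code) (t : Bool) (p : Code × Code) (x : NSt) : Bool :=
  decide (x.1 = 2) && ((decide (x.2.2.2 ∈ V.2) == t) && FN t p x.2.1)

/-- The machine for the coding over a fixed alphabet: `r` the part of the current code word, `q` the
state of the automaton, `1` (alive) or `0` (dead). -/
abbrev MSt : Type := List ℕ × (ℕ × ℕ)

/-- The code word number `a` as a list of numbers. -/
def cwN (M a : ℕ) : List ℕ :=
  [0, 0] ++ List.replicate (a + 1) 1 ++ [0] ++ List.replicate (M - a) 1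

/-- The step of this machine. -/
def stM (c : ℕ × Code) (x : MSt) (a : ℕ) : MSt :=
  if x.2.2 = 0 then ([], (0, 0))
  else if (x.1 ++ [a]).length < c.1 + 4 then (x.1 ++ [a], (x.2.1, 1))
  else if ((List.range c.1).map fun b => cwN c.1 b).idxOf (x.1 ++ [a]) < c.1 then
    ([], (stepC c.2 x.2.1 (((List.range c.1).map fun b => cwN c.1 b).idxOf (x.1 ++ [a])), 1))
  else ([], (0, 0))

/-- Acceptance. -/
def acM (c : ℕ × Code) (x : MSt) : Bool :=
  decide (x.2.2 = 1) && (decide (x.1 = []) && decide (x.2.1 ∈ c.2.2))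

end Pool.Agent.HSP
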