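import Pool.Agent.HSP.EDefs

/-!
# HSP-EImP: the coding machine is primitive recursive and has finitely many states

The fold may read arbitrary numbers `a`; all letters are first replaced by `min a (m + 2)` (the function
`stM'` below), so the states are bounded words, states `< bnd c.2` and a flag.
-/

namespace Pool.Agent.HSP

open Pool.Agent.DD Pool.Agent.HLV

/-- The step with bounded letters. -/
def stM' (m : ℕ) (c : ℕ × Code) (x : MSt) (a : ℕ) : MSt := stM c x (min a (m + 2))

private theorem pr_step' : Primrec fun p : Code × (ℕ × ℕ) => stepC p.1 p.2.1 p.2.2 :=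
  (Primrec.list_getD 0).comp
    ((Primrec.list_getD []).comp (Primrec.fst.comp Primrec.fst) (Primrec.fst.comp Primrec.snd))
    (Primrec.snd.comp Primrec.snd)

private theorem pr_mem' : Primrec₂ fun (q : ℕ) (l : List ℕ) => decide (q ∈ l) := by
  have h : Primrec₂ fun (q : ℕ) (l : List ℕ) => decide (l.idxOf q < l.length) := by
    have h1 : PrimrecRel fun (q : ℕ) (l : List ℕ) => l.idxOf q < l.length :=
      Primrec.nat_lt.comp₂ (Primrec.list_idxOf.comp₂ Primrec₂.left Primrec₂.right)
        (Primrec.list_length.comp₂ Primrec₂.right)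
    exact h1.decide
  refine h.of_eq fun q l => ?_
  rw [decide_eq_decide]
  exact List.idxOf_lt_length_iff

private theorem pr_repl : Primrec fun n : ℕ => List.replicate n 1 := by
  have h : Primrec fun n : ℕ => (List.range n).map (fun _ => 1) :=
    Primrec.list_map Primrec.list_range (Primrec₂.const 1)
  refine h.of_eq fun n => ?_
  rw [List.map_const', List.length_range]

private theorem pr_cw : Primrec₂ cwN := by
  have h1 : Primrec fun p : ℕ × ℕ => List.replicate (p.2 + 1) 1 :=
    pr_repl.comp (Primrec.succ.comp Primrec.snd)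
  have h2 : Primrec fun p : ℕ × ℕ => List.replicate (p.1 - p.2) 1 :=
    pr_repl.comp (Primrec.nat_sub.comp Primrec.fst Primrec.snd)
  exact Primrec.list_append.comp (Primrec.list_append.comp
    (Primrec.list_append.comp (Primrec.const [0, 0]) h1) (Primrec.const [0])) h2

private theorem pr_tb : Primrec fun n : ℕ => (List.range n).map fun b => cwN n b :=
  Primrec.list_map Primrec.list_range pr_cw

theorem pr_stM' (m : ℕ) : Primrec fun x : (ℕ × Code) × (MSt × ℕ) => stM' m x.1 x.2.1 x.2.2 := by
  have hM : Primrec fun x : (ℕ × Code) × (MSt × ℕ) => x.1.1 := Primrec.fst.comp Primrec.fst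
  have hC : Primrec fun x : (ℕ × Code) × (MSt × ℕ) => x.1.2 := Primrec.snd.comp Primrec.fst
  have hs : Primrec fun x : (ℕ × Code) × (MSt × ℕ) => x.2.1 := Primrec.fst.comp Primrec.snd
  have hr : Primrec fun x : (ℕ × Code) × (MSt × ℕ) => x.2.1.1 := Primrec.fst.comp hs
  have hq : Primrec fun x : (ℕ × Code) × (MSt × ℕ) => x.2.1.2.1 :=
    Primrec.fst.comp (Primrec.snd.comp hs)
  have hb : Primrec fun x : (ℕ × Code) × (MSt × ℕ) => x.2.1.2.2 :=
    Primrec.snd.comp (Primrec.snd.comp hs)
  have ha : Primrec fun x : (ℕ × Code) × (MSt × ℕ) => min x.2.2 (m + 2) :=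
    Primrec.nat_min.comp (Primrec.snd.comp Primrec.snd) (Primrec.const _)
  have hra : Primrec fun x : (ℕ × Code) × (MSt × ℕ) => x.2.1.1 ++ [min x.2.2 (m + 2)] :=
    Primrec.list_append.comp hr (Primrec.list_cons.comp ha (Primrec.const []))
  have hi : Primrec fun x : (ℕ × Code) × (MSt × ℕ) =>
      ((List.range x.1.1).map fun b => cwN x.1.1 b).idxOf (x.2.1.1 ++ [min x.2.2 (m + 2)]) := by
    refine (Primrec.list_idxOf.comp hra (pr_tb.comp hM)).of_eq fun x => ?_
    congr 1
    exact lawful_beq_subsingleton _ _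
  have h0 : Primrec fun _ : (ℕ × Code) × (MSt × ℕ) => (([], (0, 0)) : MSt) := Primrec.const _
  have h1 : Primrec fun _ : (ℕ × Code) × (MSt × ℕ) => 1 := Primrec.const _
  have hst : Primrec fun x : (ℕ × Code) × (MSt × ℕ) => stepC x.1.2 x.2.1.2.1
      (((List.range x.1.1).map fun b => cwN x.1.1 b).idxOf (x.2.1.1 ++ [min x.2.2 (m + 2)])) :=
    pr_step'.comp (hC.pair (hq.pair hi))
  unfold stM' stM
  refine Primrec.ite (Primrec.eq.comp hb (Primrec.const 0)) h0 ?_
  refine Primrec.ite (Primrec.nat_lt.comp (Primrec.list_length.comp hra)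
    (Primrec.nat_add.comp hM (Primrec.const 4))) (hra.pair (hq.pair h1)) ?_
  refine Primrec.ite (Primrec.nat_lt.comp hi hM) ?_ h0
  exact (Primrec.const []).pair (hst.pair h1)

theorem pr_acM : Primrec fun x : (ℕ × Code) × MSt => acM x.1 x.2 := by
  have h1 : Primrec fun x : (ℕ × Code) × MSt => decide (x.2.2.2 = 1) :=
    (Primrec.eq.comp (Primrec.snd.comp (Primrec.snd.comp Primrec.snd)) (Primrec.const 1)).decide
  have h2 : Primrec fun x : (ℕ × Code) × MSt => decide (x.2.1 = []) :=
    (Primrec.eq.comp (Primrec.fst.comp Primrec.snd) (Primrec.const [])).decide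
  have h3 : Primrec fun x : (ℕ × Code) × MSt => decide (x.2.2.1 ∈ x.1.2.2) :=
    pr_mem'.comp (Primrec.fst.comp (Primrec.snd.comp Primrec.snd))
      (Primrec.snd.comp (Primrec.snd.comp Primrec.fst))
  unfold acM
  exact Primrec.and.comp h1 (Primrec.and.comp h2 h3)

theorem fin_stM' (m : ℕ) (c : ℕ × Code) :
    Set.Finite {x | ∃ w : List ℕ, x = w.foldl (stM' m c) ([], (0, 1))} := by
  have hlist : Set.Finite {r : List ℕ | r.length < c.1 + 4 ∧ ∀ a ∈ r, a ≤ m + 2} := by
    refine ((List.finite_length_lt (Fin (m + 3)) (c.1 + 4)).image (List.map Fin.val)).subset ?_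
    rintro r ⟨h1, h2⟩
    refine ⟨r.map (Fin.ofNat (m + 3)), ?_, ?_⟩
    · show (r.map (Fin.ofNat (m + 3))).length < c.1 + 4
      rwa [List.length_map]
    · rw [List.map_map]
      conv_rhs => rw [← List.map_id r]
      refine List.map_congr_left fun a ha => ?_
      show a % (m + 3) = a
      have := h2 a ha
      exact Nat.mod_eq_of_lt (by omega)
  have hfin : Set.Finite ({r : List ℕ | r.length < c.1 + 4 ∧ ∀ a ∈ r, a ≤ m + 2} ×ˢ
      ({q : ℕ | q < bnd c.2} ×ˢ {b : ℕ | b ≤ 1})) :=
    hlist.prod ((Set.finite_lt_nat _).prod (Set.finite_le_nat 1))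
  refine hfin.subset ?_
  rintro x ⟨w, rfl⟩
  induction w using List.reverseRecOn with
  | nil =>
    refine ⟨⟨?_, ?_⟩, ?_, ?_⟩
    · show 0 < c.1 + 4
      omega
    · intro a ha
      exact absurd ha List.not_mem_nil
    · exact bnd_pos c.2
    · exact le_refl (1 : ℕ)
  | append_singleton w a ih =>
    rw [List.foldl_append, List.foldl_cons, List.foldl_nil]
    obtain ⟨⟨h1, h2⟩, h3, h4⟩ := ih
    generalize w.foldl (stM' m c) ([], (0, 1)) = x at h1 h2 h3 h4
    have h0 : (([], (0, 0)) : MSt) ∈ ({r : List ℕ | r.length < c.1 + 4 ∧ ∀ a ∈ r, a ≤ m + 2} ×ˢ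
        ({q : ℕ | q < bnd c.2} ×ˢ {b : ℕ | b ≤ 1})) := by
      refine ⟨⟨?_, ?_⟩, ?_, ?_⟩
      · show 0 < c.1 + 4
        omega
      · intro a ha
        exact absurd ha List.not_mem_nil
      · exact bnd_pos c.2
      · exact Nat.zero_le _
    unfold stM' stM
    split_ifs with e1 e2 e3
    · exact h0
    · refine ⟨⟨e2, ?_⟩, h3, ?_⟩
      · intro b hb
        rcases List.mem_append.1 hb with hb | hb
        · exact h2 b hb
        · rw [List.mem_singleton] at hb
          rw [hb]
          exact Nat.min_le_right _ _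
      · exact le_refl (1 : ℕ)
    · refine ⟨⟨?_, ?_⟩, ?_, ?_⟩
      · show 0 < c.1 + 4
        omega
      · intro a ha
        exact absurd ha List.not_mem_nil
      · exact stepC_lt _ _ _
      · exact le_refl (1 : ℕ)
    · exact h0

end Pool.Agent.HSP
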