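import Pool.Agent.HSP.EDefs

/-!
# HSP-ELang: the languages of the product automaton
-/

namespace Pool.Agent.HSP

open Pool.Agent.DD Pool.Agent.HLV

private theorem el_div {b r1 r2 : ℕ} (h : r2 < b) : (r1 * b + r2) / b = r1 := by
  rw [mul_comm, Nat.mul_add_div (by omega), Nat.div_eq_of_lt h, add_zero]

private theorem el_mod {b r1 r2 : ℕ} (h : r2 < b) : (r1 * b + r2) % b = r2 := by
  rw [mul_comm, Nat.mul_add_mod, Nat.mod_eq_of_lt h]

private theorem el_run (M : ℕ) (p : Code × Code) (u : List (Fin M)) :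
    (autOf M p).run 0 u = runC p.1 u * bnd p.2 + runC p.2 u ∧ runC p.2 u < bnd p.2 := by
  induction u using List.reverseRecOn with
  | nil =>
    refine ⟨?_, bnd_pos _⟩
    have h1 : (autOf M p).run 0 ([] : List (Fin M)) = 0 := rfl
    have h2 : runC p.1 ([] : List (Fin M)) = 0 := rfl
    have h3 : runC p.2 ([] : List (Fin M)) = 0 := rfl
    rw [h1, h2, h3]
    simp
  | append_singleton u a ih =>
    obtain ⟨ih1, ih2⟩ := ih
    have h1 : (autOf M p).run 0 (u ++ [a]) = dlN p ((autOf M p).run 0 u) a.val := by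
      unfold Aut.run
      rw [List.foldl_append]
      rfl
    rw [h1, ih1, runC_snoc, runC_snoc]
    refine ⟨?_, stepC_lt _ _ _⟩
    unfold dlN
    rw [el_div ih2, el_mod ih2]

theorem autOf_true (M : ℕ) (p : Code × Code) : (autOf M p).lang true = langC M p.1 := by
  ext u
  show decide ((autOf M p).run 0 u / bnd p.2 ∈ p.1.2) = true ↔ runC p.1 u ∈ p.1.2
  rw [decide_eq_true_eq, (el_run M p u).1, el_div (el_run M p u).2]

theorem autOf_false (M : ℕ) (p : Code × Code) : (autOf M p).lang false = langC M p.2 := by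
  ext u
  show decide ((autOf M p).run 0 u % bnd p.2 ∈ p.2.2) = true ↔ runC p.2 u ∈ p.2.2
  rw [decide_eq_true_eq, (el_run M p u).1, el_mod (el_run M p u).2]

theorem dfaOf_lang (k : ℕ) (V : Code) : (dfaOf k V).lang = langC k V := by
  ext u
  show decide (runC V u ∈ V.2) = true ↔ runC V u ∈ V.2
  rw [decide_eq_true_eq]

end Pool.Agent.HSP
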