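import Pool.Agent.HSP.EDefs

/-!
# HSP-EPrT: the list of the tokens is primitive recursive
-/

namespace Pool.Agent.HSP

open Pool.Agent.DD Pool.Agent.HLV

private theorem pr_step' : Primrec fun p : Code × (ℕ × ℕ) => stepC p.1 p.2.1 p.2.2 :=
  (Primrec.list_getD 0).comp
    ((Primrec.list_getD []).comp (Primrec.fst.comp Primrec.fst) (Primrec.fst.comp Primrec.snd))
    (Primrec.snd.comp Primrec.snd)

private theorem pr_mem' : Primrec₂ fun (q : ℕ) (l : List ℕ) => decide (q ∈ l) := by
  have h : Primrec₂ fun (q : ℕ) (l : List ℕ) => decide (l.idxOf q < l.length) := by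
    have h1 : PrimrecRel fun (q : ℕ) (l : List ℕ) => l.idxOf q < l.length :=
      Primrec.nat_lt.comp₂ (Primrec.list_idxOf.comp₂ Primrec₂.left Primrec₂.right)
        (Primrec.list_length.comp₂ Primrec₂.right)
    exact h1.decide
  refine h.of_eq fun q l => ?_
  rw [decide_eq_decide]
  exact List.idxOf_lt_length_iff

private theorem sum_eq (l : List ℕ) : l.sum = l.foldr (fun a b => a + b) 0 := by
  induction l with
  | nil => rfl
  | cons a l ih => rw [List.sum_cons, List.foldr_cons, ih]

private theorem pr_bnd : Primrec bnd := by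
  have h : Primrec fun c : Code => (c.1.flatten).foldr (fun a b => a + b) 0 + 1 := by
    have hh : Primrec₂ fun (_ : Code) (s : ℕ × ℕ) => s.1 + s.2 :=
      Primrec.nat_add.comp (Primrec.fst.comp Primrec.snd) (Primrec.snd.comp Primrec.snd)
    have hf : Primrec fun c : Code => c.1.flatten := Primrec.list_flatten.comp Primrec.fst
    exact Primrec.succ.comp (Primrec.list_foldr hf (Primrec.const 0) hh)
  refine h.of_eq fun c => ?_
  rw [bnd, sum_eq]

private theorem pr_pow' : Primrec₂ fun a b : ℕ => a ^ b := by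
  have hm : Primrec₂ fun (a : ℕ) (p : ℕ × ℕ) => p.2 * a := by
    have h1 : Primrec fun q : ℕ × (ℕ × ℕ) => q.2.2 * q.1 :=
      Primrec.nat_mul.comp (Primrec.snd.comp Primrec.snd) Primrec.fst
    exact h1
  refine (Primrec.nat_rec (Primrec.const 1) hm).of_eq fun a b => ?_
  induction b with
  | zero => rfl
  | succ b ih => rw [pow_succ, ← ih]

theorem pr_nst : Primrec nst :=
  Primrec.nat_mul.comp (pr_bnd.comp Primrec.fst) (pr_bnd.comp Primrec.snd)

theorem pr_NN : Primrec NN := pr_pow'.comp pr_nst pr_nst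

theorem pr_dlN : Primrec fun x : (Code × Code) × (ℕ × ℕ) => dlN x.1 x.2.1 x.2.2 := by
  have hb : Primrec fun x : (Code × Code) × (ℕ × ℕ) => bnd x.1.2 :=
    pr_bnd.comp (Primrec.snd.comp Primrec.fst)
  have hs : Primrec fun x : (Code × Code) × (ℕ × ℕ) => x.2.1 := Primrec.fst.comp Primrec.snd
  have ha : Primrec fun x : (Code × Code) × (ℕ × ℕ) => x.2.2 := Primrec.snd.comp Primrec.snd
  have h1 : Primrec fun x : (Code × Code) × (ℕ × ℕ) =>
      stepC x.1.1 (x.2.1 / bnd x.1.2) x.2.2 :=
    pr_step'.comp ((Primrec.fst.comp Primrec.fst).pair ((Primrec.nat_div.comp hs hb).pair ha))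
  have h2 : Primrec fun x : (Code × Code) × (ℕ × ℕ) =>
      stepC x.1.2 (x.2.1 % bnd x.1.2) x.2.2 :=
    pr_step'.comp ((Primrec.snd.comp Primrec.fst).pair ((Primrec.nat_mod.comp hs hb).pair ha))
  exact Primrec.nat_add.comp (Primrec.nat_mul.comp h1 hb) h2

theorem pr_FN (t : Bool) : Primrec fun x : (Code × Code) × ℕ => FN t x.1 x.2 := by
  have hb : Primrec fun x : (Code × Code) × ℕ => bnd x.1.2 :=
    pr_bnd.comp (Primrec.snd.comp Primrec.fst)
  cases t with
  | true =>
    have h : Primrec fun x : (Code × Code) × ℕ => decide (x.2 / bnd x.1.2 ∈ x.1.1.2) :=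
      pr_mem'.comp (Primrec.nat_div.comp Primrec.snd hb)
        (Primrec.snd.comp (Primrec.fst.comp Primrec.fst))
    refine h.of_eq fun x => ?_
    simp [FN]
  | false =>
    have h : Primrec fun x : (Code × Code) × ℕ => decide (x.2 % bnd x.1.2 ∈ x.1.2.2) :=
      pr_mem'.comp (Primrec.nat_mod.comp Primrec.snd hb)
        (Primrec.snd.comp (Primrec.snd.comp Primrec.fst))
    refine h.of_eq fun x => ?_
    simp [FN]

private theorem pr_wds (M : ℕ) : Primrec (wds M) := by
  have h1 : Primrec₂ fun (_ : ℕ) (l : List (List ℕ)) =>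
      l.flatMap fun w => (List.range M).map fun a => a :: w := by
    refine Primrec.list_flatMap Primrec.snd ?_
    refine Primrec.list_map (Primrec.const (List.range M)) ?_
    exact Primrec.list_cons.comp Primrec.snd (Primrec.snd.comp Primrec.fst)
  refine (Primrec.nat_rec₁ [[]] h1).of_eq fun i => ?_
  induction i with
  | zero => rfl
  | succ i ih => rw [wds, ← ih]

theorem pr_toks (M k : ℕ) : Primrec fun N => toks M k N := by
  unfold toks
  refine Primrec.list_append.comp (Primrec.const _) ?_
  refine Primrec.list_append.comp ?_ (Primrec.const _)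
  refine Primrec.list_flatMap Primrec.list_range ?_
  have hw : Primrec fun p : ℕ × ℕ => wds M (p.2 + 1) :=
    (pr_wds M).comp (Primrec.succ.comp Primrec.snd)
  have hg : Primrec₂ fun (_ : ℕ × ℕ) (w : List ℕ) =>
      ((1, (w, 0)) :: (3, (w, 0)) :: (4, (w, 0)) ::
        (List.range k).map fun p => ((2, (w, p)) : NTok)) := by
    have hw2 : Primrec fun q : (ℕ × ℕ) × List ℕ => q.2 := Primrec.snd
    have hc : ∀ j : ℕ, Primrec fun q : (ℕ × ℕ) × List ℕ => ((j, (q.2, 0)) : NTok) := fun j =>
      (Primrec.const j).pair (hw2.pair (Primrec.const 0))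
    have hm : Primrec fun q : (ℕ × ℕ) × List ℕ =>
        (List.range k).map fun p => ((2, (q.2, p)) : NTok) := by
      refine Primrec.list_map (Primrec.const (List.range k)) ?_
      exact (Primrec.const 2).pair ((Primrec.snd.comp Primrec.fst).pair Primrec.snd)
    exact Primrec.list_cons.comp (hc 1) (Primrec.list_cons.comp (hc 3)
      (Primrec.list_cons.comp (hc 4) hm))
  exact Primrec.list_flatMap hw hg

end Pool.Agent.HSP
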