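import Pool.Agent.HSP.Gen

/-!
# HSP-EUni: union of codes
-/

namespace Pool.Agent.HSP

open Pool.Agent.DD Pool.Agent.HLV

private theorem uni_step : Primrec fun p : Code × (ℕ × ℕ) => stepC p.1 p.2.1 p.2.2 :=
  (Primrec.list_getD 0).comp
    ((Primrec.list_getD []).comp (Primrec.fst.comp Primrec.fst) (Primrec.fst.comp Primrec.snd))
    (Primrec.snd.comp Primrec.snd)

private theorem uni_mem : Primrec₂ fun (q : ℕ) (l : List ℕ) => decide (q ∈ l) := by
  have h : Primrec₂ fun (q : ℕ) (l : List ℕ) => decide (l.idxOf q < l.length) := by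
    have h1 : PrimrecRel fun (q : ℕ) (l : List ℕ) => l.idxOf q < l.length :=
      Primrec.nat_lt.comp₂ (Primrec.list_idxOf.comp₂ Primrec₂.left Primrec₂.right)
        (Primrec.list_length.comp₂ Primrec₂.right)
    exact h1.decide
  refine h.of_eq fun q l => ?_
  rw [decide_eq_decide]
  exact List.idxOf_lt_length_iff

private def uniSt (p : Code × Code) (x : ℕ × ℕ) (a : ℕ) : ℕ × ℕ :=
  (stepC p.1 x.1 a, stepC p.2 x.2 a)

private def uniAc (p : Code × Code) (x : ℕ × ℕ) : Bool :=
  decide (x.1 ∈ p.1.2) || decide (x.2 ∈ p.2.2)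

private theorem uni_fold (p : Code × Code) {k : ℕ} (w : List (Fin k)) (x : ℕ × ℕ) :
    (w.map Fin.val).foldl (uniSt p) x =
      (w.foldl (fun (q : ℕ) (a : Fin k) => stepC p.1 q a.val) x.1,
        w.foldl (fun (q : ℕ) (a : Fin k) => stepC p.2 q a.val) x.2) := by
  induction w generalizing x with
  | nil => rfl
  | cons a w ih =>
    rw [List.map_cons, List.foldl_cons, ih, List.foldl_cons, List.foldl_cons]
    rfl

private theorem uni_lt (p : Code × Code) (w : List ℕ) (x : ℕ × ℕ)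
    (hx : x.1 < bnd p.1 ∧ x.2 < bnd p.2) :
    (w.foldl (uniSt p) x).1 < bnd p.1 ∧ (w.foldl (uniSt p) x).2 < bnd p.2 := by
  induction w generalizing x with
  | nil => exact hx
  | cons a w ih =>
    rw [List.foldl_cons]
    exact ih _ ⟨stepC_lt _ _ _, stepC_lt _ _ _⟩

/-- Main result of this module. -/
theorem exists_uni (k : ℕ) : ∃ f : Code × Code → Code, Computable f ∧
    ∀ p, langC k (f p) = langC k p.1 ∪ langC k p.2 := by
  have hst : Primrec fun x : (Code × Code) × ((ℕ × ℕ) × ℕ) => uniSt x.1 x.2.1 x.2.2 := by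
    have h1 : Primrec fun x : (Code × Code) × ((ℕ × ℕ) × ℕ) => stepC x.1.1 x.2.1.1 x.2.2 :=
      uni_step.comp ((Primrec.fst.comp Primrec.fst).pair
        ((Primrec.fst.comp (Primrec.fst.comp Primrec.snd)).pair (Primrec.snd.comp Primrec.snd)))
    have h2 : Primrec fun x : (Code × Code) × ((ℕ × ℕ) × ℕ) => stepC x.1.2 x.2.1.2 x.2.2 :=
      uni_step.comp ((Primrec.snd.comp Primrec.fst).pair
        ((Primrec.snd.comp (Primrec.fst.comp Primrec.snd)).pair (Primrec.snd.comp Primrec.snd)))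
    exact h1.pair h2
  have hacc : Primrec fun x : (Code × Code) × (ℕ × ℕ) => uniAc x.1 x.2 := by
    have h1 : Primrec fun x : (Code × Code) × (ℕ × ℕ) => decide (x.2.1 ∈ x.1.1.2) :=
      uni_mem.comp (Primrec.fst.comp Primrec.snd)
        (Primrec.snd.comp (Primrec.fst.comp Primrec.fst))
    have h2 : Primrec fun x : (Code × Code) × (ℕ × ℕ) => decide (x.2.2 ∈ x.1.2.2) :=
      uni_mem.comp (Primrec.snd.comp Primrec.snd)
        (Primrec.snd.comp (Primrec.snd.comp Primrec.fst))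
    exact Primrec.or.comp h1 h2
  obtain ⟨f, hf, hL⟩ := gen (C := Code × Code) (σ := ℕ × ℕ) (fun _ => k) (fun _ => (0, 0)) uniSt
    uniAc (Primrec.const k) (Primrec.const (0, 0)) hst hacc (fun p => by
      refine ((Set.finite_Iio (bnd p.1)).prod (Set.finite_Iio (bnd p.2))).subset ?_
      rintro x ⟨w, rfl⟩
      exact uni_lt p w (0, 0) ⟨bnd_pos _, bnd_pos _⟩)
  refine ⟨f, hf, fun p => ?_⟩
  ext w
  rw [hL p w, uni_fold p w]
  unfold uniAc
  rw [Bool.or_eq_true, decide_eq_true_iff, decide_eq_true_iff]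
  rfl

end Pool.Agent.HSP
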