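import Pool.Agent.HSP.EDefs

/-!
# HSP-Gen: computable families of finite state machines have computable codes
-/

namespace Pool.Agent.HSP

open Pool.Agent.DD Pool.Agent.HLV

/-- all words of length `< n` over the letters `< K` -/
private def wl (K n : ℕ) : List (List ℕ) := (List.range n).flatMap (wds K)

private theorem g_mem_wds (K i : ℕ) : ∀ w : List ℕ, w ∈ wds K i ↔ w.length = i ∧ ∀ a ∈ w, a < K := by
  induction i with
  | zero =>
    intro w
    cases w with
    | nil => simp [wds]
    | cons a w => simp [wds]
  | succ i ih =>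
    intro w
    rw [wds, List.mem_flatMap]
    constructor
    · rintro ⟨v, hv, hw⟩
      obtain ⟨a, ha, rfl⟩ := List.mem_map.1 hw
      obtain ⟨h1, h2⟩ := (ih v).1 hv
      refine ⟨by rw [List.length_cons, h1], fun b hb => ?_⟩
      rcases List.mem_cons.1 hb with rfl | hb
      · exact List.mem_range.1 ha
      · exact h2 b hb
    · rintro ⟨h1, h2⟩
      cases w with
      | nil => simp at h1
      | cons a v =>
        refine ⟨v, (ih v).2 ⟨by rw [List.length_cons] at h1; omega, fun b hb => h2 b (List.mem_cons_of_mem _ hb)⟩, ?_⟩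
        exact List.mem_map.2 ⟨a, List.mem_range.2 (h2 a List.mem_cons_self), rfl⟩

private theorem g_mem_wl (K n : ℕ) (w : List ℕ) : w ∈ wl K n ↔ w.length < n ∧ ∀ a ∈ w, a < K := by
  unfold wl
  rw [List.mem_flatMap]
  constructor
  · rintro ⟨i, hi, hw⟩
    obtain ⟨h1, h2⟩ := (g_mem_wds K i w).1 hw
    rw [h1]
    exact ⟨List.mem_range.1 hi, h2⟩
  · rintro ⟨h1, h2⟩
    exact ⟨w.length, List.mem_range.2 h1, (g_mem_wds K _ w).2 ⟨rfl, h2⟩⟩

private theorem g_wl_zero (K n : ℕ) : ∃ t, wl K (n + 1) = [] :: t := by
  unfold wl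
  rw [List.range_succ_eq_map, List.flatMap_cons]
  exact ⟨_, rfl⟩

private theorem g_pwds : Primrec fun p : ℕ × ℕ => wds p.1 p.2 := by
  have hh : Primrec fun y : (ℕ × ℕ) × (ℕ × List (List ℕ)) =>
      y.2.2.flatMap fun w => (List.range y.1.1).map fun a => a :: w := by
    refine Primrec.list_flatMap (Primrec.snd.comp Primrec.snd) ?_
    have h1 : Primrec fun z : ((ℕ × ℕ) × (ℕ × List (List ℕ))) × List ℕ =>
        (List.range z.1.1.1).map fun a => a :: z.2 := by
      refine Primrec.list_map
        (Primrec.list_range.comp (Primrec.fst.comp (Primrec.fst.comp Primrec.fst))) ?_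
      exact Primrec.list_cons.comp Primrec.snd (Primrec.snd.comp Primrec.fst)
    exact h1
  have h := Primrec.nat_rec' (f := fun p : ℕ × ℕ => p.2) (g := fun _ : ℕ × ℕ => [([] : List ℕ)])
    (h := fun (p : ℕ × ℕ) (q : ℕ × List (List ℕ)) =>
      q.2.flatMap fun w => (List.range p.1).map fun a => a :: w) Primrec.snd (Primrec.const _) hh
  refine h.of_eq fun p => ?_
  obtain ⟨K, n⟩ := p
  show (Nat.rec [([] : List ℕ)] (fun _ l => l.flatMap fun w => (List.range K).map fun a => a :: w) n :
    List (List ℕ)) = wds K n
  induction n with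
  | zero => rfl
  | succ n ih =>
    rw [wds, ← ih]

private theorem g_pwl : Primrec fun p : ℕ × ℕ => wl p.1 p.2 := by
  refine Primrec.list_flatMap (Primrec.list_range.comp Primrec.snd) ?_
  exact g_pwds.comp ((Primrec.fst.comp Primrec.fst).pair Primrec.snd)

section

variable {C σ : Type} [Primcodable C] [Primcodable σ] (k : C → ℕ) (init : C → σ)
  (st : C → σ → ℕ → σ) (acc : C → σ → Bool)

/-- the state -/
private def Fg (c : C) (w : List ℕ) : σ := w.foldl (st c) (init c)

/-- the code of the state -/
private def eg (c : C) (w : List ℕ) : ℕ := Encodable.encode (Fg init st c w)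

/-- the codes of the states reached by short words -/
private def ceg (c : C) (n : ℕ) : List ℕ := (wl (k c) (n + 1)).map (eg init st c)

/-- the test -/
private def chk (c : C) (n : ℕ) : Bool :=
  (wds (k c) (n + 1)).foldr
    (fun w s => decide ((ceg k init st c n).idxOf (eg init st c w) < (ceg k init st c n).length) && s)
    true

/-- the table -/
private def tabg (c : C) (n : ℕ) : Code :=
  ((wl (k c) (n + 1)).map fun w =>
      (List.range (k c)).map fun a => (ceg k init st c n).idxOf (eg init st c (w ++ [a])),
    (List.range (ceg k init st c n).length).flatMap fun i =>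
      bif acc c (Fg init st c ((wl (k c) (n + 1)).getD i [])) then [i] else [])

private theorem g_getD {β : Type} (L : List β) (d : β) (K q a : ℕ) (f : β → ℕ → ℕ)
    (hq : q < L.length) (ha : a < K) :
    ((L.map fun w => (List.range K).map fun a => f w a).getD q []).getD a 0 = f (L.getD q d) a := by
  have h1 : (L.map fun w => (List.range K).map fun a => f w a).getD q [] =
      (List.range K).map fun a => f (L.getD q d) a := by
    rw [List.getD_eq_getElem _ _ (by rw [List.length_map]; exact hq), List.getElem_map,
      List.getD_eq_getElem _ _ hq]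
  rw [h1, List.getD_eq_getElem _ _ (by rw [List.length_map, List.length_range]; exact ha),
    List.getElem_map, List.getElem_range]

private theorem g_foldr {β : Type} (p : β → Bool) (l : List β) :
    l.foldr (fun w s => p w && s) true = true ↔ ∀ w ∈ l, p w = true := by
  induction l with
  | nil => simp
  | cons a l ih =>
    rw [List.foldr_cons, Bool.and_eq_true, ih, List.forall_mem_cons]

omit [Primcodable C] in
private theorem g_mem_ceg (c : C) (n : ℕ) (w : List ℕ) : eg init st c w ∈ ceg k init st c n ↔
    ∃ v ∈ wl (k c) (n + 1), Fg init st c v = Fg init st c w := by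
  unfold ceg
  rw [List.mem_map]
  constructor
  · rintro ⟨v, hv, h⟩
    exact ⟨v, hv, Encodable.encode_injective h⟩
  · rintro ⟨v, hv, h⟩
    exact ⟨v, hv, congrArg Encodable.encode h⟩

omit [Primcodable C] in
private theorem g_chk (c : C) (n : ℕ) : chk k init st c n = true ↔
    ∀ w ∈ wds (k c) (n + 1), ∃ v ∈ wl (k c) (n + 1), Fg init st c v = Fg init st c w := by
  unfold chk
  rw [g_foldr]
  refine forall_congr' fun w => forall_congr' fun _ => ?_
  rw [decide_eq_true_iff, List.idxOf_lt_length_iff, g_mem_ceg]

omit [Primcodable C] in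
private theorem g_ex (c : C)
    (hfin : Set.Finite {x | ∃ w : List ℕ, x = w.foldl (st c) (init c)}) :
    ∃ n, chk k init st c n = true := by
  by_contra hno
  have h1 : ∀ n, ∃ w ∈ wds (k c) (n + 1), ∀ v ∈ wl (k c) (n + 1),
      Fg init st c v ≠ Fg init st c w := by
    intro n
    by_contra h2
    apply hno
    refine ⟨n, (g_chk k init st c n).2 fun w hw => ?_⟩
    by_contra h3
    exact h2 ⟨w, hw, fun v hv h4 => h3 ⟨v, hv, h4⟩⟩
  choose w hw hv using h1
  have hinj : Function.Injective fun n => Fg init st c (w n) := by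
    have key : ∀ n m : ℕ, n < m → Fg init st c (w n) ≠ Fg init st c (w m) := by
      intro n m hnm
      refine hv m (w n) ((g_mem_wl _ _ _).2 ?_)
      obtain ⟨h2, h3⟩ := (g_mem_wds _ _ _).1 (hw n)
      exact ⟨by omega, h3⟩
    intro n m hnm
    rcases Nat.lt_trichotomy n m with h | h | h
    · exact absurd hnm (key n m h)
    · exact h
    · exact absurd hnm.symm (key m n h)
  have hmem : ∀ n, Fg init st c (w n) ∈ {x | ∃ w : List ℕ, x = w.foldl (st c) (init c)} :=
    fun n => ⟨w n, rfl⟩
  exact Set.infinite_of_injective_forall_mem hinj hmem hfin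

variable {k init st acc}

private theorem g_pF (hinit : Primrec init)
    (hst : Primrec fun x : C × (σ × ℕ) => st x.1 x.2.1 x.2.2) :
    Primrec fun p : C × List ℕ => Fg init st p.1 p.2 := by
  have hh : Primrec₂ fun (p : C × List ℕ) (s : σ × ℕ) => st p.1 s.1 s.2 :=
    hst.comp ((Primrec.fst.comp Primrec.fst).pair Primrec.snd)
  exact Primrec.list_foldl (f := fun p : C × List ℕ => p.2) (g := fun p => init p.1)
    Primrec.snd (hinit.comp Primrec.fst) hh

private theorem g_pe (hinit : Primrec init)
    (hst : Primrec fun x : C × (σ × ℕ) => st x.1 x.2.1 x.2.2) :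
    Primrec fun p : C × List ℕ => eg init st p.1 p.2 :=
  Primrec.encode.comp (g_pF hinit hst)

private theorem g_pwlc (hk : Primrec k) : Primrec fun p : C × ℕ => wl (k p.1) (p.2 + 1) :=
  g_pwl.comp ((hk.comp Primrec.fst).pair (Primrec.succ.comp Primrec.snd))

private theorem g_pce (hk : Primrec k) (hinit : Primrec init)
    (hst : Primrec fun x : C × (σ × ℕ) => st x.1 x.2.1 x.2.2) :
    Primrec fun p : C × ℕ => ceg k init st p.1 p.2 := by
  refine Primrec.list_map (g_pwlc hk) ?_
  exact (g_pe hinit hst).comp ((Primrec.fst.comp Primrec.fst).pair Primrec.snd)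

private theorem g_pchk (hk : Primrec k) (hinit : Primrec init)
    (hst : Primrec fun x : C × (σ × ℕ) => st x.1 x.2.1 x.2.2) :
    Primrec₂ fun (c : C) (n : ℕ) => chk k init st c n := by
  have hce := g_pce hk hinit hst
  have hh : Primrec₂ fun (p : C × ℕ) (b : List ℕ × Bool) =>
      decide ((ceg k init st p.1 p.2).idxOf (eg init st p.1 b.1) <
        (ceg k init st p.1 p.2).length) && b.2 := by
    have h1 : Primrec fun z : (C × ℕ) × (List ℕ × Bool) => ceg k init st z.1.1 z.1.2 :=
      hce.comp Primrec.fst
    have h2 : Primrec fun z : (C × ℕ) × (List ℕ × Bool) => eg init st z.1.1 z.2.1 :=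
      (g_pe hinit hst).comp ((Primrec.fst.comp Primrec.fst).pair (Primrec.fst.comp Primrec.snd))
    have h3 : PrimrecPred fun z : (C × ℕ) × (List ℕ × Bool) =>
        (ceg k init st z.1.1 z.1.2).idxOf (eg init st z.1.1 z.2.1) <
          (ceg k init st z.1.1 z.1.2).length :=
      Primrec.nat_lt.comp (Primrec.list_idxOf.comp h2 h1) (Primrec.list_length.comp h1)
    exact Primrec.and.comp h3.decide (Primrec.snd.comp Primrec.snd)
  have hw : Primrec fun p : C × ℕ => wds (k p.1) (p.2 + 1) :=
    g_pwds.comp ((hk.comp Primrec.fst).pair (Primrec.succ.comp Primrec.snd))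
  exact Primrec.list_foldr hw (Primrec.const true) hh

private theorem g_ptab (hk : Primrec k) (hinit : Primrec init)
    (hst : Primrec fun x : C × (σ × ℕ) => st x.1 x.2.1 x.2.2)
    (hacc : Primrec fun x : C × σ => acc x.1 x.2) :
    Primrec₂ fun (c : C) (n : ℕ) => tabg k init st acc c n := by
  have hce := g_pce hk hinit hst
  have hwl := g_pwlc hk
  have h1 : Primrec fun p : C × ℕ => (wl (k p.1) (p.2 + 1)).map fun w =>
      (List.range (k p.1)).map fun a =>
        (ceg k init st p.1 p.2).idxOf (eg init st p.1 (w ++ [a])) := by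
    refine Primrec.list_map hwl ?_
    have h2 : Primrec fun z : (C × ℕ) × List ℕ => (List.range (k z.1.1)).map fun a =>
        (ceg k init st z.1.1 z.1.2).idxOf (eg init st z.1.1 (z.2 ++ [a])) := by
      refine Primrec.list_map
        (Primrec.list_range.comp (hk.comp (Primrec.fst.comp Primrec.fst))) ?_
      have h3 : Primrec fun y : ((C × ℕ) × List ℕ) × ℕ =>
          (ceg k init st y.1.1.1 y.1.1.2).idxOf (eg init st y.1.1.1 (y.1.2 ++ [y.2])) := by
        refine Primrec.list_idxOf.comp ?_ (hce.comp (Primrec.fst.comp Primrec.fst))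
        refine (g_pe hinit hst).comp
          ((Primrec.fst.comp (Primrec.fst.comp Primrec.fst)).pair ?_)
        exact Primrec.list_concat.comp (Primrec.snd.comp Primrec.fst) Primrec.snd
      exact h3
    exact h2
  have h4 : Primrec fun p : C × ℕ => (List.range (ceg k init st p.1 p.2).length).flatMap fun i =>
      bif acc p.1 (Fg init st p.1 ((wl (k p.1) (p.2 + 1)).getD i [])) then [i] else [] := by
    refine Primrec.list_flatMap (Primrec.list_range.comp (Primrec.list_length.comp hce)) ?_
    have h5 : Primrec fun z : (C × ℕ) × ℕ =>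
        acc z.1.1 (Fg init st z.1.1 ((wl (k z.1.1) (z.1.2 + 1)).getD z.2 [])) := by
      refine hacc.comp ((Primrec.fst.comp Primrec.fst).pair
        ((g_pF hinit hst).comp ((Primrec.fst.comp Primrec.fst).pair ?_)))
      exact (Primrec.list_getD []).comp (hwl.comp Primrec.fst) Primrec.snd
    exact Primrec.cond h5 (Primrec.list_cons.comp Primrec.snd (Primrec.const []))
      (Primrec.const [])
  exact h1.pair h4

omit [Primcodable C] [Primcodable σ] in
private theorem g_step (c : C) (w : List ℕ) (a : ℕ) :
    Fg init st c (w ++ [a]) = st c (Fg init st c w) a := by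
  unfold Fg
  rw [List.foldl_append]
  rfl

omit [Primcodable C] in
private theorem g_run (c : C) (n : ℕ) (hn : chk k init st c n = true) (w : List (Fin (k c))) :
    runC (tabg k init st acc c n) w < (wl (k c) (n + 1)).length ∧
      Fg init st c ((wl (k c) (n + 1)).getD (runC (tabg k init st acc c n) w) []) =
        Fg init st c (w.map Fin.val) := by
  obtain ⟨L, hL⟩ : ∃ L, L = wl (k c) (n + 1) := ⟨_, rfl⟩
  rw [← hL]
  induction w using List.reverseRecOn with
  | nil =>
    obtain ⟨t, ht⟩ := g_wl_zero (k c) n
    rw [← hL] at ht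
    have h0 : runC (tabg k init st acc c n) ([] : List (Fin (k c))) = 0 := rfl
    rw [h0, ht]
    exact ⟨Nat.succ_pos _, rfl⟩
  | append_singleton w a ih =>
    obtain ⟨h1, h2⟩ := ih
    obtain ⟨q, hq⟩ : ∃ q, q = runC (tabg k init st acc c n) w := ⟨_, rfl⟩
    rw [← hq] at h1 h2
    obtain ⟨v, hv⟩ : ∃ v, v = L.getD q [] := ⟨_, rfl⟩
    rw [← hv] at h2
    have hvL : v ∈ L := by
      rw [hv, List.getD_eq_getElem _ _ h1]
      exact List.getElem_mem h1
    have h3 : runC (tabg k init st acc c n) (w ++ [a]) =
        (ceg k init st c n).idxOf (eg init st c (v ++ [a.val])) := by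
      have e1 : runC (tabg k init st acc c n) (w ++ [a]) =
          stepC (tabg k init st acc c n) q a.val := by
        rw [hq]
        unfold runC
        rw [List.foldl_append]
        rfl
      rw [e1]
      unfold stepC
      have e2 : (tabg k init st acc c n).1 = L.map fun w =>
          (List.range (k c)).map fun a => (ceg k init st c n).idxOf (eg init st c (w ++ [a])) := by
        rw [hL]
        rfl
      rw [e2, hv]
      exact g_getD L [] (k c) q a.val
        (fun w a => (ceg k init st c n).idxOf (eg init st c (w ++ [a]))) h1 a.isLt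
    have h4 : Fg init st c (v ++ [a.val]) = Fg init st c ((w ++ [a]).map Fin.val) := by
      rw [List.map_append, List.map_cons, List.map_nil, g_step, g_step, h2]
    have h5 : eg init st c (v ++ [a.val]) ∈ ceg k init st c n := by
      rw [g_mem_ceg]
      rw [hL, g_mem_wl] at hvL
      obtain ⟨h6, h7⟩ := hvL
      have h8 : ∀ b ∈ v ++ [a.val], b < k c := by
        intro b hb
        rcases List.mem_append.1 hb with hb | hb
        · exact h7 b hb
        · rw [List.mem_singleton.1 hb]
          exact a.isLt
      rcases Nat.lt_or_ge (v ++ [a.val]).length (n + 1) with h9 | h9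
      · exact ⟨_, (g_mem_wl _ _ _).2 ⟨h9, h8⟩, rfl⟩
      · refine (g_chk k init st c n).1 hn _ ((g_mem_wds _ _ _).2 ⟨?_, h8⟩)
        rw [List.length_append, List.length_singleton] at h9 ⊢
        omega
    have h6 := List.idxOf_lt_length_iff.2 h5
    have h7 := List.getElem_idxOf h6
    have hlen : (ceg k init st c n).length = L.length := by
      unfold ceg
      rw [List.length_map, hL]
    rw [h3]
    refine ⟨by rw [← hlen]; exact h6, ?_⟩
    rw [← h4]
    generalize (ceg k init st c n).idxOf (eg init st c (v ++ [a.val])) = j at h6 h7 ⊢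
    have hj : j < L.length := by
      rw [← hlen]
      exact h6
    rw [List.getD_eq_getElem _ _ hj]
    have h8 : (ceg k init st c n)[j] = eg init st c L[j] := by
      subst hL
      unfold ceg
      rw [List.getElem_map]
    rw [h8] at h7
    exact Encodable.encode_injective h7

end

/-- Main result of this module. -/
theorem gen {C σ : Type} [Primcodable C] [Primcodable σ] (k : C → ℕ) (init : C → σ)
    (st : C → σ → ℕ → σ) (acc : C → σ → Bool) (hk : Primrec k) (hinit : Primrec init)
    (hst : Primrec fun x : C × (σ × ℕ) => st x.1 x.2.1 x.2.2)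
    (hacc : Primrec fun x : C × σ => acc x.1 x.2)
    (hfin : ∀ c, Set.Finite {x | ∃ w : List ℕ, x = w.foldl (st c) (init c)}) :
    ∃ f : C → Code, Computable f ∧ ∀ (c : C) (w : List (Fin (k c))),
      w ∈ langC (k c) (f c) ↔ acc c ((w.map Fin.val).foldl (st c) (init c)) = true := by
  have hex : ∀ c, ∃ n, chk k init st c n = true := fun c => g_ex k init st c (hfin c)
  obtain ⟨ν, hν⟩ : ∃ ν : C → ℕ, ∀ c, chk k init st c (ν c) = true ∧
      ∀ m < ν c, chk k init st c m = false := by
    refine ⟨fun c => Nat.find (hex c), fun c => ⟨Nat.find_spec (hex c), fun m hm => ?_⟩⟩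
    exact Bool.eq_false_iff.2 (Nat.find_min (hex c) hm)
  have hcomp : Computable ν := by
    have h1 := Partrec.rfind (g_pchk hk hinit hst).to_comp.partrec₂
    refine h1.of_eq_tot fun c => ?_
    rw [Nat.mem_rfind]
    refine ⟨?_, fun {m} hm => ?_⟩
    · show true ∈ Part.some (chk k init st c (ν c))
      rw [(hν c).1]
      exact Part.mem_some _
    · show false ∈ Part.some (chk k init st c m)
      rw [(hν c).2 m hm]
      exact Part.mem_some _
  refine ⟨fun c => tabg k init st acc c (ν c),
    (g_ptab hk hinit hst hacc).to_comp.comp Computable.id hcomp, fun c w => ?_⟩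
  obtain ⟨h1, h2⟩ := g_run (acc := acc) c (ν c) (hν c).1 w
  have hlen : (ceg k init st c (ν c)).length = (wl (k c) (ν c + 1)).length := by
    unfold ceg
    rw [List.length_map]
  show runC (tabg k init st acc c (ν c)) w ∈ (tabg k init st acc c (ν c)).2 ↔
    acc c (Fg init st c (w.map Fin.val)) = true
  rw [← h2]
  generalize runC (tabg k init st acc c (ν c)) w = q at h1 h2 ⊢
  show q ∈ ((List.range (ceg k init st c (ν c)).length).flatMap fun i =>
      bif acc c (Fg init st c ((wl (k c) (ν c + 1)).getD i [])) then [i] else []) ↔ _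
  rw [List.mem_flatMap]
  constructor
  · rintro ⟨i, hi, h3⟩
    cases h4 : acc c (Fg init st c ((wl (k c) (ν c + 1)).getD i [])) with
    | false =>
      rw [h4] at h3
      exact absurd h3 List.not_mem_nil
    | true =>
      rw [h4] at h3
      have h5 : q = i := List.mem_singleton.1 h3
      rw [h5]
      exact h4
  · intro h3
    refine ⟨q, List.mem_range.2 (by rw [hlen]; exact h1), ?_⟩
    rw [h3]
    exact List.mem_singleton.2 rfl

end Pool.Agent.HSP
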