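import Pool.Agent.HSP.Defs
import Pool.Agent.HLV.Dir
import Pool.Agent.HLV.Cut

/-!
# HSP-Hdl: the hidden language and its complement are in the half level

Plan.  `ι q = [Sum.inl q]` is a `GoodCode` with `l = 1` (`nov` is void: a word of length one is not the
product of two nonempty words), so `img ι K` is in `Pol (B n)` (`img_pol`, `1 ≤ n`).  Let
`M = {w | ∃ d, w = [Sum.inr d]}` (finite) and
`T = cat (img ι K) (cat M univ) ∪ cat univ (cat M (cat (img ι K) (cat M univ)))` (words with a closed block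
in `K`), in `Pol (B n)`, so in `B (n + 1)` (`pol_sub_B`).
* `NK K = ({[]} ∪ cat univ M) ∩ Tᶜ`, so `NK K ∈ B (n + 1)`.  (Every word is `y ++ v.map inl` with
  `y = (bs.map fun p => p.1.map inl ++ [inr p.2]).flatten`: induction on the word from the right, i.e.
  `List.reverseRecOn`; a closed block of such a word which is in `K` is one of the `p.1`.)
* `HD K = cat (NK K) (cat (img ι K) (cat {[inr true]} univ))`.
* `(HD K)ᶜ = cat (NK K) {v | all letters inl} ∪ cat (NK K) (cat (img ι K) (cat {[inr false]} univ))`: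
  `⊇`: if `y ++ u.map inl ++ inr d :: z = y' ++ u'.map inl ++ inr d' :: z'` with `y, y' ∈ NK K` and
  `u, u' ∈ K` then `d = d'` (the number of marks in `y` and `y'` is the same, because the block of the
  shorter one would be a block of the longer one; induction on the lists of blocks).  `⊆`: take the
  decomposition of `x` into blocks and the first block in `K`, if there is one.
  `{v | all letters inl} = (cat univ (cat M univ))ᶜ ∈ B 1`.
-/

namespace Pool.Agent.HSP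

open Pool.Agent.DD Pool.Agent.HLV

variable {A P S : Type}

section hdl

variable {Q : Type}

/-- The word of a list of blocks. -/
private def hdF (bs : List (List Q × Bool)) : List (Q ⊕ Bool) :=
  (bs.map fun p => p.1.map Sum.inl ++ [Sum.inr p.2]).flatten

private theorem hdF_nil : hdF ([] : List (List Q × Bool)) = [] := rfl

private theorem hdF_cons (p : List Q × Bool) (bs : List (List Q × Bool)) :
    hdF (p :: bs) = p.1.map Sum.inl ++ Sum.inr p.2 :: hdF bs := by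
  simp [hdF]

private theorem hdF_append (bs bs' : List (List Q × Bool)) : hdF (bs ++ bs') = hdF bs ++ hdF bs' := by
  simp [hdF]

private theorem hd_exists (x : List (Q ⊕ Bool)) : ∃ (bs : List (List Q × Bool)) (v : List Q),
    x = hdF bs ++ v.map Sum.inl := by
  induction x using List.reverseRecOn with
  | nil => exact ⟨[], [], rfl⟩
  | append_singleton x s ih =>
    obtain ⟨bs, v, rfl⟩ := ih
    rcases s with q | d
    · exact ⟨bs, v ++ [q], by simp⟩
    · refine ⟨bs ++ [(v, d)], [], ?_⟩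
      rw [hdF_append, hdF_cons, hdF_nil]
      simp

private theorem hd_C0 : ∀ (w u : List Q) (e d : Bool) (r z : List (Q ⊕ Bool)),
    w.map Sum.inl ++ Sum.inr e :: r = u.map Sum.inl ++ Sum.inr d :: z → w = u ∧ e = d ∧ r = z
  | [], [], e, d, r, z, h => by
    simp only [List.map_nil, List.nil_append, List.cons.injEq, Sum.inr.injEq] at h
    exact ⟨rfl, h.1, h.2⟩
  | [], b :: u, e, d, r, z, h => by
    simp at h
  | a :: w, [], e, d, r, z, h => by
    simp at h
  | a :: w, b :: u, e, d, r, z, h => by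
    simp only [List.map_cons, List.cons_append, List.cons.injEq, Sum.inl.injEq] at h
    obtain ⟨h1, h2, h3⟩ := hd_C0 w u e d r z h.2
    exact ⟨by rw [h.1, h1], h2, h3⟩

private theorem hd_no {v : List Q} {a rest : List (Q ⊕ Bool)} {d : Bool}
    (h : v.map Sum.inl = a ++ Sum.inr d :: rest) : False := by
  have h1 : (Sum.inr d : Q ⊕ Bool) ∈ v.map Sum.inl := by
    rw [h]
    simp
  simp at h1

private theorem hd_C {bs : List (List Q × Bool)} {v u : List Q} {d : Bool} {z : List (Q ⊕ Bool)}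
    (h : hdF bs ++ v.map Sum.inl = u.map Sum.inl ++ Sum.inr d :: z) :
    ∃ bs', bs = (u, d) :: bs' ∧ z = hdF bs' ++ v.map Sum.inl := by
  cases bs with
  | nil =>
    rw [hdF_nil, List.nil_append] at h
    exact (hd_no h).elim
  | cons p bs =>
    rw [hdF_cons, List.append_assoc, List.cons_append] at h
    obtain ⟨h1, h2, h3⟩ := hd_C0 _ _ _ _ _ _ h
    exact ⟨bs, by rw [← h1, ← h2], h3.symm⟩

private theorem hd_D {bs : List (List Q × Bool)} : ∀ {v : List Q} {a rest : List (Q ⊕ Bool)} {d : Bool},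
    hdF bs ++ v.map Sum.inl = a ++ Sum.inr d :: rest →
    ∃ bs1 p bs2, bs = bs1 ++ p :: bs2 ∧ rest = hdF bs2 ++ v.map Sum.inl := by
  induction bs with
  | nil =>
    intro v a rest d h
    rw [hdF_nil, List.nil_append] at h
    exact (hd_no h).elim
  | cons p bs ih =>
    intro v a rest d h
    rw [hdF_cons, List.append_assoc, List.cons_append] at h
    rw [List.append_eq_append_iff] at h
    rcases h with ⟨a', h1, h2⟩ | ⟨c', h1, h2⟩
    · cases a' with
      | nil =>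
        simp only [List.nil_append, List.cons.injEq] at h2
        exact ⟨[], p, bs, rfl, h2.2.symm⟩
      | cons s a' =>
        simp only [List.cons_append, List.cons.injEq] at h2
        obtain ⟨bs1, p', bs2, h3, h4⟩ := ih h2.2
        exact ⟨p :: bs1, p', bs2, by rw [h3]; rfl, h4⟩
    · cases c' with
      | nil =>
        simp only [List.nil_append, List.cons.injEq] at h2
        exact ⟨[], p, bs, rfl, h2.2⟩
      | cons s c' =>
        simp only [List.cons_append, List.cons.injEq] at h2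
        rw [← h2.1] at h1
        exact (hd_no h1).elim

private theorem hd_F {bs1 : List (List Q × Bool)} : ∀ {bs : List (List Q × Bool)} {v u : List Q} {d : Bool}
    {z : List (Q ⊕ Bool)}, hdF bs ++ v.map Sum.inl = hdF bs1 ++ (u.map Sum.inl ++ Sum.inr d :: z) →
    ∃ bs2, bs = bs1 ++ (u, d) :: bs2 ∧ z = hdF bs2 ++ v.map Sum.inl := by
  induction bs1 with
  | nil =>
    intro bs v u d z h
    rw [hdF_nil, List.nil_append] at h
    exact hd_C h
  | cons p bs1 ih =>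
    intro bs v u d z h
    rw [hdF_cons, List.append_assoc, List.cons_append] at h
    obtain ⟨bs', h1, h2⟩ := hd_C h
    obtain ⟨bs2, h3, h4⟩ := ih h2.symm
    exact ⟨bs2, by rw [h1, h3]; rfl, h4⟩

private theorem hd_H {bs1 : List (List Q × Bool)} : ∀ {bs : List (List Q × Bool)} {v v' : List Q},
    hdF bs ++ v.map Sum.inl = hdF bs1 ++ v'.map Sum.inl → bs = bs1 ∧ v = v' := by
  induction bs1 with
  | nil =>
    intro bs v v' h
    rw [hdF_nil, List.nil_append] at h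
    cases bs with
    | nil =>
      rw [hdF_nil, List.nil_append] at h
      exact ⟨rfl, List.map_injective_iff.mpr Sum.inl_injective h⟩
    | cons p bs =>
      rw [hdF_cons, List.append_assoc, List.cons_append] at h
      exact (hd_no h.symm).elim
  | cons p bs1 ih =>
    intro bs v v' h
    rw [hdF_cons, List.append_assoc, List.cons_append] at h
    obtain ⟨bs', h1, h2⟩ := hd_C h
    obtain ⟨h3, h4⟩ := ih h2.symm
    exact ⟨by rw [h1, h3], h4⟩

/-- The first block in `K` has the mark `d`. -/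
private def hdA (K : Lang Q) (d : Bool) (bs : List (List Q × Bool)) : Prop :=
  ∃ bs1 u bs2, bs = bs1 ++ (u, d) :: bs2 ∧ (∀ p ∈ bs1, p.1 ∉ K) ∧ u ∈ K

private theorem hdA_cons (K : Lang Q) (d : Bool) (p : List Q × Bool) (bs : List (List Q × Bool)) :
    hdA K d (p :: bs) ↔ (p.1 ∈ K ∧ p.2 = d) ∨ (p.1 ∉ K ∧ hdA K d bs) := by
  constructor
  · rintro ⟨bs1, u, bs2, h1, h2, h3⟩
    cases bs1 with
    | nil =>
      simp only [List.nil_append, List.cons.injEq] at h1
      left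
      rw [h1.1]
      exact ⟨h3, rfl⟩
    | cons p' bs1 =>
      simp only [List.cons_append, List.cons.injEq] at h1
      right
      refine ⟨?_, bs1, u, bs2, h1.2, fun q hq => h2 q (List.mem_cons_of_mem _ hq), h3⟩
      rw [h1.1]
      exact h2 p' List.mem_cons_self
  · rintro (⟨h1, h2⟩ | ⟨h1, bs1, u, bs2, h2, h3, h4⟩)
    · exact ⟨[], p.1, bs, by rw [← h2]; rfl, by simp, h1⟩
    · refine ⟨p :: bs1, u, bs2, by rw [h2]; rfl, ?_, h4⟩
      intro q hq
      rcases List.mem_cons.mp hq with rfl | hq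
      · exact h1
      · exact h3 q hq

private theorem hdA_nil (K : Lang Q) (d : Bool) : ¬ hdA K d [] := by
  rintro ⟨bs1, u, bs2, h1, _⟩
  simp at h1

private theorem hdA_not (K : Lang Q) (bs : List (List Q × Bool)) :
    ¬ hdA K true bs ↔ (∀ p ∈ bs, p.1 ∉ K) ∨ hdA K false bs := by
  induction bs with
  | nil => simp [hdA_nil]
  | cons p bs ih =>
    rw [hdA_cons, hdA_cons, List.forall_mem_cons]
    by_cases h : p.1 ∈ K
    · cases h2 : p.2 <;> simp [h]
    · simp only [h, false_and, not_false_eq_true, true_and, false_or]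
      exact ih

private theorem hd_E (K : Lang Q) (d : Bool) (bs : List (List Q × Bool)) (v : List Q) :
    (∃ y ∈ NK K, ∃ u ∈ K, ∃ z, hdF bs ++ v.map Sum.inl = y ++ (u.map Sum.inl ++ Sum.inr d :: z)) ↔ hdA K d bs := by
  constructor
  · rintro ⟨y, ⟨bs1, h1, rfl⟩, u, hu, z, h⟩
    obtain ⟨bs2, h3, _⟩ := hd_F (bs1 := bs1) h
    exact ⟨bs1, u, bs2, h3, h1, hu⟩
  · rintro ⟨bs1, u, bs2, rfl, h1, hu⟩
    refine ⟨hdF bs1, ⟨bs1, h1, rfl⟩, u, hu, hdF bs2 ++ v.map Sum.inl, ?_⟩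
    rw [hdF_append, hdF_cons]
    simp

private theorem hd_ext (w : List Q) : ext (fun q : Q => [(Sum.inl q : Q ⊕ Bool)]) w = w.map Sum.inl := by
  induction w with
  | nil => rfl
  | cons a w ih => rw [ext_cons, ih]; rfl

private theorem hd_NK (K : Lang Q) (bs : List (List Q × Bool)) (v : List Q) :
    hdF bs ++ v.map Sum.inl ∈ NK K ↔ v = [] ∧ ∀ p ∈ bs, p.1 ∉ K := by
  constructor
  · rintro ⟨bs1, h1, h⟩
    have h2 : hdF bs ++ v.map Sum.inl = hdF bs1 ++ ([] : List Q).map Sum.inl := by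
      rw [h]
      simp [hdF]
    obtain ⟨rfl, rfl⟩ := hd_H h2
    exact ⟨rfl, h1⟩
  · rintro ⟨rfl, h⟩
    exact ⟨bs, h, by simp [hdF]⟩

/-- Letters which are marks, as words. -/
private def hdM (Q : Type) : Lang (Q ⊕ Bool) := {w | ∃ d, w = [Sum.inr d]}

private def hdT (K : Lang Q) : Lang (Q ⊕ Bool) :=
  DD.cat (img (fun q : Q => [(Sum.inl q : Q ⊕ Bool)]) K) (DD.cat (hdM Q) Set.univ) ∪
    DD.cat Set.univ (DD.cat (hdM Q) (DD.cat (img (fun q : Q => [(Sum.inl q : Q ⊕ Bool)]) K) (DD.cat (hdM Q) Set.univ)))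

private theorem hd_IM (K : Lang Q) (x : List (Q ⊕ Bool)) :
    x ∈ DD.cat (img (fun q : Q => [(Sum.inl q : Q ⊕ Bool)]) K) (DD.cat (hdM Q) Set.univ) ↔
      ∃ u ∈ K, ∃ d z, x = u.map Sum.inl ++ Sum.inr d :: z := by
  constructor
  · rintro ⟨_, ⟨u, hu, rfl⟩, _, ⟨_, ⟨d, rfl⟩, z, _, rfl⟩, rfl⟩
    exact ⟨u, hu, d, z, by rw [hd_ext]; rfl⟩
  · rintro ⟨u, hu, d, z, rfl⟩
    exact ⟨_, ⟨u, hu, rfl⟩, _, ⟨_, ⟨d, rfl⟩, z, trivial, rfl⟩, by rw [hd_ext]; rfl⟩

private theorem hd_T (K : Lang Q) (bs : List (List Q × Bool)) (v : List Q) :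
    hdF bs ++ v.map Sum.inl ∈ hdT K ↔ ∃ p ∈ bs, p.1 ∈ K := by
  unfold hdT
  rw [Set.mem_union, hd_IM]
  constructor
  · rintro (⟨u, hu, d, z, h⟩ | ⟨a, _, _, ⟨_, ⟨d', rfl⟩, r, hr, rfl⟩, h⟩)
    · obtain ⟨bs', rfl, _⟩ := hd_C h
      exact ⟨(u, d), List.mem_cons_self, hu⟩
    · rw [hd_IM] at hr
      obtain ⟨u, hu, d, z, rfl⟩ := hr
      obtain ⟨bs1, p, bs2, rfl, h2⟩ := hd_D (a := a) (d := d') (rest := u.map Sum.inl ++ Sum.inr d :: z) h
      obtain ⟨bs', rfl, _⟩ := hd_C h2.symm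
      exact ⟨(u, d), by simp, hu⟩
  · rintro ⟨p, hp, hpK⟩
    obtain ⟨bs1, bs2, rfl⟩ := List.append_of_mem hp
    rcases List.eq_nil_or_concat bs1 with rfl | ⟨bs1', p', rfl⟩
    · left
      refine ⟨p.1, hpK, p.2, hdF bs2 ++ v.map Sum.inl, ?_⟩
      rw [List.nil_append, hdF_cons]
      simp
    · right
      refine ⟨hdF bs1' ++ p'.1.map Sum.inl, trivial, _, ⟨_, ⟨p'.2, rfl⟩, p.1.map Sum.inl ++ Sum.inr p.2 :: (hdF bs2 ++ v.map Sum.inl),
        (hd_IM K _).mpr ⟨p.1, hpK, p.2, _, rfl⟩, rfl⟩, ?_⟩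
      simp [hdF]

private theorem hd_NK_eq (K : Lang Q) : NK K = ({[]} ∪ DD.cat Set.univ (hdM Q)) ∩ (hdT K)ᶜ := by
  ext x
  obtain ⟨bs, v, rfl⟩ := hd_exists x
  rw [hd_NK, Set.mem_inter_iff, Set.mem_compl_iff, hd_T]
  have h1 : (∀ p ∈ bs, p.1 ∉ K) ↔ ¬ ∃ p ∈ bs, p.1 ∈ K := by
    push Not
    rfl
  rw [← h1]
  refine and_congr_left fun _ => ?_
  constructor
  · rintro rfl
    rcases List.eq_nil_or_concat bs with rfl | ⟨bs', p, rfl⟩
    · left
      rfl
    · right
      exact ⟨hdF bs' ++ p.1.map Sum.inl, trivial, [Sum.inr p.2], ⟨p.2, rfl⟩, by simp [hdF]⟩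
  · rintro (h | ⟨y, _, _, ⟨d, rfl⟩, h⟩)
    · have h2 : hdF bs ++ v.map Sum.inl = [] := h
      rw [List.append_eq_nil_iff] at h2
      simpa using h2.2
    · rcases List.eq_nil_or_concat v with rfl | ⟨v', q, rfl⟩
      · rfl
      · exfalso
        have h2 := congrArg List.getLast? h
        simp at h2

private theorem hd_all : {v : List (Q ⊕ Bool) | ∃ v' : List Q, v = v'.map Sum.inl} =
    (DD.cat Set.univ (DD.cat (hdM Q) Set.univ))ᶜ := by
  ext x
  obtain ⟨bs, v, rfl⟩ := hd_exists x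
  constructor
  · rintro ⟨v', h⟩ ⟨a, _, _, ⟨_, ⟨d, rfl⟩, r, _, rfl⟩, h2⟩
    rw [h] at h2
    exact hd_no h2
  · intro h
    rcases List.eq_nil_or_concat bs with rfl | ⟨bs', p, rfl⟩
    · exact ⟨v, rfl⟩
    · exfalso
      apply h
      exact ⟨hdF bs' ++ p.1.map Sum.inl, trivial, _, ⟨[Sum.inr p.2], ⟨p.2, rfl⟩, v.map Sum.inl, trivial, rfl⟩, by
        simp [hdF]⟩

private theorem hd_good : GoodCode (fun q : Q => [(Sum.inl q : Q ⊕ Bool)]) 1 where
  pos := le_rfl
  len := fun _ => rfl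
  inj := fun a b h => by simpa using h
  nov := by
    intro a b p r s hp hr h _
    have h1 := congrArg List.length h
    rw [List.length_append] at h1
    have h2 := List.length_pos_of_ne_nil hp
    have h3 := List.length_pos_of_ne_nil hr
    simp only [List.length_singleton] at h1
    omega

private theorem hd_cat (K : Lang Q) (d : Bool) :
    {x | ∃ y ∈ NK K, ∃ u ∈ K, ∃ z, x = y ++ (u.map Sum.inl ++ Sum.inr d :: z)} =
      DD.cat (NK K) (DD.cat (img (fun q : Q => [(Sum.inl q : Q ⊕ Bool)]) K) (DD.cat {[Sum.inr d]} Set.univ)) := by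
  ext x
  constructor
  · rintro ⟨y, hy, u, hu, z, rfl⟩
    exact ⟨y, hy, _, ⟨_, ⟨u, hu, rfl⟩, _, ⟨_, rfl, z, trivial, rfl⟩, rfl⟩, by rw [hd_ext]; rfl⟩
  · rintro ⟨y, hy, _, ⟨_, ⟨u, hu, rfl⟩, _, ⟨_, rfl, z, _, rfl⟩, rfl⟩, rfl⟩
    exact ⟨y, hy, u, hu, z, by rw [hd_ext]; rfl⟩

private theorem hd_compl (K : Lang Q) : (HD K)ᶜ =
    DD.cat (NK K) {v : List (Q ⊕ Bool) | ∃ v' : List Q, v = v'.map Sum.inl} ∪
      {x | ∃ y ∈ NK K, ∃ u ∈ K, ∃ z, x = y ++ (u.map Sum.inl ++ Sum.inr false :: z)} := by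
  ext x
  obtain ⟨bs, v, rfl⟩ := hd_exists x
  rw [Set.mem_union, Set.mem_compl_iff]
  have h1 : hdF bs ++ v.map Sum.inl ∈ HD K ↔ hdA K true bs := hd_E K true bs v
  have h2 : hdF bs ++ v.map Sum.inl ∈
      {x | ∃ y ∈ NK K, ∃ u ∈ K, ∃ z, x = y ++ (u.map Sum.inl ++ Sum.inr false :: z)} ↔ hdA K false bs :=
    hd_E K false bs v
  rw [h1, h2, hdA_not]
  refine or_congr_left' fun _ => ?_
  constructor
  · intro h
    exact ⟨hdF bs, ⟨bs, h, rfl⟩, v.map Sum.inl, ⟨v, rfl⟩, rfl⟩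
  · rintro ⟨y, ⟨bs1, h3, rfl⟩, _, ⟨v', rfl⟩, h4⟩
    obtain ⟨rfl, _⟩ := hd_H (bs1 := bs1) h4
    exact h3

end hdl

/-- Main result of this module. -/
theorem HD_half {Q : Type} [Finite Q] {n : ℕ} (hn : 1 ≤ n) {K : Lang Q} (hK : K ∈ Half (B Q n)) :
    HD K ∈ Half (B (Q ⊕ Bool) (n + 1)) ∧ (HD K)ᶜ ∈ Half (B (Q ⊕ Bool) (n + 1)) := by
  have hI : Pol (B (Q ⊕ Bool) n) (img (fun q : Q => [(Sum.inl q : Q ⊕ Bool)]) K) :=
    img_pol hd_good hn (pol_of_half hK)
  have hMf : (hdM Q).Finite := by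
    have : hdM Q = Set.range fun d : Bool => [(Sum.inr d : Q ⊕ Bool)] := by
      ext w
      constructor
      · rintro ⟨d, rfl⟩
        exact ⟨d, rfl⟩
      · rintro ⟨d, rfl⟩
        exact ⟨d, rfl⟩
    rw [this]
    exact Set.finite_range _
  have hM : ∀ i, Pol (B (Q ⊕ Bool) i) (hdM Q) := fun i => Pol.base (finite_mem_B hMf i)
  have hU : ∀ i, Pol (B (Q ⊕ Bool) i) Set.univ := fun i => Pol.base (univ_mem_B i)
  have hT : hdT K ∈ B (Q ⊕ Bool) (n + 1) :=
    pol_sub_B (Pol.union (Pol.cat hI (Pol.cat (hM n) (hU n)))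
      (Pol.cat (hU n) (Pol.cat (hM n) (Pol.cat hI (Pol.cat (hM n) (hU n))))))
  have hNK : NK K ∈ B (Q ⊕ Bool) (n + 1) := by
    rw [hd_NK_eq]
    refine B_inter (B_union (finite_mem_B (Set.finite_singleton _) _) (pol_sub_B (Pol.cat (hU n) (hM n)))) (B_compl hT)
  have hI' : Pol (B (Q ⊕ Bool) (n + 1)) (img (fun q : Q => [(Sum.inl q : Q ⊕ Bool)]) K) :=
    pol_mono (Nat.le_succ n) hI
  have hd : ∀ d : Bool, Pol (B (Q ⊕ Bool) (n + 1))
      {x | ∃ y ∈ NK K, ∃ u ∈ K, ∃ z, x = y ++ (u.map Sum.inl ++ Sum.inr d :: z)} := by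
    intro d
    rw [hd_cat]
    exact Pol.cat (Pol.base hNK) (Pol.cat hI' (Pol.cat (Pol.base (finite_mem_B (Set.finite_singleton _) _)) (hU _)))
  have hall : {v : List (Q ⊕ Bool) | ∃ v' : List Q, v = v'.map Sum.inl} ∈ B (Q ⊕ Bool) (n + 1) := by
    rw [hd_all]
    exact B_compl (pol_sub_B (Pol.cat (hU n) (Pol.cat (hM n) (hU n))))
  refine ⟨half_of_pol (hd true), half_of_pol ?_⟩
  rw [hd_compl]
  exact Pol.union (Pol.cat (Pol.base hNK) (Pol.base hall)) (hd false)

end Pool.Agent.HSP
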