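import Pool.Agent.HSP.Defs
import Pool.Agent.HLV.Pair

/-!
# HSP-Hdn: the hidden language is not in the full level

Long chains: the words with the `N` blocks `u, ..., u, v, ..., v` (the last `k` blocks are `v`) and alternating marks
increase with `k` with respect to a list of products controlling `HD K`, and are alternately in `HD K`.
-/

namespace Pool.Agent.HSP

open Pool.Agent.DD Pool.Agent.HLV

variable {A P S : Type}

/-- the word of a sequence of blocks -/
private def wd {Q : Type} (bs : List (List Q × Bool)) : List (Q ⊕ Bool) :=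
  (bs.map fun p => p.1.map Sum.inl ++ [Sum.inr p.2]).flatten

private theorem wd_cons {Q : Type} (p : List Q × Bool) (bs : List (List Q × Bool)) :
    wd (p :: bs) = p.1.map Sum.inl ++ Sum.inr p.2 :: wd bs := by
  unfold wd
  rw [List.map_cons, List.flatten_cons, List.append_assoc]
  rfl

private theorem wd_append {Q : Type} (bs bs' : List (List Q × Bool)) : wd (bs ++ bs') = wd bs ++ wd bs' := by
  unfold wd
  rw [List.map_append, List.flatten_append]

private theorem hd_split {Q : Type} (w : List Q) : ∀ (w' : List Q) (b b' : Bool) (r r' : List (Q ⊕ Bool)),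
    w.map Sum.inl ++ Sum.inr b :: r = w'.map Sum.inl ++ Sum.inr b' :: r' → w = w' ∧ b = b' ∧ r = r' := by
  induction w with
  | nil =>
    intro w' b b' r r' h
    cases w' with
    | nil => simpa using h
    | cons a w' => simp at h
  | cons a w ih =>
    intro w' b b' r r' h
    cases w' with
    | nil => simp at h
    | cons a' w' =>
      rw [List.map_cons, List.map_cons, List.cons_append, List.cons_append, List.cons.injEq] at h
      obtain ⟨h1, h2, h3⟩ := ih w' b b' r r' h.2
      have h4 := Sum.inl.inj h.1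
      exact ⟨by rw [h1, h4], h2, h3⟩

private theorem hd_first {Q : Type} {K : Lang Q} (bs : List (List Q × Bool)) : ∀ (bs' : List (List Q × Bool))
    (w w' : List Q) (b b' : Bool) (r r' : List (Q ⊕ Bool)), (∀ p ∈ bs, p.1 ∉ K) → (∀ p ∈ bs', p.1 ∉ K) →
    w ∈ K → w' ∈ K → wd bs ++ (w.map Sum.inl ++ Sum.inr b :: r) =
      wd bs' ++ (w'.map Sum.inl ++ Sum.inr b' :: r') → b = b' := by
  induction bs with
  | nil =>
    intro bs' w w' b b' r r' _ h2 h3 _ h
    cases bs' with
    | nil => exact (hd_split w w' b b' r r' h).2.1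
    | cons p bs' =>
      rw [wd_cons, List.append_assoc, List.cons_append] at h
      have h5 := (hd_split w p.1 b p.2 _ _ h).1
      rw [h5] at h3
      exact absurd h3 (h2 p List.mem_cons_self)
  | cons p bs ih =>
    intro bs' w w' b b' r r' h1 h2 h3 h4 h
    cases bs' with
    | nil =>
      rw [wd_cons, List.append_assoc, List.cons_append] at h
      have h5 := (hd_split p.1 w' p.2 b' _ _ h).1
      rw [← h5] at h4
      exact absurd h4 (h1 p List.mem_cons_self)
    | cons p' bs' =>
      rw [wd_cons, wd_cons, List.append_assoc, List.cons_append, List.append_assoc, List.cons_append] at h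
      exact ih bs' w w' b b' r r' (fun q hq => h1 q (List.mem_cons_of_mem _ hq))
        (fun q hq => h2 q (List.mem_cons_of_mem _ hq)) h3 h4 (hd_split _ _ _ _ _ _ h).2.2

private theorem hd_mem {Q : Type} {K : Lang Q} {bs : List (List Q × Bool)} {w : List Q} {b : Bool}
    {r : List (Q ⊕ Bool)} (hbs : ∀ p ∈ bs, p.1 ∉ K) (hw : w ∈ K) :
    wd bs ++ (w.map Sum.inl ++ Sum.inr b :: r) ∈ HD K ↔ b = true := by
  constructor
  · rintro ⟨y, ⟨bs', hbs', rfl⟩, u, hu, z, h⟩
    exact hd_first bs bs' w u b true r z hbs hbs' hw hu h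
  · rintro rfl
    exact ⟨wd bs, ⟨bs, hbs, rfl⟩, w, hw, r, rfl⟩

private theorem hd_tests (Ps : List (Lang A)) (hR : ∀ P ∈ Ps, Rec P) : ∃ Ts : List (Lang A),
    (∀ x y : List A, (∀ T ∈ Ts, x ∈ T → y ∈ T) → Below Ps x y) ∧
    (∀ x y : List A, Below Ps x y → ∀ T ∈ Ts, x ∈ T → y ∈ T) := by
  induction Ps with
  | nil =>
    exact ⟨[], fun x y _ P hP => absurd hP List.not_mem_nil, fun x y _ T hT => absurd hT List.not_mem_nil⟩
  | cons P Ps ih =>
    obtain ⟨Ts, h1, h2⟩ := ih fun P' hP' => hR P' (List.mem_cons_of_mem _ hP')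
    obtain ⟨cs, hcs⟩ := exists_contexts (hR P List.mem_cons_self)
    refine ⟨cs.map (fun c => ({w | c.1 ++ w ++ c.2 ∈ P} : Lang A)) ++ Ts, fun x y hxy => ?_,
      fun x y hxy T hT hx => ?_⟩
    · intro P' hP' s t hs
      rcases List.mem_cons.1 hP' with rfl | hP'
      · obtain ⟨c, hc, hw⟩ := hcs s t
        rw [hw] at hs ⊢
        exact hxy _ (List.mem_append_left _ (List.mem_map.2 ⟨c, hc, rfl⟩)) hs
      · exact h1 x y (fun T hT => hxy T (List.mem_append_right _ hT)) P' hP' s t hs
    · rcases List.mem_append.1 hT with hT | hT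
      · obtain ⟨c, hc, rfl⟩ := List.mem_map.1 hT
        exact hxy P List.mem_cons_self c.1 c.2 hx
      · exact h2 x y (fun P' hP' => hxy P' (List.mem_cons_of_mem _ hP')) T hT hx

/-- a chain longer than the number of tests has a repetition -/
private theorem hd_chain (Ts : List (Lang A)) (f : ℕ → List A)
    (hf : ∀ k ≤ Ts.length, ∀ T ∈ Ts, f k ∈ T → f (k + 1) ∈ T) :
    ∃ k ≤ Ts.length, ∀ T ∈ Ts, f (k + 1) ∈ T → f k ∈ T := by
  classical
  by_contra hcon
  have hstep : ∀ k ≤ Ts.length, (Ts.toFinset.filter fun T => f k ∈ T).card <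
      (Ts.toFinset.filter fun T => f (k + 1) ∈ T).card := by
    intro k hk
    refine Finset.card_lt_card ?_
    rw [Finset.ssubset_iff_subset_ne]
    refine ⟨fun T hT => ?_, fun he => ?_⟩
    · rw [Finset.mem_filter, List.mem_toFinset] at hT ⊢
      exact ⟨hT.1, hf k hk T hT.1 hT.2⟩
    · refine hcon ⟨k, hk, fun T hT hT' => ?_⟩
      have h1 : T ∈ Ts.toFinset.filter fun T => f (k + 1) ∈ T :=
        Finset.mem_filter.2 ⟨List.mem_toFinset.2 hT, hT'⟩
      rw [← he, Finset.mem_filter] at h1
      exact h1.2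
  have hge : ∀ k ≤ Ts.length + 1, k ≤ (Ts.toFinset.filter fun T => f k ∈ T).card := by
    intro k
    induction k with
    | zero => exact fun _ => Nat.zero_le _
    | succ k ih =>
      intro hk
      have h1 := ih (by omega)
      have h2 := hstep k (by omega)
      omega
  have h1 := hge (Ts.length + 1) le_rfl
  have h2 : (Ts.toFinset.filter fun T => f (Ts.length + 1) ∈ T).card ≤ Ts.length :=
    (Finset.card_filter_le _ _).trans (List.toFinset_card_le Ts)
  omega

private theorem hd_below {Q : Type} {Ps : List (Lang (Q ⊕ Bool))} (l : List ℕ) (g g' : ℕ → List Q × Bool)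
    (h : ∀ i ∈ l, Below Ps ((g i).1.map Sum.inl ++ [Sum.inr (g i).2])
      ((g' i).1.map Sum.inl ++ [Sum.inr (g' i).2])) : Below Ps (wd (l.map g)) (wd (l.map g')) := by
  induction l with
  | nil => exact Below.refl _ _
  | cons i l ih =>
    have h1 := h i List.mem_cons_self
    have h2 := ih fun j hj => h j (List.mem_cons_of_mem _ hj)
    exact h1.app h2

/-- Main result of this module. -/
theorem HD_not {Q : Type} [Finite Q] {n : ℕ} {K : Lang Q} (hK : Kᶜ ∉ Half (B Q n)) :
    HD K ∉ B (Q ⊕ Bool) (n + 1) := by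
  classical
  intro hH
  have hb : BoolCl (MonCl (B (Q ⊕ Bool) n)) (HD K) := hH
  obtain ⟨Ps, hPs, hctl⟩ := hb.exists_list
  have hPol : ∀ P ∈ Ps, Pol (B (Q ⊕ Bool) n) P := fun P hP => pol_of_monCl (hPs P hP)
  obtain ⟨Ss, hSs, hbel⟩ := exists_quotients Ps hPol
  have hsep : ¬ Separable (Half (B Q n)) Kᶜ K := by
    rintro ⟨S, hS, h1, h2⟩
    apply hK
    have h3 : S = Kᶜ := Set.Subset.antisymm (fun w hw => h2 w hw) h1
    rw [← h3]
    exact hS
  obtain ⟨u, hu, v, hv, huv⟩ := exists_pair hsep (Ss.map fun S => iq (fun q : Q => [Sum.inl q]) [] [] S) (by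
    intro S hS
    obtain ⟨S', hS', rfl⟩ := List.mem_map.1 hS
    exact iq_pol (fun q => List.cons_ne_nil _ _) (hSs S' hS') [] [])
  have hext : ∀ w : List Q, ext (fun q : Q => [(Sum.inl q : Q ⊕ Bool)]) w = w.map Sum.inl := by
    intro w
    induction w with
    | nil => rfl
    | cons a w ih =>
      rw [ext_cons, ih]
      rfl
  have huv' : Below Ps (u.map Sum.inl) (v.map Sum.inl) := by
    refine hbel _ _ fun S hS hs => ?_
    have h1 := huv _ (List.mem_map.2 ⟨S, hS, rfl⟩)
    rw [mem_iq, mem_iq, hext, hext, List.nil_append, List.nil_append, List.append_nil, List.append_nil] at h1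
    exact h1 hs
  have hRec : ∀ P ∈ Ps, Rec P := fun P hP => rec_B (MonCl_sub_B (hPs P hP))
  obtain ⟨Ts, hT1, hT2⟩ := hd_tests Ps hRec
  -- the words
  obtain ⟨N, hN⟩ : ∃ N, N = Ts.length + 2 := ⟨_, rfl⟩
  obtain ⟨g, hg⟩ : ∃ g : ℕ → ℕ → List Q × Bool, ∀ k i, g k i =
      (if i + (k + 1) < N then u else v, decide (i % 2 = 0)) := ⟨_, fun k i => rfl⟩
  have hmono : ∀ k, Below Ps (wd ((List.range N).map (g k))) (wd ((List.range N).map (g (k + 1)))) := by
    intro k
    refine hd_below _ _ _ fun i _ => ?_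
    rw [hg, hg]
    show Below Ps ((if i + (k + 1) < N then u else v).map Sum.inl ++ [Sum.inr (decide (i % 2 = 0))])
      ((if i + (k + 1 + 1) < N then u else v).map Sum.inl ++ [Sum.inr (decide (i % 2 = 0))])
    refine Below.app ?_ (Below.refl _ _)
    by_cases h1 : i + (k + 1) < N
    · rw [if_pos h1]
      by_cases h2 : i + (k + 1 + 1) < N
      · rw [if_pos h2]
        exact Below.refl _ _
      · rw [if_neg h2]
        exact huv'
    · rw [if_neg h1, if_neg (by omega)]
      exact Below.refl _ _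
  have hmem : ∀ k, k + 1 ≤ N → (wd ((List.range N).map (g k)) ∈ HD K ↔ (N - (k + 1)) % 2 = 0) := by
    intro k hk
    obtain ⟨m, hm⟩ : ∃ m, m = N - (k + 1) := ⟨_, rfl⟩
    have h1 : List.range N = List.range m ++ m :: (List.range k).map (fun j => m + 1 + j) := by
      rw [show N = m + 1 + k by omega, List.range_add, List.range_succ, List.append_assoc]
      simp
    have h2 : g k m = (v, decide (m % 2 = 0)) := by
      rw [hg, if_neg (by omega)]
    rw [← hm, h1, List.map_append, wd_append, List.map_cons, wd_cons, h2]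
    rw [hd_mem (K := K) (bs := (List.range m).map (g k)) (w := v) ?_ hv]
    · exact decide_eq_true_iff
    · intro p hp
      obtain ⟨i, hi, rfl⟩ := List.mem_map.1 hp
      rw [List.mem_range] at hi
      rw [hg, if_pos (by omega)]
      exact hu
  obtain ⟨k, hk, hk'⟩ := hd_chain Ts (fun k => wd ((List.range N).map (g k)))
    (fun k _ T hT h1 => hT2 _ _ (hmono k) T hT h1)
  have hback : Below Ps (wd ((List.range N).map (g (k + 1)))) (wd ((List.range N).map (g k))) := hT1 _ _ hk'
  have hsyn := hctl (wd ((List.range N).map (g k))) (wd ((List.range N).map (g (k + 1))))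
    (fun P hP s t => ⟨hmono k P hP s t, hback P hP s t⟩)
  have h1 := hsyn.mem
  rw [hmem k (by omega), hmem (k + 1) (by omega)] at h1
  omega

end Pool.Agent.HSP
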