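import Pool.Agent.HSP.Defs
import Pool.Agent.DD.Rec

/-!
# HSP-Rcode: recognizable languages have an automaton

Plan.  `N` finite monoid with `φ`.  `e : N ≃ Fin s` with `(e 1).val = 0` (`Finite.equivFin`, compose with
`Equiv.swap`; `s ≥ 1`).  Table `List.ofFn fun i : Fin s => List.ofFn fun a : Fin k =>
(e (e.symm i * φ [a])).val`; final states: the list of the `i.val` for which some `w` has `φ w = e.symm i`
and `w ∈ L` (a filter of `List.finRange s`, classical).  `runC c w = (e (φ w)).val` by induction on `w` from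
the right (`HLV.runC_snoc`); compare HLV/MRun.
-/

namespace Pool.Agent.HSP

open Pool.Agent.DD Pool.Agent.HLV

variable {A P S : Type}

private theorem gd_ofFn {β : Type} {n : ℕ} (g : Fin n → β) (y : β) (i : Fin n) :
    (List.ofFn g).getD i.val y = g i := by
  rw [List.getD_eq_getElem _ _ (by simp)]
  simp

/-- Main result of this module. -/
theorem exists_code {k : ℕ} {L : Lang (Fin k)} (h : Rec L) : ∃ c : Code, langC k c = L := by
  classical
  obtain ⟨N, _, _, φ, h1, hm, -, hL⟩ := h
  obtain ⟨S, ⟨e0⟩⟩ := Finite.exists_equiv_fin N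
  have hS : 0 < S := lt_of_le_of_lt (Nat.zero_le _) (e0 1).2
  obtain ⟨e, he⟩ : ∃ e : N ≃ Fin S, (e 1).val = 0 := by
    refine ⟨e0.trans (Equiv.swap (e0 1) ⟨0, hS⟩), ?_⟩
    simp
  let nt : List (List ℕ) :=
    List.ofFn (fun i : Fin S => List.ofFn fun a : Fin k => (e (e.symm i * φ [a])).val)
  let fs : List ℕ := ((List.finRange S).filter
    (fun i => decide (∃ w ∈ L, φ w = e.symm i))).map Fin.val
  have hrun : ∀ w : List (Fin k), runC (nt, fs) w = (e (φ w)).val := by
    intro w
    induction w using List.reverseRecOn with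
    | nil =>
      rw [h1, he]
      rfl
    | append_singleton w a ih =>
      rw [runC_snoc, ih]
      change (List.getD nt (e (φ w)).val []).getD a.val 0 = _
      rw [gd_ofFn, gd_ofFn, Equiv.symm_apply_apply, hm]
  refine ⟨(nt, fs), ?_⟩
  ext w
  change runC (nt, fs) w ∈ fs ↔ w ∈ L
  rw [hrun]
  constructor
  · intro hw
    obtain ⟨i, hi, hiw⟩ := List.mem_map.1 hw
    have hi2 := (List.mem_filter.1 hi).2
    obtain ⟨v, hv, hvi⟩ := of_decide_eq_true hi2
    have : i = e (φ w) := Fin.ext hiw
    rw [this, Equiv.symm_apply_apply] at hvi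
    exact (hL v w hvi).1 hv
  · intro hw
    refine List.mem_map.2 ⟨e (φ w), List.mem_filter.2 ⟨List.mem_finRange _, ?_⟩, rfl⟩
    exact decide_eq_true ⟨w, hw, (Equiv.symm_apply_apply e _).symm⟩

end Pool.Agent.HSP
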