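import Pool.Agent.HSP.Kex
import Pool.Agent.HSP.Hdl
import Pool.Agent.HSP.Hdn
import Pool.Agent.HSP.Rcode

/-!
# HSP-Hcode: a hidden language over `Fin 4`, with an automaton

The hidden language `HD K` of `Hdl`, `Hdn`, renamed along a bijection of `Fin 4` with `Fin 2 ⊕ Bool`.
-/

namespace Pool.Agent.HSP

open Pool.Agent.DD Pool.Agent.HLV

variable {A P S : Type}

private theorem hc_ext {Q : Type} {k : ℕ} (e : Fin k ≃ Q) (w : List Q) :
    ext (fun i : Fin k => [e i]) (ext (fun s : Q => [e.symm s]) w) = w := by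
  induction w with
  | nil => rfl
  | cons a w ih =>
    rw [ext_cons, ext_append, ih, ext_cons, ext_nil]
    simp

/-- Main result of this module. -/
theorem exists_hidden {n : ℕ} (hn : 1 ≤ n) : ∃ V : Code, langC 4 V ∉ B (Fin 4) (n + 1) ∧
    langC 4 V ∈ Half (B (Fin 4) (n + 1)) ∧ (langC 4 V)ᶜ ∈ Half (B (Fin 4) (n + 1)) := by
  obtain ⟨K, hK, hKc⟩ := exists_K n
  obtain ⟨h1, h2⟩ := HD_half (Q := Fin 2) hn hK
  have h3 := HD_not (Q := Fin 2) hKc
  obtain ⟨e⟩ : Nonempty (Fin 4 ≃ Fin 2 ⊕ Bool) :=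
    ⟨(Fintype.equivFinOfCardEq (show Fintype.card (Fin 2 ⊕ Bool) = 4 by simp)).symm⟩
  have h4 : ∀ i : Fin 4, [e i] ≠ [] := fun i => List.cons_ne_nil _ _
  have h5 : Pol (B (Fin 4) (n + 1)) (iq (fun i : Fin 4 => [e i]) [] [] (HD K)) :=
    iq_pol h4 (pol_of_half h1) [] []
  have h6 : Pol (B (Fin 4) (n + 1)) (iq (fun i : Fin 4 => [e i]) [] [] (HD K)ᶜ) :=
    iq_pol h4 (pol_of_half h2) [] []
  have h7 : iq (fun i : Fin 4 => [e i]) [] [] (HD K)ᶜ =
      (iq (fun i : Fin 4 => [e i]) [] [] (HD K))ᶜ := rfl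
  rw [h7] at h6
  obtain ⟨V, hV⟩ := exists_code (rec_B (pol_sub_B h5))
  refine ⟨V, ?_, ?_, ?_⟩
  · rw [hV]
    intro h8
    apply h3
    have h9 := iq_B (ψ := fun s : Fin 2 ⊕ Bool => [e.symm s]) (fun s => List.cons_ne_nil _ _) h8 [] []
    have h10 : iq (fun s : Fin 2 ⊕ Bool => [e.symm s]) [] []
        (iq (fun i : Fin 4 => [e i]) [] [] (HD K)) = HD K := by
      ext w
      rw [mem_iq, mem_iq, List.nil_append, List.append_nil, List.nil_append, List.append_nil,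
        hc_ext]
    rw [h10] at h9
    exact h9
  · rw [hV]
    exact half_of_pol h5
  · rw [hV]
    exact half_of_pol h6

end Pool.Agent.HSP
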