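import Pool.Agent.HSP.Win

/-!
# HSP-Kap: the canonical words with pads which do not depend on the state
-/

namespace Pool.Agent.HSP

open Pool.Agent.DD Pool.Agent.HLV

variable {A P S : Type}

private def kPhi {N : ℕ} (a₀ : A) (f : A → S) (pd : List A → List S) (x : Wd A N) : List S :=
  match x.1.getLast? with
  | some a => f a :: pd x.1
  | none => [f a₀]

private theorem kPhi_ne {N : ℕ} (a₀ : A) (f : A → S) (pd : List A → List S) (x : Wd A N) :
    kPhi a₀ f pd x ≠ [] := by
  unfold kPhi
  cases x.1.getLast? with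
  | none => exact List.cons_ne_nil _ _
  | some a => exact List.cons_ne_nil _ _

private theorem last_sfx {N : ℕ} (hN : 1 ≤ N) (c : List A) (a : A) :
    (sfx N (c ++ [a])).getLast? = some a := by
  unfold sfx
  rw [List.getLast?_drop, if_neg, List.getLast?_append]
  · simp
  · rw [List.length_append, List.length_singleton]
    omega

private theorem kPhi_sfx {N : ℕ} (hN : 1 ≤ N) (a₀ : A) (f : A → S) (pd : List A → List S)
    (c : List A) (a : A) :
    kPhi a₀ f pd (⟨sfx N (c ++ [a]), sfx_length N _⟩ : Wd A N) = f a :: pd (sfx N (c ++ [a])) := by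
  unfold kPhi
  rw [last_sfx hN c a]

private theorem canon_win {N : ℕ} (hN : 1 ≤ N) (a₀ : A) (f : A → S) (pd : List A → List S)
    (u : List A) : ∀ c : List A, canon N f pd c u = ext (kPhi a₀ f pd) (win N c u) := by
  induction u with
  | nil => exact fun c => rfl
  | cons a u ih =>
    intro c
    show f a :: (pd (sfx N (c ++ [a])) ++ canon N f pd (sfx N (c ++ [a])) u) =
      ext (kPhi a₀ f pd) (⟨sfx N (c ++ [a]), sfx_length N _⟩ :: win N (sfx N (c ++ [a])) u)
    rw [ext_cons, kPhi_sfx hN, ih, List.cons_append]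

/-- Main result of this module. -/
theorem canon_pol [Finite A] [Finite S] {n N : ℕ} (hN : 1 ≤ N) (f : A → S) (pd : List A → List S)
    {K : Lang S} (hK : Pol (B S n) K) (z : List S) :
    Pol (B A n) {u | canon N f pd [] u ++ z ∈ K} := by
  rcases isEmpty_or_nonempty A with hA | ⟨⟨a₀⟩⟩
  · refine Pol.base (finite_mem_B ((Set.finite_singleton []).subset fun u _ => ?_) n)
    cases u with
    | nil => rfl
    | cons a u => exact isEmptyElim a
  · have hW : Finite (Wd A N) := (List.finite_length_le A N).to_subtype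
    have h1 : Pol (B (Wd A N) n) (iq (kPhi a₀ f pd) [] z K) := iq_pol (kPhi_ne a₀ f pd) hK [] z
    have h2 := win_pol h1 []
    have e : ({u | canon N f pd [] u ++ z ∈ K} : Lang A) =
        {u | win N [] u ∈ iq (kPhi a₀ f pd) [] z K} := by
      ext u
      show canon N f pd [] u ++ z ∈ K ↔ [] ++ ext (kPhi a₀ f pd) (win N [] u) ++ z ∈ K
      rw [canon_win hN a₀, List.nil_append]
    rw [e]
    exact h2

end Pool.Agent.HSP
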