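import Pool.Agent.HSP.Defs
import Pool.Agent.HLV.Cls

/-!
# HSP-Pick: a pair which cannot be distinguished
-/

namespace Pool.Agent.HSP

open Pool.Agent.DD Pool.Agent.HLV

variable {A P S : Type}

private theorem pk_ext (f : P → S) (w : List P) : ext (fun p => [f p]) w = w.map f := by
  induction w with
  | nil => rfl
  | cons a w ih => rw [ext_cons, ih]; rfl

/-- A language which is determined by finitely many members of `B P i` is in `B P i`. -/
private theorem pk_det {i : ℕ} (Ls : List (Lang P)) (hL : ∀ L ∈ Ls, L ∈ B P i) :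
    ∀ D : Lang P, (∀ x ∈ D, ∀ y, y ∉ D → ∃ L ∈ Ls, ¬ (x ∈ L ↔ y ∈ L)) → D ∈ B P i := by
  induction Ls with
  | nil =>
    intro D h
    by_cases hD : ∃ x, x ∈ D
    · obtain ⟨x, hx⟩ := hD
      have e : D = Set.univ := by
        ext y
        constructor
        · intro _
          trivial
        · intro _
          by_contra hy
          obtain ⟨L, hL', -⟩ := h x hx y hy
          exact absurd hL' (by simp)
      rw [e]
      exact univ_mem_B i
    · have e : D = ∅ := by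
        ext y
        constructor
        · intro hy
          exact absurd ⟨y, hy⟩ hD
        · intro hy
          exact absurd hy (Set.notMem_empty y)
      rw [e]
      exact empty_mem_B i
  | cons L Ls ih =>
    intro D h
    have hL1 : L ∈ B P i := hL L (by simp)
    have key : ∀ M : Lang P, {w | ∃ x ∈ D ∩ M, ∀ L' ∈ Ls, (x ∈ L' ↔ w ∈ L')} ∈ B P i := by
      intro M
      refine ih (fun L' h' => hL L' (by simp [h'])) _ ?_
      rintro x ⟨x0, hx0, hx1⟩ y hy
      by_contra hcon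
      apply hy
      refine ⟨x0, hx0, fun L' hL' => (hx1 L' hL').trans ?_⟩
      by_contra h2
      exact hcon ⟨L', hL', h2⟩
    have e : D = ({w | ∃ x ∈ D ∩ L, ∀ L' ∈ Ls, (x ∈ L' ↔ w ∈ L')} ∩ L) ∪
        ({w | ∃ x ∈ D ∩ Lᶜ, ∀ L' ∈ Ls, (x ∈ L' ↔ w ∈ L')} ∩ Lᶜ) := by
      ext w
      constructor
      · intro hw
        by_cases hwL : w ∈ L
        · exact Or.inl ⟨⟨w, ⟨hw, hwL⟩, fun _ _ => Iff.rfl⟩, hwL⟩
        · exact Or.inr ⟨⟨w, ⟨hw, hwL⟩, fun _ _ => Iff.rfl⟩, hwL⟩
      · rintro (⟨⟨x, ⟨hx1, hx2⟩, hx3⟩, hw⟩ | ⟨⟨x, ⟨hx1, hx2⟩, hx3⟩, hw⟩)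
        · by_contra hwD
          obtain ⟨L', hL', h'⟩ := h x hx1 w hwD
          rcases List.mem_cons.1 hL' with rfl | hL'
          · exact h' ⟨fun _ => hw, fun _ => hx2⟩
          · exact h' (hx3 L' hL')
        · by_contra hwD
          obtain ⟨L', hL', h'⟩ := h x hx1 w hwD
          rcases List.mem_cons.1 hL' with rfl | hL'
          · exact h' ⟨fun h4 => absurd h4 hx2, fun h4 => absurd h4 hw⟩
          · exact h' (hx3 L' hL')
    rw [e]
    exact B_union (B_inter (key L) hL1) (B_inter (key Lᶜ) (B_compl hL1))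

/-- Main result of this module. -/
theorem hid_pair [Finite P] [Finite S] {ι : Type} [Finite ι] {i : ℕ} {D : Lang P} (hD : D ∉ B P i)
    {K : Lang S} (hK : K ∈ B S i) (φ : ι → P → S) :
    ∃ x ∈ D, ∃ y, y ∉ D ∧ ∀ j, SynEq K (x.map (φ j)) (y.map (φ j)) := by
  classical
  have := Fintype.ofFinite ι
  by_contra hcon
  apply hD
  obtain ⟨cs, hcs⟩ := exists_contexts (rec_B hK)
  refine pk_det ((Finset.univ : Finset ι).toList.flatMap fun j =>
    cs.map fun c => iq (fun p => [φ j p]) c.1 c.2 K) ?_ D ?_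
  · intro L hL
    obtain ⟨j, -, hj⟩ := List.mem_flatMap.1 hL
    obtain ⟨c, -, rfl⟩ := List.mem_map.1 hj
    exact iq_B (fun a => by simp) hK c.1 c.2
  · intro x hx y hy
    by_contra h1
    refine hcon ⟨x, hx, y, hy, fun j s t => ?_⟩
    obtain ⟨c, hc, hcw⟩ := hcs s t
    rw [hcw, hcw]
    by_contra h2
    refine h1 ⟨iq (fun p => [φ j p]) c.1 c.2 K, List.mem_flatMap.2
      ⟨j, Finset.mem_toList.2 (Finset.mem_univ j), List.mem_map.2 ⟨c, hc, rfl⟩⟩, ?_⟩
    rw [mem_iq, mem_iq, pk_ext, pk_ext]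
    exact h2

end Pool.Agent.HSP
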