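import Pool.Agent.HSP.Can
import Pool.Agent.HSP.Kap
import Pool.Agent.HSP.Pick
import Pool.Agent.HLV.PolB

/-!
# HSP-Hide: certificates are invisible for the half level

A separator `K` of the certified words cannot distinguish the blocks `x ∈ V.lang` and `y ∉ V.lang` of a
suitable pair (`hid_pair`), so it cannot distinguish the canonical words from the words with constant
pads, and `canon_pol` gives a separator of the two languages of `U`.
-/

namespace Pool.Agent.HSP

open Pool.Agent.DD Pool.Agent.HLV

variable {A P S : Type}

private theorem syn_flatMap {K : Lang S} (F G : ℕ → List S) (h : ∀ j, SynEq K (F j) (G j))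
    (l : List ℕ) : SynEq K (l.flatMap F) (l.flatMap G) := by
  induction l with
  | nil => exact SynEq.refl K _
  | cons j l ih =>
    rw [List.flatMap_cons, List.flatMap_cons]
    exact (h j).app ih

private theorem syn_cons {K : Lang S} {x y : List S} (s : S) (h : SynEq K x y) :
    SynEq K (s :: x) (s :: y) := (SynEq.refl K [s]).app h

/-- Main result of this module. -/
theorem hide [Finite A] [Finite P] [Finite S] {n N : ℕ} (G : Alph A P N S) (U : Aut A) (V : Dfa P)
    (hN : U.b ^ U.b ≤ N) (hD : V.lang ∉ B P (n + 1))
    (h : Separable (Half (B S n)) (Cert G U V true) (Cert G U V false)) :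
    Separable (Half (B A n)) (U.lang true) (U.lang false) := by
  obtain ⟨K, hK, hK1, hK2⟩ := h
  have hfin : Finite (Wd A N) := (List.finite_length_le A N).to_subtype
  let φ : Option (Wd A N) → P → S := fun j p =>
    match j with
    | none => G.ch (.fl p)
    | some w => G.ch (.lp w.1 (.pl p))
  obtain ⟨x, hx, y, hy, hxy⟩ := hid_pair hD (half_sub_B hK) φ
  obtain ⟨lw, hl⟩ := exists_loops U N
  have hfl : SynEq K (x.map fun p => G.ch (.fl p)) (y.map fun p => G.ch (.fl p)) := hxy none
  have hpl : ∀ w : List A, w.length ≤ N → SynEq K (x.map fun p => G.ch (.lp w (.pl p)))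
      (y.map fun p => G.ch (.lp w (.pl p))) := fun w hw => hxy (some ⟨w, hw⟩)
  have hpad : ∀ c q, SynEq K (pdq G U lw x y c q) (pd0 G U lw y c) := by
    intro c q
    unfold pdq pd0
    cases hc : lw c with
    | none => exact SynEq.refl K _
    | some w =>
      have hw := (hl.stab c w hc).2.1
      show SynEq K (padW G U.b w (fun j => if j = q then x else y)) (padW G U.b w (fun _ => y))
      unfold padW
      refine SynEq.right (syn_cons _ (syn_flatMap _ _ (fun j => ?_) _)) _
      refine SynEq.right ?_ _
      by_cases hj : j = q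
      · simp only [hj, if_true]
        exact hpl w hw
      · simp only [hj, if_false]
        exact SynEq.refl K _
  have hcan : ∀ (u : List A) (c : List A) (q : ℕ),
      SynEq K (can U N (fun a => G.ch (.fr a)) (pdq G U lw x y) c q u)
        (canon N (fun a => G.ch (.fr a)) (pd0 G U lw y) c u) := by
    intro u
    induction u with
    | nil => intro c q; exact SynEq.refl K _
    | cons a u ih =>
      intro c q
      exact syn_cons _ ((hpad _ _).app (ih _ _))
  have hN1 : 1 ≤ N := le_trans (Nat.one_le_pow _ _ U.pos) hN
  refine ⟨{u | canon N (fun a => G.ch (.fr a)) (pd0 G U lw y) [] u ++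
    (G.ch .dl :: y.map fun p => G.ch (.fl p)) ∈ K}, ?_, ?_, ?_⟩
  · exact half_iff.2 (canon_pol hN1 _ _ (half_iff.1 hK) _)
  · intro u hu
    have h1 := hK1 (can_cert G U V hN hl hx hy u hu (z := x) hx)
    exact (((hcan u [] 0).app (syn_cons _ hfl)).mem).1 h1
  · intro u hu hu'
    have h1 := can_cert G U V hN hl hx hy u hu' (z := y) (Bool.eq_false_iff.2 hy)
    refine hK2 _ ?_ h1
    exact (((hcan u [] 0).right _).mem).2 hu

end Pool.Agent.HSP
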