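import Pool.Agent.HSP.Defs
import Pool.Agent.HLV.OpF

/-!
# HSP-Kex: the half levels are not closed under complement

Induction on the level; the step is the operation `opF` and the collapse.
-/

namespace Pool.Agent.HSP

open Pool.Agent.DD Pool.Agent.HLV

variable {A P S : Type}

private theorem kx_code_ne (m : ℕ) : ∀ a : Fin (m + 2), cw m (m + 3) a.val ≠ [] := by
  intro a h
  have h1 : (cw m (m + 3) a.val).length = m + 3 + 4 :=
    cw_length (m := m) (M := m + 3) (a := a.val) (by omega)
  rw [h, List.length_nil] at h1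
  omega

/-- one half of `opF_half`, for all levels -/
private theorem kx_opF {m n : ℕ} (K : Lang (Fin (m + 2))) (h : (opF K)ᶜ ∈ Half (B (Fin (m + 2)) n)) :
    Kᶜ ∈ Half (B (Fin (m + 2)) n) := by
  have h1 := iq_pol (kx_code_ne m) (pol_of_half h) (hash m) (hash m)
  have h2 : iq (fun a : Fin (m + 2) => cw m (m + 3) a.val) (hash m) (hash m) (opF K)ᶜ = Kᶜ := by
    ext w
    constructor
    · intro hw hK
      apply hw
      intro u hu hinf
      have := infix_single.mp hinf
      rw [this] at hu
      exact hu hK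
    · intro hw hmem
      exact hmem w hw (infix_single.mpr rfl)
  rw [h2] at h1
  exact half_of_pol h1

/-- infinite products and unions of finite and cofinite languages contain a word with the letter `0` -/
private theorem kx_zero {L : Lang (Fin (0 + 2))} (h : Pol (B (Fin (0 + 2)) 0) L) :
    L.Infinite → ∃ w ∈ L, (0 : Fin (0 + 2)) ∈ w := by
  induction h with
  | @base L h =>
    intro hi
    rcases h with h | h
    · exact absurd h hi
    · by_contra hcon
      push Not at hcon
      have h1 : Set.range (fun k : ℕ => List.replicate (k + 1) (0 : Fin (0 + 2))) ⊆ Lᶜ := by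
        rintro w ⟨k, rfl⟩ hw
        exact hcon _ hw (by simp)
      have h2 : (Set.range (fun k : ℕ => List.replicate (k + 1) (0 : Fin (0 + 2)))).Infinite := by
        refine Set.infinite_range_of_injective fun j k hjk => ?_
        have := congrArg List.length hjk
        simpa using this
      exact h2 (h.subset h1)
  | @cat K L _ _ ihK ihL =>
    intro hi
    obtain ⟨w, x, hx, y, hy, rfl⟩ := hi.nonempty
    have h1 : K.Infinite ∨ L.Infinite := by
      by_contra hcon
      push Not at hcon
      apply hi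
      refine (Set.Finite.image2 (fun a b : List (Fin (0 + 2)) => a ++ b) hcon.1 hcon.2).subset ?_
      rintro w ⟨a, ha, b, hb, rfl⟩
      exact ⟨a, ha, b, hb, rfl⟩
    rcases h1 with h1 | h1
    · obtain ⟨a, ha, ha0⟩ := ihK h1
      exact ⟨a ++ y, ⟨a, ha, y, hy, rfl⟩, List.mem_append_left _ ha0⟩
    · obtain ⟨b, hb, hb0⟩ := ihL h1
      exact ⟨x ++ b, ⟨x, hx, b, hb, rfl⟩, List.mem_append_right _ hb0⟩
  | @union K L _ _ ihK ihL =>
    intro hi
    rcases Set.infinite_union.mp hi with h1 | h1
    · obtain ⟨a, ha, ha0⟩ := ihK h1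
      exact ⟨a, Or.inl ha, ha0⟩
    · obtain ⟨b, hb, hb0⟩ := ihL h1
      exact ⟨b, Or.inr hb, hb0⟩

private theorem kx_main (n : ℕ) : ∃ K : Lang (Fin (0 + 2)),
    K ∈ Half (B (Fin (0 + 2)) n) ∧ Kᶜ ∉ Half (B (Fin (0 + 2)) n) := by
  induction n with
  | zero =>
    refine ⟨{w | (0 : Fin (0 + 2)) ∈ w}, ?_, ?_⟩
    · apply half_of_pol
      have hu : Pol (B (Fin (0 + 2)) 0) Set.univ := Pol.base (univ_mem_B 0)
      have h0 : Pol (B (Fin (0 + 2)) 0) {[(0 : Fin (0 + 2))]} :=
        Pol.base (finite_mem_B (Set.finite_singleton _) 0)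
      have h1 := Pol.cat hu (Pol.cat h0 hu)
      have h2 : {w : List (Fin (0 + 2)) | (0 : Fin (0 + 2)) ∈ w} =
          DD.cat Set.univ (DD.cat {[(0 : Fin (0 + 2))]} Set.univ) := by
        ext w
        constructor
        · intro hw
          obtain ⟨s, t, rfl⟩ := List.append_of_mem hw
          exact ⟨s, trivial, [0] ++ t, ⟨[0], rfl, t, trivial, rfl⟩, rfl⟩
        · rintro ⟨s, _, r, ⟨c, hc, t, _, rfl⟩, rfl⟩
          rw [Set.mem_singleton_iff] at hc
          subst hc
          show (0 : Fin (0 + 2)) ∈ s ++ ([0] ++ t)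
          simp
      rw [h2]
      exact h1
    · intro h
      have h1 : ({w : List (Fin (0 + 2)) | (0 : Fin (0 + 2)) ∈ w}ᶜ : Lang (Fin (0 + 2))).Infinite := by
        have h2 : (Set.range (fun k : ℕ => List.replicate k (1 : Fin (0 + 2)))).Infinite := by
          refine Set.infinite_range_of_injective fun j k hjk => ?_
          have := congrArg List.length hjk
          simpa using this
        refine h2.mono ?_
        rintro w ⟨k, rfl⟩ hw
        have h3 := List.eq_of_mem_replicate hw
        exact absurd h3 (by decide)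
      obtain ⟨w, hw, hw0⟩ := kx_zero (pol_of_half h) h1
      exact hw hw0
  | succ n ih =>
    obtain ⟨K, hK, hKc⟩ := ih
    refine ⟨(opF K)ᶜ, ?_, ?_⟩
    · exact (opF_half (by omega) K).mpr (half_of_pol (Pol.base (B_compl (half_sub_B hK))))
    · rw [compl_compl]
      intro h
      exact hKc (kx_opF K ((collapse_iff (opF_pumpSep K) n).2.mp h))

/-- Main result of this module. -/
theorem exists_K (n : ℕ) : ∃ K : Lang (Fin 2), K ∈ Half (B (Fin 2) n) ∧ Kᶜ ∉ Half (B (Fin 2) n) := by
  exact kx_main n

end Pool.Agent.HSP
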