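import Pool.Agent.HSP.Defs
import Pool.Agent.HLV.Cut

/-!
# HSP-LevA: levels of the basic pieces
-/

namespace Pool.Agent.HSP

open Pool.Agent.DD Pool.Agent.HLV

variable {A P S : Type}

theorem one_B [Finite S] {N : ℕ} (G : Alph A P N S) (p : Tok A P → Prop) (i : ℕ) :
    one G p ∈ B S i := by
  refine finite_mem_B ((Set.finite_range fun s : S => [s]).subset ?_) i
  rintro w ⟨s, _, rfl⟩
  exact ⟨s, rfl⟩

theorem all_B [Finite S] {N : ℕ} (G : Alph A P N S) (p : Tok A P → Prop) {i : ℕ} (hi : 1 ≤ i) :
    all G p ∈ B S i := by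
  have h1 : Pol (B S 0) (cat Set.univ (cat (one G fun t => ¬ p t) Set.univ)) :=
    Pol.cat (Pol.base (univ_mem_B 0)) (Pol.cat (Pol.base (one_B G _ 0)) (Pol.base (univ_mem_B 0)))
  have h2 : (cat Set.univ (cat (one G fun t => ¬ p t) Set.univ))ᶜ ∈ B S 1 := B_compl (pol_sub_B h1)
  have e : all G p = (cat Set.univ (cat (one G fun t => ¬ p t) Set.univ))ᶜ := by
    ext w
    constructor
    · rintro hw ⟨x, _, y, ⟨z, ⟨s, hs, rfl⟩, r, _, rfl⟩, rfl⟩
      exact hs (hw s (by simp))
    · intro hw s hs
      by_contra hp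
      apply hw
      obtain ⟨x, r, rfl⟩ := List.append_of_mem hs
      exact ⟨x, Set.mem_univ _, s :: r, ⟨[s], ⟨s, hp, rfl⟩, r, Set.mem_univ _, rfl⟩, rfl⟩
  rw [e]
  exact B_mono hi h2

theorem blk_half [Finite S] [Finite P] {N : ℕ} (G : Alph A P N S) (V : Dfa P) {n : ℕ} (hn : 1 ≤ n)
    (h1 : V.lang ∈ Half (B P n)) (h2 : V.langᶜ ∈ Half (B P n)) (p : Tok A P → Prop)
    (hp : ∀ t, p t → plOf t ≠ none) (t : Bool) :
    {w | w ∈ all G p ∧ V.acc (V.run 0 (pls G w)) = t} ∈ Half (B S n) := by
  by_cases hne : Nonempty P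
  · obtain ⟨p₀⟩ := hne
    have hpls : ∀ w ∈ all G p, pls G w = ext (fun s => [(plOf (G.tk s)).getD p₀]) w := by
      intro w hw
      induction w with
      | nil => rfl
      | cons s w ih =>
        have h3 : plOf (G.tk s) ≠ none := hp _ (hw s List.mem_cons_self)
        obtain ⟨q, hq⟩ := Option.ne_none_iff_exists'.1 h3
        have h4 := ih fun x hx => hw x (List.mem_cons_of_mem _ hx)
        rw [ext_cons, ← h4]
        unfold pls
        simp [List.filterMap_cons, hq]
    have hL : Pol (B P n) (if t = true then V.lang else V.langᶜ) := by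
      split_ifs
      · exact pol_of_half h1
      · exact pol_of_half h2
    have h5 := inter_pol (Pol.base (all_B G p hn)) (iq_pol (ψ := fun s => [(plOf (G.tk s)).getD p₀])
      (fun s => by simp) hL [] [])
    have e : {w | w ∈ all G p ∧ V.acc (V.run 0 (pls G w)) = t} =
        all G p ∩ iq (fun s => [(plOf (G.tk s)).getD p₀]) [] []
          (if t = true then V.lang else V.langᶜ) := by
      ext w
      have key : w ∈ all G p → (V.acc (V.run 0 (pls G w)) = t ↔
          w ∈ iq (fun s => [(plOf (G.tk s)).getD p₀]) [] []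
            (if t = true then V.lang else V.langᶜ)) := by
        intro hw
        rw [mem_iq, List.nil_append, List.append_nil, ← hpls w hw]
        cases t with
        | true =>
          simp only [if_true]
          exact Iff.rfl
        | false =>
          simp only [Bool.false_eq_true, if_false, Set.mem_compl_iff]
          show _ ↔ ¬ (V.acc (V.run 0 (pls G w)) = true)
          simp
      constructor
      · rintro ⟨hw, h⟩
        exact ⟨hw, (key hw).1 h⟩
      · rintro ⟨hw, h⟩
        exact ⟨hw, (key hw).2 h⟩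
    rw [e]
    exact half_of_pol h5
  · refine half_of_pol (Pol.base (finite_mem_B ((Set.finite_singleton []).subset ?_) n))
    rintro w ⟨hw, _⟩
    cases w with
    | nil => rfl
    | cons s w =>
      exfalso
      have h3 : plOf (G.tk s) ≠ none := hp _ (hw s List.mem_cons_self)
      obtain ⟨q, _⟩ := Option.ne_none_iff_exists'.1 h3
      exact hne ⟨q⟩

end Pool.Agent.HSP
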