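import Pool.Agent.HSP.LevA

/-!
# HSP-LevB: levels of pads and of the errors inside pads
-/

namespace Pool.Agent.HSP

open Pool.Agent.DD Pool.Agent.HLV

variable {A P S : Type}

private theorem lb_isPl (t : Tok A P) (h : IsPl t) : plOf t ≠ none := by
  cases t with
  | fr a => exact absurd h (fun h => h)
  | dl => exact absurd h (fun h => h)
  | fl p => exact absurd h (fun h => h)
  | lp w l =>
    cases l with
    | pl p =>
      intro h1
      exact Option.some_ne_none p h1
    | op => exact absurd h (fun h => h)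
    | hs => exact absurd h (fun h => h)
    | cl => exact absurd h (fun h => h)

private theorem lb_isFl (t : Tok A P) (h : IsFl t) : plOf t ≠ none := by
  cases t with
  | fr a => exact absurd h (fun h => h)
  | dl => exact absurd h (fun h => h)
  | fl p =>
    intro h1
    exact Option.some_ne_none p h1
  | lp w l => exact absurd h (fun h => h)

private theorem lb_blk [Finite S] [Finite P] {N : ℕ} (G : Alph A P N S) (V : Dfa P) {n : ℕ}
    (hn : 1 ≤ n) (h1 : V.lang ∈ Half (B P n)) (h2 : V.langᶜ ∈ Half (B P n)) (t : Bool) :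
    Pol (B S n) (blkL G V t) :=
  half_iff.1 (blk_half G V hn h1 h2 IsPl lb_isPl t)

private theorem lb_nil {n : ℕ} : Pol (B S n) ({[]} : Lang S) :=
  Pol.base (finite_mem_B (Set.finite_singleton _) n)

private theorem lb_univ {n : ℕ} : Pol (B S n) (Set.univ : Lang S) := Pol.base (univ_mem_B n)

private theorem lb_any [Finite S] {N : ℕ} (G : Alph A P N S) {n : ℕ} (hn : 1 ≤ n) (j : ℕ) :
    Pol (B S n) (anyB G j) := by
  induction j with
  | zero => exact lb_nil
  | succ j ih => exact Pol.cat ih (Pol.cat (Pol.base (all_B G IsPl hn)) (Pol.base (one_B G IsHs n)))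

private theorem lb_hot [Finite S] [Finite P] {N : ℕ} (G : Alph A P N S) (V : Dfa P) {n : ℕ}
    (hn : 1 ≤ n) (h1 : V.lang ∈ Half (B P n)) (h2 : V.langᶜ ∈ Half (B P n)) (q j : ℕ) :
    Pol (B S n) (hotB G V q j) := by
  induction j with
  | zero => exact lb_nil
  | succ j ih =>
    exact Pol.cat ih (Pol.cat (lb_blk G V hn h1 h2 (decide (j = q))) (Pol.base (one_B G IsHs n)))

private theorem lb_range {n b : ℕ} (F : ℕ → Lang S) (h : ∀ j, Pol (B S n) (F j)) :
    Pol (B S n) {z | ∃ j < b, z ∈ F j} := by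
  have h1 := pol_list_union (List.range b) F fun j _ => h j
  have e : {z : List S | ∃ j < b, z ∈ F j} = {w | ∃ x ∈ List.range b, w ∈ F x} := by
    ext z
    constructor
    · rintro ⟨j, hj, hz⟩
      exact ⟨j, List.mem_range.2 hj, hz⟩
    · rintro ⟨j, hj, hz⟩
      exact ⟨j, List.mem_range.1 hj, hz⟩
  rw [e]
  exact h1

theorem Gam_half [Finite S] [Finite P] {N : ℕ} (G : Alph A P N S) (U : Aut A) (V : Dfa P) {n : ℕ}
    (hn : 1 ≤ n) (h1 : V.lang ∈ Half (B P n)) (h2 : V.langᶜ ∈ Half (B P n)) (q : ℕ) :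
    Gam G U V q ∈ Half (B S n) :=
  half_iff.2 (Pol.cat (Pol.base (one_B G IsOp n)) (Pol.cat (lb_hot G V hn h1 h2 q U.b)
    (Pol.cat (Pol.base (all_B G IsPl hn)) (Pol.base (one_B G IsCl n)))))

theorem PErr_half [Finite S] [Finite P] {N : ℕ} (G : Alph A P N S) (U : Aut A) (V : Dfa P) {n : ℕ}
    (hn : 1 ≤ n) (h1 : V.lang ∈ Half (B P n)) (h2 : V.langᶜ ∈ Half (B P n)) (s : ℕ) :
    PErr G U V s ∈ Half (B S n) := by
  rw [half_iff]
  have k1 : Pol (B S n) (cat (all G fun t : Tok A P => IsPl t ∨ IsHs t)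
      (cat (one G fun t : Tok A P => ¬ ∃ w l, t = .lp w l ∧ l ≠ .op ∧ U.run s w = s) Set.univ)) :=
    Pol.cat (Pol.base (all_B G _ hn)) (Pol.cat (Pol.base (one_B G _ n)) lb_univ)
  have k2 : Pol (B S n) {z | ∃ j < U.b, z ∈ cat (anyB G j)
      (cat (blkL G V (!decide (j = s))) (cat (one G IsHs) Set.univ))} :=
    lb_range (fun j => cat (anyB G j) (cat (blkL G V (!decide (j = s))) (cat (one G IsHs) Set.univ)))
      fun j => Pol.cat (lb_any G hn j) (Pol.cat (lb_blk G V hn h1 h2 _)
        (Pol.cat (Pol.base (one_B G IsHs n)) lb_univ))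
  have k3 : Pol (B S n) (cat (anyB G U.b) (cat (all G IsPl) (cat (one G IsHs) Set.univ))) :=
    Pol.cat (lb_any G hn U.b) (Pol.cat (Pol.base (all_B G _ hn))
      (Pol.cat (Pol.base (one_B G _ n)) lb_univ))
  have k4 : Pol (B S n) {z | ∃ j < U.b, z ∈ cat (anyB G j)
      (cat (all G IsPl) (cat (one G IsCl) Set.univ))} :=
    lb_range (fun j => cat (anyB G j) (cat (all G IsPl) (cat (one G IsCl) Set.univ)))
      fun j => Pol.cat (lb_any G hn j) (Pol.cat (Pol.base (all_B G _ hn))
        (Pol.cat (Pol.base (one_B G _ n)) lb_univ))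
  have k5 : Pol (B S n) (all G fun t : Tok A P => IsPl t ∨ IsHs t) := Pol.base (all_B G _ hn)
  have e : PErr G U V s = cat (all G fun t : Tok A P => IsPl t ∨ IsHs t)
      (cat (one G fun t : Tok A P => ¬ ∃ w l, t = .lp w l ∧ l ≠ .op ∧ U.run s w = s) Set.univ) ∪
      ({z | ∃ j < U.b, z ∈ cat (anyB G j) (cat (blkL G V (!decide (j = s))) (cat (one G IsHs) Set.univ))} ∪
      (cat (anyB G U.b) (cat (all G IsPl) (cat (one G IsHs) Set.univ)) ∪
      ({z | ∃ j < U.b, z ∈ cat (anyB G j) (cat (all G IsPl) (cat (one G IsCl) Set.univ))} ∪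
      all G fun t : Tok A P => IsPl t ∨ IsHs t))) := by
    ext z
    rfl
  rw [e]
  exact Pol.union k1 (Pol.union k2 (Pol.union k3 (Pol.union k4 k5)))

theorem FErr_half [Finite S] [Finite P] {N : ℕ} (G : Alph A P N S) (U : Aut A) (V : Dfa P) {n : ℕ}
    (hn : 1 ≤ n) (h1 : V.lang ∈ Half (B P n)) (h2 : V.langᶜ ∈ Half (B P n)) (s : ℕ) :
    FErr G U V s ∈ Half (B S n) := by
  rw [half_iff]
  have k1 : Pol (B S n) (cat (all G (IsFl (A := A) (P := P)))
      (cat (one G fun t : Tok A P => ¬ IsFl t) Set.univ)) :=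
    Pol.cat (Pol.base (all_B G _ hn)) (Pol.cat (Pol.base (one_B G _ n)) lb_univ)
  have k2 : Pol (B S n) {z | ∃ t : Bool, z ∈ (if U.F t s = false then
      ({w | w ∈ all G IsFl ∧ V.acc (V.run 0 (pls G w)) = t} : Lang S) else ∅)} := by
    refine pol_finite_union (fun t : Bool => (if U.F t s = false then
      ({w | w ∈ all G IsFl ∧ V.acc (V.run 0 (pls G w)) = t} : Lang S) else ∅)) fun t => ?_
    show Pol (B S n) (if U.F t s = false then
      ({w | w ∈ all G IsFl ∧ V.acc (V.run 0 (pls G w)) = t} : Lang S) else ∅)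
    split_ifs
    · exact half_iff.1 (blk_half G V hn h1 h2 IsFl lb_isFl t)
    · exact Pol.base (empty_mem_B n)
  have e : FErr G U V s = cat (all G IsFl) (cat (one G fun t : Tok A P => ¬ IsFl t) Set.univ) ∪
      {z | ∃ t : Bool, z ∈ (if U.F t s = false then
      ({w | w ∈ all G IsFl ∧ V.acc (V.run 0 (pls G w)) = t} : Lang S) else ∅)} := by
    ext z
    constructor
    · rintro (h | ⟨h3, h4⟩)
      · exact Or.inl h
      · refine Or.inr ⟨V.acc (V.run 0 (pls G z)), ?_⟩
        rw [if_pos h4]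
        exact ⟨h3, rfl⟩
    · rintro (h | ⟨t, ht⟩)
      · exact Or.inl h
      · by_cases h4 : U.F t s = false
        · rw [if_pos h4] at ht
          obtain ⟨h5, h6⟩ := ht
          refine Or.inr ⟨h5, ?_⟩
          rw [h6]
          exact h4
        · rw [if_neg h4] at ht
          exact absurd ht (Set.notMem_empty z)
  rw [e]
  exact Pol.union k1 k2

end Pool.Agent.HSP
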