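import Pool.Agent.HSP.EDefs
import Pool.Agent.HSP.Decd

/-!
# Project HSP, second part: separation by the full level `B (n + 1)` reduces to membership in `B (n + 2)`

Blocks have a type (`true` or `false`) and hidden marks: `IsS` (mark s), `IsS'` (mark s') or no mark.  In a
well formed sequence exactly the blocks at which the type changes are marked, first with s, then with s'.
`T0`: the run between the last s and the first s' has the type `false`.
Overview: /team-store/hsp_blueprint2.md
-/

namespace Pool.Agent.HSP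

open Pool.Agent.DD Pool.Agent.HLV

/-- Kinds of blocks: the type, marked or not, and the mark. -/
abbrev Th : Type := Bool × (Bool × Bool)

/-- The mark s. -/
def IsS (θ : Th) : Prop := θ.2.1 = true ∧ θ.2.2 = true

/-- The mark s'. -/
def IsS' (θ : Th) : Prop := θ.2.1 = true ∧ θ.2.2 = false

/-- Neighbours: a block is marked iff its type is not the type of the block before. -/
def Adj (θ θ' : Th) : Prop := θ'.2.1 = (θ'.1 != θ.1)

/-- Well formed sequences of kinds. -/
def WF0 (ts : List Th) : Prop :=
  (∃ θ r, ts = θ :: r ∧ IsS θ) ∧ ts.IsChain Adj ∧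
    ∃ α β, ts = α ++ β ∧ (∀ x ∈ α, ¬ IsS' x) ∧ ∀ x ∈ β, ¬ IsS x

/-- The run between the last s and the first s' has the type `false`. -/
def T0 (ts : List Th) : Prop :=
  WF0 ts ∧ ∃ α x β y γ, ts = α ++ x :: (β ++ y :: γ) ∧ IsS x ∧ IsS' y ∧
    (∀ z ∈ β, z.2.1 = false) ∧ x.1 = false

variable {M : ℕ}

/-- Blocks, each preceded by the delimiter. -/
def wq (ys : List (List (Fin M))) : List (Fin (M + 1)) :=
  (ys.map fun y => Fin.last M :: y.map Fin.castSucc).flatten

/-- Blocks, with delimiters around each of them. -/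
def wd (ys : List (List (Fin M))) : List (Fin (M + 1)) := wq ys ++ [Fin.last M]

/-- The language of the block languages `Z`. -/
def Tst (Z : Th → Lang (Fin M)) : Lang (Fin (M + 1)) :=
  {w | ∃ ps : List (Th × List (Fin M)), (∀ p ∈ ps, p.2 ∈ Z p.1) ∧ T0 (ps.map Prod.fst) ∧
    w = wd (ps.map Prod.snd)}

/-- The language of the well formed sequences. -/
def WFL (Z : Th → Lang (Fin M)) : Lang (Fin (M + 1)) :=
  {w | ∃ ps : List (Th × List (Fin M)), (∀ p ∈ ps, p.2 ∈ Z p.1) ∧ WF0 (ps.map Prod.fst) ∧
    w = wd (ps.map Prod.snd)}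

/-- There is an interval from a block which looks like s to a block which looks like s' without blocks
in `P`. -/
def Gm (Z' : Th → Lang (Fin M)) (P : Lang (Fin M)) : Lang (Fin (M + 1)) :=
  {w | ∃ α x β y γ, w = wd (α ++ x :: (β ++ y :: γ)) ∧ (∃ θ, IsS θ ∧ x ∈ Z' θ) ∧
    (∃ θ, IsS' θ ∧ y ∈ Z' θ) ∧ x ∉ P ∧ ∀ v ∈ β, v ∉ P}

/-- The image of a block language. -/
def bl (L : Lang (Fin M)) : Lang (Fin (M + 1)) := {w | ∃ y ∈ L, w = y.map Fin.castSucc}

/-! ### The block languages of a certificate -/

section

variable {A P S : Type}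

/-- Words of tokens `fl` with contents in `D` or not. -/
def flL {N : ℕ} (G : Alph A P N S) (V : Dfa P) (a : Bool) : Lang S :=
  {w | w ∈ all G IsFl ∧ V.acc (V.run 0 (pls G w)) = a}

/-- Two hidden marks. -/
def Tail {N : ℕ} (G : Alph A P N S) (V : Dfa P) (a b : Bool) : Lang S :=
  cat (one G IsDl) (cat (flL G V a) (cat (one G IsDl) (flL G V b)))

/-- The certified words with marks. -/
def Zt {N : ℕ} (G : Alph A P N S) (U : Aut A) (V : Dfa P) (θ : Th) : Lang S :=
  cat (Cert G U V θ.1) (Tail G V θ.2.1 θ.2.2)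

/-- The words which look like this. -/
def Zt' {N : ℕ} (G : Alph A P N S) (V : Dfa P) (θ : Th) : Lang S :=
  cat Set.univ (cat (one G IsDl) (cat (flL G V θ.1) (Tail G V θ.2.1 θ.2.2)))

end

/-! ### The control of the block sequences -/

/-- The states of the control: nothing read, dead, before the first block, or (type of the last block,
a mark s' has occurred, type of the last block with mark s). -/
def ctl (x : ℕ) (θ : Th) : ℕ :=
  if x = 2 then (if θ.2.1 && θ.2.2 then 3 + (if θ.1 then 4 else 0) + (if θ.1 then 1 else 0) else 1)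
  else if x < 3 then 1
  else
    let p : Bool := decide (4 ≤ x - 3)
    let h : Bool := decide (2 ≤ (x - 3) % 4)
    let l : Bool := decide ((x - 3) % 2 = 1)
    if θ.2.1 != (θ.1 != p) then 1
    else if θ.2.1 && θ.2.2 then
      (if h then 1 else 3 + (if θ.1 then 4 else 0) + (if θ.1 then 1 else 0))
    else if θ.2.1 then 3 + (if θ.1 then 4 else 0) + 2 + (if l then 1 else 0)
    else 3 + (if θ.1 then 4 else 0) + (if h then 2 else 0) + (if l then 1 else 0)

/-- The accepting states of the control. -/
def ctlAcc (x : ℕ) : Bool := decide (3 ≤ x) && (decide (2 ≤ (x - 3) % 4) && decide ((x - 3) % 2 = 0))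

/-- Numbers of kinds. -/
def ix (θ : Th) : ℕ := (if θ.1 then 4 else 0) + (if θ.2.1 then 2 else 0) + (if θ.2.2 then 1 else 0)

/-- Kinds of numbers. -/
def xi (i : ℕ) : Th := (decide (4 ≤ i), (decide (2 ≤ i % 4), decide (i % 2 = 1)))

/-- The number of the first code (of eight) whose set of final states contains the state. -/
def fst8 (cs : List Code) (qs : List ℕ) : ℕ :=
  ((List.range 8).map fun i => decide (qs.getD i 0 ∈ (cs.getD i ([], [])).2)).idxOf true

/-- The step of the machine for block sequences: states `(x, (f, qs))`, `x` the state of the control,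
`f = 1` just after a delimiter, `qs` the states of the eight automata. -/
def stQ (c : ℕ × List Code) (x : ℕ × (ℕ × List ℕ)) (a : ℕ) : ℕ × (ℕ × List ℕ) :=
  if x.1 = 0 then (if a = c.1 then (2, (1, List.replicate 8 0)) else (1, (0, [])))
  else if x.1 = 1 then (1, (0, []))
  else if a = c.1 then
    (if fst8 c.2 x.2.2 < 8 ∧ ctl x.1 (xi (fst8 c.2 x.2.2)) ≠ 1 then
      (ctl x.1 (xi (fst8 c.2 x.2.2)), (1, List.replicate 8 0)) else (1, (0, [])))
  else (x.1, (0, (List.range 8).map fun i => stepC (c.2.getD i ([], [])) (x.2.2.getD i 0) a))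

/-- Acceptance. -/
def acQ (_ : ℕ × List Code) (x : ℕ × (ℕ × List ℕ)) : Bool := decide (x.2.1 = 1) && ctlAcc x.1

end Pool.Agent.HSP
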