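import Pool.Agent.HSP.Kap
import Pool.Agent.HLV.PolB

/-!
# HSP-QWin: windows and canonical words, full levels
-/

namespace Pool.Agent.HSP

open Pool.Agent.DD Pool.Agent.HLV

variable {A P S : Type}

/-- Main result of this module. -/
theorem canon_B [Finite A] [Finite S] {n N : ℕ} (hN : 1 ≤ N) (f : A → S) (pd : List A → List S)
    {K : Lang S} (hK : K ∈ B S (n + 1)) (z : List S) :
    {u | canon N f pd [] u ++ z ∈ K} ∈ B A (n + 1) := by
  change BoolCl (MonCl (B S n)) K at hK
  induction hK with
  | base h => exact pol_sub_B (canon_pol hN f pd (pol_of_monCl h) z)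
  | compl _ ih => exact BoolCl.compl ih
  | union _ _ ih1 ih2 => exact BoolCl.union ih1 ih2
  | inter _ _ ih1 ih2 => exact BoolCl.inter ih1 ih2

end Pool.Agent.HSP
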