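import Pool.Agent.HSP.QPik
import Pool.Agent.HSP.QWin
import Pool.Agent.HSP.Can
import Pool.Agent.HSP.QDefs

/-!
# HSP-QJnt: all kinds of blocks at once cannot be distinguished by the full level

As in HSP/Hide, with a list of languages, two words and the hidden marks.
-/

namespace Pool.Agent.HSP

open Pool.Agent.DD Pool.Agent.HLV

variable {A P S : Type}

private theorem qj_flatMap {K : Lang S} (F G : ℕ → List S) (h : ∀ j, SynEq K (F j) (G j))
    (l : List ℕ) : SynEq K (l.flatMap F) (l.flatMap G) := by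
  induction l with
  | nil => exact SynEq.refl K _
  | cons j l ih =>
    rw [List.flatMap_cons, List.flatMap_cons]
    exact (h j).app ih

private theorem qj_cons {K : Lang S} {x y : List S} (s : S) (h : SynEq K x y) :
    SynEq K (s :: x) (s :: y) := (SynEq.refl K [s]).app h

private theorem qj_one {N : ℕ} (G : Alph A P N S) : [G.ch .dl] ∈ one G IsDl := by
  refine ⟨G.ch .dl, ?_, rfl⟩
  rw [G.inv .dl trivial]
  trivial

private theorem qj_pls {N : ℕ} (G : Alph A P N S) (z : List P) :
    pls G (z.map fun p => G.ch (.fl p)) = z := by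
  unfold pls
  induction z with
  | nil => rfl
  | cons p z ih =>
    rw [List.map_cons, List.filterMap_cons, G.inv (.fl p) trivial]
    show p :: _ = p :: z
    rw [ih]

private theorem qj_fl {N : ℕ} (G : Alph A P N S) (V : Dfa P) {a : Bool} {z : List P}
    (hz : V.acc (V.run 0 z) = a) : (z.map fun p => G.ch (.fl p)) ∈ flL G V a := by
  refine ⟨fun s hs => ?_, ?_⟩
  · obtain ⟨p, _, rfl⟩ := List.mem_map.1 hs
    rw [G.inv (.fl p) trivial]
    trivial
  · rw [qj_pls]
    exact hz

private theorem qj_tail {N : ℕ} (G : Alph A P N S) (V : Dfa P) {a b : Bool} {z z' : List P}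
    (hz : V.acc (V.run 0 z) = a) (hz' : V.acc (V.run 0 z') = b) :
    (G.ch .dl :: z.map fun p => G.ch (.fl p)) ++ (G.ch .dl :: z'.map fun p => G.ch (.fl p)) ∈
      Tail G V a b :=
  ⟨[G.ch .dl], qj_one G, _, ⟨z.map fun p => G.ch (.fl p), qj_fl G V hz, _,
    ⟨[G.ch .dl], qj_one G, z'.map fun p => G.ch (.fl p), qj_fl G V hz', rfl⟩, rfl⟩, rfl⟩

/-- Main result of this module. -/
theorem hide_joint [Finite A] [Finite P] [Finite S] {n N : ℕ} (G : Alph A P N S) (U : Aut A)
    (V : Dfa P) (hN : U.b ^ U.b ≤ N) (hD : V.lang ∉ B P (n + 1))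
    (h : ¬ Separable (B A (n + 1)) (U.lang true) (U.lang false))
    (Ks : List (Lang S)) (hK : ∀ K ∈ Ks, K ∈ B S (n + 1)) :
    ∃ z : Th → List S, (∀ θ, z θ ∈ Zt G U V θ) ∧ ∀ K ∈ Ks, ∀ θ θ', (z θ ∈ K ↔ z θ' ∈ K) := by
  classical
  have hfin : Finite (Wd A N) := (List.finite_length_le A N).to_subtype
  let φ : Option (Wd A N) → P → S := fun j p =>
    match j with
    | none => G.ch (.fl p)
    | some w => G.ch (.lp w.1 (.pl p))
  obtain ⟨x, hx, y, hy, hxy⟩ := hid_pairs hD Ks hK φ
  obtain ⟨lw, hl⟩ := exists_loops U N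
  have hN1 : 1 ≤ N := le_trans (Nat.one_le_pow _ _ U.pos) hN
  have hfl : ∀ K ∈ Ks, SynEq K (x.map fun p => G.ch (.fl p)) (y.map fun p => G.ch (.fl p)) :=
    fun K hKs => hxy K hKs none
  have hpl : ∀ K ∈ Ks, ∀ w : List A, w.length ≤ N →
      SynEq K (x.map fun p => G.ch (.lp w (.pl p))) (y.map fun p => G.ch (.lp w (.pl p))) :=
    fun K hKs w hw => hxy K hKs (some ⟨w, hw⟩)
  have hpad : ∀ K ∈ Ks, ∀ c q, SynEq K (pdq G U lw x y c q) (pd0 G U lw y c) := by
    intro K hKs c q
    unfold pdq pd0
    cases hc : lw c with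
    | none => exact SynEq.refl K _
    | some w =>
      have hw := (hl.stab c w hc).2.1
      show SynEq K (padW G U.b w (fun j => if j = q then x else y)) (padW G U.b w (fun _ => y))
      unfold padW
      refine SynEq.right (qj_cons _ (qj_flatMap _ _ (fun j => ?_) _)) _
      refine SynEq.right ?_ _
      by_cases hj : j = q
      · simp only [hj, if_true]
        exact hpl K hKs w hw
      · simp only [hj, if_false]
        exact SynEq.refl K _
  have hcan : ∀ K ∈ Ks, ∀ (u : List A) (c : List A) (q : ℕ),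
      SynEq K (can U N (fun a => G.ch (.fr a)) (pdq G U lw x y) c q u)
        (canon N (fun a => G.ch (.fr a)) (pd0 G U lw y) c u) := by
    intro K hKs u
    induction u with
    | nil => intro c q; exact SynEq.refl K _
    | cons a u ih =>
      intro c q
      exact qj_cons _ ((hpad K hKs _ _).app (ih _ _))
  -- the words with constant pads
  obtain ⟨k, hk⟩ : ∃ k : List A → List S, ∀ u, k u =
      canon N (fun a => G.ch (.fr a)) (pd0 G U lw y) [] u ++
        (G.ch .dl :: y.map fun p => G.ch (.fl p)) := ⟨_, fun _ => rfl⟩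
  have hcls : ∀ r : List S, {u | k u ∈ {w | ∀ Q ∈ Ks, SynEq Q r w}} ∈ B A (n + 1) := by
    intro r
    have h1 := canon_B hN1 (fun a => G.ch (.fr a)) (pd0 G U lw y) (synClass_B Ks hK r)
      (G.ch .dl :: y.map fun p => G.ch (.fl p))
    simp only [hk]
    exact h1
  have hpair : ∃ u ∈ U.lang true, ∃ v ∈ U.lang false, ∀ K ∈ Ks, SynEq K (k u) (k v) := by
    by_contra hcon
    apply h
    obtain ⟨xs, hxs⟩ := exists_reps Ks hK
    refine ⟨{u | ∃ r ∈ xs, u ∈ (if ∃ u' ∈ U.lang true, k u' ∈ {w | ∀ Q ∈ Ks, SynEq Q r w} then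
      {u | k u ∈ {w | ∀ Q ∈ Ks, SynEq Q r w}} else ∅ : Lang A)}, ?_, ?_, ?_⟩
    · refine B_list_union xs _ fun r _ => ?_
      split_ifs
      · exact hcls r
      · exact empty_mem_B _
    · intro u hu
      obtain ⟨r, hr, h1⟩ := hxs (k u)
      refine ⟨r, hr, ?_⟩
      rw [if_pos ⟨u, hu, h1⟩]
      exact h1
    · rintro w ⟨r, _, hw⟩ hwf
      split_ifs at hw with h1
      · obtain ⟨u, hu, h2⟩ := h1
        exact hcon ⟨u, hu, w, hwf, fun K hKs => (h2 K hKs).symm.trans (hw K hKs)⟩
      · exact hw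
  obtain ⟨u, hu, v, hv, huv⟩ := hpair
  have hch : ∀ b : Bool, V.acc (V.run 0 (if b = true then x else y)) = b := by
    intro b
    cases b with
    | true => exact hx
    | false => exact Bool.eq_false_iff.2 hy
  have huvm : ∀ t : Bool, (if t = true then u else v) ∈ U.lang t := by
    intro t
    cases t with
    | true => exact hu
    | false => exact hv
  have hfl' : ∀ K ∈ Ks, ∀ b : Bool, SynEq K
      (G.ch .dl :: (if b = true then x else y).map fun p => G.ch (.fl p))
      (G.ch .dl :: y.map fun p => G.ch (.fl p)) := by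
    intro K hKs b
    cases b with
    | true => exact qj_cons _ (hfl K hKs)
    | false => exact SynEq.refl K _
  have hkt : ∀ K ∈ Ks, ∀ t : Bool, SynEq K (k (if t = true then u else v)) (k u) := by
    intro K hKs t
    cases t with
    | true => exact SynEq.refl K _
    | false => exact (huv K hKs).symm
  refine ⟨fun θ => (can U N (fun a => G.ch (.fr a)) (pdq G U lw x y) [] 0
      (if θ.1 = true then u else v) ++
      (G.ch .dl :: (if θ.1 = true then x else y).map fun p => G.ch (.fl p))) ++
    ((G.ch .dl :: (if θ.2.1 = true then x else y).map fun p => G.ch (.fl p)) ++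
      (G.ch .dl :: (if θ.2.2 = true then x else y).map fun p => G.ch (.fl p))), ?_, ?_⟩
  · intro θ
    exact ⟨_, can_cert G U V hN hl hx hy _ (huvm θ.1) (hch θ.1), _,
      qj_tail G V (hch θ.2.1) (hch θ.2.2), rfl⟩
  · intro K hKs θ θ'
    have key : ∀ θ : Th, SynEq K ((can U N (fun a => G.ch (.fr a)) (pdq G U lw x y) [] 0
        (if θ.1 = true then u else v) ++
        (G.ch .dl :: (if θ.1 = true then x else y).map fun p => G.ch (.fl p))) ++
      ((G.ch .dl :: (if θ.2.1 = true then x else y).map fun p => G.ch (.fl p)) ++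
        (G.ch .dl :: (if θ.2.2 = true then x else y).map fun p => G.ch (.fl p))))
        (k u ++ ((G.ch .dl :: y.map fun p => G.ch (.fl p)) ++
          (G.ch .dl :: y.map fun p => G.ch (.fl p)))) := by
      intro θ
      refine SynEq.app ?_ ((hfl' K hKs θ.2.1).app (hfl' K hKs θ.2.2))
      refine SynEq.trans ?_ (hkt K hKs θ.1)
      rw [hk]
      exact (hcan K hKs _ [] 0).app (hfl' K hKs θ.1)
    exact ((key θ).trans (key θ').symm).mem

end Pool.Agent.HSP
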