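import Pool.Agent.HSP.QCrt
import Pool.Agent.HSP.RejL

/-!
# HSP-QLev: levels of the block languages

The complement of the union of the `Zt θ` is `(cat univ TT)ᶜ ∪ cat (Cert true ∪ Cert false)ᶜ TT`, where `TT`
is the union of the `Tail G V a b` (the decomposition `w = x ++ t`, `t ∈ TT`, is unique).
-/

namespace Pool.Agent.HSP

open Pool.Agent.DD Pool.Agent.HLV

variable {A P S : Type}

private theorem ql_flL [Finite S] [Finite P] {n N : ℕ} (G : Alph A P N S) (V : Dfa P) (hn : 1 ≤ n)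
    (h1 : V.lang ∈ Half (B P n)) (h2 : V.langᶜ ∈ Half (B P n)) (a : Bool) :
    Pol (B S n) (flL G V a) := by
  refine half_iff.1 (blk_half G V hn h1 h2 IsFl ?_ a)
  intro t ht
  cases t with
  | fl p => exact Option.some_ne_none p
  | _ => exact absurd ht not_false

private theorem ql_tail [Finite S] [Finite P] {n N : ℕ} (G : Alph A P N S) (V : Dfa P) (hn : 1 ≤ n)
    (h1 : V.lang ∈ Half (B P n)) (h2 : V.langᶜ ∈ Half (B P n)) (a b : Bool) :
    Pol (B S n) (Tail G V a b) :=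
  Pol.cat (Pol.base (one_B G _ n)) (Pol.cat (ql_flL G V hn h1 h2 a)
    (Pol.cat (Pol.base (one_B G _ n)) (ql_flL G V hn h1 h2 b)))

theorem zt'_half [Finite S] [Finite P] {n N : ℕ} (G : Alph A P N S) (V : Dfa P) (hn : 1 ≤ n)
    (h1 : V.lang ∈ Half (B P (n + 1))) (h2 : V.langᶜ ∈ Half (B P (n + 1))) (θ : Th) :
    Zt' G V θ ∈ Half (B S (n + 1)) :=
  half_iff.2 (Pol.cat (Pol.base (univ_mem_B _)) (Pol.cat (Pol.base (one_B G _ _))
    (Pol.cat (ql_flL G V (by omega) h1 h2 _) (ql_tail G V (by omega) h1 h2 _ _))))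

/-- the union of the tails -/
private def TT {N : ℕ} (G : Alph A P N S) : Lang S :=
  cat (one G IsDl) (cat (all G IsFl) (cat (one G IsDl) (all G IsFl)))

private theorem ql_uniq (p : S → Prop) {x x' z z' : List S} {r r' : S} (hr : p r) (hr' : p r')
    (hz : ∀ s ∈ z, ¬ p s) (hz' : ∀ s ∈ z', ¬ p s) (h : x ++ r :: z = x' ++ r' :: z') : x = x' := by
  rcases List.append_eq_append_iff.1 h with ⟨a, h1, h2⟩ | ⟨a, h1, h2⟩
  · cases a with
    | nil => rw [h1, List.append_nil]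
    | cons b a =>
      rw [List.cons_append, List.cons.injEq] at h2
      exact absurd hr' (hz r' (by rw [h2.2]; simp))
  · cases a with
    | nil => rw [h1, List.append_nil]
    | cons b a =>
      rw [List.cons_append, List.cons.injEq] at h2
      exact absurd hr (hz' r (by rw [h2.2]; simp))

private theorem ql_fl_dl {t : Tok A P} (h : IsFl t) : ¬ IsDl t := by
  cases t with
  | fl p => exact not_false
  | _ => exact absurd h not_false

private theorem ql_TT {N : ℕ} (G : Alph A P N S) {x x' t t' : List S} (ht : t ∈ TT G) (ht' : t' ∈ TT G)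
    (h : x ++ t = x' ++ t') : x = x' := by
  obtain ⟨_, ⟨r1, hr1, rfl⟩, _, ⟨z1, hz1, _, ⟨_, ⟨r2, hr2, rfl⟩, z2, hz2, rfl⟩, rfl⟩, rfl⟩ := ht
  obtain ⟨_, ⟨s1, hs1, rfl⟩, _, ⟨y1, hy1, _, ⟨_, ⟨s2, hs2, rfl⟩, y2, hy2, rfl⟩, rfl⟩, rfl⟩ := ht'
  have h1 : (x ++ r1 :: z1) ++ r2 :: z2 = (x' ++ s1 :: y1) ++ s2 :: y2 := by
    simpa using h
  have h2 := ql_uniq (fun s => IsDl (G.tk s)) hr2 hs2 (fun s hs => ql_fl_dl (hz2 s hs))
    (fun s hs => ql_fl_dl (hy2 s hs)) h1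
  exact ql_uniq (fun s => IsDl (G.tk s)) hr1 hs1 (fun s hs => ql_fl_dl (hz1 s hs))
    (fun s hs => ql_fl_dl (hy1 s hs)) h2

theorem zt_compl [Finite S] [Finite P] {n N : ℕ} (G : Alph A P N S) (U : Aut A) (V : Dfa P)
    (hn : 1 ≤ n) (h1 : V.lang ∈ Half (B P (n + 1))) (h2 : V.langᶜ ∈ Half (B P (n + 1))) :
    ({w | ∃ θ, w ∈ Zt G U V θ} : Lang S)ᶜ ∈ Half (B S (n + 1)) := by
  have hT : Pol (B S 1) (TT G) :=
    Pol.cat (Pol.base (one_B G _ 1)) (Pol.cat (Pol.base (all_B G _ le_rfl))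
      (Pol.cat (Pol.base (one_B G _ 1)) (Pol.base (all_B G _ le_rfl))))
  have hT1 : (cat Set.univ (TT G))ᶜ ∈ B S (n + 1) :=
    B_mono (show 2 ≤ n + 1 by omega) (B_compl (pol_sub_B (Pol.cat (Pol.base (univ_mem_B 1)) hT)))
  have htail : ∀ a b, Tail G V a b ⊆ TT G := by
    rintro a b _ ⟨r1, hr1, _, ⟨z1, hz1, _, ⟨r2, hr2, z2, hz2, rfl⟩, rfl⟩, rfl⟩
    exact ⟨r1, hr1, _, ⟨z1, hz1.1, _, ⟨r2, hr2, z2, hz2.1, rfl⟩, rfl⟩, rfl⟩
  have e : ({w | ∃ θ, w ∈ Zt G U V θ} : Lang S)ᶜ =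
      (cat Set.univ (TT G))ᶜ ∪ cat (Cert G U V true ∪ Cert G U V false)ᶜ (TT G) := by
    ext w
    constructor
    · intro hw
      by_cases hc : w ∈ cat Set.univ (TT G)
      · right
        obtain ⟨x, _, t, ht, rfl⟩ := hc
        refine ⟨x, fun hx => ?_, t, ht, rfl⟩
        obtain ⟨r1, hr1, _, ⟨z1, hz1, _, ⟨r2, hr2, z2, hz2, rfl⟩, rfl⟩, rfl⟩ := ht
        have ht' : (r1 ++ (z1 ++ (r2 ++ z2))) ∈ Tail G V (V.acc (V.run 0 (pls G z1)))
            (V.acc (V.run 0 (pls G z2))) :=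
          ⟨r1, hr1, _, ⟨z1, ⟨hz1, rfl⟩, _, ⟨r2, hr2, z2, ⟨hz2, rfl⟩, rfl⟩, rfl⟩, rfl⟩
        rcases hx with hx | hx
        · exact hw ⟨(true, (_, _)), x, hx, _, ht', rfl⟩
        · exact hw ⟨(false, (_, _)), x, hx, _, ht', rfl⟩
      · left
        exact hc
    · rintro (hw | ⟨x, hx, t, ht, rfl⟩) ⟨θ, y, hy, s, hs, h⟩
      · exact hw ⟨y, Set.mem_univ _, s, htail _ _ hs, h⟩
      · have h3 := ql_TT G ht (htail _ _ hs) h
        rw [h3] at hx
        apply hx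
        cases hθ : θ.1 with
        | true => rw [hθ] at hy; exact Or.inl hy
        | false => rw [hθ] at hy; exact Or.inr hy
  rw [e]
  refine half_iff.2 (Pol.union (Pol.base hT1) (Pol.cat ?_ (pol_mono (by omega) hT)))
  exact half_iff.1 (cert_half G U V (by omega) h1 h2)

end Pool.Agent.HSP
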