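import Pool.Agent.HSP.QCrt
import Pool.Agent.HSP.LevA
import Pool.Agent.HLV.Cut
import Pool.Agent.HLV.Inv

/-!
# HSP-QLft: separators of the full level are lifted

Let `a₀ : A`, `ψ s = htk a₀ (G.tk s)`.  For every `K` in `B A (n + 1)` there is `K' ∈ B S (n + 1)` such that
for all `y r z` with `IsDl (G.tk r)` and no `dl` in `y`: `y ++ r :: z ∈ K' ↔ ext ψ y ∈ K` (induction on the
Boolean closure, the factorization at the first `dl` is unique).  With `cert_sound` this lifts a separator.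
-/

namespace Pool.Agent.HSP

open Pool.Agent.DD Pool.Agent.HLV

variable {A P S : Type}

private theorem htk_neQ {N : ℕ} (G : Alph A P N S) (a₀ : A) (s : S) : htk a₀ (G.tk s) ≠ [] := by
  have h := G.small s
  cases ht : G.tk s with
  | fr a => simp [htk]
  | lp w l =>
    rw [ht] at h
    exact h.1
  | dl => simp [htk]
  | fl p => simp [htk]

private theorem uniq {N : ℕ} (G : Alph A P N S) {y y' z z' : List S} {r r' : S}
    (hr : IsDl (G.tk r)) (hr' : IsDl (G.tk r')) (hy : ∀ s ∈ y, ¬ IsDl (G.tk s))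
    (hy' : ∀ s ∈ y', ¬ IsDl (G.tk s)) (he : y ++ r :: z = y' ++ r' :: z') : y = y' := by
  rcases List.append_eq_append_iff.1 he with ⟨t, h3, h4⟩ | ⟨t, h3, h4⟩
  · cases t with
    | nil => rw [h3, List.append_nil]
    | cons a t =>
      exfalso
      have h5 : r = a := by
        have := congrArg List.head? h4
        simpa using this
      refine hy' r ?_ hr
      rw [h3, h5]
      simp
  · cases t with
    | nil => rw [h3, List.append_nil]
    | cons a t =>
      exfalso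
      have h5 : r' = a := by
        have := congrArg List.head? h4
        simpa using this
      refine hy r' ?_ hr'
      rw [h3, h5]
      simp

private theorem key [Finite A] [Finite S] {n N : ℕ} (hn : 1 ≤ n) (G : Alph A P N S) (a₀ : A)
    {K : Lang A} (h : BoolCl (MonCl (B A n)) K) :
    ∃ K' : Lang S, K' ∈ B S (n + 1) ∧ ∀ y r z, IsDl (G.tk r) → (∀ s ∈ y, ¬ IsDl (G.tk s)) →
      (y ++ r :: z ∈ K' ↔ ext (fun s => htk a₀ (G.tk s)) y ∈ K) := by
  induction h with
  | @base L hL =>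
    have hp : Pol (B S n) (cat (all G (fun t => ¬ IsDl t) ∩ iq (fun s => htk a₀ (G.tk s)) [] [] L)
        (cat (one G IsDl) Set.univ)) :=
      Pol.cat (inter_pol (Pol.base (all_B G _ hn)) (iq_pol (htk_neQ G a₀) (pol_of_monCl hL) [] []))
        (Pol.cat (Pol.base (one_B G IsDl n)) (Pol.base (univ_mem_B n)))
    refine ⟨_, pol_sub_B hp, ?_⟩
    intro y r z hr hy
    constructor
    · rintro ⟨y', ⟨hy1, hy2⟩, x', ⟨r'', ⟨r', hr', rfl⟩, z', -, rfl⟩, he⟩
      have h1 : y = y' := uniq G hr hr' hy hy1 (z' := z') (by rw [he]; rfl)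
      rw [mem_iq, List.nil_append, List.append_nil] at hy2
      rw [h1]
      exact hy2
    · intro h1
      refine ⟨y, ⟨hy, ?_⟩, r :: z, ⟨[r], ⟨r, hr, rfl⟩, z, trivial, rfl⟩, rfl⟩
      rw [mem_iq, List.nil_append, List.append_nil]
      exact h1
  | compl _ ih =>
    obtain ⟨K', h1, h2⟩ := ih
    exact ⟨K'ᶜ, B_compl h1, fun y r z hr hy => not_congr (h2 y r z hr hy)⟩
  | union _ _ ih ih' =>
    obtain ⟨K', h1, h2⟩ := ih
    obtain ⟨K'', h3, h4⟩ := ih'
    exact ⟨K' ∪ K'', B_union h1 h3, fun y r z hr hy => or_congr (h2 y r z hr hy) (h4 y r z hr hy)⟩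
  | inter _ _ ih ih' =>
    obtain ⟨K', h1, h2⟩ := ih
    obtain ⟨K'', h3, h4⟩ := ih'
    exact ⟨K' ∩ K'', B_inter h1 h3, fun y r z hr hy => and_congr (h2 y r z hr hy) (h4 y r z hr hy)⟩

/-- Main result of this module. -/
theorem lift_B [Finite A] [Nonempty A] [Finite S] {n N : ℕ} (hn : 1 ≤ n) (G : Alph A P N S)
    (U : Aut A) (V : Dfa P) (h : Separable (B A (n + 1)) (U.lang true) (U.lang false)) :
    ∃ Z₀ ∈ B S (n + 1), ∀ θ, ∀ w ∈ Zt G U V θ, (w ∈ Z₀ ↔ θ.1 = true) := by
  obtain ⟨K, hK, h1, h2⟩ := h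
  obtain ⟨a₀⟩ := (inferInstance : Nonempty A)
  obtain ⟨K', hK', hk⟩ := key hn G a₀ (K := K) hK
  refine ⟨K', hK', ?_⟩
  rintro θ w ⟨x, hx, t, -, rfl⟩
  obtain ⟨y, r, z, rfl, hr, hy, -, hu⟩ := cert_sound G U V a₀ hx
  have he : (y ++ r :: z) ++ t = y ++ r :: (z ++ t) := by simp
  rw [he, hk y r (z ++ t) hr hy]
  constructor
  · intro hyK
    by_contra hθ
    have hf : θ.1 = false := by simpa using hθ
    rw [hf] at hu
    exact h2 _ hyK hu
  · intro hθ
    rw [hθ] at hu
    exact h1 hu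

end Pool.Agent.HSP
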