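import Pool.Agent.HSP.QDefs

/-!
# HSP-QSyn: delimiters

Words with delimiters: uniqueness, splitting and existence.
-/

namespace Pool.Agent.HSP

open Pool.Agent.DD Pool.Agent.HLV

variable {M : ℕ}

private theorem wd_nil' : wd ([] : List (List (Fin M))) = [Fin.last M] := rfl

private theorem wd_cons' (y : List (Fin M)) (ys : List (List (Fin M))) :
    wd (y :: ys) = Fin.last M :: (y.map Fin.castSucc ++ wd ys) := by
  simp [wd, wq]

private theorem wd_head' (ys : List (List (Fin M))) : ∃ r, wd ys = Fin.last M :: r := by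
  cases ys with
  | nil => exact ⟨[], rfl⟩
  | cons y ys => exact ⟨_, wd_cons' y ys⟩

private theorem last_not_mem' (y : List (Fin M)) : Fin.last M ∉ y.map Fin.castSucc := by
  intro h
  obtain ⟨a, _, ha⟩ := List.mem_map.1 h
  exact absurd ha (Fin.castSucc_lt_last a).ne

private theorem app_uniq' {a b p q : List (Fin (M + 1))} (ha : Fin.last M ∉ a)
    (hb : Fin.last M ∉ b) (h : a ++ Fin.last M :: p = b ++ Fin.last M :: q) : a = b ∧ p = q := by
  induction a generalizing b with
  | nil =>
    cases b with
    | nil => exact ⟨rfl, by simpa using h⟩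
    | cons c b =>
      simp only [List.nil_append, List.cons_append, List.cons.injEq] at h
      exact absurd (by rw [h.1]; exact List.mem_cons_self) hb
  | cons d a ih =>
    cases b with
    | nil =>
      simp only [List.nil_append, List.cons_append, List.cons.injEq] at h
      exact absurd (by rw [← h.1]; exact List.mem_cons_self) ha
    | cons c b =>
      simp only [List.cons_append, List.cons.injEq] at h
      obtain ⟨h1, h2⟩ := ih (fun h' => ha (List.mem_cons_of_mem _ h'))
        (fun h' => hb (List.mem_cons_of_mem _ h')) h.2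
      exact ⟨by rw [h.1, h1], h2⟩

private theorem split_left' {ys : List (List (Fin M))} {p q : List (Fin (M + 1))}
    (h : wd ys = p ++ Fin.last M :: q) :
    ∃ ys₁ ys₂, ys = ys₁ ++ ys₂ ∧ p = wq ys₁ ∧ Fin.last M :: q = wd ys₂ := by
  induction ys generalizing p with
  | nil =>
    rw [wd_nil'] at h
    cases p with
    | nil => exact ⟨[], [], rfl, rfl, by rw [wd_nil']; exact h.symm⟩
    | cons a p =>
      exfalso
      have := congrArg List.length h
      simp at this
  | cons y ys ih =>
    cases p with
    | nil => exact ⟨[], y :: ys, rfl, rfl, h.symm⟩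
    | cons a p =>
      rw [wd_cons'] at h
      simp only [List.cons_append, List.cons.injEq] at h
      obtain ⟨h0, h⟩ := h
      rcases List.append_eq_append_iff.1 h with ⟨a', h1, h2⟩ | ⟨c', h1, h2⟩
      · obtain ⟨ys₁, ys₂, e1, e2, e3⟩ := ih h2
        refine ⟨y :: ys₁, ys₂, by rw [e1]; rfl, ?_, e3⟩
        rw [h1, e2, ← h0]
        simp [wq]
      · cases c' with
        | nil =>
          refine ⟨[y], ys, rfl, ?_, by simpa using h2⟩
          rw [← h0]
          simp only [List.append_nil] at h1
          rw [← h1]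
          simp [wq]
        | cons c c' =>
          exfalso
          simp only [List.cons_append, List.cons.injEq] at h2
          apply last_not_mem' y
          rw [h1, h2.1]
          simp

private theorem split_right' {ys zs : List (List (Fin M))} {q : List (Fin (M + 1))}
    (h : wd ys = wd zs ++ q) : ∃ ys₃, ys = zs ++ ys₃ ∧ Fin.last M :: q = wd ys₃ := by
  induction zs generalizing ys with
  | nil => exact ⟨ys, rfl, by rw [h, wd_nil']; rfl⟩
  | cons z zs ih =>
    rw [wd_cons'] at h
    obtain ⟨r, hr⟩ := wd_head' zs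
    cases ys with
    | nil =>
      exfalso
      rw [wd_nil', hr] at h
      have := congrArg List.length h
      simp at this
    | cons y ys =>
      rw [wd_cons'] at h
      obtain ⟨s, hs⟩ := wd_head' ys
      simp only [List.cons_append, List.cons.injEq, true_and, List.append_assoc] at h
      rw [hr, hs] at h
      simp only [List.cons_append] at h
      obtain ⟨h1, h2⟩ := app_uniq' (last_not_mem' y) (last_not_mem' z) h
      have h3 : wd ys = wd zs ++ q := by rw [hs, hr, h2]; rfl
      obtain ⟨ys₃, e1, e2⟩ := ih h3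
      refine ⟨ys₃, ?_, e2⟩
      rw [List.map_injective_iff.2 (Fin.castSucc_injective M) h1, e1]
      rfl

theorem wd_inj {ys zs : List (List (Fin M))} (h : wd ys = wd zs) : ys = zs := by
  have h' : wd ys = wd zs ++ [] := by rw [List.append_nil]; exact h
  obtain ⟨ys₃, e1, e2⟩ := split_right' h'
  cases ys₃ with
  | nil => rw [e1, List.append_nil]
  | cons y ys₃ =>
    exfalso
    obtain ⟨r, hr⟩ := wd_head' ys₃
    rw [wd_cons', hr] at e2
    have := congrArg List.length e2
    simp at this

theorem wd_append (ys zs : List (List (Fin M))) : wd (ys ++ zs) = wq ys ++ wd zs := by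
  simp [wd, wq]

theorem wq_cons (y : List (Fin M)) (ys : List (List (Fin M))) :
    wq (y :: ys) = Fin.last M :: (y.map Fin.castSucc ++ wq ys) := by
  simp [wq]

/-- Main result 1. -/
theorem wd_split {ys zs : List (List (Fin M))} {p q : List (Fin (M + 1))}
    (h : wd ys = p ++ (wd zs ++ q)) :
    ∃ ys₁ ys₂, ys = ys₁ ++ (zs ++ ys₂) ∧ p = wq ys₁ ∧ Fin.last M :: q = wd ys₂ := by
  obtain ⟨r, hr⟩ := wd_head' zs
  have h' : wd ys = p ++ Fin.last M :: (r ++ q) := by rw [h, hr]; rfl
  obtain ⟨ys₁, ys₂, e1, e2, e3⟩ := split_left' h'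
  have h3 : wd ys₂ = wd zs ++ q := by rw [← e3, hr]; rfl
  obtain ⟨ys₃, e4, e5⟩ := split_right' h3
  exact ⟨ys₁, ys₃, by rw [e1, e4], e2, e5⟩

private theorem ex_blocks' (v : List (Fin (M + 1))) :
    ∃ (y : List (Fin M)) (ys : List (List (Fin M))),
      v ++ [Fin.last M] = y.map Fin.castSucc ++ wd ys := by
  induction v with
  | nil => exact ⟨[], [], rfl⟩
  | cons a v ih =>
    obtain ⟨y, ys, e⟩ := ih
    rcases Fin.eq_castSucc_or_eq_last a with ⟨b, rfl⟩ | rfl
    · exact ⟨b :: y, ys, by rw [List.cons_append, e]; rfl⟩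
    · exact ⟨[], y :: ys, by rw [List.cons_append, e, wd_cons']; rfl⟩

/-- Main result 2. -/
theorem wd_exists {w : List (Fin (M + 1))} :
    (∃ ys, w = wd ys) ↔ (∃ v, w = Fin.last M :: v) ∧ ∃ v, w = v ++ [Fin.last M] := by
  constructor
  · rintro ⟨ys, rfl⟩
    exact ⟨wd_head' ys, wq ys, rfl⟩
  · rintro ⟨⟨v, hv⟩, v', hv'⟩
    cases v' with
    | nil => exact ⟨[], by rw [hv']; rfl⟩
    | cons a v' =>
      rw [hv'] at hv
      simp only [List.cons_append, List.cons.injEq] at hv
      obtain ⟨y, ys, e⟩ := ex_blocks' v'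
      refine ⟨y :: ys, ?_⟩
      rw [hv', List.cons_append, e, hv.1, wd_cons']

end Pool.Agent.HSP
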