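import Pool.Agent.HSP.QLoA
import Pool.Agent.HSP.QSyn
import Pool.Agent.HLV.Pair
import Pool.Agent.DD.Jump

/-!
# HSP-QLoB: the lower bound (chains of words with a switch run, jump lemma)
-/

namespace Pool.Agent.HSP

open Pool.Agent.DD Pool.Agent.HLV

variable {M : ℕ}

private theorem lb_factors {A : Type} {n : ℕ} (Ps : List (Lang A)) (hPs : ∀ P ∈ Ps, P ∈ MonCl (B A n)) :
    ∃ (Qs : List (Lang A)) (m : ℕ), 1 ≤ m ∧ (∀ Q ∈ Qs, Q ∈ B A n) ∧
      ∀ P ∈ Ps, ∃ L₀ ∈ Qs, ∃ Ls : List (Lang A), (∀ K ∈ Ls, K ∈ Qs) ∧ P = catList L₀ Ls ∧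
        Ls.length + 1 ≤ m := by
  induction Ps with
  | nil => exact ⟨[], 1, le_rfl, by simp, by simp⟩
  | cons P Ps ih =>
    obtain ⟨Qs, m, hm, hQ, hP⟩ := ih (fun P' hP' => hPs P' (List.mem_cons_of_mem _ hP'))
    obtain ⟨L₀, h0, Ls, hLs, hPe⟩ := MonCl_B (hPs P (List.mem_cons_self ..))
    refine ⟨L₀ :: (Ls ++ Qs), max m (Ls.length + 1), le_trans hm (le_max_left _ _), ?_, ?_⟩
    · intro Q hQ'
      rcases List.mem_cons.1 hQ' with rfl | hQ'
      · exact h0
      · rcases List.mem_append.1 hQ' with hQ' | hQ'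
        · exact hLs Q hQ'
        · exact hQ Q hQ'
    · intro P' hP'
      rcases List.mem_cons.1 hP' with rfl | hP'
      · refine ⟨L₀, List.mem_cons_self .., Ls, ?_, hPe, le_max_right _ _⟩
        intro K hK
        exact List.mem_cons_of_mem _ (List.mem_append.2 (Or.inl hK))
      · obtain ⟨L₁, h1, Ls1, hLs1, hPe1, hlen⟩ := hP P' hP'
        refine ⟨L₁, List.mem_cons_of_mem _ (List.mem_append.2 (Or.inr h1)), Ls1, ?_, hPe1,
          le_trans hlen (le_max_left _ _)⟩
        intro K hK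
        exact List.mem_cons_of_mem _ (List.mem_append.2 (Or.inr (hLs1 K hK)))

private theorem lb_tests {A : Type} (Ps : List (Lang A)) (hR : ∀ P ∈ Ps, Rec P) : ∃ Ts : List (Lang A),
    (∀ x y : List A, (∀ T ∈ Ts, x ∈ T → y ∈ T) → Below Ps x y) ∧
    (∀ x y : List A, Below Ps x y → ∀ T ∈ Ts, x ∈ T → y ∈ T) := by
  induction Ps with
  | nil =>
    exact ⟨[], fun x y _ P hP => absurd hP List.not_mem_nil, fun x y _ T hT => absurd hT List.not_mem_nil⟩
  | cons P Ps ih =>
    obtain ⟨Ts, h1, h2⟩ := ih fun P' hP' => hR P' (List.mem_cons_of_mem _ hP')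
    obtain ⟨cs, hcs⟩ := exists_contexts (hR P List.mem_cons_self)
    refine ⟨cs.map (fun c => ({w | c.1 ++ w ++ c.2 ∈ P} : Lang A)) ++ Ts, fun x y hxy => ?_,
      fun x y hxy T hT hx => ?_⟩
    · intro P' hP' s t hs
      rcases List.mem_cons.1 hP' with rfl | hP'
      · obtain ⟨c, hc, hw⟩ := hcs s t
        rw [hw] at hs ⊢
        exact hxy _ (List.mem_append_left _ (List.mem_map.2 ⟨c, hc, rfl⟩)) hs
      · exact h1 x y (fun T hT => hxy T (List.mem_append_right _ hT)) P' hP' s t hs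
    · rcases List.mem_append.1 hT with hT | hT
      · obtain ⟨c, hc, rfl⟩ := List.mem_map.1 hT
        exact hxy P List.mem_cons_self c.1 c.2 hx
      · exact h2 x y (fun P' hP' => hxy P' (List.mem_cons_of_mem _ hP')) T hT hx

private theorem lb_chain {A : Type} (Ts : List (Lang A)) (f : ℕ → List A)
    (hf : ∀ k ≤ Ts.length, ∀ T ∈ Ts, f k ∈ T → f (k + 1) ∈ T) :
    ∃ k ≤ Ts.length, ∀ T ∈ Ts, f (k + 1) ∈ T → f k ∈ T := by
  classical
  by_contra hcon
  have hstep : ∀ k ≤ Ts.length, (Ts.toFinset.filter fun T => f k ∈ T).card <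
      (Ts.toFinset.filter fun T => f (k + 1) ∈ T).card := by
    intro k hk
    refine Finset.card_lt_card ?_
    rw [Finset.ssubset_iff_subset_ne]
    refine ⟨fun T hT => ?_, fun he => ?_⟩
    · rw [Finset.mem_filter, List.mem_toFinset] at hT ⊢
      exact ⟨hT.1, hf k hk T hT.1 hT.2⟩
    · refine hcon ⟨k, hk, fun T hT hT' => ?_⟩
      have h1 : T ∈ Ts.toFinset.filter fun T => f (k + 1) ∈ T :=
        Finset.mem_filter.2 ⟨List.mem_toFinset.2 hT, hT'⟩
      rw [← he, Finset.mem_filter] at h1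
      exact h1.2
  have hge : ∀ k ≤ Ts.length + 1, k ≤ (Ts.toFinset.filter fun T => f k ∈ T).card := by
    intro k
    induction k with
    | zero => exact fun _ => Nat.zero_le _
    | succ k ih =>
      intro hk
      have h1 := ih (by omega)
      have h2 := hstep k (by omega)
      omega
  have h1 := hge (Ts.length + 1) le_rfl
  have h2 : (Ts.toFinset.filter fun T => f (Ts.length + 1) ∈ T).card ≤ Ts.length :=
    (Finset.card_filter_le _ _).trans (List.toFinset_card_le Ts)
  omega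

private theorem lb_ext (w : List (Fin M)) :
    ext (fun a : Fin M => [(Fin.castSucc a : Fin (M + 1))]) w = w.map Fin.castSucc := by
  induction w with
  | nil => rfl
  | cons a w ih =>
    rw [ext_cons, ih]
    rfl

private theorem lb_syn {n : ℕ} (Qs : List (Lang (Fin (M + 1)))) (hQ : ∀ Q ∈ Qs, Q ∈ B (Fin (M + 1)) n) :
    ∃ Ks : List (Lang (Fin M)), (∀ K ∈ Ks, K ∈ B (Fin M) n) ∧ ∀ u v : List (Fin M),
      (∀ K ∈ Ks, (u ∈ K ↔ v ∈ K)) → ∀ Q ∈ Qs, SynEq Q (u.map Fin.castSucc) (v.map Fin.castSucc) := by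
  induction Qs with
  | nil => exact ⟨[], by simp, fun u v _ Q hQ => absurd hQ List.not_mem_nil⟩
  | cons Q Qs ih =>
    obtain ⟨Ks, h1, h2⟩ := ih fun Q' hQ' => hQ Q' (List.mem_cons_of_mem _ hQ')
    obtain ⟨cs, hcs⟩ := exists_contexts (rec_B (hQ Q List.mem_cons_self))
    refine ⟨cs.map (fun c => iq (fun a : Fin M => [(Fin.castSucc a : Fin (M + 1))]) c.1 c.2 Q) ++ Ks, ?_, ?_⟩
    · intro K hK
      rcases List.mem_append.1 hK with hK | hK
      · obtain ⟨c, _, rfl⟩ := List.mem_map.1 hK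
        exact iq_B (fun a => List.cons_ne_nil _ _) (hQ Q List.mem_cons_self) c.1 c.2
      · exact h1 K hK
    · intro u v huv Q' hQ'
      rcases List.mem_cons.1 hQ' with rfl | hQ'
      · intro s t
        obtain ⟨c, hc, hw⟩ := hcs s t
        rw [hw, hw]
        have h3 := huv _ (List.mem_append_left _ (List.mem_map.2 ⟨c, hc, rfl⟩))
        rw [mem_iq, mem_iq, lb_ext, lb_ext] at h3
        exact h3
      · exact h2 u v (fun K hK => huv K (List.mem_append_right _ hK)) Q' hQ'

private theorem lb_ap {A : Type} (Qs : List (Lang A)) (hR : ∀ Q ∈ Qs, Rec Q) (x : List A) :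
    ∃ N₀ : ℕ, 1 ≤ N₀ ∧ ∀ Q ∈ Qs, ∀ j, N₀ ≤ j → SynEq Q (pw x j) (pw x N₀) := by
  obtain ⟨N, hM, hF, φ, h1, h2, ⟨k, hk⟩, h4⟩ := exists_common_rec Qs hR
  have hpow : ∀ j, φ (pw x j) = φ x ^ j := by
    intro j
    induction j with
    | zero => rw [pw_zero, h1, pow_zero]
    | succ j ih => rw [pw_succ, h2, ih, pow_succ']
  have hst : ∀ j, k ≤ j → φ x ^ j = φ x ^ k := by
    intro j hj
    induction j, hj using Nat.le_induction with
    | base => rfl
    | succ j hj ih => rw [pow_succ, ih, ← pow_succ, hk]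
  refine ⟨k + 1, by omega, fun Q hQ j hj s t => ?_⟩
  apply h4 Q hQ
  rw [h2, h2, h2, h2, hpow, hpow, hst j (by omega), hst (k + 1) (by omega)]

private theorem lb_wq_append (ys zs : List (List (Fin M))) : wq (ys ++ zs) = wq ys ++ wq zs := by
  unfold wq
  rw [List.map_append, List.flatten_append]

private theorem lb_wq_rep (z : Th → List (Fin M)) (θ : Th) (j : ℕ) :
    wq ((List.replicate j θ).map z) = pw (Fin.last M :: (z θ).map Fin.castSucc) j := by
  induction j with
  | zero => rfl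
  | succ j ih =>
    rw [List.replicate_succ, List.map_cons, wq_cons, ih, pw_succ]
    rfl

private theorem lb_pw_mul {A : Type} (x : List A) (a b : ℕ) : pw x (a * b) = pw (pw x a) b := by
  induction b with
  | zero => rfl
  | succ b ih => rw [Nat.mul_succ, Nat.add_comm, pw_add, ih, pw_succ]

private theorem lb_fst {Z : Th → Lang (Fin M)} (hd : ∀ θ θ', θ ≠ θ' → ∀ w ∈ Z θ, w ∉ Z θ')
    {z : Th → List (Fin M)} (hz : ∀ θ, z θ ∈ Z θ) (L : List Th) :
    ∀ ps : List (Th × List (Fin M)), (∀ p ∈ ps, p.2 ∈ Z p.1) → L.map z = ps.map Prod.snd →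
      ps.map Prod.fst = L := by
  induction L with
  | nil =>
    intro ps _ h
    cases ps with
    | nil => rfl
    | cons p ps => simp at h
  | cons θ L ih =>
    intro ps hps h
    cases ps with
    | nil => simp at h
    | cons p ps =>
      rw [List.map_cons, List.map_cons, List.cons.injEq] at h
      rw [List.map_cons, ih ps (fun q hq => hps q (List.mem_cons_of_mem _ hq)) h.2]
      have h1 : p.1 = θ := by
        by_contra hne
        refine hd θ p.1 (fun e => hne e.symm) (z θ) (hz θ) ?_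
        rw [h.1]
        exact hps p List.mem_cons_self
      rw [h1]

/-- Main result of this module. -/
theorem tst_low {n : ℕ} {Z : Th → Lang (Fin M)} (hd : ∀ θ θ', θ ≠ θ' → ∀ w ∈ Z θ, w ∉ Z θ')
    (h : ∀ Ks : List (Lang (Fin M)), (∀ K ∈ Ks, K ∈ B (Fin M) (n + 1)) →
      ∃ z : Th → List (Fin M), (∀ θ, z θ ∈ Z θ) ∧ ∀ K ∈ Ks, ∀ θ θ', (z θ ∈ K ↔ z θ' ∈ K)) :
    Tst Z ∉ B (Fin (M + 1)) (n + 2) := by
  intro hT
  have hb : BoolCl (MonCl (B (Fin (M + 1)) (n + 1))) (Tst Z) := hT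
  obtain ⟨Ps, hPs, hctl⟩ := hb.exists_list
  obtain ⟨Qs, m, hm, hQ, hP⟩ := lb_factors Ps hPs
  obtain ⟨Ks, hK1, hK2⟩ := lb_syn Qs hQ
  obtain ⟨z, hz1, hz2⟩ := h Ks hK1
  have hRecQ : ∀ Q ∈ Qs, Rec Q := fun Q hQ' => rec_B (hQ Q hQ')
  have hRecP : ∀ P ∈ Ps, Rec P := fun P hP' => rec_B (MonCl_sub_B (hPs P hP'))
  obtain ⟨θ0, hθ0⟩ : ∃ θ0 : Th, θ0 = (true, (false, false)) := ⟨_, rfl⟩
  obtain ⟨x, hx⟩ : ∃ x : List (Fin (M + 1)), x = Fin.last M :: (z θ0).map Fin.castSucc := ⟨_, rfl⟩
  obtain ⟨N₀, hN, hap⟩ := lb_ap Qs hRecQ x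
  have hbx : ∀ Q ∈ Qs, ∀ θ, SynEq Q (Fin.last M :: (z θ).map Fin.castSucc) x := by
    intro Q hQ' θ
    rw [hx]
    exact (hK2 (z θ) (z θ0) (fun K hK => hz2 K hK θ θ0) Q hQ').left [Fin.last M]
  have hw : ∀ Q ∈ Qs, ∀ ts : List Th, SynEq Q (wq (ts.map z)) (pw x ts.length) := by
    intro Q hQ' ts
    induction ts with
    | nil => exact SynEq.refl _ _
    | cons θ ts ih =>
      rw [List.map_cons, wq_cons, List.length_cons, pw_succ]
      exact (hbx Q hQ' θ).app ih
  have hlong : ∀ Q ∈ Qs, ∀ ts : List Th, N₀ ≤ ts.length → SynEq Q (wq (ts.map z)) (pw x N₀) :=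
    fun Q hQ' ts hts => (hw Q hQ' ts).trans (hap Q hQ' _ hts)
  obtain ⟨r, hr⟩ : ∃ r, r = N₀ * m := ⟨_, rfl⟩
  obtain ⟨ts, hts⟩ : ∃ ts : ℕ → List Th, ∀ k, ts k = lft r k ++
      (List.replicate r (decide (k % 2 = 0), (false, false)) ++ rgt r k) := ⟨_, fun k => rfl⟩
  obtain ⟨W, hW⟩ : ∃ W : ℕ → List (Fin (M + 1)), ∀ k, W k = wd ((ts k).map z) := ⟨_, fun k => rfl⟩
  have hmono : ∀ k, Below Ps (W k) (W (k + 1)) := by
    intro k
    obtain ⟨t, ht⟩ : ∃ t, t = decide (k % 2 = 0) := ⟨_, rfl⟩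
    obtain ⟨t', ht'⟩ : ∃ t', t' = decide ((k + 1) % 2 = 0) := ⟨_, rfl⟩
    obtain ⟨E, hE⟩ : ∃ E, E = wq ((List.replicate N₀ ((t, (false, false)) : Th)).map z) := ⟨_, rfl⟩
    obtain ⟨zs, hzs⟩ : ∃ zs : List Th, zs = (!t, (true, true)) ::
        (List.replicate r (t', (false, false)) ++ [(t, (true, false))]) := ⟨_, rfl⟩
    have hEm : wq ((List.replicate r ((t, (false, false)) : Th)).map z) = pw E m := by
      rw [hE, lb_wq_rep, lb_wq_rep, hr, lb_pw_mul]
    have e1 : W k = wq ((lft r k).map z) ++ pw E m ++ wd ((rgt r k).map z) := by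
      rw [hW, hts, ← ht, List.map_append, wd_append, List.map_append, wd_append, hEm, List.append_assoc]
    have e2 : W (k + 1) = wq ((lft r k).map z) ++ (pw E m ++ wq (zs.map z) ++ pw E m) ++
        wd ((rgt r k).map z) := by
      have e3 : ts (k + 1) = lft r k ++ (List.replicate r (t, (false, false)) ++ (zs ++
          (List.replicate r (t, (false, false)) ++ rgt r k))) := by
        rw [hts, ← ht', hzs]
        show (lft r k ++ (List.replicate r (decide (k % 2 = 0), (false, false)) ++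
          [(!decide (k % 2 = 0), (true, true))])) ++ (List.replicate r (t', (false, false)) ++
          ((decide (k % 2 = 0), (true, false)) ::
          (List.replicate r (decide (k % 2 = 0), (false, false)) ++ rgt r k))) = _
        rw [← ht]
        simp only [List.append_assoc, List.cons_append, List.nil_append]
      rw [hW, e3, List.map_append, wd_append, List.map_append, wd_append, List.map_append, wd_append,
        List.map_append, wd_append, hEm]
      simp only [List.append_assoc]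
    rw [e1, e2]
    refine Below.app (Below.app (Below.refl _ _) ?_) (Below.refl _ _)
    refine jump E (wq (zs.map z)) Qs Ps m hP ?_ ?_
    · intro Q hQ'
      have h1 : E ++ E = wq ((List.replicate N₀ ((t, (false, false)) : Th) ++
          List.replicate N₀ ((t, (false, false)) : Th)).map z) := by
        rw [List.map_append, lb_wq_append, ← hE]
      rw [h1]
      have h2 := hlong Q hQ' (List.replicate N₀ ((t, (false, false)) : Th)) (by simp)
      rw [← hE] at h2
      exact h2.trans (hlong Q hQ' _ (by simp)).symm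
    · intro Q hQ'
      have h1 : E ++ wq (zs.map z) ++ E = wq ((List.replicate N₀ ((t, (false, false)) : Th) ++ (zs ++
          List.replicate N₀ ((t, (false, false)) : Th))).map z) := by
        rw [List.map_append, lb_wq_append, List.map_append, lb_wq_append, ← hE, List.append_assoc]
      rw [h1]
      have h2 := hlong Q hQ' (List.replicate N₀ ((t, (false, false)) : Th)) (by simp)
      rw [← hE] at h2
      exact h2.trans (hlong Q hQ' _ (by simp)).symm
  have hmem : ∀ k, W k ∈ Tst Z ↔ k % 2 = 1 := by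
    intro k
    rw [← chain_T0 r k, ← hts]
    constructor
    · rintro ⟨ps, hps, hT0, hw'⟩
      rw [hW] at hw'
      have h1 := lb_fst hd hz1 (ts k) ps hps (wd_inj hw')
      rw [h1] at hT0
      exact hT0
    · intro hT0
      refine ⟨(ts k).map fun θ => (θ, z θ), ?_, ?_, ?_⟩
      · intro p hp
        obtain ⟨θ, _, rfl⟩ := List.mem_map.1 hp
        exact hz1 θ
      · have h1 : ((ts k).map fun θ => (θ, z θ)).map Prod.fst = ts k := by
          rw [List.map_map]
          exact List.map_id _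
        rw [h1]
        exact hT0
      · rw [hW, List.map_map]
        rfl
  obtain ⟨Ts, hT1, hT2⟩ := lb_tests Ps hRecP
  obtain ⟨k, _, hk'⟩ := lb_chain Ts W (fun k _ T hT h1 => hT2 _ _ (hmono k) T hT h1)
  have hback : Below Ps (W (k + 1)) (W k) := hT1 _ _ hk'
  have hsyn := hctl (W k) (W (k + 1)) (fun P hP s t => ⟨hmono k P hP s t, hback P hP s t⟩)
  have h1 := hsyn.mem
  rw [hmem k, hmem (k + 1)] at h1
  omega

end Pool.Agent.HSP
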