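import Pool.Agent.HSP.QUp
import Pool.Agent.HSP.QLoB
import Pool.Agent.HSP.QJnt
import Pool.Agent.HSP.QLft
import Pool.Agent.HSP.QLev

/-!
# HSP-QAbs: the reduction for a given pair, full levels
-/

namespace Pool.Agent.HSP

open Pool.Agent.DD Pool.Agent.HLV

variable {A P S : Type}

/-- Main result of this module. -/
theorem tst_iff [Finite A] [Nonempty A] [Finite P] {M n N : ℕ} (hn : 1 ≤ n)
    (G : Alph A P N (Fin M)) (U : Aut A) (V : Dfa P) (hN : U.b ^ U.b ≤ N)
    (hD : V.lang ∉ B P (n + 1)) (h1 : V.lang ∈ Half (B P (n + 1)))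
    (h2 : V.langᶜ ∈ Half (B P (n + 1))) :
    Tst (Zt G U V) ∈ B (Fin (M + 1)) (n + 2) ↔
      Separable (B A (n + 1)) (U.lang true) (U.lang false) := by
  constructor
  · intro h
    by_contra hs
    refine tst_low (fun θ θ' hne w hw hw' => zt_disj G U V hne w (zt_sub G U V θ hw) hw')
      (fun Ks hK => hide_joint G U V hN hD hs Ks hK) h
  · intro h
    obtain ⟨Z₀, hZ, h6⟩ := lift_B hn G U V h
    exact tst_up hn (zt_sub G U V) (fun θ θ' hne => zt_disj G U V hne)
      (fun θ => zt'_half G V hn h1 h2 θ) (zt_compl G U V hn h1 h2) hZ h6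

end Pool.Agent.HSP
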