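import Pool.Agent.HSP.Gen

/-!
# HSP-QCat: products of codes

Plan.  `gen` with `C = ℕ × (Code × Code)`, `k c = c.1`, `σ = ℕ × List ℕ`: the state of the first automaton and
the list of the possible states of the second one.  `init c = (0, if 0 ∈ c.2.1.2 then [0] else [])`,
`st c x a = (q, (List.range (bnd c.2.2)).filter (fun r => r ∈ x.2.map (fun r' => stepC c.2.2 r' a) ∨
(r = 0 ∧ q ∈ c.2.1.2)))` with `q = stepC c.2.1 x.1 a`; `acc c x` = some `r ∈ x.2` is in `c.2.2.2`.  Primitive
recursive: filter as flatMap (HLV/MTab `filter_eq`), `pr_mem'`, `pr_step'`, `pr_bnd` (copy).  Finite: the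
first component is `0` or `< bnd`, the second one a sublist of `List.range (bnd c.2.2)` (`stepC_lt`,
`bnd_pos`).  Invariant (induction on `w` from the right): `r` is in the list iff `w = x ++ y` with
`x ∈ langC c.1 c.2.1` and `r = runC c.2.2 y`.
-/

namespace Pool.Agent.HSP

open Pool.Agent.DD Pool.Agent.HLV

private theorem qc_step : Primrec fun p : Code × (ℕ × ℕ) => stepC p.1 p.2.1 p.2.2 :=
  (Primrec.list_getD 0).comp
    ((Primrec.list_getD []).comp (Primrec.fst.comp Primrec.fst) (Primrec.fst.comp Primrec.snd))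
    (Primrec.snd.comp Primrec.snd)

private theorem qc_stepc {α : Type} [Primcodable α] {f : α → Code} {g h : α → ℕ}
    (hf : Primrec f) (hg : Primrec g) (hh : Primrec h) :
    Primrec fun a => stepC (f a) (g a) (h a) := qc_step.comp (hf.pair (hg.pair hh))

private theorem qc_mem : Primrec₂ fun (q : ℕ) (l : List ℕ) => decide (q ∈ l) := by
  have h : Primrec₂ fun (q : ℕ) (l : List ℕ) => decide (l.idxOf q < l.length) := by
    have h1 : PrimrecRel fun (q : ℕ) (l : List ℕ) => l.idxOf q < l.length :=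
      Primrec.nat_lt.comp₂ (Primrec.list_idxOf.comp₂ Primrec₂.left Primrec₂.right)
        (Primrec.list_length.comp₂ Primrec₂.right)
    exact h1.decide
  refine h.of_eq fun q l => ?_
  rw [decide_eq_decide]
  exact List.idxOf_lt_length_iff

private theorem qc_sum (l : List ℕ) : l.sum = l.foldr (fun a b => a + b) 0 := by
  induction l with
  | nil => rfl
  | cons a l ih => rw [List.sum_cons, List.foldr_cons, ih]

private theorem qc_bnd : Primrec bnd := by
  have h : Primrec fun c : Code => (c.1.flatten).foldr (fun a b => a + b) 0 + 1 := by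
    have hh : Primrec₂ fun (_ : Code) (s : ℕ × ℕ) => s.1 + s.2 :=
      Primrec.nat_add.comp (Primrec.fst.comp Primrec.snd) (Primrec.snd.comp Primrec.snd)
    have hf : Primrec fun c : Code => c.1.flatten := Primrec.list_flatten.comp Primrec.fst
    exact Primrec.succ.comp (Primrec.list_foldr hf (Primrec.const 0) hh)
  refine h.of_eq fun c => ?_
  rw [bnd, qc_sum]

private theorem qc_filter {β : Type} (l : List β) (p : β → Bool) :
    l.filter p = l.flatMap (fun x => bif p x then [x] else []) := by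
  induction l with
  | nil => rfl
  | cons a l ih =>
    rw [List.filter_cons, List.flatMap_cons, ih]
    cases h : p a <;> simp

private def qi (c : ℕ × (Code × Code)) : ℕ × List ℕ :=
  (0, bif decide (0 ∈ c.2.1.2) then [0] else [])

private def qt (c : ℕ × (Code × Code)) (x : ℕ × List ℕ) (a r : ℕ) : Bool :=
  decide (r ∈ x.2.map fun r' => stepC c.2.2 r' a) ||
    (decide (r = 0) && decide (stepC c.2.1 x.1 a ∈ c.2.1.2))

private def qs (c : ℕ × (Code × Code)) (x : ℕ × List ℕ) (a : ℕ) : ℕ × List ℕ :=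
  (stepC c.2.1 x.1 a, (List.range (bnd c.2.2)).filter (qt c x a))

private def qa (c : ℕ × (Code × Code)) (x : ℕ × List ℕ) : Bool :=
  x.2.foldr (fun r b => decide (r ∈ c.2.2.2) || b) false

private theorem qc_foldr (p : ℕ → Bool) (l : List ℕ) :
    l.foldr (fun r b => p r || b) false = true ↔ ∃ r ∈ l, p r = true := by
  induction l with
  | nil => simp
  | cons a l ih =>
    rw [List.foldr_cons, Bool.or_eq_true, ih]
    constructor
    · rintro (h | ⟨r, hr, h⟩)
      · exact ⟨a, List.mem_cons_self, h⟩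
      · exact ⟨r, List.mem_cons_of_mem _ hr, h⟩
    · rintro ⟨r, hr, h⟩
      rcases List.mem_cons.1 hr with rfl | hr
      · exact Or.inl h
      · exact Or.inr ⟨r, hr, h⟩

private theorem pr_qi : Primrec qi := by
  have h1 : Primrec fun c : ℕ × (Code × Code) => decide (0 ∈ c.2.1.2) :=
    qc_mem.comp (Primrec.const 0) (Primrec.snd.comp (Primrec.fst.comp Primrec.snd))
  exact (Primrec.const 0).pair (Primrec.cond h1 (Primrec.const [0]) (Primrec.const []))

private theorem pr_q1 : Primrec fun x : (ℕ × (Code × Code)) × ((ℕ × List ℕ) × ℕ) =>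
    stepC x.1.2.1 x.2.1.1 x.2.2 :=
  qc_step.comp ((Primrec.fst.comp (Primrec.snd.comp Primrec.fst)).pair
    ((Primrec.fst.comp (Primrec.fst.comp Primrec.snd)).pair (Primrec.snd.comp Primrec.snd)))

private theorem pr_qt : Primrec fun z : ((ℕ × (Code × Code)) × ((ℕ × List ℕ) × ℕ)) × ℕ =>
    qt z.1.1 z.1.2.1 z.1.2.2 z.2 := by
  have g1 : Primrec fun y : (((ℕ × (Code × Code)) × ((ℕ × List ℕ) × ℕ)) × ℕ) × ℕ =>
      y.1.1.1.2.2 :=
    Primrec.snd.comp (Primrec.snd.comp (Primrec.fst.comp (Primrec.fst.comp Primrec.fst)))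
  have g2 : Primrec fun y : (((ℕ × (Code × Code)) × ((ℕ × List ℕ) × ℕ)) × ℕ) × ℕ =>
      y.1.1.2.2 := Primrec.snd.comp (Primrec.snd.comp (Primrec.fst.comp Primrec.fst))
  have g3 : Primrec fun y : (((ℕ × (Code × Code)) × ((ℕ × List ℕ) × ℕ)) × ℕ) × ℕ =>
      stepC y.1.1.1.2.2 y.2 y.1.1.2.2 := qc_stepc g1 Primrec.snd g2
  have g4 : Primrec₂ fun (z : ((ℕ × (Code × Code)) × ((ℕ × List ℕ) × ℕ)) × ℕ) (r' : ℕ) =>
      stepC z.1.1.2.2 r' z.1.2.2 := g3
  have g5 : Primrec fun z : ((ℕ × (Code × Code)) × ((ℕ × List ℕ) × ℕ)) × ℕ => z.1.2.1.2 :=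
    Primrec.snd.comp (Primrec.fst.comp (Primrec.snd.comp Primrec.fst))
  have h1 : Primrec fun z : ((ℕ × (Code × Code)) × ((ℕ × List ℕ) × ℕ)) × ℕ =>
      z.1.2.1.2.map fun r' => stepC z.1.1.2.2 r' z.1.2.2 := Primrec.list_map g5 g4
  have h2 : Primrec fun z : ((ℕ × (Code × Code)) × ((ℕ × List ℕ) × ℕ)) × ℕ =>
      decide (z.2 ∈ z.1.2.1.2.map fun r' => stepC z.1.1.2.2 r' z.1.2.2) :=
    qc_mem.comp Primrec.snd h1
  have h3 : Primrec fun z : ((ℕ × (Code × Code)) × ((ℕ × List ℕ) × ℕ)) × ℕ =>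
      decide (z.2 = 0) := (Primrec.eq.comp Primrec.snd (Primrec.const 0)).decide
  have h4 : Primrec fun z : ((ℕ × (Code × Code)) × ((ℕ × List ℕ) × ℕ)) × ℕ =>
      decide (stepC z.1.1.2.1 z.1.2.1.1 z.1.2.2 ∈ z.1.1.2.1.2) :=
    qc_mem.comp (pr_q1.comp Primrec.fst)
      (Primrec.snd.comp (Primrec.fst.comp (Primrec.snd.comp (Primrec.fst.comp Primrec.fst))))
  exact Primrec.or.comp h2 (Primrec.and.comp h3 h4)

private theorem pr_qs : Primrec fun x : (ℕ × (Code × Code)) × ((ℕ × List ℕ) × ℕ) =>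
    qs x.1 x.2.1 x.2.2 := by
  have h1 : Primrec fun x : (ℕ × (Code × Code)) × ((ℕ × List ℕ) × ℕ) =>
      (List.range (bnd x.1.2.2)).flatMap
        (fun r => bif qt x.1 x.2.1 x.2.2 r then [r] else []) := by
    refine Primrec.list_flatMap
      (Primrec.list_range.comp (qc_bnd.comp (Primrec.snd.comp (Primrec.snd.comp Primrec.fst)))) ?_
    exact Primrec.cond pr_qt
      (Primrec.list_cons.comp Primrec.snd (Primrec.const [])) (Primrec.const [])
  exact pr_q1.pair (h1.of_eq fun x => (qc_filter _ _).symm)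

private theorem pr_qa : Primrec fun x : (ℕ × (Code × Code)) × (ℕ × List ℕ) => qa x.1 x.2 := by
  have hh : Primrec₂ fun (x : (ℕ × (Code × Code)) × (ℕ × List ℕ)) (b : ℕ × Bool) =>
      decide (b.1 ∈ x.1.2.2.2) || b.2 := by
    have h1 : Primrec fun z : ((ℕ × (Code × Code)) × (ℕ × List ℕ)) × (ℕ × Bool) =>
        decide (z.2.1 ∈ z.1.1.2.2.2) :=
      qc_mem.comp (Primrec.fst.comp Primrec.snd)
        (Primrec.snd.comp (Primrec.snd.comp (Primrec.snd.comp (Primrec.fst.comp Primrec.fst))))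
    exact Primrec.or.comp h1 (Primrec.snd.comp Primrec.snd)
  exact Primrec.list_foldr (Primrec.snd.comp Primrec.snd) (Primrec.const false) hh

private theorem qc_fin (c : ℕ × (Code × Code)) :
    Set.Finite {x | ∃ w : List ℕ, x = w.foldl (qs c) (qi c)} := by
  have h1 : Set.Finite (insert (qi c) ((Set.Iio (bnd c.2.1)) ×ˢ
      {l : List ℕ | l ∈ (List.range (bnd c.2.2)).sublists})) :=
    ((Set.finite_Iio _).prod (List.finite_toSet _)).insert _
  refine h1.subset ?_
  rintro x ⟨w, rfl⟩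
  rcases List.eq_nil_or_concat w with h | ⟨v, a, h⟩
  · rw [h]
    exact Set.mem_insert _ _
  · rw [h, List.concat_eq_append, List.foldl_append]
    refine Set.mem_insert_of_mem _ ⟨?_, ?_⟩
    · exact stepC_lt _ _ _
    · exact List.mem_sublists.2 List.filter_sublist

private theorem qc_inv (c : ℕ × (Code × Code)) (w : List (Fin c.1)) :
    ((w.map Fin.val).foldl (qs c) (qi c)).1 = runC c.2.1 w ∧
      ∀ r, r ∈ ((w.map Fin.val).foldl (qs c) (qi c)).2 ↔
        ∃ x y, w = x ++ y ∧ x ∈ langC c.1 c.2.1 ∧ r = runC c.2.2 y := by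
  induction w using List.reverseRecOn with
  | nil =>
    refine ⟨rfl, fun r => ?_⟩
    show r ∈ (qi c).2 ↔ _
    unfold qi
    constructor
    · intro h
      by_cases h0 : 0 ∈ c.2.1.2
      · rw [decide_eq_true h0] at h
        have h2 : r = 0 := List.mem_singleton.1 h
        exact ⟨[], [], rfl, h0, h2⟩
      · rw [decide_eq_false h0] at h
        exact absurd h List.not_mem_nil
    · rintro ⟨x, y, hxy, hx, hr⟩
      have h1 := List.append_eq_nil_iff.1 hxy.symm
      rw [h1.1] at hx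
      rw [h1.2] at hr
      have h0 : 0 ∈ c.2.1.2 := hx
      rw [decide_eq_true h0]
      exact List.mem_singleton.2 hr
  | append_singleton w a ih =>
    obtain ⟨ih1, ih2⟩ := ih
    rw [List.map_append, List.foldl_append, List.map_cons, List.map_nil, List.foldl_cons,
      List.foldl_nil]
    generalize (w.map Fin.val).foldl (qs c) (qi c) = F at ih1 ih2 ⊢
    have e1 : (qs c F a.val).1 = runC c.2.1 (w ++ [a]) := by
      rw [runC_snoc, ← ih1]
      rfl
    refine ⟨e1, fun r => ?_⟩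
    have e2 : r ∈ (qs c F a.val).2 ↔ r < bnd c.2.2 ∧ ((∃ r' ∈ F.2, stepC c.2.2 r' a.val = r) ∨
        (r = 0 ∧ runC c.2.1 (w ++ [a]) ∈ c.2.1.2)) := by
      show r ∈ (List.range (bnd c.2.2)).filter (qt c F a.val) ↔ _
      rw [List.mem_filter, List.mem_range]
      unfold qt
      rw [Bool.or_eq_true, Bool.and_eq_true, decide_eq_true_iff, decide_eq_true_iff,
        decide_eq_true_iff, List.mem_map, ← e1]
      rfl
    rw [e2]
    constructor
    · rintro ⟨-, ⟨r', hr', h⟩ | ⟨h1, h2⟩⟩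
      · obtain ⟨x, y, hxy, hx, hy⟩ := (ih2 r').1 hr'
        refine ⟨x, y ++ [a], by rw [hxy, List.append_assoc], hx, ?_⟩
        rw [runC_snoc, ← hy, h]
      · exact ⟨w ++ [a], [], (List.append_nil _).symm, h2, h1⟩
    · rintro ⟨x, y, hxy, hx, hy⟩
      rcases List.eq_nil_or_concat y with h | ⟨z, b, h⟩
      · rw [h, List.append_nil] at hxy
        rw [h] at hy
        have hr : r = 0 := hy
        refine ⟨by rw [hr]; exact bnd_pos _, Or.inr ⟨hr, ?_⟩⟩
        rw [hxy]
        exact hx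
      · rw [List.concat_eq_append] at h
        rw [h, ← List.append_assoc] at hxy
        obtain ⟨k1, k2⟩ := List.append_inj' hxy rfl
        have hab : a = b := by simpa using k2
        rw [h, ← hab, runC_snoc] at hy
        refine ⟨by rw [hy]; exact stepC_lt _ _ _, Or.inl ⟨runC c.2.2 z, ?_, hy.symm⟩⟩
        exact (ih2 _).2 ⟨x, z, k1, hx, rfl⟩

/-- Main result of this module. -/
theorem exists_catC : ∃ f : ℕ × (Code × Code) → Code, Computable f ∧
    ∀ c, langC c.1 (f c) = cat (langC c.1 c.2.1) (langC c.1 c.2.2) := by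
  obtain ⟨f, hf, h⟩ := gen (C := ℕ × (Code × Code)) (σ := ℕ × List ℕ) (fun c => c.1) qi qs qa
    Primrec.fst pr_qi pr_qs pr_qa qc_fin
  refine ⟨f, hf, fun c => ?_⟩
  ext w
  refine (h c w).trans ?_
  obtain ⟨-, h2⟩ := qc_inv c w
  unfold qa
  rw [qc_foldr]
  constructor
  · rintro ⟨r, hr, hr'⟩
    obtain ⟨x, y, hxy, hx, hy⟩ := (h2 r).1 hr
    refine ⟨x, hx, y, ?_, hxy⟩
    have := of_decide_eq_true hr'
    rw [hy] at this
    exact this
  · rintro ⟨x, hx, y, hy, hxy⟩
    exact ⟨runC c.2.2 y, (h2 _).2 ⟨x, y, hxy, hx, rfl⟩, decide_eq_true hy⟩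

end Pool.Agent.HSP
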