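import Pool.Agent.HSP.Snd
import Pool.Agent.HSP.QDefs

/-!
# HSP-QCrt: the form of the certified words

A certified word of the type `t` is a word without `dl`, then a `dl`, then a word of tokens `fl` with
contents in `D` iff `t`.  So the last three `dl` of a word of `Zt'` determine its kind.
-/

namespace Pool.Agent.HSP

open Pool.Agent.DD Pool.Agent.HLV

variable {A P S : Type}

/-- The invariant. -/
private def Iv {N : ℕ} (G : Alph A P N S) (V : Dfa P) (y : List S) : St → Prop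
  | .free _ _ => ∀ r ∈ y, ¬ IsDl (G.tk r)
  | .pad _ _ _ => ∀ r ∈ y, ¬ IsDl (G.tk r)
  | .fin _ d => ∃ y' r z, y = y' ++ r :: z ∧ IsDl (G.tk r) ∧ (∀ q ∈ y', ¬ IsDl (G.tk q)) ∧
      z ∈ all G IsFl ∧ d = V.run 0 (pls G z)
  | .dead => True

private theorem iv_step {N : ℕ} (G : Alph A P N S) (U : Aut A) (V : Dfa P) (y : List S) (r : S)
    (x : St) (h : Iv G V y x) : Iv G V (y ++ [r]) (step U V N x (G.tk r)) := by
  have hmem : (∀ q ∈ y, ¬ IsDl (G.tk q)) → ¬ IsDl (G.tk r) → ∀ q ∈ y ++ [r], ¬ IsDl (G.tk q) := by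
    intro h1 h2 q hq
    rw [List.mem_append, List.mem_singleton] at hq
    rcases hq with hq | hq
    · exact h1 q hq
    · rw [hq]
      exact h2
  rcases hx : x with ⟨s, l⟩ | ⟨s, j, d⟩ | ⟨s, d⟩ | _
  · rw [hx] at h
    rcases ht : G.tk r with a | ⟨w, lb⟩ | _ | p
    · show Iv G V (y ++ [r]) (if l ≤ N then .free (U.δ s a) (l + 1) else .dead)
      split_ifs
      · exact hmem h (by rw [ht]; exact fun h => h)
      · trivial
    · rcases lb with _ | p | _ | _
      · show Iv G V (y ++ [r]) (if U.run s w = s then .pad s 0 0 else .dead)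
        split_ifs with hw
        · exact hmem h (by rw [ht]; exact fun h => h)
        · trivial
      · trivial
      · trivial
      · trivial
    · exact ⟨y, r, [], rfl, by rw [ht]; trivial, h, fun q hq => absurd hq List.not_mem_nil, rfl⟩
    · trivial
  · rw [hx] at h
    rcases ht : G.tk r with a | ⟨w, lb⟩ | _ | p
    · trivial
    · rcases lb with _ | p | _ | _
      · trivial
      · show Iv G V (y ++ [r]) (if U.run s w = s then .pad s j (V.δ d p) else .dead)
        split_ifs with hw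
        · exact hmem h (by rw [ht]; exact fun h => h)
        · trivial
      · show Iv G V (y ++ [r])
          (if U.run s w = s ∧ j < U.b ∧ V.acc d = decide (j = s) then .pad s (j + 1) 0 else .dead)
        split_ifs with hw
        · exact hmem h (by rw [ht]; exact fun h => h)
        · trivial
      · show Iv G V (y ++ [r]) (if U.run s w = s ∧ j = U.b then .free s 0 else .dead)
        split_ifs with hw
        · exact hmem h (by rw [ht]; exact fun h => h)
        · trivial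
    · trivial
    · trivial
  · rw [hx] at h
    rcases ht : G.tk r with a | ⟨w, lb⟩ | _ | p
    · trivial
    · rcases lb with _ | p | _ | _ <;> trivial
    · trivial
    · obtain ⟨y', r', z, h1, h2, h3, h4, h5⟩ := h
      refine ⟨y', r', z ++ [r], ?_, h2, h3, ?_, ?_⟩
      · rw [h1, List.append_assoc, List.cons_append]
      · intro q hq
        rw [List.mem_append, List.mem_singleton] at hq
        rcases hq with hq | hq
        · exact h4 q hq
        · rw [hq, ht]
          trivial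
      · have e1 : pls G (z ++ [r]) = pls G z ++ [p] := by
          unfold pls
          rw [List.filterMap_append]
          congr 1
          simp only [List.filterMap_cons, List.filterMap_nil, ht, plOf]
        rw [e1]
        unfold Dfa.run
        rw [List.foldl_append]
        show V.δ d p = V.δ (List.foldl V.δ 0 (pls G z)) p
        rw [h5]
        rfl
  · rcases ht : G.tk r with a | ⟨w, lb⟩ | _ | p
    · trivial
    · rcases lb with _ | p | _ | _ <;> trivial
    · trivial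
    · trivial

private theorem iv_run {N : ℕ} (G : Alph A P N S) (U : Aut A) (V : Dfa P) (y : List S) :
    Iv G V y (runT G U V (.free 0 0) y) := by
  induction y using List.reverseRecOn with
  | nil => exact fun r hr => absurd hr List.not_mem_nil
  | append_singleton y r ih =>
    have h : runT G U V (.free 0 0) (y ++ [r]) = step U V N (runT G U V (.free 0 0) y) (G.tk r) := by
      unfold runT
      rw [List.foldl_append]
      rfl
    rw [h]
    exact iv_step G U V y r _ ih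

theorem cert_form {N : ℕ} (G : Alph A P N S) (U : Aut A) (V : Dfa P) {t : Bool} {x : List S}
    (hx : x ∈ Cert G U V t) : ∃ y r z, x = y ++ r :: z ∧ IsDl (G.tk r) ∧
      (∀ s ∈ y, ¬ IsDl (G.tk s)) ∧ z ∈ flL G V t := by
  obtain ⟨s, d, h1, h2, -⟩ := hx
  have h := iv_run G U V x
  rw [h1] at h
  obtain ⟨y, r, z, e1, e2, e3, e4, e5⟩ := h
  refine ⟨y, r, z, e1, e2, e3, e4, ?_⟩
  rw [← e5]
  exact h2

theorem zt_sub {N : ℕ} (G : Alph A P N S) (U : Aut A) (V : Dfa P) (θ : Th) :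
    Zt G U V θ ⊆ Zt' G V θ := by
  rintro w ⟨c, hc, v, hv, rfl⟩
  obtain ⟨y, r, z, e1, e2, -, e4⟩ := cert_form G U V hc
  refine ⟨y, trivial, [r] ++ (z ++ v), ⟨[r], ⟨r, e2, rfl⟩, z ++ v, ⟨z, e4, v, hv, rfl⟩, rfl⟩, ?_⟩
  rw [e1, List.append_assoc]
  rfl

private theorem last_dl {N : ℕ} (G : Alph A P N S) {a b z z' : List S} {r r' : S}
    (hr : IsDl (G.tk r)) (hr' : IsDl (G.tk r')) (hz : z ∈ all G IsFl) (hz' : z' ∈ all G IsFl)
    (h : a ++ r :: z = b ++ r' :: z') : a = b ∧ z = z' := by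
  have hno : ∀ (s : S), IsDl (G.tk s) → ¬ IsFl (G.tk s) := by
    intro s h1 h2
    rcases ht : G.tk s with _ | _ | _ | _
    · rw [ht] at h1
      exact h1
    · rw [ht] at h1
      exact h1
    · rw [ht] at h2
      exact h2
    · rw [ht] at h1
      exact h1
  rcases List.append_eq_append_iff.1 h with ⟨c, h1, h2⟩ | ⟨c, h1, h2⟩
  · rcases c with _ | ⟨c0, cs⟩
    · rw [List.append_nil] at h1
      rw [List.nil_append] at h2
      exact ⟨h1.symm, (List.cons.inj h2).2⟩
    · exfalso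
      rw [List.cons_append] at h2
      have h3 := (List.cons.inj h2).2
      exact hno r' hr' (hz r' (by rw [h3]; simp))
  · rcases c with _ | ⟨c0, cs⟩
    · rw [List.append_nil] at h1
      rw [List.nil_append] at h2
      exact ⟨h1, (List.cons.inj h2).2.symm⟩
    · exfalso
      rw [List.cons_append] at h2
      have h3 := (List.cons.inj h2).2
      exact hno r hr (hz' r (by rw [h3]; simp))

private theorem zt_form {N : ℕ} (G : Alph A P N S) (V : Dfa P) {θ : Th} {w : List S}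
    (h : w ∈ Zt' G V θ) : ∃ u r₁ z₁ r₂ z₂ r₃ z₃, w = ((u ++ r₁ :: z₁) ++ r₂ :: z₂) ++ r₃ :: z₃ ∧
      IsDl (G.tk r₁) ∧ IsDl (G.tk r₂) ∧ IsDl (G.tk r₃) ∧ z₁ ∈ flL G V θ.1 ∧ z₂ ∈ flL G V θ.2.1 ∧
      z₃ ∈ flL G V θ.2.2 := by
  obtain ⟨u, -, v, ⟨a₁, ⟨r₁, h1, rfl⟩, v₁, ⟨z₁, h2, v₂, ⟨a₂, ⟨r₂, h3, rfl⟩, v₃, ⟨z₂, h4, v₄,
    ⟨a₃, ⟨r₃, h5, rfl⟩, z₃, h6, rfl⟩, rfl⟩, rfl⟩, rfl⟩, rfl⟩, rfl⟩ := h
  exact ⟨u, r₁, z₁, r₂, z₂, r₃, z₃, by simp, h1, h3, h5, h2, h4, h6⟩

theorem zt_disj {N : ℕ} (G : Alph A P N S) (U : Aut A) (V : Dfa P) {θ θ' : Th} (h : θ ≠ θ') :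
    ∀ w ∈ Zt' G V θ, w ∉ Zt G U V θ' := by
  intro w h1 h2
  apply h
  obtain ⟨u, r₁, z₁, r₂, z₂, r₃, z₃, e0, e1, e2, e3, e4, e5, e6⟩ := zt_form G V h1
  obtain ⟨u', r₁', z₁', r₂', z₂', r₃', z₃', e0', e1', e2', e3', e4', e5', e6'⟩ :=
    zt_form G V (zt_sub G U V θ' h2)
  rw [e0] at e0'
  obtain ⟨f1, f2⟩ := last_dl G e3 e3' e6.1 e6'.1 e0'
  obtain ⟨f3, f4⟩ := last_dl G e2 e2' e5.1 e5'.1 f1
  obtain ⟨-, f5⟩ := last_dl G e1 e1' e4.1 e4'.1 f3
  have g1 : θ.1 = θ'.1 := by rw [← e4.2, ← e4'.2, f5]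
  have g2 : θ.2.1 = θ'.2.1 := by rw [← e5.2, ← e5'.2, f4]
  have g3 : θ.2.2 = θ'.2.2 := by rw [← e6.2, ← e6'.2, f2]
  exact Prod.ext g1 (Prod.ext g2 g3)

end Pool.Agent.HSP
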