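import Pool.Agent.HSP.QT0

/-!
# HSP-QCtl: the control recognizes the good sequences

After a nonempty sequence the state of the control is `1` if the sequence is not well formed, and
otherwise `3 + 4 p + 2 h + l` with `p` the last type, `h` = some mark s' has occurred, `l` = the type of
the last block with mark s.  Since in a well formed sequence all marks s are before all marks s', the
accepting states are those with `h = true` and `l = false`.
-/

namespace Pool.Agent.HSP

open Pool.Agent.DD Pool.Agent.HLV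

theorem xi_ix (θ : Th) : xi (ix θ) = θ ∧ ix θ < 8 := by
  revert θ
  decide

theorem ix_xi {i : ℕ} (hi : i < 8) : ix (xi i) = i := by
  interval_cases i <;> rfl

private def qS (θ : Th) : Bool := θ.2.1 && θ.2.2

private def qS' (θ : Th) : Bool := θ.2.1 && !θ.2.2

private theorem qS_iff (θ : Th) : IsS θ ↔ qS θ = true := by
  unfold IsS qS
  rw [Bool.and_eq_true]

private theorem qS'_iff (θ : Th) : IsS' θ ↔ qS' θ = true := by
  unfold IsS' qS'
  rw [Bool.and_eq_true, Bool.not_eq_true']

private def qL (ts : List Th) : Bool := ts.foldl (fun b z => if qS z then z.1 else b) false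

private def qP (ts : List Th) : Bool := ts.foldl (fun _ z => z.1) false

private def qH (ts : List Th) : Bool := ts.foldl (fun b z => b || qS' z) false

private def qE (p h l : Bool) : ℕ :=
  3 + (if p then 4 else 0) + (if h then 2 else 0) + (if l then 1 else 0)

private theorem step_eq : ∀ (p h l : Bool) (θ : Th), ctl (qE p h l) θ =
    if θ.2.1 = (θ.1 != p) ∧ ¬ (qS θ = true ∧ h = true) then
      qE θ.1 (h || qS' θ) (if qS θ then θ.1 else l) else 1 := by
  decide

private theorem acc_eq : ∀ p h l : Bool, ctlAcc (qE p h l) = true ↔ h = true ∧ l = false := by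
  decide

private theorem nS'_of_S {x : Th} (h : IsS x) : ¬ IsS' x := by
  rintro ⟨-, h1⟩
  rw [h.2] at h1
  exact Bool.noConfusion h1

private theorem unm {x : Th} (h : ¬ IsS x) (h' : ¬ IsS' x) : x.2.1 = false := by
  by_contra h1
  rw [Bool.not_eq_false] at h1
  by_cases h2 : x.2.2 = true
  · exact h ⟨h1, h2⟩
  · rw [Bool.not_eq_true] at h2
    exact h' ⟨h1, h2⟩

private def qR (a b : Th) : Prop := IsS' a → ¬ IsS b

private theorem split_iff (ts : List Th) :
    (∃ α β, ts = α ++ β ∧ (∀ x ∈ α, ¬ IsS' x) ∧ ∀ x ∈ β, ¬ IsS x) ↔ ts.Pairwise qR := by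
  constructor
  · rintro ⟨α, β, rfl, h1, h2⟩
    rw [List.pairwise_append]
    refine ⟨?_, ?_, fun a ha b _ h3 => absurd h3 (h1 a ha)⟩
    · exact List.Pairwise.imp_of_mem (fun {a b} ha _ _ h3 => absurd h3 (h1 a ha))
        (List.pairwise_of_forall (R := fun _ _ => True) fun _ _ => trivial)
    · exact List.Pairwise.imp_of_mem (fun {a b} _ hb _ _ => h2 b hb)
        (List.pairwise_of_forall (R := fun _ _ => True) fun _ _ => trivial)
  · intro h
    induction ts with
    | nil => exact ⟨[], [], rfl, fun x hx => absurd hx List.not_mem_nil, fun x hx => absurd hx List.not_mem_nil⟩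
    | cons a t ih =>
      rw [List.pairwise_cons] at h
      by_cases ha : IsS' a
      · refine ⟨[], a :: t, rfl, fun x hx => absurd hx List.not_mem_nil, fun x hx => ?_⟩
        rcases List.mem_cons.1 hx with rfl | hx
        · exact fun h1 => nS'_of_S h1 ha
        · exact h.1 x hx ha
      · obtain ⟨α, β, h1, h2, h3⟩ := ih h.2
        refine ⟨a :: α, β, by rw [h1]; rfl, fun x hx => ?_, h3⟩
        rcases List.mem_cons.1 hx with rfl | hx
        · exact ha
        · exact h2 x hx

private theorem ex_first {X : Type} (p : X → Prop) (l : List X) (h : ∃ z ∈ l, p z) :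
    ∃ α x β, l = α ++ x :: β ∧ p x ∧ ∀ z ∈ α, ¬ p z := by
  classical
  induction l with
  | nil =>
    obtain ⟨z, hz, -⟩ := h
    exact absurd hz List.not_mem_nil
  | cons a t ih =>
    by_cases ha : p a
    · exact ⟨[], a, t, rfl, ha, fun z hz => absurd hz List.not_mem_nil⟩
    · have h1 : ∃ z ∈ t, p z := by
        obtain ⟨z, hz, hp⟩ := h
        rcases List.mem_cons.1 hz with rfl | hz
        · exact absurd hp ha
        · exact ⟨z, hz, hp⟩
      obtain ⟨α, x, β, h2, h3, h4⟩ := ih h1
      refine ⟨a :: α, x, β, by rw [h2]; rfl, h3, fun z hz => ?_⟩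
      rcases List.mem_cons.1 hz with rfl | hz
      · exact ha
      · exact h4 z hz

private theorem ex_last {X : Type} (p : X → Prop) (l : List X) (h : ∃ z ∈ l, p z) :
    ∃ α x β, l = α ++ x :: β ∧ p x ∧ ∀ z ∈ β, ¬ p z := by
  classical
  induction l with
  | nil =>
    obtain ⟨z, hz, -⟩ := h
    exact absurd hz List.not_mem_nil
  | cons a t ih =>
    by_cases h1 : ∃ z ∈ t, p z
    · obtain ⟨α, x, β, h2, h3, h4⟩ := ih h1
      exact ⟨a :: α, x, β, by rw [h2]; rfl, h3, h4⟩
    · obtain ⟨z, hz, hp⟩ := h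
      rcases List.mem_cons.1 hz with rfl | hz
      · exact ⟨[], z, t, rfl, hp, fun w hw hw' => h1 ⟨w, hw, hw'⟩⟩
      · exact absurd ⟨z, hz, hp⟩ h1

private theorem qL_dec {α β : List Th} {x : Th} (hx : IsS x) (hβ : ∀ z ∈ β, ¬ IsS z) :
    qL (α ++ x :: β) = x.1 := by
  have h1 : ∀ (β : List Th) (b : Bool), (∀ z ∈ β, ¬ IsS z) →
      β.foldl (fun b z => if qS z then z.1 else b) b = b := by
    intro β
    induction β with
    | nil => intro b _; rfl
    | cons a t ih =>
      intro b h
      have h2 : ¬ qS a = true := fun h3 => h a List.mem_cons_self ((qS_iff a).2 h3)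
      rw [List.foldl_cons, if_neg h2]
      exact ih b fun z hz => h z (List.mem_cons_of_mem _ hz)
  unfold qL
  rw [List.foldl_append, List.foldl_cons, if_pos ((qS_iff x).1 hx), h1 β _ hβ]

private theorem qH_iff (ts : List Th) : qH ts = true ↔ ∃ z ∈ ts, IsS' z := by
  have h1 : ∀ (ts : List Th) (b : Bool), ts.foldl (fun b z => b || qS' z) b = true ↔
      b = true ∨ ∃ z ∈ ts, IsS' z := by
    intro ts
    induction ts with
    | nil =>
      intro b
      simp
    | cons a t ih =>
      intro b
      rw [List.foldl_cons, ih, Bool.or_eq_true, ← qS'_iff]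
      constructor
      · rintro ((h | h) | ⟨z, hz, h⟩)
        · exact Or.inl h
        · exact Or.inr ⟨a, List.mem_cons_self, h⟩
        · exact Or.inr ⟨z, List.mem_cons_of_mem _ hz, h⟩
      · rintro (h | ⟨z, hz, h⟩)
        · exact Or.inl (Or.inl h)
        · rcases List.mem_cons.1 hz with rfl | hz
          · exact Or.inl (Or.inr h)
          · exact Or.inr ⟨z, hz, h⟩
  unfold qH
  rw [h1]
  simp

private theorem wf_iff (ts : List Th) :
    WF0 ts ↔ (∃ θ r, ts = θ :: r ∧ IsS θ) ∧ ts.IsChain Adj ∧ ts.Pairwise qR := by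
  unfold WF0
  rw [split_iff]

private theorem wf_snoc (ts : List Th) (z θ : Th) :
    WF0 ((ts ++ [z]) ++ [θ]) ↔ WF0 (ts ++ [z]) ∧ Adj z θ ∧
      ¬ (qS θ = true ∧ qH (ts ++ [z]) = true) := by
  rw [wf_iff, wf_iff, List.isChain_append, List.pairwise_append]
  have h0 : (∃ θ' r, ts ++ [z] ++ [θ] = θ' :: r ∧ IsS θ') ↔ ∃ θ' r, ts ++ [z] = θ' :: r ∧ IsS θ' := by
    cases ts with
    | nil =>
      constructor
      · rintro ⟨θ', r, h1, h2⟩
        have h3 : z = θ' := by
          have h4 := congrArg List.head? h1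
          simpa using h4
        exact ⟨z, [], rfl, by rw [h3]; exact h2⟩
      · rintro ⟨θ', r, h1, h2⟩
        have h3 : z = θ' := by
          have h4 := congrArg List.head? h1
          simpa using h4
        exact ⟨z, [θ], rfl, by rw [h3]; exact h2⟩
    | cons a t =>
      constructor
      · rintro ⟨θ', r, h1, h2⟩
        have h3 : a = θ' := by
          have h4 := congrArg List.head? h1
          simpa using h4
        exact ⟨a, t ++ [z], rfl, by rw [h3]; exact h2⟩
      · rintro ⟨θ', r, h1, h2⟩
        have h3 : a = θ' := by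
          have h4 := congrArg List.head? h1
          simpa using h4
        exact ⟨a, t ++ [z] ++ [θ], rfl, by rw [h3]; exact h2⟩
  rw [h0, ← qS_iff, qH_iff]
  constructor
  · rintro ⟨h1, ⟨h2, -, h3⟩, h4, -, h5⟩
    refine ⟨⟨h1, h2, h4⟩, h3 z (by simp) θ (by simp), ?_⟩
    rintro ⟨h6, w, hw, h7⟩
    exact h5 w hw θ (by simp) h7 h6
  · rintro ⟨⟨h1, h2, h4⟩, h3, h6⟩
    refine ⟨h1, ⟨h2, List.isChain_singleton θ, ?_⟩, h4, List.pairwise_singleton _ _, ?_⟩
    · intro x hx y hy
      have hx' : z = x := by simpa using hx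
      have hy' : θ = y := by simpa using hy
      rw [← hx', ← hy']
      exact h3
    · intro w hw y hy h7 h8
      have hy' : y = θ := by simpa using hy
      rw [hy'] at h8
      exact h6 ⟨h8, w, hw, h7⟩

private theorem dead1 : ∀ a : Th, ctl 1 a = 1 := by
  decide

private theorem inv (ts : List Th) (z : Th) :
    (WF0 (ts ++ [z]) → (ts ++ [z]).foldl ctl 2 = qE (qP (ts ++ [z])) (qH (ts ++ [z])) (qL (ts ++ [z]))) ∧
      (¬ WF0 (ts ++ [z]) → (ts ++ [z]).foldl ctl 2 = 1) := by
  induction ts using List.reverseRecOn generalizing z with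
  | nil =>
    have h1 : WF0 ([] ++ [z]) ↔ qS z = true := by
      rw [wf_iff, ← qS_iff]
      constructor
      · rintro ⟨⟨θ, r, h1, h2⟩, -⟩
        have h3 : z = θ := by
          have h4 := congrArg List.head? h1
          simpa using h4
        rw [h3]
        exact h2
      · intro h
        exact ⟨⟨z, [], rfl, h⟩, List.isChain_singleton z, List.pairwise_singleton _ _⟩
    have h2 : ∀ z : Th, (qS z = true → ctl 2 z = qE z.1 (false || qS' z) (if qS z then z.1 else false)) ∧
        (¬ qS z = true → ctl 2 z = 1) := by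
      decide
    rw [h1]
    exact h2 z
  | append_singleton ts y ih =>
    have h1 : (ts ++ [y] ++ [z]).foldl ctl 2 = ctl ((ts ++ [y]).foldl ctl 2) z := by
      rw [List.foldl_append]
      rfl
    have h2 : qP (ts ++ [y]) = y.1 := by
      unfold qP
      rw [List.foldl_append]
      rfl
    have h3 : qP (ts ++ [y] ++ [z]) = z.1 := by
      unfold qP
      rw [List.foldl_append]
      rfl
    have h4 : qH (ts ++ [y] ++ [z]) = (qH (ts ++ [y]) || qS' z) := by
      unfold qH
      rw [List.foldl_append (l' := [z])]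
      rfl
    have h5 : qL (ts ++ [y] ++ [z]) = if qS z then z.1 else qL (ts ++ [y]) := by
      unfold qL
      rw [List.foldl_append (l' := [z])]
      rfl
    rw [wf_snoc, h1, h3, h4, h5]
    by_cases hw : WF0 (ts ++ [y])
    · rw [(ih y).1 hw, step_eq, h2]
      constructor
      · rintro ⟨-, h6, h7⟩
        rw [if_pos ⟨h6, h7⟩]
      · intro h6
        rw [if_neg]
        rintro ⟨h7, h8⟩
        exact h6 ⟨hw, h7, h8⟩
    · rw [(ih y).2 hw]
      exact ⟨fun h6 => absurd h6.1 hw, fun _ => dead1 z⟩

private theorem T0_iff {ts : List Th} (h : WF0 ts) : T0 ts ↔ qH ts = true ∧ qL ts = false := by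
  rw [qH_iff]
  constructor
  · rintro ⟨-, α, x, β, y, γ, rfl, hx, hy, hβ, h1⟩
    refine ⟨⟨y, by simp, hy⟩, ?_⟩
    rw [qL_dec hx, h1]
    intro z hz
    rw [List.mem_append, List.mem_cons] at hz
    rcases hz with hz | rfl | hz
    · intro h2
      have h3 := h2.1
      rw [hβ z hz] at h3
      exact Bool.noConfusion h3
    · exact fun h2 => nS'_of_S h2 hy
    · have h2 := ((wf_iff _).1 h).2.2
      have h3 : α ++ x :: (β ++ y :: γ) = (α ++ x :: β) ++ (y :: γ) := by simp
      rw [h3, List.pairwise_append, List.pairwise_cons] at h2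
      exact h2.2.1.1 z hz hy
  · rintro ⟨⟨w, hw, hw'⟩, hl⟩
    obtain ⟨⟨θ, r, h1, h2⟩, h3, a, b, h4, h5, h6⟩ := h
    have ha : ∃ z ∈ a, IsS z := by
      cases a with
      | nil =>
        rw [List.nil_append] at h4
        exact absurd h2 (h6 θ (by rw [← h4, h1]; exact List.mem_cons_self))
      | cons c t =>
        have h7 : θ = c := by
          rw [h4] at h1
          have h8 := congrArg List.head? h1
          simpa using h8.symm
        exact ⟨c, List.mem_cons_self, by rw [← h7]; exact h2⟩
    have hb : ∃ z ∈ b, IsS' z := by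
      rw [h4, List.mem_append] at hw
      rcases hw with hw | hw
      · exact absurd hw' (h5 w hw)
      · exact ⟨w, hw, hw'⟩
    obtain ⟨α, x, β₁, e1, hx, hβ₁⟩ := ex_last IsS a ha
    obtain ⟨β₂, y, γ, e2, hy, hβ₂⟩ := ex_first IsS' b hb
    have e3 : ts = α ++ x :: ((β₁ ++ β₂) ++ y :: γ) := by
      rw [h4, e1, e2]
      simp
    have hun : ∀ z ∈ β₁ ++ β₂, z.2.1 = false := by
      intro z hz
      rcases List.mem_append.1 hz with hz | hz
      · exact unm (hβ₁ z hz) (h5 z (by rw [e1]; simp [hz]))
      · exact unm (h6 z (by rw [e2]; simp [hz])) (hβ₂ z hz)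
    refine ⟨⟨⟨θ, r, h1, h2⟩, h3, a, b, h4, h5, h6⟩, α, x, β₁ ++ β₂, y, γ, e3, hx, hy, hun, ?_⟩
    rw [← hl, e3, qL_dec hx]
    intro z hz
    rw [List.mem_append] at hz
    rcases hz with hz | hz
    · intro h7
      have h8 := h7.1
      rw [hun z hz] at h8
      exact Bool.noConfusion h8
    · exact h6 z (by rw [e2]; simp only [List.mem_append]; exact Or.inr hz)

/-- Main result of this module. -/
theorem ctl_iff (ts : List Th) : T0 ts ↔ ctlAcc (ts.foldl ctl 2) = true := by
  rcases List.eq_nil_or_concat ts with rfl | ⟨t, z, rfl⟩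
  · constructor
    · rintro ⟨⟨⟨θ, r, h1, -⟩, -⟩, -⟩
      exact absurd h1 (List.cons_ne_nil θ r).symm
    · intro h
      exact absurd h (by decide)
  · rw [List.concat_eq_append]
    by_cases h : WF0 (t ++ [z])
    · rw [(inv t z).1 h, acc_eq, T0_iff h]
    · rw [(inv t z).2 h]
      constructor
      · exact fun h1 => absurd h1.1 h
      · intro h1
        exact absurd h1 (by decide)

theorem ctl_dead (ts : List Th) : ts.foldl ctl 1 = 1 := by
  induction ts with
  | nil => rfl
  | cons a t ih =>
    rw [List.foldl_cons, dead1 a, ih]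

end Pool.Agent.HSP
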