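import Pool.Agent.HSP.QLvA

/-!
# HSP-QGm: intervals without blocks in `P`
-/

namespace Pool.Agent.HSP

open Pool.Agent.DD Pool.Agent.HLV

variable {M : ℕ}

private theorem qg_wd_nil : wd ([] : List (List (Fin M))) = [Fin.last M] := rfl

private theorem qg_wd_one (y : List (Fin M)) :
    wd [y] = Fin.last M :: (y.map Fin.castSucc ++ [Fin.last M]) := by
  simp [wd, wq]

private theorem qg_wd_cons (y : List (Fin M)) (ys : List (List (Fin M))) :
    wd (y :: ys) = Fin.last M :: (y.map Fin.castSucc ++ wd ys) := by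
  simp [wd, wq]

private theorem qg_head (ys : List (List (Fin M))) : ∃ v, wd ys = [Fin.last M] ++ v := by
  cases ys with
  | nil => exact ⟨[], rfl⟩
  | cons y ys => exact ⟨y.map Fin.castSucc ++ wd ys, qg_wd_cons y ys⟩

private theorem qg_wq_nil {ys : List (List (Fin M))} (h : [] = wq ys) : ys = [] := by
  cases ys with
  | nil => rfl
  | cons y ys =>
    rw [wq_cons] at h
    exact absurd h (by simp)

/-- The first block of a sequence. -/
private theorem qg_first {ys : List (List (Fin M))} {y : List (Fin M)} {q : List (Fin (M + 1))}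
    (h : wd ys = Fin.last M :: (y.map Fin.castSucc ++ ([Fin.last M] ++ q))) :
    ∃ ys', ys = y :: ys' := by
  have h1 : wd ys = [] ++ (wd [y] ++ q) := by
    rw [h, qg_wd_one]
    simp
  obtain ⟨ys₁, ys₂, h2, h3, -⟩ := wd_split h1
  rw [qg_wq_nil h3] at h2
  exact ⟨ys₂, by simpa using h2⟩

private theorem qg_LS {i : ℕ} {Z' : Th → Lang (Fin M)} (h : ∀ θ, Z' θ ∈ Half (B (Fin M) i))
    (p : Th → Prop) : {x | ∃ θ, p θ ∧ x ∈ Z' θ} ∈ Half (B (Fin M) i) := by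
  rw [half_iff]
  have h1 := pol_finite_union (i := i) (fun θ : {θ : Th // p θ} => Z' θ.1)
    (fun θ => half_iff.1 (h θ.1))
  have e : ({x | ∃ θ, p θ ∧ x ∈ Z' θ} : Lang (Fin M)) =
      {w | ∃ θ : {θ : Th // p θ}, w ∈ Z' θ.1} := by
    ext w
    constructor
    · rintro ⟨θ, h1, h2⟩
      exact ⟨⟨θ, h1⟩, h2⟩
    · rintro ⟨θ, h1⟩
      exact ⟨θ.1, θ.2, h1⟩
  rw [e]
  exact h1

/-- Main result of this module. -/
theorem Gm_half {n : ℕ} (hn : 1 ≤ n) {Z' : Th → Lang (Fin M)}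
    (h3 : ∀ θ, Z' θ ∈ Half (B (Fin M) (n + 1))) {P : Lang (Fin M)} (hP : P ∈ Half (B (Fin M) n)) :
    Gm Z' P ∈ Half (B (Fin (M + 1)) (n + 1)) := by
  have hSQ : Pol (B (Fin (M + 1)) (n + 1))
      {w : List (Fin (M + 1)) | ∃ ys : List (List (Fin M)), w = wd ys} :=
    Pol.base (B_mono (by omega) SQ_B)
  have hNO : Pol (B (Fin (M + 1)) (n + 1))
      {w : List (Fin (M + 1)) | ∃ ys : List (List (Fin M)), w = wd ys ∧ ∀ v ∈ ys, v ∉ P} :=
    Pol.base (no_B hn hP)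
  have hS : Pol (B (Fin (M + 1)) (n + 1)) (bl {x | ∃ θ, IsS θ ∧ x ∈ Z' θ}) :=
    half_iff.1 (bl_half (by omega) (qg_LS h3 IsS))
  have hS' : Pol (B (Fin (M + 1)) (n + 1)) (bl {x | ∃ θ, IsS' θ ∧ x ∈ Z' θ}) :=
    half_iff.1 (bl_half (by omega) (qg_LS h3 IsS'))
  have hlast : Pol (B (Fin (M + 1)) (n + 1)) ({[Fin.last M]} : Lang (Fin (M + 1))) :=
    Pol.base (finite_mem_B (Set.finite_singleton _) _)
  have huniv : Pol (B (Fin (M + 1)) (n + 1)) (Set.univ : Lang (Fin (M + 1))) :=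
    Pol.base (univ_mem_B _)
  have hJ : Pol (B (Fin (M + 1)) (n + 1))
      ({w : List (Fin (M + 1)) | ∃ ys : List (List (Fin M)), w = wd ys ∧ ∀ v ∈ ys, v ∉ P} ∩
        cat {[Fin.last M]} (cat (bl {x | ∃ θ, IsS θ ∧ x ∈ Z' θ}) (cat {[Fin.last M]} Set.univ))) :=
    inter_pol hNO (Pol.cat hlast (Pol.cat hS (Pol.cat hlast huniv)))
  rw [half_iff]
  have e : Gm Z' P = {w : List (Fin (M + 1)) | ∃ ys : List (List (Fin M)), w = wd ys} ∩
      cat Set.univ (cat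
        ({w : List (Fin (M + 1)) | ∃ ys : List (List (Fin M)), w = wd ys ∧ ∀ v ∈ ys, v ∉ P} ∩
          cat {[Fin.last M]} (cat (bl {x | ∃ θ, IsS θ ∧ x ∈ Z' θ}) (cat {[Fin.last M]} Set.univ)))
        (cat (bl {x | ∃ θ, IsS' θ ∧ x ∈ Z' θ}) (cat {[Fin.last M]} Set.univ))) := by
    ext w
    constructor
    · rintro ⟨α, x, β, y, γ, rfl, hx, hy, hxP, hβ⟩
      refine ⟨⟨_, rfl⟩, wq α, Set.mem_univ _, wd (x :: β) ++ (y.map Fin.castSucc ++ wd γ), ?_, ?_⟩
      · refine ⟨wd (x :: β), ⟨⟨x :: β, rfl, ?_⟩, ?_⟩, y.map Fin.castSucc ++ wd γ, ?_, rfl⟩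
        · intro v hv
          rcases List.mem_cons.1 hv with rfl | hv
          · exact hxP
          · exact hβ v hv
        · obtain ⟨v, hv⟩ := qg_head β
          refine ⟨[Fin.last M], rfl, x.map Fin.castSucc ++ wd β,
            ⟨x.map Fin.castSucc, ⟨x, hx, rfl⟩, wd β, ⟨[Fin.last M], rfl, v, Set.mem_univ _, hv⟩,
              rfl⟩, ?_⟩
          rw [qg_wd_cons]
          rfl
        · obtain ⟨v, hv⟩ := qg_head γ
          exact ⟨y.map Fin.castSucc, ⟨y, hy, rfl⟩, wd γ, ⟨[Fin.last M], rfl, v, Set.mem_univ _, hv⟩,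
            rfl⟩
      · have h1 : x :: (β ++ y :: γ) = (x :: β) ++ (y :: γ) := rfl
        rw [wd_append, h1, wd_append, qg_wd_cons]
        congr 1
        show wq (x :: β) ++ Fin.last M :: (y.map Fin.castSucc ++ wd γ) =
          (wq (x :: β) ++ [Fin.last M]) ++ (y.map Fin.castSucc ++ wd γ)
        simp
    · rintro ⟨⟨ys, hys⟩, p, -, r, ⟨j, ⟨⟨zs, rfl, hzs⟩, hj⟩, s, hs, rfl⟩, hw⟩
      obtain ⟨l, hl, t, ⟨b, ⟨x, hx, rfl⟩, t', ⟨l', hl', q', -, rfl⟩, rfl⟩, hzx⟩ := hj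
      obtain ⟨b', ⟨y, hy, rfl⟩, t'', ⟨l'', hl'', q, -, rfl⟩, rfl⟩ := hs
      have el : l = [Fin.last M] := hl
      have el' : l' = [Fin.last M] := hl'
      have el'' : l'' = [Fin.last M] := hl''
      subst el
      subst el'
      subst el''
      obtain ⟨β, rfl⟩ := qg_first (ys := zs) (y := x) (q := q') hzx
      have h1 : wd ys = p ++ (wd (x :: β) ++ (y.map Fin.castSucc ++ ([Fin.last M] ++ q))) := by
        rw [← hys, hw]
      obtain ⟨ys₁, ys₂, h2, -, h4⟩ := wd_split h1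
      obtain ⟨γ, rfl⟩ := qg_first h4.symm
      refine ⟨ys₁, x, β, y, γ, ?_, hx, hy, hzs x (by simp), fun v hv => hzs v (by simp [hv])⟩
      rw [hys, h2]
      rfl
  rw [e]
  exact inter_pol hSQ (Pol.cat huniv (Pol.cat hJ (Pol.cat hS' (Pol.cat hlast huniv))))

end Pool.Agent.HSP
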