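import Pool.Agent.HSP.Defs
import Pool.Agent.HLV.Cut

/-!
# HSP-QHau: difference chains (Hausdorff)
-/

namespace Pool.Agent.HSP

open Pool.Agent.DD Pool.Agent.HLV

variable {A P S : Type}

private theorem boolCl_list {C : Set (Lang A)} {L : Lang A} (h : BoolCl C L) :
    ∃ Ps : List (Lang A), (∀ P ∈ Ps, P ∈ C) ∧
      ∀ x y, (∀ P ∈ Ps, (x ∈ P ↔ y ∈ P)) → (x ∈ L ↔ y ∈ L) := by
  induction h with
  | @base L h =>
    refine ⟨[L], ?_, ?_⟩
    · intro P hP
      rw [List.mem_singleton.1 hP]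
      exact h
    · intro x y hxy
      exact hxy L (by simp)
  | compl h ih =>
    obtain ⟨Ps, h1, h2⟩ := ih
    refine ⟨Ps, h1, ?_⟩
    intro x y hxy
    exact not_congr (h2 x y hxy)
  | union h k ih ik =>
    obtain ⟨Ps, h1, h2⟩ := ih
    obtain ⟨Qs, k1, k2⟩ := ik
    refine ⟨Ps ++ Qs, ?_, ?_⟩
    · intro P hP
      rcases List.mem_append.1 hP with hP | hP
      · exact h1 P hP
      · exact k1 P hP
    · intro x y hxy
      exact or_congr (h2 x y fun P hP => hxy P (List.mem_append_left _ hP))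
        (k2 x y fun P hP => hxy P (List.mem_append_right _ hP))
  | inter h k ih ik =>
    obtain ⟨Ps, h1, h2⟩ := ih
    obtain ⟨Qs, k1, k2⟩ := ik
    refine ⟨Ps ++ Qs, ?_, ?_⟩
    · intro P hP
      rcases List.mem_append.1 hP with hP | hP
      · exact h1 P hP
      · exact k1 P hP
    · intro x y hxy
      exact and_congr (h2 x y fun P hP => hxy P (List.mem_append_left _ hP))
        (k2 x y fun P hP => hxy P (List.mem_append_right _ hP))

private def Good {r : ℕ} (f : Finset (Fin r) → Prop) (k : ℕ) (c : Fin (k + 1) → Finset (Fin r)) :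
    Prop := StrictMono c ∧ ∀ i, (f (c i) ↔ i.val % 2 = 0)

private def Q {r : ℕ} (f : Finset (Fin r) → Prop) (k : ℕ) (I : Finset (Fin r)) : Prop :=
  ∃ c : Fin (k + 1) → Finset (Fin r), Good f k c ∧ c (Fin.last k) ⊆ I

private theorem Q_succ {r : ℕ} {f : Finset (Fin r) → Prop} {k : ℕ} {I : Finset (Fin r)}
    (h : Q f (k + 1) I) : Q f k I := by
  obtain ⟨c, ⟨h1, h2⟩, h3⟩ := h
  refine ⟨fun i => c i.castSucc, ⟨?_, ?_⟩, ?_⟩
  · intro i j hij
    exact h1 (Fin.castSucc_lt_castSucc_iff.2 hij)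
  · intro i
    exact h2 i.castSucc
  · have h4 : c (Fin.castSucc (Fin.last k)) < c (Fin.last (k + 1)) :=
      h1 (Fin.castSucc_lt_last (Fin.last k))
    exact fun x hx => h3 (h4.le hx)

private theorem Q_bound {r : ℕ} {f : Finset (Fin r) → Prop} {k : ℕ} {I : Finset (Fin r)}
    (hk : r < k) : ¬ Q f k I := by
  rintro ⟨c, ⟨h1, -⟩, -⟩
  have h : ∀ (i : ℕ) (hi : i < k + 1), i ≤ (c ⟨i, hi⟩).card := by
    intro i
    induction i with
    | zero => intro _; exact Nat.zero_le _
    | succ i ih =>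
      intro hi
      have h2 : c ⟨i, by omega⟩ < c ⟨i + 1, hi⟩ := h1 (by
        rw [Fin.lt_def]; exact Nat.lt_succ_self i)
      have h3 := Finset.card_lt_card h2
      have h4 := ih (by omega)
      omega
  have h5 := h k (Nat.lt_succ_self k)
  have h6 : (c ⟨k, Nat.lt_succ_self k⟩).card ≤ r := by
    have := Finset.card_le_univ (c ⟨k, Nat.lt_succ_self k⟩)
    simpa using this
  omega

private theorem Q_ext {r : ℕ} {f : Finset (Fin r) → Prop} {k : ℕ} {I : Finset (Fin r)}
    (h : Q f k I) (hI : f I ↔ (k + 1) % 2 = 0) : Q f (k + 1) I := by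
  obtain ⟨c, ⟨h1, h2⟩, h3⟩ := h
  have h4 : c (Fin.last k) ≠ I := by
    intro h5
    have h6 := h2 (Fin.last k)
    rw [h5, hI, Fin.val_last] at h6
    omega
  have h5 : c (Fin.last k) < I := lt_of_le_of_ne h3 h4
  refine ⟨fun i => if h : i.val < k + 1 then c ⟨i.val, h⟩ else I, ⟨?_, ?_⟩, ?_⟩
  · intro i j hij
    have hij' : i.val < j.val := hij
    have hj := j.isLt
    have hi : i.val < k + 1 := by omega
    show (if h : i.val < k + 1 then c ⟨i.val, h⟩ else I) <
      (if h : j.val < k + 1 then c ⟨j.val, h⟩ else I)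
    rw [dif_pos hi]
    by_cases hj' : j.val < k + 1
    · rw [dif_pos hj']
      exact h1 hij'
    · rw [dif_neg hj']
      have h7 : c ⟨i.val, hi⟩ ≤ c (Fin.last k) := h1.monotone (Fin.le_last _)
      exact lt_of_le_of_lt h7 h5
  · intro i
    show (f (if h : i.val < k + 1 then c ⟨i.val, h⟩ else I) ↔ i.val % 2 = 0)
    by_cases hi : i.val < k + 1
    · rw [dif_pos hi]
      exact h2 ⟨i.val, hi⟩
    · rw [dif_neg hi, hI]
      have := i.isLt
      have h8 : i.val = k + 1 := by omega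
      rw [h8]
  · show (if h : (Fin.last (k + 1)).val < k + 1 then c ⟨(Fin.last (k + 1)).val, h⟩ else I) ⊆ I
    rw [dif_neg (by rw [Fin.val_last]; omega)]

private theorem Q_zero {r : ℕ} {f : Finset (Fin r) → Prop} {I : Finset (Fin r)}
    (h : f I) : Q f 0 I := by
  refine ⟨fun _ => I, ⟨?_, ?_⟩, fun x hx => hx⟩
  · intro i j hij
    have h1 : i.val < j.val := hij
    have h2 := j.isLt
    omega
  · intro i
    have : i.val = 0 := by have := i.isLt; omega
    rw [this]
    exact ⟨fun _ => rfl, fun _ => h⟩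

private theorem Q_iff {r : ℕ} {f : Finset (Fin r) → Prop} {I : Finset (Fin r)} :
    f I ↔ ∃ k, k % 2 = 0 ∧ Q f k I ∧ ¬ Q f (k + 1) I := by
  classical
  constructor
  · intro h
    have h0 := Q_zero h
    have h1 : Q f (Nat.findGreatest (fun k => Q f k I) r) I :=
      Nat.findGreatest_spec (P := fun k => Q f k I) (Nat.zero_le r) h0
    have h2 : ¬ Q f (Nat.findGreatest (fun k => Q f k I) r + 1) I := by
      intro h3
      by_cases h4 : Nat.findGreatest (fun k => Q f k I) r + 1 ≤ r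
      · have h5 := Nat.le_findGreatest (P := fun k => Q f k I) h4 h3
        omega
      · exact Q_bound (by omega) h3
    refine ⟨_, ?_, h1, h2⟩
    by_contra h3
    exact h2 (Q_ext h1 ⟨fun _ => by omega, fun _ => h⟩)
  · rintro ⟨k, h1, h2, h3⟩
    by_contra h4
    exact h3 (Q_ext h2 ⟨fun h => absurd h h4, fun h => by omega⟩)

/-- Main result of this module. -/
theorem hausdorff [Finite A] {i : ℕ} {L : Lang A} (h : L ∈ B A (i + 1)) :
    ∃ (m : ℕ) (Pc : ℕ → Lang A), (∀ k, Pc k ∈ Half (B A i)) ∧ (∀ k, Pc (k + 1) ⊆ Pc k) ∧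
      (∀ k, m ≤ k → Pc k = ∅) ∧
      ∀ w, w ∈ L ↔ ∃ k, k % 2 = 0 ∧ w ∈ Pc k ∧ w ∉ Pc (k + 1) := by
  classical
  obtain ⟨Ps, h1, h2⟩ := boolCl_list (C := MonCl (B A i)) (L := L) h
  let pi : List A → Finset (Fin Ps.length) := fun w => Finset.univ.filter fun j => w ∈ Ps[j]
  have hpi : ∀ w j, j ∈ pi w ↔ w ∈ Ps[j] := by
    intro w j
    show j ∈ Finset.univ.filter (fun j : Fin Ps.length => w ∈ Ps[j]) ↔ _
    simp
  let f : Finset (Fin Ps.length) → Prop := fun I => ∃ w ∈ L, pi w = I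
  have hf : ∀ w, w ∈ L ↔ f (pi w) := by
    intro w
    constructor
    · intro hw
      exact ⟨w, hw, rfl⟩
    · rintro ⟨v, hv, hvw⟩
      refine (h2 v w ?_).1 hv
      intro P hP
      obtain ⟨j, hj, rfl⟩ := List.getElem_of_mem hP
      have h3 := hpi v ⟨j, hj⟩
      have h4 := hpi w ⟨j, hj⟩
      rw [hvw] at h3
      exact h3.symm.trans h4
  refine ⟨Ps.length + 1, fun k => {w | Q f k (pi w)}, ?_, ?_, ?_, ?_⟩
  · intro k
    apply half_of_pol
    have e : ({w | Q f k (pi w)} : Lang A) =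
        {w | ∃ c : {c : Fin (k + 1) → Finset (Fin Ps.length) // Good f k c},
          w ∈ ({w | ∀ j ∈ (c.1 (Fin.last k)).toList, w ∈ (Ps[j] : Lang A)} : Lang A)} := by
      ext w
      constructor
      · rintro ⟨c, hc, hcw⟩
        refine ⟨⟨c, hc⟩, ?_⟩
        intro j hj
        exact (hpi w j).1 (hcw (Finset.mem_toList.1 hj))
      · rintro ⟨⟨c, hc⟩, hcw⟩
        refine ⟨c, hc, ?_⟩
        intro j hj
        exact (hpi w j).2 (hcw j (Finset.mem_toList.2 hj))
    show Pol (B A i) ({w | Q f k (pi w)} : Lang A)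
    rw [e]
    apply pol_finite_union
    intro c
    exact pol_list_inter _ _ fun j _ => pol_of_monCl (h1 _ (List.getElem_mem _))
  · intro k w hw
    exact Q_succ hw
  · intro k hk
    ext w
    constructor
    · intro hw
      exact Q_bound (by omega) hw
    · intro hw
      exact hw.elim
  · intro w
    rw [hf w]
    exact Q_iff

end Pool.Agent.HSP
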