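import Pool.Agent.HSP.QT0

/-!
# HSP-QLoA: the words of the chain

`lft k ++ run ++ rgt k` is well formed, and its switch run has the type `k % 2 = 0`.
-/

namespace Pool.Agent.HSP

open Pool.Agent.DD Pool.Agent.HLV

/-- The left parts. -/
def lft (r : ℕ) : ℕ → List Th
  | 0 => [(true, (true, true))]
  | k + 1 => lft r k ++ (List.replicate r (decide (k % 2 = 0), (false, false)) ++
      [(!decide (k % 2 = 0), (true, true))])

/-- The right parts. -/
def rgt (r : ℕ) : ℕ → List Th
  | 0 => [(false, (true, false))]
  | k + 1 => (decide (k % 2 = 0), (true, false)) ::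
      (List.replicate r (decide (k % 2 = 0), (false, false)) ++ rgt r k)

private theorem lo_par (k : ℕ) : (!decide (k % 2 = 0)) = decide ((k + 1) % 2 = 0) := by
  rcases Nat.mod_two_eq_zero_or_one k with h | h
  · have h1 : ¬ (k + 1) % 2 = 0 := by omega
    rw [decide_eq_true h, decide_eq_false h1]
    rfl
  · have h1 : (k + 1) % 2 = 0 := by omega
    have h2 : ¬ k % 2 = 0 := by omega
    rw [decide_eq_true h1, decide_eq_false h2]
    rfl

private theorem lft_snoc (r k : ℕ) : ∃ L, lft r k = L ++ [(decide (k % 2 = 0), (true, true))] := by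
  cases k with
  | zero => exact ⟨[], rfl⟩
  | succ k =>
    refine ⟨lft r k ++ List.replicate r (decide (k % 2 = 0), (false, false)), ?_⟩
    show lft r k ++ (List.replicate r (decide (k % 2 = 0), (false, false)) ++
      [(!decide (k % 2 = 0), (true, true))]) = _
    rw [lo_par, List.append_assoc]

private theorem rgt_cons (r k : ℕ) : ∃ R, rgt r k = (!decide (k % 2 = 0), (true, false)) :: R := by
  cases k with
  | zero => exact ⟨[], rfl⟩
  | succ k =>
    refine ⟨List.replicate r (decide (k % 2 = 0), (false, false)) ++ rgt r k, ?_⟩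
    show (decide (k % 2 = 0), (true, false)) ::
      (List.replicate r (decide (k % 2 = 0), (false, false)) ++ rgt r k) = _
    rw [← lo_par, Bool.not_not]

private theorem lft_head (r k : ℕ) : ∃ R, lft r k = (true, (true, true)) :: R := by
  induction k with
  | zero => exact ⟨[], rfl⟩
  | succ k ih =>
    obtain ⟨R, hR⟩ := ih
    refine ⟨R ++ (List.replicate r (decide (k % 2 = 0), (false, false)) ++
      [(!decide (k % 2 = 0), (true, true))]), ?_⟩
    show lft r k ++ _ = _
    rw [hR, List.cons_append]

private theorem lft_marks (r k : ℕ) : ∀ x ∈ lft r k, ¬ IsS' x := by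
  induction k with
  | zero =>
    intro x hx h
    rw [List.mem_singleton.1 hx] at h
    exact Bool.false_ne_true h.2.symm
  | succ k ih =>
    intro x hx h
    rcases List.mem_append.1 hx with h1 | h1
    · exact ih x h1 h
    · rcases List.mem_append.1 h1 with h2 | h2
      · rw [List.eq_of_mem_replicate h2] at h
        exact Bool.false_ne_true h.1
      · rw [List.mem_singleton.1 h2] at h
        exact Bool.false_ne_true h.2.symm

private theorem rgt_marks (r k : ℕ) : ∀ x ∈ rgt r k, ¬ IsS x := by
  induction k with
  | zero =>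
    intro x hx h
    rw [List.mem_singleton.1 hx] at h
    exact Bool.false_ne_true h.2
  | succ k ih =>
    intro x hx h
    rcases List.mem_cons.1 hx with h1 | h1
    · rw [h1] at h
      exact Bool.false_ne_true h.2
    · rcases List.mem_append.1 h1 with h2 | h2
      · rw [List.eq_of_mem_replicate h2] at h
        exact Bool.false_ne_true h.1
      · exact ih x h2 h

private theorem run_chain (t : Bool) (y : Th) (R : List Th) (hy : (y :: R).IsChain Adj)
    (h1 : y.1 = !t) (h2 : y.2.1 = true) (r : ℕ) : ∀ h : Th, h.1 = t →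
    (h :: (List.replicate r (t, (false, false)) ++ y :: R)).IsChain Adj := by
  induction r with
  | zero =>
    intro h hh
    rw [List.replicate_zero, List.nil_append, List.isChain_cons_cons]
    refine ⟨?_, hy⟩
    show y.2.1 = (y.1 != h.1)
    rw [h1, h2, hh]
    cases t <;> rfl
  | succ r ih =>
    intro h hh
    rw [List.replicate_succ, List.cons_append, List.isChain_cons_cons]
    refine ⟨?_, ih _ rfl⟩
    show false = (t != h.1)
    rw [hh]
    cases t <;> rfl

private theorem lft_chain (r k : ℕ) : (lft r k).IsChain Adj := by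
  induction k with
  | zero => exact List.IsChain.singleton _
  | succ k ih =>
    obtain ⟨L, hL⟩ := lft_snoc r k
    show (lft r k ++ (List.replicate r (decide (k % 2 = 0), (false, false)) ++
      [(!decide (k % 2 = 0), (true, true))])).IsChain Adj
    rw [hL] at ih ⊢
    rw [List.append_assoc, List.singleton_append, List.isChain_split]
    exact ⟨ih, run_chain _ _ [] (List.IsChain.singleton _) rfl rfl r _ rfl⟩

private theorem rgt_chain (r k : ℕ) : (rgt r k).IsChain Adj := by
  induction k with
  | zero => exact List.IsChain.singleton _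
  | succ k ih =>
    obtain ⟨R, hR⟩ := rgt_cons r k
    show ((decide (k % 2 = 0), (true, false)) ::
      (List.replicate r (decide (k % 2 = 0), (false, false)) ++ rgt r k)).IsChain Adj
    rw [hR] at ih ⊢
    exact run_chain _ _ R ih rfl rfl r _ rfl

private theorem lo_wf (r k : ℕ) : WF0 (lft r k ++
    (List.replicate r (decide (k % 2 = 0), (false, false)) ++ rgt r k)) := by
  refine ⟨?_, ?_, ?_⟩
  · obtain ⟨R, hR⟩ := lft_head r k
    exact ⟨_, _, by rw [hR, List.cons_append], ⟨rfl, rfl⟩⟩
  · obtain ⟨L, hL⟩ := lft_snoc r k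
    obtain ⟨R, hR⟩ := rgt_cons r k
    have h1 := lft_chain r k
    have h2 := rgt_chain r k
    rw [hL] at h1 ⊢
    rw [hR] at h2 ⊢
    rw [List.append_assoc, List.singleton_append, List.isChain_split]
    exact ⟨h1, run_chain _ _ R h2 rfl rfl r _ rfl⟩
  · refine ⟨_, _, rfl, lft_marks r k, fun x hx h => ?_⟩
    rcases List.mem_append.1 hx with h1 | h1
    · rw [List.eq_of_mem_replicate h1] at h
      exact Bool.false_ne_true h.1
    · exact rgt_marks r k x h1 h

/-- Main result of this module. -/
theorem chain_T0 (r k : ℕ) : T0 (lft r k ++ (List.replicate r (decide (k % 2 = 0), (false, false)) ++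
    rgt r k)) ↔ k % 2 = 1 := by
  obtain ⟨L, hL⟩ := lft_snoc r k
  obtain ⟨R, hR⟩ := rgt_cons r k
  have hw := lo_wf r k
  have hdec : lft r k ++ (List.replicate r (decide (k % 2 = 0), (false, false)) ++ rgt r k) =
      L ++ (decide (k % 2 = 0), (true, true)) ::
        (List.replicate r (decide (k % 2 = 0), (false, false)) ++
          (!decide (k % 2 = 0), (true, false)) :: R) := by
    rw [hL, hR, List.append_assoc, List.singleton_append]
  have hun : ∀ z ∈ List.replicate r ((decide (k % 2 = 0), (false, false)) : Th), z.2.1 = false := by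
    intro z hz
    rw [List.eq_of_mem_replicate hz]
  constructor
  · rintro ⟨_, α, x, β, y, γ, h1, hx, hy, hβ, hx1⟩
    have h2 := switch_in h1 hdec hx hy ⟨rfl, rfl⟩ ⟨rfl, rfl⟩ hun hw.2.2
    have h3 := switch_in hdec h1 ⟨rfl, rfl⟩ ⟨rfl, rfl⟩ hx hy hβ hw.2.2
    have h4 : α.length = L.length := le_antisymm h2.1 h3.1
    obtain ⟨_, h5⟩ := List.append_inj (h1.symm.trans hdec) h4
    have h6 := (List.cons.inj h5).1
    rw [h6] at hx1
    have h7 : ¬ k % 2 = 0 := of_decide_eq_false hx1
    omega
  · intro hk
    refine ⟨hw, L, _, _, _, R, hdec, ⟨rfl, rfl⟩, ⟨rfl, rfl⟩, hun, ?_⟩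
    show decide (k % 2 = 0) = false
    exact decide_eq_false (by omega)

end Pool.Agent.HSP
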