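import Pool.Agent.HSP.QSyn
import Pool.Agent.HLV.Dir
import Pool.Agent.HLV.Cut

/-!
# HSP-QLvA: levels of the elementary languages of block sequences
-/

namespace Pool.Agent.HSP

open Pool.Agent.DD Pool.Agent.HLV

variable {M : ℕ}

private def cs (a : Fin M) : List (Fin (M + 1)) := [Fin.castSucc a]

private theorem good_cs : GoodCode (cs (M := M)) 1 where
  pos := le_refl 1
  len _ := rfl
  inj a b h := by
    have h1 : [Fin.castSucc a] = [Fin.castSucc b] := h
    exact Fin.castSucc_injective M (List.singleton_injective h1)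
  nov a _ p r _ hp hr h1 _ := by
    have h2 := congrArg List.length h1
    have h3 : (cs a).length = 1 := rfl
    rw [h3, List.length_append] at h2
    have h4 : 0 < p.length := List.length_pos_of_ne_nil hp
    have h5 : 0 < r.length := List.length_pos_of_ne_nil hr
    omega

private theorem ext_cs (y : List (Fin M)) : ext (cs (M := M)) y = y.map Fin.castSucc := by
  induction y with
  | nil => rfl
  | cons a y ih =>
    rw [ext_cons, ih]
    rfl

private theorem bl_eq (L : Lang (Fin M)) : bl L = img (cs (M := M)) L := by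
  ext w
  constructor
  · rintro ⟨y, hy, rfl⟩
    exact ⟨y, hy, (ext_cs y).symm⟩
  · rintro ⟨y, hy, rfl⟩
    exact ⟨y, hy, ext_cs y⟩

theorem bl_half {i : ℕ} (hi : 1 ≤ i) {L : Lang (Fin M)} (h : L ∈ Half (B (Fin M) i)) :
    bl L ∈ Half (B (Fin (M + 1)) i) := by
  rw [bl_eq]
  exact (img_half_iff good_cs hi L).2 h

private theorem pol_last (i : ℕ) : Pol (B (Fin (M + 1)) i) {[Fin.last M]} :=
  Pol.base (finite_mem_B (Set.finite_singleton _) i)

private theorem pol_univ' (i : ℕ) : Pol (B (Fin (M + 1)) i) Set.univ :=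
  Pol.base (univ_mem_B i)

theorem SQ_B : {w : List (Fin (M + 1)) | ∃ ys : List (List (Fin M)), w = wd ys} ∈
    B (Fin (M + 1)) 1 := by
  have e : {w : List (Fin (M + 1)) | ∃ ys : List (List (Fin M)), w = wd ys} =
      cat {[Fin.last M]} Set.univ ∩ cat Set.univ {[Fin.last M]} := by
    ext w
    constructor
    · intro h
      obtain ⟨⟨v, hv⟩, u, hu⟩ := wd_exists.1 h
      exact ⟨⟨[Fin.last M], rfl, v, trivial, hv⟩, ⟨u, trivial, [Fin.last M], rfl, hu⟩⟩
    · rintro ⟨⟨x, hx, v, -, hv⟩, ⟨u, -, x', hx', hu⟩⟩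
      rw [Set.mem_singleton_iff] at hx hx'
      subst hx
      subst hx'
      exact wd_exists.2 ⟨⟨v, hv⟩, u, hu⟩
  rw [e]
  exact B_inter (pol_sub_B (Pol.cat (pol_last 0) (pol_univ' 0)))
    (pol_sub_B (Pol.cat (pol_univ' 0) (pol_last 0)))

private theorem wd_one (v : List (Fin M)) :
    wd [v] = Fin.last M :: (v.map Fin.castSucc ++ [Fin.last M]) := by
  have h1 : wq ([] : List (List (Fin M))) = [] := rfl
  unfold wd
  rw [wq_cons, h1, List.append_nil, List.cons_append]

/-- Main result of this module. -/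
theorem no_B {i : ℕ} (hi : 1 ≤ i) {P : Lang (Fin M)} (h : P ∈ Half (B (Fin M) i)) :
    {w : List (Fin (M + 1)) | ∃ ys : List (List (Fin M)), w = wd ys ∧ ∀ v ∈ ys, v ∉ P} ∈
      B (Fin (M + 1)) (i + 1) := by
  have e : {w : List (Fin (M + 1)) | ∃ ys : List (List (Fin M)), w = wd ys ∧ ∀ v ∈ ys, v ∉ P} =
      {w : List (Fin (M + 1)) | ∃ ys : List (List (Fin M)), w = wd ys} ∩
        (cat Set.univ (cat {[Fin.last M]} (cat (bl P) (cat {[Fin.last M]} Set.univ))))ᶜ := by
    ext w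
    constructor
    · rintro ⟨ys, rfl, hys⟩
      refine ⟨⟨ys, rfl⟩, ?_⟩
      rintro ⟨x, -, y1, ⟨x1, hx1, y2, ⟨x2, ⟨v, hv, rfl⟩, y3, ⟨x3, hx3, y4, -, rfl⟩, rfl⟩, rfl⟩, hw⟩
      rw [Set.mem_singleton_iff] at hx1 hx3
      subst hx1
      subst hx3
      have h1 : wd ys = x ++ (wd [v] ++ y4) := by
        rw [hw, wd_one]
        simp
      obtain ⟨ys1, ys2, h2, -, -⟩ := wd_split h1
      refine hys v ?_ hv
      rw [h2]
      simp
    · rintro ⟨⟨ys, rfl⟩, hn⟩
      refine ⟨ys, rfl, fun v hv hP => hn ?_⟩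
      obtain ⟨a, b, rfl⟩ := List.append_of_mem hv
      obtain ⟨⟨z, hz⟩, -⟩ := (wd_exists (w := wd b)).1 ⟨b, rfl⟩
      refine ⟨wq a, trivial, wd (v :: b), ?_, wd_append a (v :: b)⟩
      refine ⟨[Fin.last M], rfl, v.map Fin.castSucc ++ wd b, ?_, ?_⟩
      · refine ⟨v.map Fin.castSucc, ⟨v, hP, rfl⟩, wd b, ?_, rfl⟩
        exact ⟨[Fin.last M], rfl, z, trivial, hz⟩
      · unfold wd
        rw [wq_cons]
        simp
  rw [e]
  refine B_inter (B_mono (by omega) SQ_B) (B_compl (pol_sub_B ?_))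
  exact Pol.cat (pol_univ' i) (Pol.cat (pol_last i) (Pol.cat (half_iff.1 (bl_half hi h))
    (Pol.cat (pol_last i) (pol_univ' i))))

end Pool.Agent.HSP
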