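import Pool.Agent.HSP.QRed

/-!
# HSP-QLvl: all levels, numbered by half integers
-/

namespace Pool.Agent.HSP

open Pool.Agent.DD Pool.Agent.HLV

theorem Lev_even (A : Type) (n : ℕ) : Lev A (2 * n) = B A n := by
  unfold Lev
  rw [if_pos (by omega), Nat.mul_div_cancel_left n (by omega)]

theorem Lev_odd (A : Type) (n : ℕ) : Lev A (2 * n + 1) = Half (B A n) := by
  unfold Lev
  rw [if_neg (by omega), show (2 * n + 1) / 2 = n by omega]

/-- Separation by the level `k / 2` reduces to membership in the level `k / 2 + 1`. -/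
theorem exists_lev (M m : ℕ) {k : ℕ} (hk : 3 ≤ k) : ∃ f : Code × Code → Code, Computable f ∧
    ∀ p, (Separable (Lev (Fin (M + 1)) k) (langC (M + 1) p.1) (langC (M + 1) p.2) ↔
      langC (m + 2) (f p) ∈ Lev (Fin (m + 2)) (k + 2)) := by
  rcases Nat.even_or_odd k with h | h
  · obtain ⟨n, hn⟩ : ∃ n, k = 2 * (n + 1) := ⟨k / 2 - 1, by obtain ⟨r, hr⟩ := h; omega⟩
    subst hn
    obtain ⟨f, hf, hr⟩ := exists_redB M m (show 1 ≤ n by omega)
    refine ⟨f, hf, fun p => ?_⟩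
    rw [show 2 * (n + 1) + 2 = 2 * (n + 2) by omega, Lev_even, Lev_even]
    exact (hr p).symm
  · obtain ⟨n, hn⟩ : ∃ n, k = 2 * n + 1 := ⟨k / 2, by obtain ⟨r, hr⟩ := h; omega⟩
    subst hn
    obtain ⟨f, hf, hr⟩ := exists_red M m (show 1 ≤ n by omega)
    refine ⟨f, hf, fun p => ?_⟩
    rw [show 2 * n + 1 + 2 = 2 * (n + 1) + 1 by omega, Lev_odd, Lev_odd]
    exact (hr p).symm

end Pool.Agent.HSP
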