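import Pool.Agent.HSP.QCtl
import Pool.Agent.HSP.QSyn

/-!
# HSP-QSuM: the machine for block sequences recognizes the language

Plan.  Let `Z θ = langC M (cs.getD (ix θ) ([], []))`, pairwise disjoint, and `c = (M, cs)`.  `(Fin.last M).val
= M`, `(Fin.castSucc a).val = a.val < M`.  From `(x, (f, qs))` with `2 ≤ x`, `qs` of length 8: a word
`y.map castSucc` leads to `(x, (f', qs'))` with `qs'` the states of the eight automata (`runC` if
`qs = replicate 8 0`), `f' = 0` if `y ≠ []` and `f' = f` if `y = []`.  So from
`(x, (1, replicate 8 0))`, `2 ≤ x`, the word `y.map castSucc ++ [last]` leads to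
`(ctl x θ, (1, replicate 8 0))` if `y ∈ Z θ` and `ctl x θ ≠ 1` (the index `fst8` is `ix θ` by
disjointness; `xi_ix`), and to the dead state if `y` is in no `Z θ` or `ctl x θ = 1`.  Hence the word `wd ys`
leads from the initial state to `(ts.foldl ctl 2, (1, ..))` if all `y ∈ ys` have kinds `ts` and the control
does not die, and to the dead state otherwise (`ctl_dead`).  Words which do not begin with `last` are
dead, words which do not end with `last` have `f = 0` at the end, all others are some `wd ys`
(`wd_exists`).  `ctl_iff`; the kinds are unique.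
-/

namespace Pool.Agent.HSP

open Pool.Agent.DD Pool.Agent.HLV

variable {M : ℕ}

/-- the state of the machine after a delimiter -/
private def sq (x : ℕ) : ℕ × (ℕ × List ℕ) :=
  if x = 1 then (1, (0, [])) else (x, (1, List.replicate 8 0))

private theorem st_dead (c : ℕ × List Code) (f : ℕ) (qs : List ℕ) (a : ℕ) :
    stQ c (1, (f, qs)) a = (1, (0, [])) := by
  unfold stQ
  rw [if_neg (by simp), if_pos rfl]

private theorem dead_fold (c : ℕ × List Code) (l : List ℕ) :
    l.foldl (stQ c) (1, (0, [])) = (1, (0, [])) := by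
  induction l with
  | nil => rfl
  | cons a l ih => rw [List.foldl_cons, st_dead, ih]

private theorem st_let (c : ℕ × List Code) (x f : ℕ) (qs : List ℕ) (a : ℕ) (hx : 2 ≤ x)
    (ha : a ≠ c.1) : stQ c (x, (f, qs)) a =
      (x, (0, (List.range 8).map fun i => stepC (c.2.getD i ([], [])) (qs.getD i 0) a)) := by
  have h0 : ¬ x = 0 := by omega
  have h1 : ¬ x = 1 := by omega
  unfold stQ
  rw [if_neg h0, if_neg h1, if_neg ha]

private theorem st_del (c : ℕ × List Code) (x f : ℕ) (qs : List ℕ) (hx : 2 ≤ x) :
    stQ c (x, (f, qs)) c.1 =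
      (if fst8 c.2 qs < 8 ∧ ctl x (xi (fst8 c.2 qs)) ≠ 1 then
        (ctl x (xi (fst8 c.2 qs)), (1, List.replicate 8 0)) else (1, (0, []))) := by
  have h0 : ¬ x = 0 := by omega
  have h1 : ¬ x = 1 := by omega
  unfold stQ
  rw [if_neg h0, if_neg h1, if_pos rfl]

private theorem getD_rng (g : ℕ → ℕ) {i : ℕ} (hi : i < 8) :
    ((List.range 8).map g).getD i 0 = g i := by
  rw [List.getD_eq_getElem _ _ (by simpa using hi)]
  simp

private theorem seg (cs : List Code) (y : List (Fin M)) : ∀ (x f : ℕ) (qs : List ℕ), 2 ≤ x → y ≠ [] →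
    (y.map Fin.val).foldl (stQ (M, cs)) (x, (f, qs)) =
      (x, (0, (List.range 8).map fun i =>
        y.foldl (fun (q : ℕ) (a : Fin M) => stepC (cs.getD i ([], [])) q a.val) (qs.getD i 0))) := by
  induction y with
  | nil => intro x f qs _ h; exact absurd rfl h
  | cons a y ih =>
    intro x f qs hx _
    rw [List.map_cons, List.foldl_cons, st_let _ _ _ _ _ hx (Nat.ne_of_lt a.isLt)]
    by_cases hy : y = []
    · subst hy
      rfl
    · rw [ih x 0 _ hx hy]
      refine congrArg (fun z => (x, ((0 : ℕ), z))) ?_
      apply List.map_congr_left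
      intro i hi
      rw [getD_rng _ (List.mem_range.1 hi), List.foldl_cons]

private theorem blk0 (cs : List Code) (y : List (Fin M)) (x : ℕ) (hx : 2 ≤ x) :
    ∃ f, (y.map Fin.val).foldl (stQ (M, cs)) (x, (1, List.replicate 8 0)) =
      (x, (f, (List.range 8).map fun i => runC (cs.getD i ([], [])) y)) := by
  by_cases hy : y = []
  · subst hy
    exact ⟨1, rfl⟩
  · refine ⟨0, ?_⟩
    rw [seg cs y x 1 _ hx hy]
    refine congrArg (fun z => (x, ((0 : ℕ), z))) ?_
    apply List.map_congr_left
    intro i hi
    have hi' := List.mem_range.1 hi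
    have h : (List.replicate 8 0).getD i 0 = 0 := by
      interval_cases i <;> rfl
    rw [h]
    rfl

private theorem idx_eq (p : ℕ → Bool) {k : ℕ} (hk : k < 8) (h1 : p k = true)
    (h2 : ∀ j < k, p j = false) : ((List.range 8).map p).idxOf true = k := by
  unfold List.idxOf
  rw [List.findIdx_eq (by simpa using hk)]
  refine ⟨by simp [h1], ?_⟩
  intro j hj
  simp [h2 j hj]

private theorem idx_none (p : ℕ → Bool) (h : ∀ j < 8, p j = false) :
    ((List.range 8).map p).idxOf true = 8 := by
  have h1 : true ∉ (List.range 8).map p := by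
    intro hm
    obtain ⟨j, hj, hp⟩ := List.mem_map.1 hm
    rw [h j (List.mem_range.1 hj)] at hp
    exact Bool.noConfusion hp
  rw [List.idxOf_eq_length_iff.2 h1]
  simp

private theorem fst8_eq (cs : List Code) (y : List (Fin M)) :
    fst8 cs ((List.range 8).map fun i => runC (cs.getD i ([], [])) y) =
      ((List.range 8).map fun i => decide (runC (cs.getD i ([], [])) y ∈
        (cs.getD i ([], [])).2)).idxOf true := by
  unfold fst8
  refine congrArg (fun z : List Bool => z.idxOf true) ?_
  apply List.map_congr_left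
  intro i hi
  rw [getD_rng _ (List.mem_range.1 hi)]

private theorem ctl_pos (x : ℕ) (θ : Th) : 1 ≤ ctl x θ := by
  unfold ctl
  dsimp only
  split_ifs <;> omega

/-- one block -/
private theorem blk (cs : List Code)
    (hd : ∀ θ θ', θ ≠ θ' → ∀ w ∈ langC M (cs.getD (ix θ) ([], [])),
      w ∉ langC M (cs.getD (ix θ') ([], []))) (y : List (Fin M)) (x : ℕ) (hx : 1 ≤ x) :
    (∀ θ, y ∈ langC M (cs.getD (ix θ) ([], [])) →
      (y.map Fin.val ++ [M]).foldl (stQ (M, cs)) (sq x) = sq (ctl x θ)) ∧
    ((∀ θ, y ∉ langC M (cs.getD (ix θ) ([], []))) →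
      (y.map Fin.val ++ [M]).foldl (stQ (M, cs)) (sq x) = (1, (0, []))) := by
  by_cases h1 : x = 1
  · subst h1
    have h2 : sq 1 = (1, (0, [])) := rfl
    constructor
    · intro θ _
      have h3 : ctl 1 θ = 1 := ctl_dead [θ]
      rw [h2, dead_fold, h3]
      rfl
    · intro _
      rw [h2, dead_fold]
  · have hx2 : 2 ≤ x := by omega
    have h2 : sq x = (x, (1, List.replicate 8 0)) := if_neg h1
    obtain ⟨f, hf⟩ := blk0 cs y x hx2
    have h3 : (y.map Fin.val ++ [M]).foldl (stQ (M, cs)) (sq x) =
        (if fst8 cs ((List.range 8).map fun i => runC (cs.getD i ([], [])) y) < 8 ∧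
          ctl x (xi (fst8 cs ((List.range 8).map fun i => runC (cs.getD i ([], [])) y))) ≠ 1 then
        (ctl x (xi (fst8 cs ((List.range 8).map fun i => runC (cs.getD i ([], [])) y))),
          (1, List.replicate 8 0)) else (1, (0, []))) := by
      rw [List.foldl_append, h2, hf]
      exact st_del (M, cs) x f _ hx2
    constructor
    · intro θ hθ
      have h4 : fst8 cs ((List.range 8).map fun i => runC (cs.getD i ([], [])) y) = ix θ := by
        rw [fst8_eq]
        refine idx_eq (fun i => decide (runC (cs.getD i ([], [])) y ∈ (cs.getD i ([], [])).2))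
          (xi_ix θ).2 (decide_eq_true hθ) ?_
        intro j hj
        have hj8 : j < 8 := hj.trans (xi_ix θ).2
        have h5 : xi j ≠ θ := by
          intro h
          rw [← h, ix_xi hj8] at hj
          exact lt_irrefl _ hj
        have h6 := hd θ (xi j) (Ne.symm h5) y hθ
        rw [ix_xi hj8] at h6
        exact decide_eq_false h6
      rw [h3, h4, (xi_ix θ).1]
      by_cases h5 : ctl x θ = 1
      · rw [if_neg (fun h => h.2 h5), h5]
        rfl
      · rw [if_pos ⟨(xi_ix θ).2, h5⟩]
        exact (if_neg h5).symm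
    · intro hno
      have h4 : fst8 cs ((List.range 8).map fun i => runC (cs.getD i ([], [])) y) = 8 := by
        rw [fst8_eq]
        refine idx_none _ ?_
        intro j hj
        have h6 := hno (xi j)
        rw [ix_xi hj] at h6
        exact decide_eq_false h6
      rw [h3, h4, if_neg (fun h => lt_irrefl _ h.1)]

/-- the blocks after the first delimiter -/
private def tl (ys : List (List (Fin M))) : List ℕ := ys.flatMap fun y => y.map Fin.val ++ [M]

private theorem tl_cons (y : List (Fin M)) (ys : List (List (Fin M))) :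
    tl (y :: ys) = (y.map Fin.val ++ [M]) ++ tl ys := by
  unfold tl
  rw [List.flatMap_cons]

private theorem wd_val (ys : List (List (Fin M))) : (wd ys).map Fin.val = M :: tl ys := by
  induction ys with
  | nil =>
    show (wq [] ++ [Fin.last M]).map Fin.val = M :: tl []
    simp [wq, tl]
  | cons y ys ih =>
    have h1 : wd (y :: ys) = Fin.last M :: (y.map Fin.castSucc ++ wd ys) := by
      unfold wd
      rw [wq_cons]
      simp
    rw [h1, List.map_cons, List.map_append, ih, tl_cons, List.map_map]
    simp [Function.comp_def]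

private theorem run_good (cs : List Code)
    (hd : ∀ θ θ', θ ≠ θ' → ∀ w ∈ langC M (cs.getD (ix θ) ([], [])),
      w ∉ langC M (cs.getD (ix θ') ([], []))) (ps : List (Th × List (Fin M))) :
    ∀ x, 1 ≤ x → (∀ p ∈ ps, p.2 ∈ langC M (cs.getD (ix p.1) ([], []))) →
      (tl (ps.map Prod.snd)).foldl (stQ (M, cs)) (sq x) = sq ((ps.map Prod.fst).foldl ctl x) := by
  induction ps with
  | nil => intro x _ _; rfl
  | cons p ps ih =>
    intro x hx hp
    rw [List.map_cons, tl_cons, List.foldl_append,
      (blk cs hd p.2 x hx).1 p.1 (hp p List.mem_cons_self), List.map_cons, List.foldl_cons]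
    exact ih _ (ctl_pos _ _) fun q hq => hp q (List.mem_cons_of_mem _ hq)

private theorem run_any (cs : List Code)
    (hd : ∀ θ θ', θ ≠ θ' → ∀ w ∈ langC M (cs.getD (ix θ) ([], [])),
      w ∉ langC M (cs.getD (ix θ') ([], []))) (ys : List (List (Fin M))) :
    ∀ x, 1 ≤ x → (∃ ps : List (Th × List (Fin M)), ps.map Prod.snd = ys ∧
      ∀ p ∈ ps, p.2 ∈ langC M (cs.getD (ix p.1) ([], []))) ∨
      (tl ys).foldl (stQ (M, cs)) (sq x) = (1, (0, [])) := by
  induction ys with
  | nil => intro x _; exact Or.inl ⟨[], rfl, by simp⟩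
  | cons y ys ih =>
    intro x hx
    by_cases h : ∃ θ, y ∈ langC M (cs.getD (ix θ) ([], []))
    · obtain ⟨θ, hθ⟩ := h
      rcases ih (ctl x θ) (ctl_pos _ _) with ⟨ps, h1, h2⟩ | h1
      · left
        refine ⟨(θ, y) :: ps, by rw [List.map_cons, h1], ?_⟩
        intro p hp
        rcases List.mem_cons.1 hp with rfl | hp
        · exact hθ
        · exact h2 p hp
      · right
        rw [tl_cons, List.foldl_append, (blk cs hd y x hx).1 θ hθ, h1]
    · right
      have h' : ∀ θ, y ∉ langC M (cs.getD (ix θ) ([], [])) := fun θ hθ => h ⟨θ, hθ⟩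
      rw [tl_cons, List.foldl_append, (blk cs hd y x hx).2 h', dead_fold]

private theorem acQ_sq (c : ℕ × List Code) (x : ℕ) : acQ c (sq x) = ctlAcc x := by
  by_cases h : x = 1
  · subst h
    rfl
  · have h2 : sq x = (x, (1, List.replicate 8 0)) := if_neg h
    rw [h2]
    unfold acQ
    simp

/-- Main result of this module. -/
theorem tst_num (cs : List Code)
    (hd : ∀ θ θ', θ ≠ θ' → ∀ w ∈ langC M (cs.getD (ix θ) ([], [])),
      w ∉ langC M (cs.getD (ix θ') ([], []))) (w : List (Fin (M + 1))) :
    w ∈ Tst (fun θ => langC M (cs.getD (ix θ) ([], []))) ↔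
      acQ (M, cs) ((w.map Fin.val).foldl (stQ (M, cs)) (0, (0, []))) = true := by
  have hfirst : ∀ l : List ℕ, (M :: l).foldl (stQ (M, cs)) (0, (0, [])) =
      l.foldl (stQ (M, cs)) (sq 2) := by
    intro l
    rw [List.foldl_cons]
    congr 1
    unfold stQ
    rw [if_pos rfl, if_pos rfl]
    rfl
  constructor
  · rintro ⟨ps, h1, h2, rfl⟩
    rw [wd_val, hfirst, run_good cs hd ps 2 (by norm_num) h1, acQ_sq]
    exact (ctl_iff _).1 h2
  · intro hac
    have hb : ∃ v, w = Fin.last M :: v := by
      rcases w with _ | ⟨a, v⟩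
      · exact absurd hac (by simp [acQ])
      · by_cases ha : a = Fin.last M
        · exact ⟨v, by rw [ha]⟩
        · exfalso
          have ha' : ¬ a.val = M := fun h => ha (Fin.ext h)
          have h1 : stQ (M, cs) (0, (0, [])) a.val = (1, (0, [])) := by
            unfold stQ
            rw [if_pos rfl, if_neg ha']
          rw [List.map_cons, List.foldl_cons, h1, dead_fold] at hac
          exact absurd hac (by simp [acQ])
    have he : ∃ v, w = v ++ [Fin.last M] := by
      rcases List.eq_nil_or_concat w with h | ⟨v, a, h⟩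
      · subst h
        exact absurd hac (by simp [acQ])
      · rw [List.concat_eq_append] at h
        by_cases ha : a = Fin.last M
        · exact ⟨v, by rw [h, ha]⟩
        · exfalso
          have ha' : ¬ a.val = M := fun h => ha (Fin.ext h)
          rw [h, List.map_append, List.foldl_append] at hac
          generalize (v.map Fin.val).foldl (stQ (M, cs)) (0, (0, [])) = s at hac
          obtain ⟨x, f, qs⟩ := s
          have h2 : (stQ (M, cs) (x, (f, qs)) a.val).2.1 = 0 := by
            unfold stQ
            dsimp only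
            split_ifs <;> rfl
          have h3 : acQ (M, cs) (stQ (M, cs) (x, (f, qs)) a.val) = true := hac
          unfold acQ at h3
          rw [h2] at h3
          exact absurd h3 (by simp)
    obtain ⟨ys, rfl⟩ := wd_exists.2 ⟨hb, he⟩
    rw [wd_val, hfirst] at hac
    rcases run_any cs hd ys 2 (by norm_num) with ⟨ps, h1, h2⟩ | h1
    · subst h1
      rw [run_good cs hd ps 2 (by norm_num) h2, acQ_sq] at hac
      exact ⟨ps, h2, (ctl_iff _).2 hac, rfl⟩
    · rw [h1] at hac
      exact absurd hac (by simp [acQ])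

end Pool.Agent.HSP
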