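import Pool.Agent.HSP.QDefs

/-!
# HSP-QSuP: the machine for block sequences is primitive recursive, with finitely many states
-/

namespace Pool.Agent.HSP

open Pool.Agent.DD Pool.Agent.HLV

private theorem sp_step : Primrec fun p : Code × (ℕ × ℕ) => stepC p.1 p.2.1 p.2.2 :=
  (Primrec.list_getD 0).comp
    ((Primrec.list_getD []).comp (Primrec.fst.comp Primrec.fst) (Primrec.fst.comp Primrec.snd))
    (Primrec.snd.comp Primrec.snd)

private theorem sp_mem : Primrec₂ fun (q : ℕ) (l : List ℕ) => decide (q ∈ l) := by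
  have h : Primrec₂ fun (q : ℕ) (l : List ℕ) => decide (l.idxOf q < l.length) := by
    have h1 : PrimrecRel fun (q : ℕ) (l : List ℕ) => l.idxOf q < l.length :=
      Primrec.nat_lt.comp₂ (Primrec.list_idxOf.comp₂ Primrec₂.left Primrec₂.right)
        (Primrec.list_length.comp₂ Primrec₂.right)
    exact h1.decide
  refine h.of_eq fun q l => ?_
  rw [decide_eq_decide]
  exact List.idxOf_lt_length_iff

private theorem sp_le {α : Type} [Primcodable α] (k : ℕ) {f : α → ℕ} (hf : Primrec f) :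
    Primrec fun x => decide (k ≤ f x) := by
  have h : PrimrecPred fun x => k ≤ f x := Primrec.nat_le.comp (Primrec.const k) hf
  exact h.decide

private theorem sp_eq {α : Type} [Primcodable α] (k : ℕ) {f : α → ℕ} (hf : Primrec f) :
    Primrec fun x => decide (f x = k) := by
  have h : PrimrecPred fun x => f x = k := Primrec.eq.comp hf (Primrec.const k)
  exact h.decide

private theorem sp_mod {α : Type} [Primcodable α] (k : ℕ) {f : α → ℕ} (hf : Primrec f) :
    Primrec fun x => f x % k := Primrec.nat_mod.comp hf (Primrec.const k)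

private theorem sp_sub {α : Type} [Primcodable α] (k : ℕ) {f : α → ℕ} (hf : Primrec f) :
    Primrec fun x => f x - k := Primrec.nat_sub.comp hf (Primrec.const k)

private theorem sp_xi : Primrec xi :=
  (sp_le 4 Primrec.id).pair ((sp_le 2 (sp_mod 4 Primrec.id)).pair (sp_eq 1 (sp_mod 2 Primrec.id)))

private def ctlF (y : (Bool × (Bool × (Bool × (Bool × Bool)))) × Th) : ℕ :=
  if y.1.1 = true then
    (if y.2.2.1 && y.2.2.2 then 3 + (if y.2.1 then 4 else 0) + (if y.2.1 then 1 else 0) else 1)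
  else if y.1.2.1 = false then 1
  else if y.2.2.1 != (y.2.1 != y.1.2.2.1) then 1
    else if y.2.2.1 && y.2.2.2 then
      (if y.1.2.2.2.1 then 1 else 3 + (if y.2.1 then 4 else 0) + (if y.2.1 then 1 else 0))
    else if y.2.2.1 then 3 + (if y.2.1 then 4 else 0) + 2 + (if y.1.2.2.2.2 then 1 else 0)
    else 3 + (if y.2.1 then 4 else 0) + (if y.1.2.2.2.1 then 2 else 0) +
      (if y.1.2.2.2.2 then 1 else 0)

private theorem sp_ctl : Primrec fun p : ℕ × ℕ => ctl p.1 (xi p.2) := by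
  have h : Primrec fun p : ℕ × ℕ => ctlF ((decide (p.1 = 2), (decide (3 ≤ p.1),
      (decide (4 ≤ p.1 - 3), (decide (2 ≤ (p.1 - 3) % 4), decide ((p.1 - 3) % 2 = 1))))), xi p.2) := by
    have hF : Primrec ctlF := Primrec.dom_finite _
    refine hF.comp (Primrec.pair ?_ (sp_xi.comp Primrec.snd))
    refine (sp_eq 2 Primrec.fst).pair ((sp_le 3 Primrec.fst).pair
      ((sp_le 4 (sp_sub 3 Primrec.fst)).pair ((sp_le 2 (sp_mod 4 (sp_sub 3 Primrec.fst))).pair
        (sp_eq 1 (sp_mod 2 (sp_sub 3 Primrec.fst))))))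
  refine h.of_eq fun p => ?_
  unfold ctlF ctl
  by_cases h2 : p.1 = 2
  · simp [h2]
  · by_cases h3 : p.1 < 3
    · have h3' : ¬ 3 ≤ p.1 := by omega
      simp [h2, h3, h3']
    · have h3' : 3 ≤ p.1 := by omega
      simp [h2, h3, h3']

private theorem sp_fst8 : Primrec₂ fst8 := by
  have h : Primrec fun p : List Code × List ℕ =>
      (List.range 8).map fun i => decide (p.2.getD i 0 ∈ (p.1.getD i ([], [])).2) := by
    refine Primrec.list_map (Primrec.const _) ?_
    have h1 : Primrec fun q : (List Code × List ℕ) × ℕ =>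
        decide (q.1.2.getD q.2 0 ∈ (q.1.1.getD q.2 ([], [])).2) :=
      sp_mem.comp ((Primrec.list_getD 0).comp (Primrec.snd.comp Primrec.fst) Primrec.snd)
        (Primrec.snd.comp ((Primrec.list_getD ([], [])).comp (Primrec.fst.comp Primrec.fst)
          Primrec.snd))
    exact h1
  have h2 : Primrec fun p : List Code × List ℕ =>
      ((List.range 8).map fun i => decide (p.2.getD i 0 ∈ (p.1.getD i ([], [])).2)).idxOf true :=
    Primrec.list_idxOf.comp (Primrec.const true) h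
  exact h2

theorem pr_stQ : Primrec fun x : (ℕ × List Code) × ((ℕ × (ℕ × List ℕ)) × ℕ) =>
    stQ x.1 x.2.1 x.2.2 := by
  have hd : Primrec fun x : (ℕ × List Code) × ((ℕ × (ℕ × List ℕ)) × ℕ) => x.1.1 :=
    Primrec.fst.comp Primrec.fst
  have hcs : Primrec fun x : (ℕ × List Code) × ((ℕ × (ℕ × List ℕ)) × ℕ) => x.1.2 :=
    Primrec.snd.comp Primrec.fst
  have hx : Primrec fun x : (ℕ × List Code) × ((ℕ × (ℕ × List ℕ)) × ℕ) => x.2.1.1 :=
    Primrec.fst.comp (Primrec.fst.comp Primrec.snd)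
  have hq : Primrec fun x : (ℕ × List Code) × ((ℕ × (ℕ × List ℕ)) × ℕ) => x.2.1.2.2 :=
    Primrec.snd.comp (Primrec.snd.comp (Primrec.fst.comp Primrec.snd))
  have ha : Primrec fun x : (ℕ × List Code) × ((ℕ × (ℕ × List ℕ)) × ℕ) => x.2.2 :=
    Primrec.snd.comp Primrec.snd
  have hf : Primrec fun x : (ℕ × List Code) × ((ℕ × (ℕ × List ℕ)) × ℕ) =>
      fst8 x.1.2 x.2.1.2.2 := sp_fst8.comp hcs hq
  have hk : Primrec fun x : (ℕ × List Code) × ((ℕ × (ℕ × List ℕ)) × ℕ) =>
      ctl x.2.1.1 (xi (fst8 x.1.2 x.2.1.2.2)) := sp_ctl.comp (hx.pair hf)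
  have e1 : PrimrecPred fun x : (ℕ × List Code) × ((ℕ × (ℕ × List ℕ)) × ℕ) => x.2.1.1 = 0 :=
    Primrec.eq.comp hx (Primrec.const 0)
  have e2 : PrimrecPred fun x : (ℕ × List Code) × ((ℕ × (ℕ × List ℕ)) × ℕ) => x.2.1.1 = 1 :=
    Primrec.eq.comp hx (Primrec.const 1)
  have e3 : PrimrecPred fun x : (ℕ × List Code) × ((ℕ × (ℕ × List ℕ)) × ℕ) => x.2.2 = x.1.1 :=
    Primrec.eq.comp ha hd
  have e4 : PrimrecPred fun x : (ℕ × List Code) × ((ℕ × (ℕ × List ℕ)) × ℕ) =>
      fst8 x.1.2 x.2.1.2.2 < 8 ∧ ctl x.2.1.1 (xi (fst8 x.1.2 x.2.1.2.2)) ≠ 1 :=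
    (Primrec.nat_lt.comp hf (Primrec.const 8)).and (Primrec.eq.comp hk (Primrec.const 1)).not
  have hm : Primrec fun x : (ℕ × List Code) × ((ℕ × (ℕ × List ℕ)) × ℕ) =>
      (List.range 8).map fun i => stepC (x.1.2.getD i ([], [])) (x.2.1.2.2.getD i 0) x.2.2 := by
    refine Primrec.list_map (Primrec.const _) ?_
    have h1 : Primrec fun y : ((ℕ × List Code) × ((ℕ × (ℕ × List ℕ)) × ℕ)) × ℕ =>
        stepC (y.1.1.2.getD y.2 ([], [])) (y.1.2.1.2.2.getD y.2 0) y.1.2.2 :=
      sp_step.comp (((Primrec.list_getD ([], [])).comp (hcs.comp Primrec.fst) Primrec.snd).pair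
        (((Primrec.list_getD 0).comp (hq.comp Primrec.fst) Primrec.snd).pair
          (ha.comp Primrec.fst)))
    exact h1
  unfold stQ
  refine Primrec.ite e1 (Primrec.ite e3 (Primrec.const _) (Primrec.const _)) ?_
  refine Primrec.ite e2 (Primrec.const _) ?_
  refine Primrec.ite e3 ?_ ?_
  · refine Primrec.ite e4 (hk.pair (Primrec.const _)) (Primrec.const _)
  · exact hx.pair ((Primrec.const 0).pair hm)

theorem pr_acQ : Primrec fun x : (ℕ × List Code) × (ℕ × (ℕ × List ℕ)) => acQ x.1 x.2 := by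
  have hx : Primrec fun x : (ℕ × List Code) × (ℕ × (ℕ × List ℕ)) => x.2.1 :=
    Primrec.fst.comp Primrec.snd
  have hf : Primrec fun x : (ℕ × List Code) × (ℕ × (ℕ × List ℕ)) => x.2.2.1 :=
    Primrec.fst.comp (Primrec.snd.comp Primrec.snd)
  unfold acQ ctlAcc
  exact Primrec.and.comp (sp_eq 1 hf) (Primrec.and.comp (sp_le 3 hx)
    (Primrec.and.comp (sp_le 2 (sp_mod 4 (sp_sub 3 hx))) (sp_eq 0 (sp_mod 2 (sp_sub 3 hx)))))

private theorem sp_ctl_le (x : ℕ) (θ : Th) : ctl x θ < 21 := by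
  unfold ctl
  dsimp only
  split_ifs <;> omega

private def SInv (b : ℕ) (x : ℕ × (ℕ × List ℕ)) : Prop :=
  x.1 < 21 ∧ x.2.1 < 2 ∧ x.2.2.length ≤ 8 ∧ ∀ q ∈ x.2.2, q < b

private theorem sinv_finite (b : ℕ) : Set.Finite {x | SInv b x} := by
  have h1 : Set.Finite {l : List ℕ | l.length ≤ 8 ∧ ∀ q ∈ l, q < b} := by
    refine ((List.finite_length_le (Fin b) 8).image (List.map Fin.val)).subset ?_
    rintro l ⟨h1, h2⟩
    refine ⟨l.pmap (fun q hq => (⟨q, hq⟩ : Fin b)) h2, ?_, ?_⟩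
    · show (l.pmap (fun q hq => (⟨q, hq⟩ : Fin b)) h2).length ≤ 8
      rw [List.length_pmap]
      exact h1
    · rw [List.map_pmap]
      simp
  refine ((Set.finite_lt_nat 21).prod ((Set.finite_lt_nat 2).prod h1)).subset ?_
  rintro ⟨x, f, l⟩ ⟨h1, h2, h3, h4⟩
  exact ⟨h1, h2, h3, h4⟩

private theorem sinv_step (c : ℕ × List Code) {b : ℕ} (hb : 0 < b)
    (hc : ∀ i < 8, bnd (c.2.getD i ([], [])) ≤ b) (x : ℕ × (ℕ × List ℕ)) (a : ℕ) (hx : SInv b x) :
    SInv b (stQ c x a) := by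
  have hr : ∀ y f, y < 21 → f < 2 → SInv b (y, (f, List.replicate 8 0)) := by
    intro y f h1 h2
    refine ⟨h1, h2, by simp, fun q hq => ?_⟩
    rw [List.eq_of_mem_replicate hq]
    exact hb
  have h0 : SInv b (1, (0, [])) := ⟨by decide, by decide, by simp, by simp⟩
  unfold stQ
  split_ifs
  · exact hr 2 1 (by decide) (by decide)
  · exact h0
  · exact h0
  · exact hr _ 1 (sp_ctl_le _ _) (by decide)
  · exact h0
  · refine ⟨hx.1, Nat.zero_lt_two, by simp, fun q hq => ?_⟩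
    obtain ⟨i, hi, rfl⟩ := List.mem_map.1 hq
    exact lt_of_lt_of_le (stepC_lt _ _ _) (hc i (List.mem_range.1 hi))

theorem fin_stQ (c : ℕ × List Code) :
    Set.Finite {x | ∃ w : List ℕ, x = w.foldl (stQ c) (0, (0, []))} := by
  obtain ⟨b, hb0, hb⟩ : ∃ b, 0 < b ∧ ∀ i < 8, bnd (c.2.getD i ([], [])) ≤ b := by
    refine ⟨∑ i ∈ Finset.range 8, bnd (c.2.getD i ([], [])), ?_, fun i hi => ?_⟩
    · exact Finset.sum_pos (fun i _ => bnd_pos _) ⟨0, by simp⟩
    · exact Finset.single_le_sum (f := fun i => bnd (c.2.getD i ([], []))) (fun _ _ => Nat.zero_le _)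
        (Finset.mem_range.2 hi)
  refine (sinv_finite b).subset ?_
  rintro x ⟨w, rfl⟩
  have key : ∀ (w : List ℕ) (x : ℕ × (ℕ × List ℕ)), SInv b x → SInv b (w.foldl (stQ c) x) := by
    intro w
    induction w with
    | nil => intro x hx; exact hx
    | cons a w ih => intro x hx; exact ih _ (sinv_step c hb0 hb x a hx)
  exact key w _ ⟨by decide, by decide, by simp, by simp⟩

end Pool.Agent.HSP
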