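import Pool.Agent.HSP.ECert
import Pool.Agent.HSP.QDefs

/-!
# HSP-QTai: codes for the marks

Plan.  `gen` with `C = Code × Code`, `k p = (toks M k (NN p)).length`, `σ = ℕ × ℕ` (phase, state of `V`):
phase `0` start, `1` in the first word, `2` in the second word, `3` dead.  With the token `t` of the letter
(`(toks M k (NN p)).getD a (5, ([], 0))`): phase 0: `t.1 = 5` leads to `(1, 0)`; phase 1: `t.1 = 6` leads to
`(1, stepC V d t.2.2)`, `t.1 = 5` leads to `(2, 0)` if `decide (d ∈ V.2) = a`, else dead; phase 2: `t.1 = 6`
leads to `(2, stepC V d t.2.2)`; everything else dead `(3, 0)`.  Accept: phase 2 and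
`decide (d ∈ V.2) = b`.  Primitive recursive: `pr_toks`, `pr_NN`, as in HSP/EPrS.  Finite: phase `≤ 3`,
`d < bnd V` or `0`.  Equality of the languages: `alp_spec` (the code of a token is its first component and
so on: `cod`), runs from phase 0, 1, 2 by induction on the word from the left, for all `d`.
-/

namespace Pool.Agent.HSP

open Pool.Agent.DD Pool.Agent.HLV

private theorem qt_mem : Primrec₂ fun (q : ℕ) (l : List ℕ) => decide (q ∈ l) := by
  have h : Primrec₂ fun (q : ℕ) (l : List ℕ) => decide (l.idxOf q < l.length) := by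
    have h1 : PrimrecRel fun (q : ℕ) (l : List ℕ) => l.idxOf q < l.length :=
      Primrec.nat_lt.comp₂ (Primrec.list_idxOf.comp₂ Primrec₂.left Primrec₂.right)
        (Primrec.list_length.comp₂ Primrec₂.right)
    exact h1.decide
  refine h.of_eq fun q l => ?_
  rw [decide_eq_decide]
  exact List.idxOf_lt_length_iff

private theorem qt_step : Primrec fun p : Code × (ℕ × ℕ) => stepC p.1 p.2.1 p.2.2 :=
  (Primrec.list_getD 0).comp
    ((Primrec.list_getD []).comp (Primrec.fst.comp Primrec.fst) (Primrec.fst.comp Primrec.snd))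
    (Primrec.snd.comp Primrec.snd)

/-- the step on a token -/
private def qStep (V : Code) (a : Bool) (x : ℕ × ℕ) (t : NTok) : ℕ × ℕ :=
  if x.1 = 0 ∧ t.1 = 5 then (1, 0)
  else if x.1 = 1 ∧ t.1 = 6 then (1, stepC V x.2 t.2.2)
  else if (x.1 = 1 ∧ t.1 = 5) ∧ decide (x.2 ∈ V.2) = a then (2, 0)
  else if x.1 = 2 ∧ t.1 = 6 then (2, stepC V x.2 t.2.2)
  else (3, 0)

/-- the step on the number of a letter -/
private def qSt (M k : ℕ) (V : Code) (a : Bool) (p : Code × Code) (x : ℕ × ℕ) (c : ℕ) : ℕ × ℕ :=
  qStep V a x ((toks M k (NN p)).getD c (5, ([], 0)))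

/-- acceptance -/
private def qAc (V : Code) (b : Bool) (_ : Code × Code) (x : ℕ × ℕ) : Bool :=
  decide (x.1 = 2) && (decide (x.2 ∈ V.2) == b)

private theorem pr_qStep (V : Code) (a : Bool) :
    Primrec fun z : (ℕ × ℕ) × NTok => qStep V a z.1 z.2 := by
  have hx1 : Primrec fun z : (ℕ × ℕ) × NTok => z.1.1 := Primrec.fst.comp Primrec.fst
  have hxd : Primrec fun z : (ℕ × ℕ) × NTok => z.1.2 := Primrec.snd.comp Primrec.fst
  have ht1 : Primrec fun z : (ℕ × ℕ) × NTok => z.2.1 := Primrec.fst.comp Primrec.snd
  have htp : Primrec fun z : (ℕ × ℕ) × NTok => z.2.2.2 :=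
    Primrec.snd.comp (Primrec.snd.comp Primrec.snd)
  have hst0 := qt_step.comp ((Primrec.const V).pair (hxd.pair htp))
  have hst : Primrec fun z : (ℕ × ℕ) × NTok => stepC V z.1.2 z.2.2.2 := hst0
  have hmem : Primrec fun z : (ℕ × ℕ) × NTok => decide (z.1.2 ∈ V.2) :=
    qt_mem.comp hxd (Primrec.const V.2)
  have hxt : ∀ i j : ℕ, PrimrecPred fun z : (ℕ × ℕ) × NTok => z.1.1 = i ∧ z.2.1 = j := fun i j =>
    (Primrec.eq.comp hx1 (Primrec.const i)).and (Primrec.eq.comp ht1 (Primrec.const j))
  unfold qStep
  refine Primrec.ite (hxt 0 5) (Primrec.const _) ?_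
  refine Primrec.ite (hxt 1 6) ((Primrec.const 1).pair hst) ?_
  refine Primrec.ite ((hxt 1 5).and (Primrec.eq.comp hmem (Primrec.const a))) (Primrec.const _) ?_
  exact Primrec.ite (hxt 2 6) ((Primrec.const 2).pair hst) (Primrec.const _)

private theorem pr_qSt (M k : ℕ) (V : Code) (a : Bool) :
    Primrec fun x : (Code × Code) × ((ℕ × ℕ) × ℕ) => qSt M k V a x.1 x.2.1 x.2.2 := by
  have hx : Primrec fun x : (Code × Code) × ((ℕ × ℕ) × ℕ) => x.2.1 :=
    Primrec.fst.comp Primrec.snd
  have hc : Primrec fun x : (Code × Code) × ((ℕ × ℕ) × ℕ) => x.2.2 :=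
    Primrec.snd.comp Primrec.snd
  have ht : Primrec fun x : (Code × Code) × ((ℕ × ℕ) × ℕ) =>
      (toks M k (NN x.1)).getD x.2.2 (5, ([], 0)) :=
    (Primrec.list_getD (5, ([], 0))).comp ((pr_toks M k).comp (pr_NN.comp Primrec.fst)) hc
  have h := (pr_qStep V a).comp (hx.pair ht)
  exact h

private theorem pr_qAc (V : Code) (b : Bool) :
    Primrec fun x : (Code × Code) × (ℕ × ℕ) => qAc V b x.1 x.2 := by
  have h1 : Primrec fun x : (Code × Code) × (ℕ × ℕ) => decide (x.2.1 = 2) :=
    (Primrec.eq.comp (Primrec.fst.comp Primrec.snd) (Primrec.const 2)).decide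
  have hd : Primrec fun x : (Code × Code) × (ℕ × ℕ) => x.2.2 := Primrec.snd.comp Primrec.snd
  have h2 : Primrec fun x : (Code × Code) × (ℕ × ℕ) => decide (x.2.2 ∈ V.2) :=
    qt_mem.comp hd (Primrec.const V.2)
  have h3 : Primrec fun x : (Code × Code) × (ℕ × ℕ) => (decide (x.2.2 ∈ V.2) == b) :=
    Primrec.beq.comp h2 (Primrec.const b)
  exact Primrec.and.comp h1 h3

private theorem qfin (M k : ℕ) (V : Code) (a : Bool) (p : Code × Code) :
    Set.Finite {x | ∃ w : List ℕ, x = w.foldl (qSt M k V a p) (0, 0)} := by
  have h1 : ∀ (x : ℕ × ℕ) (t : NTok), (qStep V a x t).1 ≤ 3 ∧ (qStep V a x t).2 < bnd V := by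
    intro x t
    unfold qStep
    split_ifs
    · exact ⟨by norm_num, bnd_pos V⟩
    · exact ⟨by norm_num, stepC_lt V _ _⟩
    · exact ⟨by norm_num, bnd_pos V⟩
    · exact ⟨by norm_num, stepC_lt V _ _⟩
    · exact ⟨le_rfl, bnd_pos V⟩
  have h0 : ∀ w : List ℕ, ∀ x : ℕ × ℕ, x.1 ≤ 3 ∧ x.2 < bnd V →
      (w.foldl (qSt M k V a p) x).1 ≤ 3 ∧ (w.foldl (qSt M k V a p) x).2 < bnd V := by
    intro w
    induction w with
    | nil => exact fun x h => h
    | cons c w ih =>
      intro x _
      exact ih _ (h1 _ _)
  refine Set.Finite.subset ((Set.finite_Iic 3).prod (Set.finite_Iio (bnd V))) ?_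
  rintro x ⟨w, rfl⟩
  exact h0 w (0, 0) ⟨Nat.zero_le _, bnd_pos V⟩

section

variable {M k N : ℕ} {S : Type} (G : Alph (Fin M) (Fin k) N S) (V : Code) (a b : Bool)

/-- the run -/
private def qRun (x : ℕ × ℕ) (w : List S) : ℕ × ℕ := w.foldl (fun x s => qStep V a x (cod (G.tk s))) x

private theorem qRun_dead (w : List S) : qRun G V a (3, 0) w = (3, 0) := by
  induction w with
  | nil => rfl
  | cons s w ih =>
    have h1 : qStep V a (3, 0) (cod (G.tk s)) = (3, 0) := by
      unfold qStep
      simp
    show qRun G V a (qStep V a (3, 0) (cod (G.tk s))) w = (3, 0)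
    rw [h1, ih]

private theorem q_fl (t : Tok (Fin M) (Fin k)) : (cod t).1 = 6 ↔ IsFl t := by
  rcases t with x | ⟨w, (_ | q | _ | _)⟩ | _ | q <;> simp [cod, IsFl]

private theorem q_dl (t : Tok (Fin M) (Fin k)) : (cod t).1 = 5 ↔ IsDl t := by
  rcases t with x | ⟨w, (_ | q | _ | _)⟩ | _ | q <;> simp [cod, IsDl]

private theorem q_two (p : Code × Code) (w : List S) : ∀ d : ℕ, qAc V b p (qRun G V a (2, d) w) = true ↔
    w ∈ all G IsFl ∧ (dfaOf k V).acc ((dfaOf k V).run d (pls G w)) = b := by
  induction w with
  | nil =>
    intro d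
    have h1 : (dfaOf k V).acc ((dfaOf k V).run d (pls G ([] : List S))) = decide (d ∈ V.2) := rfl
    rw [h1]
    show (decide ((2 : ℕ) = 2) && (decide (d ∈ V.2) == b)) = true ↔ _
    rw [decide_eq_true rfl, Bool.true_and, beq_iff_eq]
    constructor
    · intro h
      exact ⟨fun s hs => absurd hs List.not_mem_nil, h⟩
    · rintro ⟨_, h⟩
      exact h
  | cons s w ih =>
    intro d
    show qAc V b p (qRun G V a (qStep V a (2, d) (cod (G.tk s))) w) = true ↔ _
    by_cases hs : IsFl (G.tk s)
    · obtain ⟨q, hq⟩ : ∃ q, G.tk s = .fl q := by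
        rcases h : G.tk s with x | ⟨w, l⟩ | _ | q
        · rw [h] at hs
          exact hs.elim
        · rw [h] at hs
          exact hs.elim
        · rw [h] at hs
          exact hs.elim
        · exact ⟨q, rfl⟩
      have h1 : qStep V a (2, d) (cod (G.tk s)) = (2, stepC V d q.val) := by
        rw [hq]
        unfold qStep cod
        simp
      have h2 : pls G (s :: w) = q :: pls G w := by
        unfold pls
        rw [List.filterMap_cons, hq]
        rfl
      rw [h1, ih, h2]
      have h3 : (dfaOf k V).run d (q :: pls G w) = (dfaOf k V).run (stepC V d q.val) (pls G w) := rfl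
      rw [h3]
      constructor
      · rintro ⟨h4, h5⟩
        refine ⟨fun r hr => ?_, h5⟩
        rcases List.mem_cons.1 hr with rfl | hr
        · exact hs
        · exact h4 r hr
      · rintro ⟨h4, h5⟩
        exact ⟨fun r hr => h4 r (List.mem_cons_of_mem _ hr), h5⟩
    · have h1 : qStep V a (2, d) (cod (G.tk s)) = (3, 0) := by
        have h2 : ¬ (cod (G.tk s)).1 = 6 := fun h => hs ((q_fl _).1 h)
        unfold qStep
        rw [if_neg (by simp), if_neg (by simp), if_neg (by simp), if_neg (fun h => h2 h.2)]
      rw [h1, qRun_dead]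
      constructor
      · intro h
        have h2 : (decide ((3 : ℕ) = 2) && (decide (0 ∈ V.2) == b)) = true := h
        rw [decide_eq_false (by norm_num), Bool.false_and] at h2
        exact absurd h2 Bool.false_ne_true
      · rintro ⟨h, _⟩
        exact absurd (h s List.mem_cons_self) hs

private theorem q_one (p : Code × Code) (w : List S) : ∀ d : ℕ, qAc V b p (qRun G V a (1, d) w) = true ↔
    ∃ u v, w = u ++ v ∧ u ∈ all G IsFl ∧
      (dfaOf k V).acc ((dfaOf k V).run d (pls G u)) = a ∧
      v ∈ cat (one G IsDl) (flL G (dfaOf k V) b) := by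
  induction w with
  | nil =>
    intro d
    constructor
    · intro h
      have h2 : (decide ((1 : ℕ) = 2) && (decide (d ∈ V.2) == b)) = true := h
      rw [decide_eq_false (by norm_num), Bool.false_and] at h2
      exact absurd h2 Bool.false_ne_true
    · rintro ⟨u, v, h1, _, _, x, ⟨s, _, rfl⟩, y, _, rfl⟩
      have h2 := congrArg List.length h1
      simp at h2
  | cons s w ih =>
    intro d
    show qAc V b p (qRun G V a (qStep V a (1, d) (cod (G.tk s))) w) = true ↔ _
    by_cases hs : IsFl (G.tk s)
    · obtain ⟨q, hq⟩ : ∃ q, G.tk s = .fl q := by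
        rcases h : G.tk s with x | ⟨w, l⟩ | _ | q
        · rw [h] at hs
          exact hs.elim
        · rw [h] at hs
          exact hs.elim
        · rw [h] at hs
          exact hs.elim
        · exact ⟨q, rfl⟩
      have h1 : qStep V a (1, d) (cod (G.tk s)) = (1, stepC V d q.val) := by
        rw [hq]
        unfold qStep cod
        simp
      rw [h1, ih]
      constructor
      · rintro ⟨u, v, rfl, hu, ha, hv⟩
        refine ⟨s :: u, v, rfl, fun r hr => ?_, ?_, hv⟩
        · rcases List.mem_cons.1 hr with rfl | hr
          · exact hs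
          · exact hu r hr
        · have h2 : pls G (s :: u) = q :: pls G u := by
            unfold pls
            rw [List.filterMap_cons, hq]
            rfl
          rw [h2]
          exact ha
      · rintro ⟨u, v, h0, hu, ha, hv⟩
        cases u with
        | nil =>
          obtain ⟨x, ⟨r, hr, rfl⟩, y, _, rfl⟩ := hv
          have h2 : s = r := by
            have := congrArg List.head? h0
            simpa using this
          rw [← h2, hq] at hr
          exact hr.elim
        | cons r u =>
          have h2 : s = r ∧ w = u ++ v := by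
            simpa using h0
          obtain ⟨rfl, rfl⟩ := h2
          refine ⟨u, v, rfl, fun r hr => hu r (List.mem_cons_of_mem _ hr), ?_, hv⟩
          have h2 : pls G (s :: u) = q :: pls G u := by
            unfold pls
            rw [List.filterMap_cons, hq]
            rfl
          rw [h2] at ha
          exact ha
    · by_cases hd : IsDl (G.tk s)
      · by_cases hda : decide (d ∈ V.2) = a
        · have h1 : qStep V a (1, d) (cod (G.tk s)) = (2, 0) := by
            have h2 : (cod (G.tk s)).1 = 5 := (q_dl _).2 hd
            unfold qStep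
            rw [if_neg (by simp), if_neg (by rw [h2]; simp), if_pos ⟨⟨rfl, h2⟩, hda⟩]
          rw [h1, q_two]
          constructor
          · rintro ⟨h2, h3⟩
            exact ⟨[], s :: w, rfl, fun r hr => absurd hr List.not_mem_nil, hda,
              [s], ⟨s, hd, rfl⟩, w, ⟨h2, h3⟩, rfl⟩
          · rintro ⟨u, v, h0, hu, ha, x, ⟨r, hr, rfl⟩, y, hy, rfl⟩
            cases u with
            | nil =>
              have h2 : s = r ∧ w = y := by
                simpa using h0
              obtain ⟨rfl, rfl⟩ := h2
              exact hy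
            | cons r' u =>
              have h2 : s = r' := by
                have := congrArg List.head? h0
                simpa using this
              rw [← h2] at hu
              exact absurd (hu s List.mem_cons_self) hs
        · have h1 : qStep V a (1, d) (cod (G.tk s)) = (3, 0) := by
            have h2 : (cod (G.tk s)).1 = 5 := (q_dl _).2 hd
            unfold qStep
            rw [if_neg (by simp), if_neg (by rw [h2]; simp), if_neg (fun h => hda h.2),
              if_neg (by simp)]
          rw [h1, qRun_dead]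
          constructor
          · intro h
            have h2 : (decide ((3 : ℕ) = 2) && (decide (0 ∈ V.2) == b)) = true := h
            rw [decide_eq_false (by norm_num), Bool.false_and] at h2
            exact absurd h2 Bool.false_ne_true
          · rintro ⟨u, v, h0, hu, ha, _⟩
            cases u with
            | nil => exact absurd ha hda
            | cons r' u =>
              have h2 : s = r' := by
                have := congrArg List.head? h0
                simpa using this
              rw [← h2] at hu
              exact absurd (hu s List.mem_cons_self) hs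
      · have h1 : qStep V a (1, d) (cod (G.tk s)) = (3, 0) := by
          have h2 : ¬ (cod (G.tk s)).1 = 5 := fun h => hd ((q_dl _).1 h)
          have h3 : ¬ (cod (G.tk s)).1 = 6 := fun h => hs ((q_fl _).1 h)
          unfold qStep
          rw [if_neg (by simp), if_neg (fun h => h3 h.2), if_neg (fun h => h2 h.1.2),
            if_neg (by simp)]
        rw [h1, qRun_dead]
        constructor
        · intro h
          have h2 : (decide ((3 : ℕ) = 2) && (decide (0 ∈ V.2) == b)) = true := h
          rw [decide_eq_false (by norm_num), Bool.false_and] at h2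
          exact absurd h2 Bool.false_ne_true
        · rintro ⟨u, v, h0, hu, ha, x, ⟨r, hr, rfl⟩, y, hy, rfl⟩
          cases u with
          | nil =>
            have h2 : s = r := by
              have := congrArg List.head? h0
              simpa using this
            rw [← h2] at hr
            exact absurd hr hd
          | cons r' u =>
            have h2 : s = r' := by
              have := congrArg List.head? h0
              simpa using this
            rw [← h2] at hu
            exact absurd (hu s List.mem_cons_self) hs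

private theorem q_zero (p : Code × Code) (w : List S) : qAc V b p (qRun G V a (0, 0) w) = true ↔
    w ∈ Tail G (dfaOf k V) a b := by
  cases w with
  | nil =>
    constructor
    · intro h
      have h2 : (decide ((0 : ℕ) = 2) && (decide (0 ∈ V.2) == b)) = true := h
      rw [decide_eq_false (by norm_num), Bool.false_and] at h2
      exact absurd h2 Bool.false_ne_true
    · rintro ⟨x, ⟨s, _, rfl⟩, y, _, h1⟩
      have h2 := congrArg List.length h1
      simp at h2
  | cons s w =>
    show qAc V b p (qRun G V a (qStep V a (0, 0) (cod (G.tk s))) w) = true ↔ _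
    by_cases hd : IsDl (G.tk s)
    · have h1 : qStep V a (0, 0) (cod (G.tk s)) = (1, 0) := by
        have h2 : (cod (G.tk s)).1 = 5 := (q_dl _).2 hd
        unfold qStep
        rw [if_pos ⟨rfl, h2⟩]
      rw [h1, q_one]
      constructor
      · rintro ⟨u, v, rfl, h2, h3, h4⟩
        exact ⟨[s], ⟨s, hd, rfl⟩, u ++ v, ⟨u, ⟨h2, h3⟩, v, h4, rfl⟩, rfl⟩
      · rintro ⟨x, ⟨r, _, rfl⟩, y, ⟨u, ⟨h2, h3⟩, v, h4, rfl⟩, h0⟩
        have h5 : s = r ∧ w = u ++ v := by
          simpa using h0
        exact ⟨u, v, h5.2, h2, h3, h4⟩
    · have h1 : qStep V a (0, 0) (cod (G.tk s)) = (3, 0) := by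
        have h2 : ¬ (cod (G.tk s)).1 = 5 := fun h => hd ((q_dl _).1 h)
        unfold qStep
        rw [if_neg (fun h => h2 h.2), if_neg (by simp), if_neg (by simp), if_neg (by simp)]
      rw [h1, qRun_dead]
      constructor
      · intro h
        have h2 : (decide ((3 : ℕ) = 2) && (decide (0 ∈ V.2) == b)) = true := h
        rw [decide_eq_false (by norm_num), Bool.false_and] at h2
        exact absurd h2 Bool.false_ne_true
      · rintro ⟨x, ⟨r, hr, rfl⟩, y, _, h0⟩
        have h5 : s = r := by
          have := congrArg List.head? h0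
          simpa using this
        rw [← h5] at hr
        exact absurd hr hd

end

private theorem q_fold (M k : ℕ) (V : Code) (a : Bool) (p : Code × Code)
    (w : List (Fin (toks M k (NN p)).length)) : ∀ x : ℕ × ℕ,
    (w.map Fin.val).foldl (qSt M k V a p) x = qRun (alp M k p) V a x w := by
  induction w with
  | nil =>
    intro x
    rfl
  | cons i w ih =>
    intro x
    have h1 : qSt M k V a p x i.val = qStep V a x (cod ((alp M k p).tk i)) := by
      unfold qSt
      rw [alp_spec, List.getD_eq_getElem _ _ i.2]
    rw [List.map_cons, List.foldl_cons, h1, ih]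
    rfl

/-- Main result of this module. -/
theorem exists_tail (M k : ℕ) (V : Code) (a b : Bool) : ∃ f : Code × Code → Code, Computable f ∧
    ∀ p, langC (toks M k (NN p)).length (f p) = Tail (alp M k p) (dfaOf k V) a b := by
  obtain ⟨f, hf, h⟩ := gen (C := Code × Code) (σ := ℕ × ℕ) (fun p => (toks M k (NN p)).length)
    (fun _ => (0, 0)) (qSt M k V a) (qAc V b)
    (Primrec.list_length.comp ((pr_toks M k).comp pr_NN)) (Primrec.const _) (pr_qSt M k V a)
    (pr_qAc V b) (qfin M k V a)
  refine ⟨f, hf, fun p => ?_⟩
  ext w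
  refine (h p w).trans ?_
  rw [q_fold]
  exact q_zero (alp M k p) V a b p w

end Pool.Agent.HSP
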