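import Pool.Agent.HSP.Abs
import Pool.Agent.HSP.ECert
import Pool.Agent.HSP.EUni
import Pool.Agent.HSP.ELang
import Pool.Agent.HSP.Hcode
import Pool.Agent.HLV.Eff

/-!
# HSP-Red: the reduction
-/

namespace Pool.Agent.HSP

open Pool.Agent.DD Pool.Agent.HLV

theorem exists_top (m : ℕ) : ∃ g : Code × Code → Code, Computable g ∧
    ∀ p, langC (m + 2) (g p) = Top (langC (m + 2) p.1) (langC (m + 2) p.2) := by
  obtain ⟨u, hu, h1⟩ := exists_uni (m + 2)
  obtain ⟨c, hc, h2⟩ := exists_compl (m + 2)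
  obtain ⟨o, ho, h3⟩ := exists_opF m
  obtain ⟨s, hs⟩ := exists_code (rec_B (B_compl (SEQ_B m)))
  refine ⟨fun p => u (u (s, c (o (u p))), o (c p.1)), ?_, fun p => ?_⟩
  · exact hu.comp ((hu.comp ((Computable.const s).pair (hc.comp (ho.comp hu)))).pair
      (ho.comp (hc.comp Computable.fst)))
  · rw [h1, h1, hs, h2, h3, h1, h3, h2]
    rfl

/-- The reduction of separation to membership one half level higher. -/
theorem exists_red (M m : ℕ) {n : ℕ} (hn : 1 ≤ n) : ∃ f : Code × Code → Code, Computable f ∧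
    ∀ p, (langC (m + 2) (f p) ∈ Half (B (Fin (m + 2)) (n + 1)) ↔
      Separable (Half (B (Fin (M + 1)) n)) (langC (M + 1) p.1) (langC (M + 1) p.2)) := by
  obtain ⟨V, hV, hV1, hV2⟩ := exists_hidden hn
  obtain ⟨f1, hf1, h1⟩ := exists_ccert (M + 1) 4 m V true
  obtain ⟨f2, hf2, h2⟩ := exists_ccert (M + 1) 4 m V false
  obtain ⟨g, hg, hT⟩ := exists_top m
  refine ⟨fun p => g (f1 p, f2 p), hg.comp (hf1.pair hf2), fun p => ?_⟩
  rw [hT, h1, h2, ← autOf_true, ← autOf_false]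
  exact abs_iff hn (alp (M + 1) 4 p) (autOf (M + 1) p) (dfaOf 4 V) (le_refl _)
    (by rw [dfaOf_lang]; exact hV) (by rw [dfaOf_lang]; exact hV1) (by rw [dfaOf_lang]; exact hV2)

/-- The many-one reduction to membership in full levels for transitive sofic shifts. -/
theorem exists_red_shift (M m j : ℕ) {n : ℕ} (hn : 1 ≤ n) : ∃ f : Code × Code → Code,
    Computable f ∧ ∀ p, Factorial (langC (m + 2) (f p)) ∧ Irred (langC (m + 2) (f p)) ∧
      (Separable (Half (B (Fin (M + 1)) n)) (langC (M + 1) p.1) (langC (M + 1) p.2) ↔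
        langC (m + 2) (f p) ∈ B (Fin (m + 2)) (n + 2 + j)) ∧
      (Separable (Half (B (Fin (M + 1)) n)) (langC (M + 1) p.1) (langC (M + 1) p.2) ↔
        langC (m + 2) (f p) ∈ Half (B (Fin (m + 2)) (n + 2 + j))) := by
  obtain ⟨f, hf, h⟩ := exists_red M m hn
  obtain ⟨g, hg, h'⟩ := reduction (m + 2) m j (show 1 ≤ n + 1 by omega)
  refine ⟨fun p => g (f p), hg.comp hf, fun p => ?_⟩
  obtain ⟨h1, h2, h3, h4⟩ := h' (f p)
  exact ⟨h1, h2, (h p).symm.trans h3, (h p).symm.trans h4⟩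

private theorem pred_comp {p : Code → Prop} (hp : ComputablePred p) {f : Code × Code → Code}
    (hf : Computable f) : ComputablePred fun c => p (f c) := by
  obtain ⟨g, hg, rfl⟩ := ComputablePred.computable_iff.1 hp
  exact ComputablePred.computable_iff.2 ⟨fun c => g (f c), hg.comp hf, rfl⟩

/-- Membership decides separation. -/
theorem decSep_of_half (M m : ℕ) {n : ℕ} (hn : 1 ≤ n) (h : DecHalf (m + 2) (n + 1)) :
    DecSep (M + 1) n := by
  obtain ⟨f, hf, hr⟩ := exists_red M m hn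
  exact (pred_comp h hf).of_eq fun p => hr p

theorem decSep_of_shift (M m j : ℕ) {n : ℕ} (hn : 1 ≤ n) (h : DecShift (m + 2) (n + 2 + j)) :
    DecSep (M + 1) n := by
  obtain ⟨Q, hQ, h'⟩ := h
  obtain ⟨f, hf, hr⟩ := exists_red_shift M m j hn
  refine (pred_comp hQ hf).of_eq fun p => ?_
  obtain ⟨h1, h2, h3, -⟩ := hr p
  exact (h' (f p) h1 h2).trans h3.symm

end Pool.Agent.HSP
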