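import Pool.Agent.HSP.QAbs
import Pool.Agent.HSP.QCat
import Pool.Agent.HSP.QTai
import Pool.Agent.HSP.QSuP
import Pool.Agent.HSP.QSuM
import Pool.Agent.HSP.Red

/-!
# HSP-QRed: the reduction, full levels
-/

namespace Pool.Agent.HSP

open Pool.Agent.DD Pool.Agent.HLV

theorem cimg_B {M m i : ℕ} (hi : 1 ≤ i) (L : Lang (Fin M)) :
    cimg M m L ∈ B (Fin (m + 2)) i ↔ L ∈ B (Fin M) i :=
  ((final.2.2.2 M m i hi L).1).symm

/-- Codes for the block languages. -/
theorem exists_zt (M k : ℕ) (V : Code) (θ : Th) : ∃ f : Code × Code → Code, Computable f ∧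
    ∀ p, langC (toks M k (NN p)).length (f p) = Zt (alp M k p) (autOf M p) (dfaOf k V) θ := by
  obtain ⟨f1, hf1, h1⟩ := exists_cert M k V θ.1
  obtain ⟨f2, hf2, h2⟩ := exists_tail M k V θ.2.1 θ.2.2
  obtain ⟨g, hg, h⟩ := exists_catC
  refine ⟨fun p => g ((toks M k (NN p)).length, (f1 p, f2 p)), ?_, fun p => ?_⟩
  · exact hg.comp (((Primrec.list_length.comp ((pr_toks M k).comp pr_NN)).to_comp).pair
      (hf1.pair hf2))
  · refine (h ((toks M k (NN p)).length, (f1 p, f2 p))).trans ?_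
    show cat (langC _ (f1 p)) (langC _ (f2 p)) = _
    rw [h1, h2]
    rfl

theorem exists_tstC : ∃ f : ℕ × List Code → Code, Computable f ∧ ∀ (M : ℕ) (cs : List Code),
    (∀ θ θ', θ ≠ θ' → ∀ w ∈ langC M (cs.getD (ix θ) ([], [])),
      w ∉ langC M (cs.getD (ix θ') ([], []))) →
    langC (M + 1) (f (M, cs)) = Tst (fun θ => langC M (cs.getD (ix θ) ([], []))) := by
  obtain ⟨f, hf, h⟩ := gen (C := ℕ × List Code) (σ := ℕ × (ℕ × List ℕ)) (fun c => c.1 + 1)
    (fun _ => (0, (0, []))) stQ acQ (Primrec.succ.comp Primrec.fst) (Primrec.const _) pr_stQ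
    pr_acQ fin_stQ
  refine ⟨f, hf, fun M cs hd => ?_⟩
  ext w
  exact (h (M, cs) w).trans (tst_num cs hd w).symm

theorem exists_codes (M k : ℕ) (V : Code) : ∃ f : Code × Code → List Code, Computable f ∧
    ∀ p θ, langC (toks M k (NN p)).length ((f p).getD (ix θ) ([], [])) =
      Zt (alp M k p) (autOf M p) (dfaOf k V) θ := by
  choose f hf h using exists_zt M k V
  refine ⟨fun p => [f (xi 0) p, f (xi 1) p, f (xi 2) p, f (xi 3) p, f (xi 4) p, f (xi 5) p,
    f (xi 6) p, f (xi 7) p], ?_, ?_⟩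
  · exact Computable.list_cons.comp (hf _) (Computable.list_cons.comp (hf _)
      (Computable.list_cons.comp (hf _) (Computable.list_cons.comp (hf _)
      (Computable.list_cons.comp (hf _) (Computable.list_cons.comp (hf _)
      (Computable.list_cons.comp (hf _) (Computable.list_cons.comp (hf _)
      (Computable.const [])))))))) 
  · intro p θ
    rw [← h θ p]
    rcases θ with ⟨_ | _, _ | _, _ | _⟩ <;> rfl

/-- The reduction of separation by `B (n + 1)` to membership in `B (n + 2)`. -/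
theorem exists_redB (M m : ℕ) {n : ℕ} (hn : 1 ≤ n) : ∃ f : Code × Code → Code, Computable f ∧
    ∀ p, (langC (m + 2) (f p) ∈ B (Fin (m + 2)) (n + 2) ↔
      Separable (B (Fin (M + 1)) (n + 1)) (langC (M + 1) p.1) (langC (M + 1) p.2)) := by
  obtain ⟨V, hV, hV1, hV2⟩ := exists_hidden hn
  obtain ⟨f1, hf1, h1⟩ := exists_codes (M + 1) 4 V
  obtain ⟨f2, hf2, h2⟩ := exists_tstC
  obtain ⟨g, hg, h3⟩ := exists_cimg m
  refine ⟨fun p => g ((toks (M + 1) 4 (NN p)).length + 1,
    f2 ((toks (M + 1) 4 (NN p)).length, f1 p)), ?_, fun p => ?_⟩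
  · have hl : Computable fun p : Code × Code => (toks (M + 1) 4 (NN p)).length :=
      (Primrec.list_length.comp ((pr_toks (M + 1) 4).comp pr_NN)).to_comp
    exact hg.comp ((Computable.succ.comp hl).pair (hf2.comp (hl.pair hf1)))
  · have hd : ∀ θ θ', θ ≠ θ' → ∀ w ∈ langC (toks (M + 1) 4 (NN p)).length ((f1 p).getD (ix θ) ([], [])),
        w ∉ langC (toks (M + 1) 4 (NN p)).length ((f1 p).getD (ix θ') ([], [])) := by
      intro θ θ' hne w hw
      rw [h1] at hw ⊢
      exact zt_disj _ _ _ hne w (zt_sub _ _ _ θ hw)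
    rw [h3]
    show cimg _ m _ ∈ _ ↔ _
    rw [cimg_B (by omega), h2 _ _ hd]
    have e : (fun θ => langC (toks (M + 1) 4 (NN p)).length ((f1 p).getD (ix θ) ([], []))) =
        Zt (alp (M + 1) 4 p) (autOf (M + 1) p) (dfaOf 4 V) := funext fun θ => h1 p θ
    rw [e, ← autOf_true, ← autOf_false]
    exact tst_iff hn (alp (M + 1) 4 p) (autOf (M + 1) p) (dfaOf 4 V) (le_refl _)
      (by rw [dfaOf_lang]; exact hV) (by rw [dfaOf_lang]; exact hV1) (by rw [dfaOf_lang]; exact hV2)

private theorem pred_comp {p : Code → Prop} (hp : ComputablePred p) {f : Code × Code → Code}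
    (hf : Computable f) : ComputablePred fun c => p (f c) := by
  obtain ⟨g, hg, rfl⟩ := ComputablePred.computable_iff.1 hp
  exact ComputablePred.computable_iff.2 ⟨fun c => g (f c), hg.comp hf, rfl⟩

/-- Membership in a full level decides separation by the full level below. -/
theorem decSepB_of_mem (M m : ℕ) {i : ℕ} (hi : 2 ≤ i) (h : DecMem (m + 2) (i + 1)) :
    DecSepB (M + 1) i := by
  obtain ⟨n, rfl⟩ : ∃ n, i = n + 1 := ⟨i - 1, by omega⟩
  obtain ⟨f, hf, hr⟩ := exists_redB M m (show 1 ≤ n by omega)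
  exact (pred_comp h hf).of_eq fun p => hr p

/-- Separation decides membership. -/
theorem decMem_of_sep {M i : ℕ} (h : DecSepB M i) : DecMem M i := by
  obtain ⟨f, hf, hr⟩ := exists_compl M
  obtain ⟨g, hg, h'⟩ := ComputablePred.computable_iff.1 h
  refine ComputablePred.computable_iff.2 ⟨fun c => g (c, f c), hg.comp (Computable.id.pair hf), ?_⟩
  funext c
  have h1 := congrFun h' (c, f c)
  rw [← h1]
  refine propext ⟨fun hc => ⟨langC M c, hc, fun w hw => hw, fun w hw => ?_⟩, ?_⟩
  · show w ∉ langC M (f c)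
    rw [hr]
    exact fun hn => hn hw
  · rintro ⟨L, hL, h2, h3⟩
    have e : L = langC M c := by
      refine Set.Subset.antisymm (fun w hw => ?_) h2
      have h4 := h3 w hw
      have h5 : w ∉ langC M (f c) := h4
      rw [hr] at h5
      exact not_not.1 h5
    rwa [← e]

/-- The membership problem for all levels is equivalent to the separation problem for all levels. -/
theorem all_iff (m : ℕ) : (∀ i, 3 ≤ i → DecMem (m + 2) i) ↔
    ∀ i, 3 ≤ i → ∀ M, DecSepB (M + 1) i :=
  ⟨fun h i hi M => decSepB_of_mem M m (by omega) (h (i + 1) (by omega)),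
    fun h i hi => decMem_of_sep (h i hi (m + 1))⟩

end Pool.Agent.HSP
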