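import Pool.Agent.HSP.QDefs

/-!
# HSP-QT0: the switch

Plan.  `run_const`: in a chain `x :: β` with all `β` unmarked all types are equal to `x.1` (induction;
`Adj` with `z.2.1 = false` says that the types are equal).  `switch`: let `α ++ x :: (β ++ y :: γ)` with
`IsS x`, `IsS' y`.  Let `y'` be the first `IsS'` of `β ++ [y]` and `x'` the last marked kind before it in
`x :: ..`; it is not `IsS'`, so `IsS x'`: this gives the decomposition.  `switch_in`: if
`ts = α ++ x :: (β ++ y :: γ) = α' ++ x' :: (β' ++ y' :: γ')` with `IsS x`, `IsS' y`, `IsS x'`, `IsS' y'`, `β'`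
unmarked and no `IsS'` before an `IsS` in `ts`: then the position `α.length ≤ α'.length` (otherwise `x` is
behind `x'`, so it is in `β'` (unmarked) or it is `y'` or behind `y'`, both impossible), and
`α'.length + 1 + β'.length ≤ α.length + 1 + β.length` similarly.  Use `List.append_eq_append_iff` or
`getElem?`.
-/

namespace Pool.Agent.HSP

open Pool.Agent.DD Pool.Agent.HLV

/-- All kinds of a run have the same type. -/
theorem run_const {x : Th} {β : List Th} (h : (x :: β).IsChain Adj) (hβ : ∀ z ∈ β, z.2.1 = false) :
    ∀ z ∈ β, z.1 = x.1 := by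
  induction β generalizing x with
  | nil => intro z hz; exact absurd hz List.not_mem_nil
  | cons z β ih =>
    have h1 := List.isChain_cons_cons.1 h
    have h2 : z.1 = x.1 := by
      have h3 : z.2.1 = (z.1 != x.1) := h1.1
      rw [hβ z List.mem_cons_self] at h3
      simpa using h3.symm
    intro w hw
    rcases List.mem_cons.1 hw with rfl | hw
    · exact h2
    · rw [ih h1.2 (fun z hz => hβ z (List.mem_cons_of_mem _ hz)) w hw, h2]

/-- Existence of the switch. -/
theorem switch {α β γ : List Th} {x y : Th} (hx : IsS x) (hy : IsS' y) :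
    ∃ β₁ x' β' y' γ', x :: (β ++ y :: γ) = β₁ ++ x' :: (β' ++ y' :: γ') ∧ IsS x' ∧ IsS' y' ∧
      ∀ z ∈ β', z.2.1 = false := by
  have _ := α
  induction β generalizing x with
  | nil => exact ⟨[], x, [], y, γ, rfl, hx, hy, fun z hz => absurd hz List.not_mem_nil⟩
  | cons z β ih =>
    by_cases hz : z.2.1 = true
    · by_cases hz2 : z.2.2 = true
      · obtain ⟨β₁, x', β', y', γ', h1, h2, h3, h4⟩ := ih (x := z) ⟨hz, hz2⟩
        refine ⟨x :: β₁, x', β', y', γ', ?_, h2, h3, h4⟩
        rw [List.cons_append, h1, List.cons_append]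
      · exact ⟨[], x, [], z, β ++ y :: γ, rfl, hx, ⟨hz, by simpa using hz2⟩,
          fun z hz => absurd hz List.not_mem_nil⟩
    · have hz' : z.2.1 = false := by simpa using hz
      obtain ⟨β₁, x', β', y', γ', h1, h2, h3, h4⟩ := ih hx
      rcases β₁ with _ | ⟨w, β₁⟩
      · rw [List.nil_append, List.cons.injEq] at h1
        refine ⟨[], x', z :: β', y', γ', ?_, h2, h3, ?_⟩
        · rw [List.nil_append, List.cons_append, List.cons_append, h1.1, h1.2]
        · intro v hv
          rcases List.mem_cons.1 hv with rfl | hv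
          · exact hz'
          · exact h4 v hv
      · rw [List.cons_append, List.cons.injEq] at h1
        refine ⟨w :: z :: β₁, x', β', y', γ', ?_, h2, h3, h4⟩
        rw [List.cons_append, List.cons_append, List.cons_append, h1.1, h1.2]

private theorem get_x (α β : List Th) (x : Th) : (α ++ x :: β)[α.length]? = some x := by
  rw [List.getElem?_append_right le_rfl]
  simp

private theorem get_y (α β γ : List Th) (x y : Th) :
    (α ++ x :: (β ++ y :: γ))[α.length + 1 + β.length]? = some y := by
  rw [List.getElem?_append_right (by omega)]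
  have e : α.length + 1 + β.length - α.length = β.length + 1 := by omega
  rw [e, List.getElem?_cons_succ, List.getElem?_append_right le_rfl]
  simp

private theorem get_mid (α β γ : List Th) (x y : Th) {k : ℕ} (h1 : α.length < k)
    (h2 : k < α.length + 1 + β.length) {z : Th}
    (h3 : (α ++ x :: (β ++ y :: γ))[k]? = some z) : z ∈ β := by
  rw [List.getElem?_append_right (by omega)] at h3
  obtain ⟨j, hj⟩ : ∃ j, k = α.length + (j + 1) := ⟨k - α.length - 1, by omega⟩
  have e : k - α.length = j + 1 := by omega
  rw [e, List.getElem?_cons_succ, List.getElem?_append_left (by omega)] at h3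
  exact List.mem_of_getElem? h3

private theorem lt_of_S {ts a b : List Th} (h : ts = a ++ b) (hb : ∀ x ∈ b, ¬ IsS x) {k : ℕ} {z : Th}
    (hk : ts[k]? = some z) (hz : IsS z) : k < a.length := by
  by_contra hlt
  rw [h, List.getElem?_append_right (by omega)] at hk
  exact hb z (List.mem_of_getElem? hk) hz

private theorem le_of_S' {ts a b : List Th} (h : ts = a ++ b) (ha : ∀ x ∈ a, ¬ IsS' x) {k : ℕ} {z : Th}
    (hk : ts[k]? = some z) (hz : IsS' z) : a.length ≤ k := by
  by_contra hlt
  rw [h, List.getElem?_append_left (by omega)] at hk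
  exact ha z (List.mem_of_getElem? hk) hz

/-- Every interval from a mark s to a mark s' contains the switch. -/
theorem switch_in {ts α β γ α' β' γ' : List Th} {x y x' y' : Th}
    (h : ts = α ++ x :: (β ++ y :: γ)) (h' : ts = α' ++ x' :: (β' ++ y' :: γ'))
    (hx : IsS x) (hy : IsS' y) (hx' : IsS x') (hy' : IsS' y') (hβ : ∀ z ∈ β', z.2.1 = false)
    (hw : ∃ a b, ts = a ++ b ∧ (∀ x ∈ a, ¬ IsS' x) ∧ ∀ x ∈ b, ¬ IsS x) :
    α.length ≤ α'.length ∧ α'.length + β'.length ≤ α.length + β.length := by
  obtain ⟨a, b, hab, ha, hb⟩ := hw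
  have g1 : ts[α.length]? = some x := by rw [h]; exact get_x _ _ _
  have g2 : ts[α.length + 1 + β.length]? = some y := by rw [h]; exact get_y _ _ _ _ _
  have g3 : ts[α'.length]? = some x' := by rw [h']; exact get_x _ _ _
  have g4 : ts[α'.length + 1 + β'.length]? = some y' := by rw [h']; exact get_y _ _ _ _ _
  have l1 := lt_of_S hab hb g1 hx
  have l2 := le_of_S' hab ha g2 hy
  have l3 := lt_of_S hab hb g3 hx'
  have l4 := le_of_S' hab ha g4 hy'
  constructor
  · by_contra hc
    rw [h'] at g1
    have h5 := get_mid α' β' γ' x' y' (k := α.length) (by omega) (by omega) g1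
    have h6 := hβ x h5
    rw [hx.1] at h6
    exact Bool.noConfusion h6
  · by_contra hc
    rw [h'] at g2
    have h5 := get_mid α' β' γ' x' y' (k := α.length + 1 + β.length) (by omega) (by omega) g2
    have h6 := hβ y h5
    rw [hy.1] at h6
    exact Bool.noConfusion h6

end Pool.Agent.HSP
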