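import Pool.Agent.HSP.QWf
import Pool.Agent.HSP.QGm
import Pool.Agent.HSP.QT0
import Pool.Agent.HSP.QHau

/-!
# HSP-QUp: the upper bound

The switch run is contained in every interval, so its blocks decide membership in the sets `Gm`.
-/

namespace Pool.Agent.HSP

open Pool.Agent.DD Pool.Agent.HLV

variable {M : ℕ}

private theorem pull {A B : Type} (f : A → B) {α' β' γ' : List B} {x' y' : B} {ps : List A}
    (h : ps.map f = α' ++ x' :: (β' ++ y' :: γ')) :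
    ∃ α x β y γ, ps = α ++ x :: (β ++ y :: γ) ∧ α.map f = α' ∧ f x = x' ∧ β.map f = β' ∧
      f y = y' ∧ γ.map f = γ' := by
  obtain ⟨a, b, e1, e2, e3⟩ := List.map_eq_append_iff.1 h
  obtain ⟨x, l, e4, e5, e6⟩ := List.map_eq_cons_iff.1 e3
  obtain ⟨β, l2, e7, e8, e9⟩ := List.map_eq_append_iff.1 e6
  obtain ⟨y, γ, e10, e11, e12⟩ := List.map_eq_cons_iff.1 e9
  refine ⟨a, x, β, y, γ, ?_, e2, e5, e8, e11, e12⟩
  rw [e1, e4, e7, e10]

private theorem mem_mid {A : Type} {a b c a' b' c' : List A}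
    (h : a ++ (b ++ c) = a' ++ (b' ++ c')) (h1 : a.length ≤ a'.length)
    (h2 : a'.length + b'.length ≤ a.length + b.length) : ∀ z ∈ b', z ∈ b := by
  intro z hz
  obtain ⟨j, hj, e⟩ := List.mem_iff_getElem.1 hz
  have e1 : (a' ++ (b' ++ c'))[a'.length + j]? = some z := by
    rw [List.getElem?_append_right (by omega), Nat.add_sub_cancel_left,
      List.getElem?_append_left hj, List.getElem?_eq_getElem hj, e]
  rw [← h, List.getElem?_append_right (by omega), List.getElem?_append_left (by omega)] at e1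
  exact List.mem_of_getElem? e1

private theorem gm_iff {Z Z' : Th → Lang (Fin M)} (h1 : ∀ θ, Z θ ⊆ Z' θ)
    (h2 : ∀ θ θ', θ ≠ θ' → ∀ w ∈ Z' θ, w ∉ Z θ') {ps : List (Th × List (Fin M))}
    (hp : ∀ p ∈ ps, p.2 ∈ Z p.1) (P : Lang (Fin M)) :
    wd (ps.map Prod.snd) ∈ Gm Z' P ↔ ∃ α x β y γ, ps = α ++ x :: (β ++ y :: γ) ∧ IsS x.1 ∧
      IsS' y.1 ∧ x.2 ∉ P ∧ ∀ v ∈ β, v.2 ∉ P := by
  constructor
  · rintro ⟨α, x, β, y, γ, e, ⟨θ, hθ, hx⟩, ⟨θ', hθ', hy⟩, hxP, hβ⟩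
    obtain ⟨α₁, x₁, β₁, y₁, γ₁, e1, _, rfl, rfl, rfl, _⟩ := pull Prod.snd (wd_inj e)
    have hx1 : x₁ ∈ ps := by rw [e1]; simp
    have hy1 : y₁ ∈ ps := by rw [e1]; simp
    have ex : θ = x₁.1 := by
      by_contra hne
      exact h2 θ x₁.1 hne _ hx (hp _ hx1)
    have ey : θ' = y₁.1 := by
      by_contra hne
      exact h2 θ' y₁.1 hne _ hy (hp _ hy1)
    rw [ex] at hθ
    rw [ey] at hθ'
    exact ⟨α₁, x₁, β₁, y₁, γ₁, e1, hθ, hθ', hxP, fun v hv => hβ _ (List.mem_map_of_mem hv)⟩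
  · rintro ⟨α, x, β, y, γ, e, hx, hy, hxP, hβ⟩
    refine ⟨α.map Prod.snd, x.2, β.map Prod.snd, y.2, γ.map Prod.snd, ?_,
      ⟨x.1, hx, h1 _ (hp x ?_)⟩, ⟨y.1, hy, h1 _ (hp y ?_)⟩, hxP, ?_⟩
    · rw [e]; simp
    · rw [e]; simp
    · rw [e]; simp
    · intro v hv
      obtain ⟨u, hu, rfl⟩ := List.mem_map.1 hv
      exact hβ u hu

private theorem gm_sw {Z Z' : Th → Lang (Fin M)} (h1 : ∀ θ, Z θ ⊆ Z' θ)
    (h2 : ∀ θ θ', θ ≠ θ' → ∀ w ∈ Z' θ, w ∉ Z θ') {ps : List (Th × List (Fin M))}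
    (hp : ∀ p ∈ ps, p.2 ∈ Z p.1) (hw : WF0 (ps.map Prod.fst))
    {A R C : List (Th × List (Fin M))} {X Y : Th × List (Fin M)}
    (e : ps = A ++ X :: (R ++ Y :: C)) (hX : IsS X.1) (hY : IsS' Y.1)
    (hR : ∀ z ∈ R, z.1.2.1 = false) (P : Lang (Fin M)) :
    wd (ps.map Prod.snd) ∈ Gm Z' P ↔ ∀ v ∈ X :: R, v.2 ∉ P := by
  rw [gm_iff h1 h2 hp P]
  constructor
  · rintro ⟨α, x, β, y, γ, e', hx, hy, hxP, hβ⟩
    have e1 : ps.map Prod.fst = α.map Prod.fst ++ x.1 :: (β.map Prod.fst ++ y.1 ::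
        γ.map Prod.fst) := by rw [e']; simp
    have e2 : ps.map Prod.fst = A.map Prod.fst ++ X.1 :: (R.map Prod.fst ++ Y.1 ::
        C.map Prod.fst) := by rw [e]; simp
    have h3 := switch_in e1 e2 hx hy hX hY (by
      intro z hz
      obtain ⟨u, hu, rfl⟩ := List.mem_map.1 hz
      exact hR u hu) hw.2.2
    simp only [List.length_map] at h3
    have h4 : α ++ ((x :: β) ++ (y :: γ)) = A ++ ((X :: R) ++ (Y :: C)) := by
      rw [List.cons_append, List.cons_append, ← e, ← e']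
    have h5 := mem_mid h4 h3.1 (by
      rw [List.length_cons, List.length_cons]
      omega)
    intro v hv
    have h6 := h5 v hv
    rw [List.mem_cons] at h6
    rcases h6 with h6 | h6
    · rw [h6]
      exact hxP
    · exact hβ v h6
  · intro h
    exact ⟨A, X, R, Y, C, e, hX, hY, h X List.mem_cons_self,
      fun v hv => h v (List.mem_cons_of_mem _ hv)⟩

private theorem anti {Pc : ℕ → Lang (Fin M)} (hd : ∀ k, Pc (k + 1) ⊆ Pc k) {a b : ℕ}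
    (h : a ≤ b) : Pc b ⊆ Pc a := by
  induction h with
  | refl => exact fun _ h => h
  | step _ ih => exact fun w hw => ih (hd _ hw)

private theorem par {Pc : ℕ → Lang (Fin M)} {Z₀ : Lang (Fin M)} (hd : ∀ k, Pc (k + 1) ⊆ Pc k)
    (hz : ∀ w, w ∈ Z₀ ↔ ∃ k, k % 2 = 0 ∧ w ∈ Pc k ∧ w ∉ Pc (k + 1))
    {X : Th × List (Fin M)} {R : List (Th × List (Fin M))} {t : Bool}
    (hL : ∀ v ∈ X :: R, (v.2 ∈ Z₀ ↔ t = true)) {c : ℕ} (hc : ∀ v ∈ X :: R, v.2 ∉ Pc c)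
    (hk : ∀ k < c, ¬ ∀ v ∈ X :: R, v.2 ∉ Pc k) : t = false ↔ c % 2 = 0 := by
  cases c with
  | zero =>
    have h1 : X.2 ∉ Z₀ := by
      intro h
      obtain ⟨k, _, h3, _⟩ := (hz _).1 h
      exact hc X List.mem_cons_self (anti hd (Nat.zero_le k) h3)
    have h2 : t = false := by
      rw [← Bool.not_eq_true]
      intro h
      exact h1 ((hL X List.mem_cons_self).2 h)
    simp [h2]
  | succ k =>
    have h1 := hk k (Nat.lt_succ_self k)
    push Not at h1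
    obtain ⟨v, hv, h2⟩ := h1
    have h3 := hc v hv
    have h4 : v.2 ∈ Z₀ ↔ k % 2 = 0 := by
      rw [hz]
      constructor
      · rintro ⟨k', h5, h6, h7⟩
        have h8 : k' = k := by
          rcases Nat.lt_trichotomy k' k with h | h | h
          · exact absurd (anti hd h h2) h7
          · exact h
          · exact absurd (anti hd h h6) h3
        rw [← h8]
        exact h5
      · intro h
        exact ⟨k, h, h2, h3⟩
    have h5 : t = true ↔ k % 2 = 0 := (hL v hv).symm.trans h4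
    rw [← Bool.not_eq_true, h5]
    omega

private theorem run_ty {ps : List (Th × List (Fin M))} (hw : WF0 (ps.map Prod.fst))
    {A R C : List (Th × List (Fin M))} {X Y : Th × List (Fin M)}
    (e : ps = A ++ X :: (R ++ Y :: C)) (hR : ∀ z ∈ R, z.1.2.1 = false) :
    ∀ v ∈ X :: R, v.1.1 = X.1.1 := by
  have h1 := hw.2.1
  have e2 : ps.map Prod.fst = A.map Prod.fst ++ ((X.1 :: R.map Prod.fst) ++ (Y.1 ::
      C.map Prod.fst)) := by rw [e]; simp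
  rw [e2] at h1
  have h2 := run_const (h1.right_of_append.left_of_append) (by
      intro z hz
      obtain ⟨u, hu, rfl⟩ := List.mem_map.1 hz
      exact hR u hu)
  intro v hv
  rw [List.mem_cons] at hv
  rcases hv with hv | hv
  · rw [hv]
  · exact h2 v.1 (List.mem_map_of_mem hv)

private theorem tst_iff {Z Z' : Th → Lang (Fin M)} (h1 : ∀ θ, Z θ ⊆ Z' θ)
    (h2 : ∀ θ θ', θ ≠ θ' → ∀ w ∈ Z' θ, w ∉ Z θ') {Z₀ : Lang (Fin M)}
    (h6 : ∀ θ, ∀ w ∈ Z θ, (w ∈ Z₀ ↔ θ.1 = true)) {m : ℕ} {Pc : ℕ → Lang (Fin M)}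
    (hd : ∀ k, Pc (k + 1) ⊆ Pc k) (hm : ∀ k, m ≤ k → Pc k = ∅)
    (hz : ∀ w, w ∈ Z₀ ↔ ∃ k, k % 2 = 0 ∧ w ∈ Pc k ∧ w ∉ Pc (k + 1)) :
    Tst Z = WFL Z ∩ {w | ∃ c ∈ (List.range (m + 1)).filter (fun c => decide (c % 2 = 0)),
      w ∈ Gm Z' (Pc c) ∩ {w | ∀ k ∈ List.range c, w ∈ (Gm Z' (Pc k))ᶜ}} := by
  ext w
  constructor
  · rintro ⟨ps, hp, ⟨hw, α, x, β, y, γ, e, hx, hy, hβ, hx1⟩, rfl⟩
    refine ⟨⟨ps, hp, hw, rfl⟩, ?_⟩
    obtain ⟨A, X, R, Y, C, e1, _, rfl, rfl, rfl, _⟩ := pull Prod.fst e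
    have hR : ∀ z ∈ R, z.1.2.1 = false := fun z hz => hβ z.1 (List.mem_map_of_mem hz)
    have hg := fun P => gm_sw h1 h2 hp hw e1 hx hy hR P
    have ht := run_ty hw e1 hR
    have hps : ∀ v ∈ X :: R, v ∈ ps := by
      intro v hv
      rw [e1, List.mem_append, ← List.cons_append, List.mem_append]
      exact Or.inr (Or.inl hv)
    have hL : ∀ v ∈ X :: R, (v.2 ∈ Z₀ ↔ X.1.1 = true) := by
      intro v hv
      rw [h6 v.1 v.2 (hp v (hps v hv)), ht v hv]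
    have hex : ∃ c, ∀ v ∈ X :: R, v.2 ∉ Pc c := ⟨m, fun v _ => by
      rw [hm m le_rfl]
      exact Set.notMem_empty _⟩
    classical
    obtain ⟨c, hc, hk⟩ : ∃ c, (∀ v ∈ X :: R, v.2 ∉ Pc c) ∧
        ∀ k < c, ¬ ∀ v ∈ X :: R, v.2 ∉ Pc k :=
      ⟨Nat.find hex, Nat.find_spec hex, fun k hk => Nat.find_min hex hk⟩
    have hcm : c ≤ m := by
      by_contra hlt
      exact hk m (by omega) (fun v _ => by
        rw [hm m le_rfl]
        exact Set.notMem_empty _)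
    have hpar := (par hd hz hL hc hk).1 hx1
    refine ⟨c, ?_, (hg _).2 hc, ?_⟩
    · rw [List.mem_filter, List.mem_range]
      exact ⟨by omega, by simpa using hpar⟩
    · intro k hk'
      rw [List.mem_range] at hk'
      exact fun h => hk k hk' ((hg _).1 h)
  · rintro ⟨⟨ps, hp, hw, rfl⟩, c, hc, hc1, hc2⟩
    rw [List.mem_filter] at hc
    have hce : c % 2 = 0 := by simpa using hc.2
    obtain ⟨α, x, β, y, γ, e, hx, hy, _, _⟩ := (gm_iff h1 h2 hp (Pc c)).1 hc1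
    obtain ⟨β₁, x', β', y', γ', e2, hx', hy', hβ'⟩ :=
      switch (α := α.map Prod.fst) (β := β.map Prod.fst) (γ := γ.map Prod.fst) hx hy
    have e3 : ps.map Prod.fst = (α.map Prod.fst ++ β₁) ++ x' :: (β' ++ y' :: γ') := by
      rw [List.append_assoc, ← e2, e]
      simp
    obtain ⟨A, X, R, Y, C, e1, _, rfl, rfl, rfl, _⟩ := pull Prod.fst e3
    have hR : ∀ z ∈ R, z.1.2.1 = false := fun z hz => hβ' z.1 (List.mem_map_of_mem hz)
    have hg := fun P => gm_sw h1 h2 hp hw e1 hx' hy' hR P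
    have ht := run_ty hw e1 hR
    have hps : ∀ v ∈ X :: R, v ∈ ps := by
      intro v hv
      rw [e1, List.mem_append, ← List.cons_append, List.mem_append]
      exact Or.inr (Or.inl hv)
    have hL : ∀ v ∈ X :: R, (v.2 ∈ Z₀ ↔ X.1.1 = true) := by
      intro v hv
      rw [h6 v.1 v.2 (hp v (hps v hv)), ht v hv]
    have hpar := (par hd hz hL ((hg _).1 hc1) (fun k hk h => by
      have h9 := hc2 k (List.mem_range.2 hk)
      exact h9 ((hg _).2 h))).2 hce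
    refine ⟨ps, hp, ⟨hw, A.map Prod.fst, X.1, R.map Prod.fst, Y.1, C.map Prod.fst, ?_, hx', hy',
      hβ', hpar⟩, rfl⟩
    rw [e1]
    simp

/-- Main result of this module. -/
theorem tst_up {n : ℕ} (hn : 1 ≤ n) {Z Z' : Th → Lang (Fin M)} (h1 : ∀ θ, Z θ ⊆ Z' θ)
    (h2 : ∀ θ θ', θ ≠ θ' → ∀ w ∈ Z' θ, w ∉ Z θ')
    (h3 : ∀ θ, Z' θ ∈ Half (B (Fin M) (n + 1)))
    (h4 : ({w | ∃ θ, w ∈ Z θ} : Lang (Fin M))ᶜ ∈ Half (B (Fin M) (n + 1)))
    {Z₀ : Lang (Fin M)} (h5 : Z₀ ∈ B (Fin M) (n + 1)) (h6 : ∀ θ, ∀ w ∈ Z θ, (w ∈ Z₀ ↔ θ.1 = true)) :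
    Tst Z ∈ B (Fin (M + 1)) (n + 2) := by
  obtain ⟨m, Pc, hP, hd, hm, hz⟩ := hausdorff h5
  rw [tst_iff h1 h2 h6 hd hm hz]
  have hG : ∀ k, Gm Z' (Pc k) ∈ B (Fin (M + 1)) (n + 2) := fun k =>
    half_sub_B (Gm_half hn h3 (hP k))
  exact B_inter (WFL_B h1 h2 h3 h4) (B_list_union _ _ fun c _ =>
    B_inter (hG c) (B_list_inter _ _ fun k _ => B_compl (hG k)))

end Pool.Agent.HSP
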