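import Pool.Agent.HSP.QLvA

/-!
# HSP-QWf: the well formed sequences

Plan.  Write `last = Fin.last M`.  For `L, L' : Lang (Fin M)` in `Half (B (n + 1))` the following languages are in
`Pol (B (n + 1))`: `E1 L = cat univ (cat {[last]} (cat (bl L) (cat {[last]} univ)))` (some block in `L`);
`E2 L L' = cat univ (cat {[last]} (cat (bl L) (cat {[last]} (cat (bl L') (cat {[last]} univ)))))` (neighbours);
`E3 L L' = cat univ (cat {[last]} (cat (bl L) (cat (cat {[last]} univ ∩ cat univ {[last]}) (cat (bl L')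
(cat {[last]} univ)))))` (a block in `L`, later a block in `L'`; the middle part is a word which begins and
ends with `last`, `[last]` included: it is in `B 1`); `E4 L = cat {[last]} (cat (bl L) (cat {[last]} univ))` (the
first block in `L`).  On the words `wd ys` their meaning is given by `wd_split`.
`WFL Z = SQ ∩ {[last]}ᶜ ∩ (E1 (not in any Z θ))ᶜ ∩ ⋂ (E2 (Z' θ) (Z' θ'))ᶜ (not Adj θ θ') ∩
⋂ (E3 (Z' θ) (Z' θ'))ᶜ (IsS' θ, IsS θ') ∩ ⋂ (E4 (Z' θ))ᶜ (not IsS θ)`; all in `B (n + 2)` (`pol_sub_B`,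
`B_compl`, `B_inter`, `B_list_inter` over the finite type `Th`).  Proof of the equality: if all blocks of
`wd ys` are in some `Z θ`, choose the list `ps` of the pairs; a block in `Z θ` is in `Z' θ'` iff `θ = θ'`
(`h1`, `h2`).  The conditions then say: nonempty, the first kind is `IsS`, `IsChain Adj`
(`List.isChain_iff_forall_getElem`-like or: a list which is not a chain is `α ++ θ :: θ' :: β` with
`¬ Adj θ θ'`), and no `IsS'` before an `IsS` (then `α` = the part before the first `IsS'`, `β` = the rest).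
Conversely for `ps` as in `WFL` the kinds are determined, `wd_split` gives the positions.
-/

namespace Pool.Agent.HSP

open Pool.Agent.DD Pool.Agent.HLV

variable {M : ℕ}

/-! ### The elementary languages -/

private theorem mem_bl {L : Lang (Fin M)} {w : List (Fin (M + 1))} :
    w ∈ bl L ↔ ∃ y ∈ L, w = y.map Fin.castSucc := Iff.rfl

private theorem wd_cons (y : List (Fin M)) (ys : List (List (Fin M))) :
    wd (y :: ys) = Fin.last M :: (y.map Fin.castSucc ++ wd ys) := by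
  unfold wd
  rw [wq_cons, List.cons_append, List.append_assoc]

private theorem wd_nil : wd ([] : List (List (Fin M))) = [Fin.last M] := rfl

private theorem cat_eq {X : Type} {K L : Lang X} {w : List X} :
    w ∈ cat K L ↔ ∃ x ∈ K, ∃ y ∈ L, w = x ++ y := Iff.rfl

/-- Closing delimiter. -/
private def clo (M : ℕ) : Lang (Fin (M + 1)) := cat {[Fin.last M]} Set.univ

/-- Some block in `L`. -/
private def E1 (L : Lang (Fin M)) : Lang (Fin (M + 1)) :=
  cat Set.univ (cat {[Fin.last M]} (cat (bl L) (clo M)))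

/-- Neighbours. -/
private def E2 (L L' : Lang (Fin M)) : Lang (Fin (M + 1)) :=
  cat Set.univ (cat {[Fin.last M]} (cat (bl L) (cat {[Fin.last M]} (cat (bl L') (clo M)))))

/-- A block in `L`, and later a block in `L'`. -/
private def E3 (L L' : Lang (Fin M)) : Lang (Fin (M + 1)) :=
  cat Set.univ (cat {[Fin.last M]} (cat (bl L)
    (cat {w | ∃ ys : List (List (Fin M)), w = wd ys} (cat (bl L') (clo M)))))

/-- The first block in `L`. -/
private def E4 (L : Lang (Fin M)) : Lang (Fin (M + 1)) :=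
  cat {[Fin.last M]} (cat (bl L) (clo M))

private theorem mem_E1 {L : Lang (Fin M)} {ys : List (List (Fin M))} :
    wd ys ∈ E1 L ↔ ∃ α y β, ys = α ++ y :: β ∧ y ∈ L := by
  constructor
  · rintro ⟨p, -, _, ⟨_, rfl, _, ⟨_, ⟨y, hy, rfl⟩, _, ⟨_, rfl, q, -, rfl⟩, rfl⟩, rfl⟩, h⟩
    have h' : wd ys = p ++ (wd [y] ++ q) := by
      rw [h, wd_cons, wd_nil]
      simp
    obtain ⟨α, β, h1, -, -⟩ := wd_split h'
    exact ⟨α, y, β, by simpa using h1, hy⟩
  · rintro ⟨α, y, β, rfl, hy⟩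
    obtain ⟨q, hq⟩ : ∃ q, wd β = Fin.last M :: q := (wd_exists.1 ⟨β, rfl⟩).1
    refine ⟨wq α, trivial, _, ⟨_, rfl, _, ⟨_, ⟨y, hy, rfl⟩, _, ⟨_, rfl, q, trivial, rfl⟩, rfl⟩, rfl⟩, ?_⟩
    rw [wd_append, wd_cons, hq]
    simp

private theorem mem_E2 {L L' : Lang (Fin M)} {ys : List (List (Fin M))} :
    wd ys ∈ E2 L L' ↔ ∃ α y y' β, ys = α ++ y :: y' :: β ∧ y ∈ L ∧ y' ∈ L' := by
  constructor
  · rintro ⟨p, -, _, ⟨_, rfl, _, ⟨_, ⟨y, hy, rfl⟩, _, ⟨_, rfl, _, ⟨_, ⟨y', hy', rfl⟩, _,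
      ⟨_, rfl, q, -, rfl⟩, rfl⟩, rfl⟩, rfl⟩, rfl⟩, h⟩
    have h' : wd ys = p ++ (wd [y, y'] ++ q) := by
      rw [h, wd_cons, wd_cons, wd_nil]
      simp
    obtain ⟨α, β, h1, -, -⟩ := wd_split h'
    exact ⟨α, y, y', β, by simpa using h1, hy, hy'⟩
  · rintro ⟨α, y, y', β, rfl, hy, hy'⟩
    obtain ⟨q, hq⟩ : ∃ q, wd β = Fin.last M :: q := (wd_exists.1 ⟨β, rfl⟩).1
    refine ⟨wq α, trivial, _, ⟨_, rfl, _, ⟨_, ⟨y, hy, rfl⟩, _, ⟨_, rfl, _, ⟨_, ⟨y', hy', rfl⟩, _,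
      ⟨_, rfl, q, trivial, rfl⟩, rfl⟩, rfl⟩, rfl⟩, rfl⟩, ?_⟩
    rw [wd_append, wd_cons, wd_cons, hq]
    simp

private theorem mem_E3 {L L' : Lang (Fin M)} {ys : List (List (Fin M))} :
    wd ys ∈ E3 L L' ↔ ∃ α y γ y' β, ys = α ++ y :: (γ ++ y' :: β) ∧ y ∈ L ∧ y' ∈ L' := by
  constructor
  · rintro ⟨p, -, _, ⟨_, rfl, _, ⟨_, ⟨y, hy, rfl⟩, _, ⟨_, ⟨γ, rfl⟩, _, ⟨_, ⟨y', hy', rfl⟩, _,
      ⟨_, rfl, q, -, rfl⟩, rfl⟩, rfl⟩, rfl⟩, rfl⟩, h⟩
    have h' : wd ys = p ++ (wd (y :: (γ ++ [y'])) ++ q) := by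
      rw [h, wd_cons, wd_append, wd_cons, wd_nil]
      simp [wd]
    obtain ⟨α, β, h1, -, -⟩ := wd_split h'
    exact ⟨α, y, γ, y', β, by simpa using h1, hy, hy'⟩
  · rintro ⟨α, y, γ, y', β, rfl, hy, hy'⟩
    obtain ⟨q, hq⟩ : ∃ q, wd β = Fin.last M :: q := (wd_exists.1 ⟨β, rfl⟩).1
    refine ⟨wq α, trivial, _, ⟨_, rfl, _, ⟨_, ⟨y, hy, rfl⟩, _, ⟨_, ⟨γ, rfl⟩, _, ⟨_, ⟨y', hy', rfl⟩, _,
      ⟨_, rfl, q, trivial, rfl⟩, rfl⟩, rfl⟩, rfl⟩, rfl⟩, ?_⟩
    rw [wd_append, wd_cons, wd_append, wd_cons, hq]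
    simp [wd]

private theorem mem_E4 {L : Lang (Fin M)} {ys : List (List (Fin M))} :
    wd ys ∈ E4 L ↔ ∃ y β, ys = y :: β ∧ y ∈ L := by
  constructor
  · rintro ⟨_, rfl, _, ⟨_, ⟨y, hy, rfl⟩, _, ⟨_, rfl, q, -, rfl⟩, rfl⟩, h⟩
    have h' : wd ys = [] ++ (wd [y] ++ q) := by
      rw [h, wd_cons, wd_nil]
      simp
    obtain ⟨α, β, h1, h2, -⟩ := wd_split h'
    cases α with
    | nil => exact ⟨y, β, by simpa using h1, hy⟩
    | cons a α =>
      rw [wq_cons] at h2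
      exact absurd h2 (by simp)
  · rintro ⟨y, β, rfl, hy⟩
    obtain ⟨q, hq⟩ : ∃ q, wd β = Fin.last M :: q := (wd_exists.1 ⟨β, rfl⟩).1
    refine ⟨_, rfl, _, ⟨_, ⟨y, hy, rfl⟩, _, ⟨_, rfl, q, trivial, rfl⟩, rfl⟩, ?_⟩
    rw [wd_cons, hq]
    simp

private theorem univ_pol {i : ℕ} : Pol (B (Fin (M + 1)) i) Set.univ := Pol.base (univ_mem_B i)

private theorem last_pol {i : ℕ} : Pol (B (Fin (M + 1)) i) {[Fin.last M]} :=
  Pol.base (finite_mem_B (Set.finite_singleton _) i)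

private theorem clo_pol {i : ℕ} : Pol (B (Fin (M + 1)) i) (clo M) := Pol.cat last_pol univ_pol

private theorem bl_pol {i : ℕ} (hi : 1 ≤ i) {L : Lang (Fin M)} (h : L ∈ Half (B (Fin M) i)) :
    Pol (B (Fin (M + 1)) i) (bl L) := pol_of_half (bl_half hi h)

private theorem SQ_pol {i : ℕ} (hi : 1 ≤ i) :
    Pol (B (Fin (M + 1)) i) {w | ∃ ys : List (List (Fin M)), w = wd ys} :=
  pol_mono hi (Pol.base SQ_B)

private theorem E1_B {i : ℕ} (hi : 1 ≤ i) {L : Lang (Fin M)} (h : L ∈ Half (B (Fin M) i)) :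
    E1 L ∈ B (Fin (M + 1)) (i + 1) :=
  pol_sub_B (Pol.cat univ_pol (Pol.cat last_pol (Pol.cat (bl_pol hi h) clo_pol)))

private theorem E2_B {i : ℕ} (hi : 1 ≤ i) {L L' : Lang (Fin M)} (h : L ∈ Half (B (Fin M) i))
    (h' : L' ∈ Half (B (Fin M) i)) : E2 L L' ∈ B (Fin (M + 1)) (i + 1) :=
  pol_sub_B (Pol.cat univ_pol (Pol.cat last_pol (Pol.cat (bl_pol hi h)
    (Pol.cat last_pol (Pol.cat (bl_pol hi h') clo_pol)))))

private theorem E3_B {i : ℕ} (hi : 1 ≤ i) {L L' : Lang (Fin M)} (h : L ∈ Half (B (Fin M) i))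
    (h' : L' ∈ Half (B (Fin M) i)) : E3 L L' ∈ B (Fin (M + 1)) (i + 1) :=
  pol_sub_B (Pol.cat univ_pol (Pol.cat last_pol (Pol.cat (bl_pol hi h)
    (Pol.cat (SQ_pol hi) (Pol.cat (bl_pol hi h') clo_pol)))))

private theorem E4_B {i : ℕ} (hi : 1 ≤ i) {L : Lang (Fin M)} (h : L ∈ Half (B (Fin M) i)) :
    E4 L ∈ B (Fin (M + 1)) (i + 1) :=
  pol_sub_B (Pol.cat last_pol (Pol.cat (bl_pol hi h) clo_pol))

/-! ### Boolean combinations -/

private theorem B_all {X ι : Type} [Finite ι] {i : ℕ} {F : ι → Lang X} (h : ∀ x, F x ∈ B X i) :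
    {w | ∀ x, w ∈ F x} ∈ B X i := by
  have := Fintype.ofFinite ι
  have h1 := B_list_inter (i := i) (Finset.univ : Finset ι).toList F fun x _ => h x
  have e : {w | ∀ x, w ∈ F x} = {w | ∀ x ∈ (Finset.univ : Finset ι).toList, w ∈ F x} := by
    ext w
    constructor
    · intro hw x _
      exact hw x
    · intro hw x
      exact hw x (Finset.mem_toList.2 (Finset.mem_univ x))
  rw [e]
  exact h1

private theorem B_imp_not {X : Type} {i : ℕ} {P : Prop} {E : Lang X} (h : E ∈ B X i) :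
    {w | P → w ∉ E} ∈ B X i := by
  by_cases hP : P
  · have e : {w | P → w ∉ E} = Eᶜ := by
      ext w
      exact ⟨fun hw => hw hP, fun hw _ => hw⟩
    rw [e]
    exact B_compl h
  · have e : {w | P → w ∉ E} = Set.univ := Set.eq_univ_of_forall fun w hp => absurd hp hP
    rw [e]
    exact univ_mem_B i

/-! ### Lists of kinds -/

private theorem not_S_S' {θ : Th} (h : IsS θ) (h' : IsS' θ) : False := by
  have h1 := h.2
  rw [h'.2] at h1
  exact Bool.noConfusion h1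

private theorem exists_cut (ts : List Th)
    (h : ∀ a x c y b, ts = a ++ x :: (c ++ y :: b) → IsS' x → ¬ IsS y) :
    ∃ α β, ts = α ++ β ∧ (∀ x ∈ α, ¬ IsS' x) ∧ ∀ x ∈ β, ¬ IsS x := by
  induction ts with
  | nil => exact ⟨[], [], rfl, by simp, by simp⟩
  | cons x r ih =>
    by_cases hx : IsS' x
    · refine ⟨[], x :: r, rfl, by simp, ?_⟩
      intro z hz
      rcases List.mem_cons.1 hz with rfl | hz
      · exact fun h' => not_S_S' h' hx
      · obtain ⟨c, b, rfl⟩ := List.append_of_mem hz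
        exact h [] x c z b rfl hx
    · obtain ⟨α, β, h1, h2, h3⟩ := ih fun a x' c y b e => h (x :: a) x' c y b (by rw [e]; rfl)
      refine ⟨x :: α, β, by rw [h1]; rfl, ?_, h3⟩
      intro z hz
      rcases List.mem_cons.1 hz with rfl | hz
      · exact hx
      · exact h2 z hz

private theorem no_cut {ts : List Th}
    (h : ∃ α β, ts = α ++ β ∧ (∀ x ∈ α, ¬ IsS' x) ∧ ∀ x ∈ β, ¬ IsS x) {a c b : List Th} {x y : Th}
    (e : ts = a ++ x :: (c ++ y :: b)) (hx : IsS' x) (hy : IsS y) : False := by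
  obtain ⟨α, β, h1, h2, h3⟩ := h
  rw [h1] at e
  rcases List.append_eq_append_iff.1 e with ⟨r, h4, h5⟩ | ⟨r, h4, h5⟩
  · exact h3 y (by rw [h5]; simp) hy
  · cases r with
    | nil =>
      rw [List.nil_append] at h5
      exact h3 y (by rw [← h5]; simp) hy
    | cons z r =>
      rw [List.cons_append, List.cons.injEq] at h5
      exact h2 x (by rw [h4, h5.1]; simp) hx

/-- The conditions. -/
private def Cnd (Z Z' : Th → Lang (Fin M)) (w : List (Fin (M + 1))) : Prop :=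
  (∃ ys : List (List (Fin M)), w = wd ys) ∧ w ≠ [Fin.last M] ∧
    w ∉ E1 ({w | ∃ θ, w ∈ Z θ} : Lang (Fin M))ᶜ ∧
    (∀ q : Th × Th, ¬ Adj q.1 q.2 → w ∉ E2 (Z' q.1) (Z' q.2)) ∧
    (∀ q : Th × Th, (IsS' q.1 ∧ IsS q.2) → w ∉ E3 (Z' q.1) (Z' q.2)) ∧
    ∀ θ, ¬ IsS θ → w ∉ E4 (Z' θ)

private theorem mem_iff {Z Z' : Th → Lang (Fin M)} (h1 : ∀ θ, Z θ ⊆ Z' θ)
    (h2 : ∀ θ θ', θ ≠ θ' → ∀ w ∈ Z' θ, w ∉ Z θ') (w : List (Fin (M + 1))) :
    w ∈ WFL Z ↔ Cnd Z Z' w := by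
  have huni : ∀ {θ θ' : Th} {y : List (Fin M)}, y ∈ Z' θ → y ∈ Z θ' → θ = θ' := by
    intro θ θ' y hy hy'
    by_contra hne
    exact h2 θ θ' hne y hy hy'
  constructor
  · rintro ⟨ps, hps, ⟨hfst, hch, hcut⟩, rfl⟩
    have hps' : ∀ {y : List (Fin M)}, y ∈ ps.map Prod.snd → ∃ θ, y ∈ Z θ := by
      intro y hy
      obtain ⟨p, hp, rfl⟩ := List.mem_map.1 hy
      exact ⟨p.1, hps p hp⟩
    refine ⟨⟨_, rfl⟩, ?_, ?_, ?_, ?_, ?_⟩
    · intro he
      rw [← wd_nil] at he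
      have h3 := wd_inj he
      rw [List.map_eq_nil_iff] at h3
      subst h3
      obtain ⟨θ, r, h4, -⟩ := hfst
      exact absurd h4 (by simp)
    · intro he
      obtain ⟨α, y, β, h3, h4⟩ := mem_E1.1 he
      exact h4 (hps' (by rw [h3]; simp))
    · intro q hq he
      obtain ⟨α, y, y', β, h3, h4, h5⟩ := mem_E2.1 he
      obtain ⟨pa, pr, rfl, -, h6⟩ := List.map_eq_append_iff.1 h3
      obtain ⟨p, pr', rfl, rfl, h7⟩ := List.map_eq_cons_iff.1 h6
      obtain ⟨p', pb, rfl, rfl, -⟩ := List.map_eq_cons_iff.1 h7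
      have h8 := huni h4 (hps p (by simp))
      have h9 := huni h5 (hps p' (by simp))
      apply hq
      rw [h8, h9]
      have h10 : (pa.map Prod.fst ++ p.1 :: p'.1 :: pb.map Prod.fst).IsChain Adj := by
        simpa using hch
      exact List.isChain_iff_forall_rel_of_append_cons_cons.1 h10 rfl
    · intro q hq he
      obtain ⟨α, y, γ, y', β, h3, h4, h5⟩ := mem_E3.1 he
      obtain ⟨pa, pr, rfl, -, h6⟩ := List.map_eq_append_iff.1 h3
      obtain ⟨p, pr', rfl, rfl, h7⟩ := List.map_eq_cons_iff.1 h6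
      obtain ⟨pc, pr'', rfl, -, h8⟩ := List.map_eq_append_iff.1 h7
      obtain ⟨p', pb, rfl, rfl, -⟩ := List.map_eq_cons_iff.1 h8
      have h9 := huni h4 (hps p (by simp))
      have h10 := huni h5 (hps p' (by simp))
      rw [h9, h10] at hq
      exact no_cut hcut (a := pa.map Prod.fst) (x := p.1) (c := pc.map Prod.fst) (y := p'.1)
        (b := pb.map Prod.fst) (by simp) hq.1 hq.2
    · intro θ hθ he
      obtain ⟨y, β, h3, h4⟩ := mem_E4.1 he
      obtain ⟨p, pr, rfl, rfl, h5⟩ := List.map_eq_cons_iff.1 h3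
      have h6 := huni h4 (hps p (by simp))
      obtain ⟨θ', r, h7, h8⟩ := hfst
      rw [List.map_cons, List.cons.injEq] at h7
      apply hθ
      rw [h6, h7.1]
      exact h8
  · rintro ⟨⟨ys, rfl⟩, c1, c2, c3, c4, c5⟩
    have hex : ∀ y ∈ ys, ∃ θ, y ∈ Z θ := by
      intro y hy
      by_contra hne
      obtain ⟨α, β, rfl⟩ := List.append_of_mem hy
      exact c2 (mem_E1.2 ⟨α, y, β, rfl, hne⟩)
    have hex' : ∀ y : List (Fin M), ∃ θ, y ∈ ys → y ∈ Z θ := by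
      intro y
      by_cases hy : y ∈ ys
      · obtain ⟨θ, hθ⟩ := hex y hy
        exact ⟨θ, fun _ => hθ⟩
      · exact ⟨(true, (true, true)), fun h => absurd h hy⟩
    choose f hf using hex'
    have hf' : ∀ y ∈ ys, y ∈ Z' (f y) := fun y hy => h1 _ (hf y hy)
    refine ⟨ys.map fun y => (f y, y), ?_, ?_, ?_⟩
    · intro p hp
      obtain ⟨y, hy, rfl⟩ := List.mem_map.1 hp
      exact hf y hy
    · have e1 : (ys.map fun y => (f y, y)).map Prod.fst = ys.map f := by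
        rw [List.map_map]
        rfl
      rw [e1]
      refine ⟨?_, ?_, ?_⟩
      · cases ys with
        | nil => exact absurd rfl c1
        | cons y r =>
          refine ⟨f y, r.map f, rfl, ?_⟩
          by_contra hne
          exact c5 (f y) hne (mem_E4.2 ⟨y, r, rfl, hf' y (by simp)⟩)
      · refine List.isChain_iff_forall_rel_of_append_cons_cons.2 ?_
        intro a b l₁ l₂ h3
        obtain ⟨ya, yr, rfl, -, h4⟩ := List.map_eq_append_iff.1 h3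
        obtain ⟨y, yr', rfl, rfl, h5⟩ := List.map_eq_cons_iff.1 h4
        obtain ⟨y', yb, rfl, rfl, -⟩ := List.map_eq_cons_iff.1 h5
        by_contra hne
        exact c3 (f y, f y') hne (mem_E2.2 ⟨ya, y, y', yb, rfl, hf' y (by simp), hf' y' (by simp)⟩)
      · refine exists_cut _ ?_
        intro a x c y b h3 hx hy
        obtain ⟨ya, yr, rfl, -, h4⟩ := List.map_eq_append_iff.1 h3
        obtain ⟨u, yr', rfl, rfl, h5⟩ := List.map_eq_cons_iff.1 h4
        obtain ⟨yc, yr'', rfl, -, h6⟩ := List.map_eq_append_iff.1 h5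
        obtain ⟨u', yb, rfl, rfl, -⟩ := List.map_eq_cons_iff.1 h6
        exact c4 (f u, f u') ⟨hx, hy⟩
          (mem_E3.2 ⟨ya, u, yc, u', yb, rfl, hf' u (by simp), hf' u' (by simp)⟩)
    · rw [List.map_map]
      simp [Function.comp_def]

/-- Main result of this module. -/
theorem WFL_B {n : ℕ} {Z Z' : Th → Lang (Fin M)} (h1 : ∀ θ, Z θ ⊆ Z' θ)
    (h2 : ∀ θ θ', θ ≠ θ' → ∀ w ∈ Z' θ, w ∉ Z θ')
    (h3 : ∀ θ, Z' θ ∈ Half (B (Fin M) (n + 1)))
    (h4 : ({w | ∃ θ, w ∈ Z θ} : Lang (Fin M))ᶜ ∈ Half (B (Fin M) (n + 1))) :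
    WFL Z ∈ B (Fin (M + 1)) (n + 2) := by
  have e : WFL Z = {w | ∃ ys : List (List (Fin M)), w = wd ys} ∩ ({[Fin.last M]}ᶜ ∩
      ((E1 ({w | ∃ θ, w ∈ Z θ} : Lang (Fin M))ᶜ)ᶜ ∩
      ({w | ∀ q : Th × Th, w ∈ {w | ¬ Adj q.1 q.2 → w ∉ E2 (Z' q.1) (Z' q.2)}} ∩
      ({w | ∀ q : Th × Th, w ∈ {w | (IsS' q.1 ∧ IsS q.2) → w ∉ E3 (Z' q.1) (Z' q.2)}} ∩
      {w | ∀ θ : Th, w ∈ {w | ¬ IsS θ → w ∉ E4 (Z' θ)}})))) := by
    ext w
    exact mem_iff h1 h2 w
  have hn : 1 ≤ n + 1 := by omega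
  rw [e]
  refine B_inter (B_mono (by omega) SQ_B) (B_inter (B_compl (finite_mem_B (Set.finite_singleton _) _))
    (B_inter (B_compl (E1_B hn h4)) (B_inter ?_ (B_inter ?_ ?_))))
  · exact B_all fun q => B_imp_not (E2_B hn (h3 _) (h3 _))
  · exact B_all fun q => B_imp_not (E3_B hn (h3 _) (h3 _))
  · exact B_all fun θ => B_imp_not (E4_B hn (h3 _))

end Pool.Agent.HSP
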