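import Pool.Agent.HSP.RejP

/-!
# HSP-RejA: rejected words contain an error
-/

namespace Pool.Agent.HSP

open Pool.Agent.DD Pool.Agent.HLV

variable {A P S : Type}

/-- the longest prefix all of whose tokens satisfy `p` -/
private theorem ra_split {N : ℕ} (G : Alph A P N S) (p : Tok A P → Prop) (y : List S) :
    ∃ v x, y = v ++ x ∧ v ∈ all G p ∧ (x = [] ∨ ∃ r x', x = r :: x' ∧ ¬ p (G.tk r)) := by
  induction y with
  | nil => exact ⟨[], [], rfl, fun s hs => absurd hs List.not_mem_nil, Or.inl rfl⟩
  | cons r y ih =>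
    by_cases hr : p (G.tk r)
    · obtain ⟨v, x, hy, hv, hx⟩ := ih
      refine ⟨r :: v, x, by rw [hy, List.cons_append], ?_, hx⟩
      intro s hs
      rcases List.mem_cons.1 hs with hs | hs
      · rw [hs]
        exact hr
      · exact hv s hs
    · exact ⟨[], r :: y, rfl, fun s hs => absurd hs List.not_mem_nil, Or.inr ⟨r, y, rfl, hr⟩⟩

private theorem ra_cons {N : ℕ} (G : Alph A P N S) (U : Aut A) (V : Dfa P) (x : St) (r : S)
    (y : List S) : runT G U V x (r :: y) = runT G U V (step U V N x (G.tk r)) y := rfl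

private theorem ra_fr {N : ℕ} (G : Alph A P N S) (U : Aut A) (V : Dfa P) (v : List S)
    (hv : v ∈ all G IsFr) : ∀ q l, l + v.length ≤ N + 1 →
      runT G U V (.free q l) v = .free (U.run q (frs G v)) (l + v.length) := by
  induction v with
  | nil => exact fun q l _ => rfl
  | cons r v ih =>
    intro q l hl
    rw [List.length_cons] at hl
    have hr : IsFr (G.tk r) := hv r List.mem_cons_self
    have hv' : v ∈ all G IsFr := fun s hs => hv s (List.mem_cons_of_mem _ hs)
    rw [ra_cons]
    cases ht : G.tk r with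
    | lp w l => rw [ht] at hr; exact hr.elim
    | dl => rw [ht] at hr; exact hr.elim
    | fl p => rw [ht] at hr; exact hr.elim
    | fr a =>
      have h1 : step U V N (.free q l) (.fr a) = .free (U.δ q a) (l + 1) := if_pos (by omega)
      have h2 : frs G (r :: v) = a :: frs G v := by
        unfold frs
        rw [List.filterMap_cons, ht]
        rfl
      rw [h1, ih hv' _ _ (by omega), h2, List.length_cons]
      have h3 : l + 1 + v.length = l + (v.length + 1) := by omega
      rw [h3]
      rfl

private theorem ra_fl {N : ℕ} (G : Alph A P N S) (U : Aut A) (V : Dfa P) (v : List S)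
    (hv : v ∈ all G IsFl) : ∀ s d, runT G U V (.fin s d) v = .fin s (V.run d (pls G v)) := by
  induction v with
  | nil => exact fun s d => rfl
  | cons r v ih =>
    intro s d
    have hr : IsFl (G.tk r) := hv r List.mem_cons_self
    have hv' : v ∈ all G IsFl := fun s hs => hv s (List.mem_cons_of_mem _ hs)
    rw [ra_cons]
    cases ht : G.tk r with
    | lp w l => rw [ht] at hr; exact hr.elim
    | dl => rw [ht] at hr; exact hr.elim
    | fr a => rw [ht] at hr; exact hr.elim
    | fl p =>
      have h1 : step U V N (.fin s d) (.fl p) = .fin s (V.δ d p) := rfl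
      have h2 : pls G (r :: v) = p :: pls G v := by
        unfold pls
        rw [List.filterMap_cons, ht]
        rfl
      rw [h1, ih hv' _ _, h2]
      rfl

private theorem ra_ferr {N : ℕ} (G : Alph A P N S) (U : Aut A) (V : Dfa P) (s : ℕ) (x : List S)
    (h : ¬ Acc U V (runT G U V (.fin s 0) x)) : x ∈ FErr G U V s := by
  obtain ⟨v, x', hx, hv, hx'⟩ := ra_split G IsFl x
  rcases hx' with hx' | ⟨r, z, hx', hr⟩
  · rw [hx', List.append_nil] at hx
    subst hx
    refine Or.inr ⟨hv, ?_⟩
    rw [ra_fl G U V x hv] at h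
    exact Bool.eq_false_iff.2 h
  · refine Or.inl ⟨v, hv, [r] ++ z, ⟨[r], ⟨r, hr, rfl⟩, z, Set.mem_univ z, rfl⟩, ?_⟩
    rw [hx, hx']
    rfl

private theorem ra_gam {N : ℕ} (G : Alph A P N S) (U : Aut A) (V : Dfa P) {s : ℕ} {r c : S}
    {g : List S} (hr : IsOp (G.tk r)) (hg : g ∈ cat (hotB G V s U.b) (all G IsPl))
    (hc : IsCl (G.tk c)) : r :: (g ++ [c]) ∈ Gam G U V s := by
  obtain ⟨g1, h1, g2, h2, rfl⟩ := hg
  refine ⟨[r], ⟨r, hr, rfl⟩, g1 ++ (g2 ++ [c]), ⟨g1, h1, g2 ++ [c], ⟨g2, h2, [c], ⟨c, hc, rfl⟩,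
    rfl⟩, rfl⟩, ?_⟩
  simp

private theorem ra_main {N : ℕ} (G : Alph A P N S) (U : Aut A) (V : Dfa P) (n : ℕ) :
    ∀ q, q < U.b → ∀ y : List S, y.length = n → y ∈ Rej G U V q →
    y ∈ Err G U V q ∨ ∃ q' < U.b, y ∈ cat Set.univ (cat (Gam G U V q') (Err G U V q')) := by
  induction n using Nat.strong_induction_on with
  | _ n ih =>
    intro q hq y hn h
    obtain ⟨v, x, hy, hv, hx⟩ := ra_split G IsFr y
    by_cases hlen : N + 2 ≤ v.length
    · refine Or.inl (Or.inr (Or.inl ⟨v.take (N + 2), v.drop (N + 2) ++ x, ?_, ?_, ?_⟩))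
      · rw [← List.append_assoc, List.take_append_drop, hy]
      · exact fun s hs => hv s (List.mem_of_mem_take hs)
      · rw [List.length_take]
        omega
    have hlen' : v.length ≤ N + 1 := by omega
    rcases hx with hx | ⟨r, x', hx, hr⟩
    · rw [hx, List.append_nil] at hy
      rw [hy]
      exact Or.inl (Or.inl hv)
    have hs := run_lt U hq (frs G v)
    have hrun : ¬ Acc U V (runT G U V (step U V N (.free (U.run q (frs G v)) (0 + v.length)) (G.tk r)) x') := by
      have h1 : ¬ Acc U V (runT G U V (.free q 0) y) := h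
      rw [hy, hx, runT_append, ra_fr G U V v hv q 0 (by omega), ra_cons] at h1
      exact h1
    by_cases hdl : IsDl (G.tk r)
    · refine Or.inl (Or.inr (Or.inr (Or.inr (Or.inr ⟨v, r, x', by rw [hy, hx], hv, hlen', hdl, ?_⟩))))
      apply ra_ferr
      have ht : G.tk r = .dl := by
        cases ht : G.tk r with
        | lp w l => rw [ht] at hdl; exact hdl.elim
        | dl => rfl
        | fl p => rw [ht] at hdl; exact hdl.elim
        | fr a => rw [ht] at hdl; exact hdl.elim
      rw [ht] at hrun
      exact hrun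
    by_cases hop : ∃ w, G.tk r = .lp w .op ∧ U.run (U.run q (frs G v)) w = U.run q (frs G v)
    · obtain ⟨w, hw, hw2⟩ := hop
      have hopr : IsOp (G.tk r) := by
        rw [hw]
        trivial
      rw [hw] at hrun
      have hst : step U V N (.free (U.run q (frs G v)) (0 + v.length)) (.lp w .op) =
          .pad (U.run q (frs G v)) 0 0 := if_pos hw2
      rw [hst] at hrun
      rcases pad_phase G U V hrun with h1 | ⟨g, c, y', hx', hg, hc, hy'⟩
      · exact Or.inl (Or.inr (Or.inr (Or.inr (Or.inl ⟨v, r, x', by rw [hy, hx], hv, hlen', hopr, h1⟩))))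
      · have hlt : y'.length < n := by
          rw [← hn, hy, hx, hx']
          simp only [List.length_append, List.length_cons]
          omega
        have hgam := ra_gam G U V hopr hg hc
        rcases ih y'.length hlt _ hs y' rfl hy' with h1 | ⟨q', hq', a, -, b, hb, hab⟩
        · refine Or.inr ⟨_, hs, v, Set.mem_univ v, (r :: (g ++ [c])) ++ y', ⟨_, hgam, y', h1, rfl⟩, ?_⟩
          rw [hy, hx, hx']
          simp
        · refine Or.inr ⟨q', hq', v ++ ((r :: (g ++ [c])) ++ a), Set.mem_univ _, b, hb, ?_⟩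
          rw [hy, hx, hx', hab]
          simp
    · exact Or.inl (Or.inr (Or.inr (Or.inl ⟨v, r, x', by rw [hy, hx], hv, hlen', hr, hdl, hop⟩)))

/-- Main result of this module. -/
theorem rej_sub {N : ℕ} (G : Alph A P N S) (U : Aut A) (V : Dfa P) {q : ℕ} (hq : q < U.b)
    {y : List S} (h : y ∈ Rej G U V q) :
    y ∈ Err G U V q ∨ ∃ q' < U.b, y ∈ cat Set.univ (cat (Gam G U V q') (Err G U V q')) :=
  ra_main G U V y.length q hq y rfl h

end Pool.Agent.HSP
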