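import Pool.Agent.HSP.Pad

/-!
# HSP-RejP: the errors inside a pad

Plan.  `pad_phase`: generalize to: let `g` be a word with `g ∈ cat (hotB G V s j) {x | x ∈ all G IsPl ∧
V.run 0 (pls G x) = d}`, `j ≤ U.b`, and suppose that `z` is rejected from `pad s j d`; then
`g ++ z ∈ PErr` or `g ++ z = g' ++ c :: y` as in the statement.  Induction on `z` (all `g, j, d`); the case
`g = []`, `j = d = 0` is the statement.  All tokens of `g` are `pl` or `hs`.
* `z = []`: last clause of `PErr`.
* `z = r :: z'`, token `lp w l` with `U.run s w = s`: `l = pl p`: induction with `g ++ [r]`,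
  `pad s j (V.δ d p)`; `l = hs`: if `j < U.b` and `V.acc d = decide (j = s)`: induction with `g ++ [r]` in
  `hotB (j + 1)` and the empty block, `pad s (j + 1) 0`; if `j < U.b` and `V.acc d ≠ decide (j = s)`: second
  clause (`hotB j ⊆ anyB j`); if `j = U.b`: third clause.  `l = cl`: if `j = U.b` the second alternative,
  if `j < U.b` the fourth clause.  `l = op`: first clause.
* all other tokens: first clause.
`perr_rej`: the state after a word of `anyB G j` from `pad s 0 0` is `pad s j 0` or `dead` (induction on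
`j`), after a word of tokens `pl`, `hs` it is some `pad s j' d'` or `dead`, a word `x ∈ all G IsPl` leads from
`pad s j d` to `pad s j (V.run d (pls G x))` or `dead`; from `dead` always `dead`.  So each clause of `PErr`
leads to `dead` or stays in a pad.
-/

namespace Pool.Agent.HSP

open Pool.Agent.DD Pool.Agent.HLV

variable {A P S : Type}

private theorem step_dead {N : ℕ} (U : Aut A) (V : Dfa P) (t : Tok A P) : step U V N .dead t = .dead := by
  cases t <;> rfl

private theorem runT_cons {N : ℕ} (G : Alph A P N S) (U : Aut A) (V : Dfa P) (x : St) (r : S) (y : List S) :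
    runT G U V x (r :: y) = runT G U V (step U V N x (G.tk r)) y := rfl

theorem runT_dead {N : ℕ} (G : Alph A P N S) (U : Aut A) (V : Dfa P) (y : List S) :
    runT G U V .dead y = .dead := by
  induction y with
  | nil => rfl
  | cons r y ih => rw [runT_cons, step_dead, ih]

private theorem step_pl {N : ℕ} (U : Aut A) (V : Dfa P) (s j d : ℕ) (w : List A) (p : P) :
    step U V N (.pad s j d) (.lp w (.pl p)) = if U.run s w = s then .pad s j (V.δ d p) else .dead := rfl

private theorem step_hs {N : ℕ} (U : Aut A) (V : Dfa P) (s j d : ℕ) (w : List A) :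
    step U V N (.pad s j d) (.lp w .hs) =
      if U.run s w = s ∧ j < U.b ∧ V.acc d = decide (j = s) then .pad s (j + 1) 0 else .dead := rfl

private theorem step_cl {N : ℕ} (U : Aut A) (V : Dfa P) (s j d : ℕ) (w : List A) :
    step U V N (.pad s j d) (.lp w .cl) = if U.run s w = s ∧ j = U.b then .free s 0 else .dead := rfl

private theorem step_bad {N : ℕ} (U : Aut A) (V : Dfa P) (s j d : ℕ) (t : Tok A P)
    (h : ¬ ∃ w l, t = .lp w l ∧ l ≠ .op ∧ U.run s w = s) : step U V N (.pad s j d) t = .dead := by
  cases t with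
  | fr a => rfl
  | dl => rfl
  | fl p => rfl
  | lp w l =>
    cases l with
    | op => rfl
    | pl p =>
      rw [step_pl, if_neg]
      exact fun hw => h ⟨w, _, rfl, by simp, hw⟩
    | hs =>
      rw [step_hs, if_neg]
      exact fun hw => h ⟨w, _, rfl, by simp, hw.1⟩
    | cl =>
      rw [step_cl, if_neg]
      exact fun hw => h ⟨w, _, rfl, by simp, hw.1⟩

private theorem all_append {N : ℕ} (G : Alph A P N S) {p : Tok A P → Prop} {x y : List S}
    (hx : x ∈ all G p) (hy : y ∈ all G p) : x ++ y ∈ all G p := by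
  intro s hs
  rcases List.mem_append.1 hs with hs | hs
  · exact hx s hs
  · exact hy s hs

private theorem all_mono {N : ℕ} (G : Alph A P N S) {p q : Tok A P → Prop} (h : ∀ t, p t → q t)
    {x : List S} (hx : x ∈ all G p) : x ∈ all G q := fun s hs => h _ (hx s hs)

private theorem one_all {N : ℕ} (G : Alph A P N S) {p : Tok A P → Prop} {x : List S}
    (hx : x ∈ one G p) : x ∈ all G p := by
  obtain ⟨r, hr, rfl⟩ := hx
  intro s hs
  rw [List.mem_singleton.1 hs]
  exact hr

private theorem hotB_anyB {N : ℕ} (G : Alph A P N S) (V : Dfa P) (s j : ℕ) {x : List S}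
    (h : x ∈ hotB G V s j) : x ∈ anyB G j := by
  induction j generalizing x with
  | zero => exact h
  | succ j ih =>
    obtain ⟨x1, h1, y, ⟨b, hb, c, hc, rfl⟩, rfl⟩ := h
    exact ⟨x1, ih h1, _, ⟨b, hb.1, c, hc, rfl⟩, rfl⟩

private theorem anyB_all {N : ℕ} (G : Alph A P N S) (j : ℕ) {x : List S}
    (h : x ∈ anyB G j) : x ∈ all G fun t => IsPl t ∨ IsHs t := by
  induction j generalizing x with
  | zero =>
    intro r hr
    have h1 : x = [] := h
    rw [h1] at hr
    exact absurd hr List.not_mem_nil
  | succ j ih =>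
    obtain ⟨x1, h1, y, ⟨b, hb, c, hc, rfl⟩, rfl⟩ := h
    exact all_append G (ih h1) (all_append G (all_mono G (fun _ h => Or.inl h) hb)
      (all_mono G (fun _ h => Or.inr h) (one_all G hc)))

private theorem pls_append {N : ℕ} (G : Alph A P N S) (x y : List S) :
    pls G (x ++ y) = pls G x ++ pls G y := List.filterMap_append

private theorem gen {N : ℕ} (G : Alph A P N S) (U : Aut A) (V : Dfa P) (s : ℕ) (z : List S) :
    ∀ (g : List S) (j d : ℕ),
      g ∈ cat (hotB G V s j) {x | x ∈ all G IsPl ∧ V.run 0 (pls G x) = d} → j ≤ U.b →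
      ¬ Acc U V (runT G U V (.pad s j d) z) →
      g ++ z ∈ PErr G U V s ∨ ∃ g' c y, g ++ z = g' ++ c :: y ∧
        g' ∈ cat (hotB G V s U.b) (all G IsPl) ∧ IsCl (G.tk c) ∧ y ∈ Rej G U V s := by
  induction z with
  | nil =>
    rintro g j d ⟨g1, hg1, x, ⟨hx, hd⟩, rfl⟩ hj hacc
    refine Or.inl (Or.inr (Or.inr (Or.inr (Or.inr ?_))))
    rw [List.append_nil]
    exact all_append G (anyB_all G j (hotB_anyB G V s j hg1)) (all_mono G (fun _ h => Or.inl h) hx)
  | cons r z ih =>
    rintro g j d ⟨g1, hg1, x, ⟨hx, hd⟩, rfl⟩ hj hacc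
    have hall : g1 ++ x ∈ all G fun t => IsPl t ∨ IsHs t :=
      all_append G (anyB_all G j (hotB_anyB G V s j hg1)) (all_mono G (fun _ h => Or.inl h) hx)
    rw [runT_cons] at hacc
    by_cases hex : ∃ w l, G.tk r = .lp w l ∧ l ≠ .op ∧ U.run s w = s
    · obtain ⟨w, l, ht, hl, hw⟩ := hex
      rw [ht] at hacc
      cases l with
      | op => exact absurd rfl hl
      | pl p =>
        rw [step_pl, if_pos hw] at hacc
        have hpl : IsPl (G.tk r) := by
          rw [ht]
          trivial
        have hplr : pls G [r] = [p] := by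
          unfold pls
          rw [List.filterMap_cons, ht]
          rfl
        have h1 := ih (g1 ++ (x ++ [r])) j (V.δ d p) ⟨g1, hg1, x ++ [r], ⟨all_append G hx
          (one_all G ⟨r, hpl, rfl⟩), by
            rw [pls_append, hplr]
            unfold Dfa.run at hd ⊢
            rw [List.foldl_append, hd]
            rfl⟩, rfl⟩ hj hacc
        have h2 : g1 ++ (x ++ [r]) ++ z = g1 ++ x ++ r :: z := by simp
        rw [h2] at h1
        exact h1
      | hs =>
        have hhs : IsHs (G.tk r) := by
          rw [ht]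
          trivial
        rw [step_hs] at hacc
        by_cases hjb : j < U.b
        · by_cases hd2 : V.acc d = decide (j = s)
          · rw [if_pos ⟨hw, hjb, hd2⟩] at hacc
            have h1 := ih (g1 ++ (x ++ [r]) ++ []) (j + 1) 0 ⟨g1 ++ (x ++ [r]), ⟨g1, hg1, x ++ [r],
              ⟨x, ⟨hx, by rw [hd]; exact hd2⟩, [r], ⟨r, hhs, rfl⟩, rfl⟩, rfl⟩, [],
              ⟨fun q hq => absurd hq List.not_mem_nil, rfl⟩, rfl⟩ hjb hacc
            have h2 : g1 ++ (x ++ [r]) ++ [] ++ z = g1 ++ x ++ r :: z := by simp
            rw [h2] at h1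
            exact h1
          · refine Or.inl (Or.inr (Or.inl ⟨j, hjb, g1, hotB_anyB G V s j hg1, x ++ ([r] ++ z), ?_, ?_⟩))
            · refine ⟨x, ⟨hx, ?_⟩, [r] ++ z, ⟨[r], ⟨r, hhs, rfl⟩, z, Set.mem_univ z, rfl⟩, rfl⟩
              rw [hd]
              cases h3 : V.acc d <;> cases h4 : decide (j = s)
              · exact absurd (h3.trans h4.symm) hd2
              · rfl
              · rfl
              · exact absurd (h3.trans h4.symm) hd2
            · simp
        · have hjb2 : j = U.b := by omega
          rw [hjb2] at hg1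
          refine Or.inl (Or.inr (Or.inr (Or.inl ⟨g1, hotB_anyB G V s U.b hg1, x ++ ([r] ++ z), ?_, ?_⟩)))
          · exact ⟨x, hx, [r] ++ z, ⟨[r], ⟨r, hhs, rfl⟩, z, Set.mem_univ z, rfl⟩, rfl⟩
          · simp
      | cl =>
        have hcl : IsCl (G.tk r) := by
          rw [ht]
          trivial
        rw [step_cl] at hacc
        by_cases hjb : j = U.b
        · rw [if_pos ⟨hw, hjb⟩] at hacc
          rw [hjb] at hg1
          exact Or.inr ⟨g1 ++ x, r, z, rfl, ⟨g1, hg1, x, hx, rfl⟩, hcl, hacc⟩
        · have hjb2 : j < U.b := by omega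
          refine Or.inl (Or.inr (Or.inr (Or.inr (Or.inl
            ⟨j, hjb2, g1, hotB_anyB G V s j hg1, x ++ ([r] ++ z), ?_, ?_⟩))))
          · exact ⟨x, hx, [r] ++ z, ⟨[r], ⟨r, hcl, rfl⟩, z, Set.mem_univ z, rfl⟩, rfl⟩
          · simp
    · exact Or.inl (Or.inl ⟨g1 ++ x, hall, [r] ++ z, ⟨[r], ⟨r, hex, rfl⟩, z, Set.mem_univ z, rfl⟩, rfl⟩)

/-- Main result 1. -/
theorem pad_phase {N : ℕ} (G : Alph A P N S) (U : Aut A) (V : Dfa P) {s : ℕ} {z : List S}
    (h : ¬ Acc U V (runT G U V (.pad s 0 0) z)) :
    z ∈ PErr G U V s ∨ ∃ g c y, z = g ++ c :: y ∧ g ∈ cat (hotB G V s U.b) (all G IsPl) ∧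
      IsCl (G.tk c) ∧ y ∈ Rej G U V s := by
  exact gen G U V s z [] 0 0 ⟨[], rfl, [], ⟨fun q hq => absurd hq List.not_mem_nil, rfl⟩, rfl⟩
    (Nat.zero_le _) h

private theorem run_pl {N : ℕ} (G : Alph A P N S) (U : Aut A) (V : Dfa P) (s j : ℕ) {x : List S}
    (hx : x ∈ all G IsPl) : ∀ d, runT G U V (.pad s j d) x = .pad s j (V.run d (pls G x)) ∨
      runT G U V (.pad s j d) x = .dead := by
  induction x with
  | nil => exact fun d => Or.inl rfl
  | cons r x ih =>
    intro d
    have hr : IsPl (G.tk r) := hx r List.mem_cons_self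
    have hx' : x ∈ all G IsPl := fun q hq => hx q (List.mem_cons_of_mem _ hq)
    rw [runT_cons]
    have hp : pls G (r :: x) = pls G [r] ++ pls G x := pls_append G [r] x
    cases ht : G.tk r with
    | fr a => rw [ht] at hr; exact hr.elim
    | dl => rw [ht] at hr; exact hr.elim
    | fl p => rw [ht] at hr; exact hr.elim
    | lp w l =>
      cases l with
      | op => rw [ht] at hr; exact hr.elim
      | hs => rw [ht] at hr; exact hr.elim
      | cl => rw [ht] at hr; exact hr.elim
      | pl p =>
        have hplr : pls G [r] = [p] := by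
          unfold pls
          rw [List.filterMap_cons, ht]
          rfl
        rw [step_pl]
        by_cases hw : U.run s w = s
        · rw [if_pos hw, hp, hplr]
          exact ih hx' (V.δ d p)
        · rw [if_neg hw]
          exact Or.inr (runT_dead G U V x)

private theorem run_any {N : ℕ} (G : Alph A P N S) (U : Aut A) (V : Dfa P) (s j : ℕ) {x : List S}
    (hx : x ∈ anyB G j) : runT G U V (.pad s 0 0) x = .pad s j 0 ∨
      runT G U V (.pad s 0 0) x = .dead := by
  induction j generalizing x with
  | zero =>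
    have h1 : x = [] := hx
    rw [h1]
    exact Or.inl rfl
  | succ j ih =>
    obtain ⟨x1, h1, y, ⟨b, hb, c, ⟨r, hr, rfl⟩, rfl⟩, rfl⟩ := hx
    rw [runT_append, runT_append]
    rcases ih h1 with h2 | h2
    · rw [h2]
      rcases run_pl G U V s j hb 0 with h3 | h3
      · rw [h3, runT_cons]
        cases ht : G.tk r with
        | fr a => rw [ht] at hr; exact hr.elim
        | dl => rw [ht] at hr; exact hr.elim
        | fl p => rw [ht] at hr; exact hr.elim
        | lp w l =>
          cases l with
          | op => rw [ht] at hr; exact hr.elim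
          | pl p => rw [ht] at hr; exact hr.elim
          | cl => rw [ht] at hr; exact hr.elim
          | hs =>
            rw [step_hs]
            split_ifs
            · exact Or.inl rfl
            · exact Or.inr rfl
      · rw [h3]
        exact Or.inr (runT_dead G U V _)
    · rw [h2, runT_dead, runT_dead]
      exact Or.inr rfl

private theorem run_ph {N : ℕ} (G : Alph A P N S) (U : Aut A) (V : Dfa P) (s : ℕ) {x : List S}
    (hx : x ∈ all G fun t => IsPl t ∨ IsHs t) : ∀ j d, (∃ j' d', runT G U V (.pad s j d) x = .pad s j' d') ∨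
      runT G U V (.pad s j d) x = .dead := by
  induction x with
  | nil => exact fun j d => Or.inl ⟨j, d, rfl⟩
  | cons r x ih =>
    intro j d
    have hr : IsPl (G.tk r) ∨ IsHs (G.tk r) := hx r List.mem_cons_self
    have hx' : x ∈ all G fun t => IsPl t ∨ IsHs t := fun q hq => hx q (List.mem_cons_of_mem _ hq)
    rw [runT_cons]
    cases ht : G.tk r with
    | fr a => rw [ht] at hr; exact (hr.elim id id).elim
    | dl => rw [ht] at hr; exact (hr.elim id id).elim
    | fl p => rw [ht] at hr; exact (hr.elim id id).elim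
    | lp w l =>
      cases l with
      | op => rw [ht] at hr; exact (hr.elim id id).elim
      | cl => rw [ht] at hr; exact (hr.elim id id).elim
      | pl p =>
        rw [step_pl]
        by_cases hw : U.run s w = s
        · rw [if_pos hw]
          exact ih hx' _ _
        · rw [if_neg hw]
          exact Or.inr (runT_dead G U V x)
      | hs =>
        rw [step_hs]
        by_cases hw : U.run s w = s ∧ j < U.b ∧ V.acc d = decide (j = s)
        · rw [if_pos hw]
          exact ih hx' _ _
        · rw [if_neg hw]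
          exact Or.inr (runT_dead G U V x)

private theorem not_acc_dead (U : Aut A) (V : Dfa P) : ¬ Acc U V .dead := fun h => h

private theorem hs_of {t : Tok A P} (h : IsHs t) : ∃ w, t = .lp w .hs := by
  cases t with
  | fr a => exact h.elim
  | dl => exact h.elim
  | fl p => exact h.elim
  | lp w l =>
    cases l with
    | op => exact h.elim
    | pl p => exact h.elim
    | cl => exact h.elim
    | hs => exact ⟨w, rfl⟩

private theorem cl_of {t : Tok A P} (h : IsCl t) : ∃ w, t = .lp w .cl := by
  cases t with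
  | fr a => exact h.elim
  | dl => exact h.elim
  | fl p => exact h.elim
  | lp w l =>
    cases l with
    | op => exact h.elim
    | pl p => exact h.elim
    | hs => exact h.elim
    | cl => exact ⟨w, rfl⟩

/-- Main result 2. -/
theorem perr_rej {N : ℕ} (G : Alph A P N S) (U : Aut A) (V : Dfa P) {s : ℕ} {z : List S}
    (h : z ∈ PErr G U V s) : ¬ Acc U V (runT G U V (.pad s 0 0) z) := by
  rcases h with h | h | h | h | h
  · obtain ⟨x, hx, y, ⟨c, ⟨r, hr, rfl⟩, z', -, rfl⟩, rfl⟩ := h
    rw [runT_append, runT_append]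
    rcases run_ph G U V s hx 0 0 with ⟨j', d', h1⟩ | h1
    · rw [h1, runT_cons, step_bad U V s j' d' _ hr, runT_dead, runT_dead]
      exact not_acc_dead U V
    · rw [h1, runT_dead, runT_dead]
      exact not_acc_dead U V
  · obtain ⟨j, hj, x, hx, y, ⟨b, ⟨hb, hb2⟩, c, ⟨e, ⟨r, hr, rfl⟩, z', -, rfl⟩, rfl⟩, rfl⟩ := h
    rw [runT_append, runT_append, runT_append]
    rcases run_any G U V s j hx with h1 | h1
    · rw [h1]
      rcases run_pl G U V s j hb 0 with h2 | h2
      · obtain ⟨w, hw⟩ := hs_of hr
        rw [h2, runT_cons, hw, step_hs, if_neg, runT_dead, runT_dead]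
        · exact not_acc_dead U V
        · rintro ⟨-, -, h3⟩
          rw [h3] at hb2
          cases h4 : decide (j = s) <;> rw [h4] at hb2 <;> exact absurd hb2 (by decide)
      · rw [h2, runT_dead, runT_dead]
        exact not_acc_dead U V
    · rw [h1, runT_dead, runT_dead, runT_dead]
      exact not_acc_dead U V
  · obtain ⟨x, hx, y, ⟨b, hb, c, ⟨e, ⟨r, hr, rfl⟩, z', -, rfl⟩, rfl⟩, rfl⟩ := h
    rw [runT_append, runT_append, runT_append]
    rcases run_any G U V s U.b hx with h1 | h1
    · rw [h1]
      rcases run_pl G U V s U.b hb 0 with h2 | h2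
      · obtain ⟨w, hw⟩ := hs_of hr
        rw [h2, runT_cons, hw, step_hs, if_neg, runT_dead, runT_dead]
        · exact not_acc_dead U V
        · rintro ⟨-, h3, -⟩
          exact lt_irrefl _ h3
      · rw [h2, runT_dead, runT_dead]
        exact not_acc_dead U V
    · rw [h1, runT_dead, runT_dead, runT_dead]
      exact not_acc_dead U V
  · obtain ⟨j, hj, x, hx, y, ⟨b, hb, c, ⟨e, ⟨r, hr, rfl⟩, z', -, rfl⟩, rfl⟩, rfl⟩ := h
    rw [runT_append, runT_append, runT_append]
    rcases run_any G U V s j hx with h1 | h1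
    · rw [h1]
      rcases run_pl G U V s j hb 0 with h2 | h2
      · obtain ⟨w, hw⟩ := cl_of hr
        rw [h2, runT_cons, hw, step_cl, if_neg, runT_dead, runT_dead]
        · exact not_acc_dead U V
        · rintro ⟨-, h3⟩
          omega
      · rw [h2, runT_dead, runT_dead]
        exact not_acc_dead U V
    · rw [h1, runT_dead, runT_dead, runT_dead]
      exact not_acc_dead U V
  · rcases run_ph G U V s h 0 0 with ⟨j', d', h1⟩ | h1
    · rw [h1]
      exact fun h2 => h2
    · rw [h1]
      exact not_acc_dead U V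

end Pool.Agent.HSP
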