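import Pool.Agent.HSP.Defs
import Pool.Agent.HLV.Dir
import Pool.Agent.HLV.Cw
import Pool.Agent.HLV.Rng

/-!
# HSP-Seq: sequences of blocks are in level one
-/

namespace Pool.Agent.HSP

open Pool.Agent.DD Pool.Agent.HLV

private theorem sq_cut (m : ℕ) (x : List (Option (Fin (m + 2)))) :
    ∃ (y : List (Fin (m + 2))) (ys : List (List (Fin (m + 2)))), blk m (y :: ys) = none :: x := by
  induction x with
  | nil => exact ⟨[], [], rfl⟩
  | cons a x ih =>
    obtain ⟨y, ys, h⟩ := ih
    cases a with
    | none =>
      refine ⟨[], y :: ys, ?_⟩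
      have h1 : blk m ([] :: y :: ys) = none :: blk m (y :: ys) := rfl
      rw [h1, h]
    | some b =>
      refine ⟨b :: y, ys, ?_⟩
      have h1 : blk m ((b :: y) :: ys) = none :: some b :: (y.map some ++ blk m ys) := rfl
      have h2 : blk m (y :: ys) = none :: (y.map some ++ blk m ys) := rfl
      rw [h2] at h
      rw [h1, (List.cons.inj h).2]

private theorem sq_ext (m : ℕ) (ys : List (List (Fin (m + 2)))) :
    blocks m ys ++ HLV.hash m = ext (chi m) (blk m ys ++ [none]) := by
  rw [ext_append, blocks_eq, ext_cons, ext_nil, List.append_nil]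
  rfl

/-- Main result of this module. -/
theorem SEQ_B (m : ℕ) : SEQ m ∈ B (Fin (m + 2)) 1 := by
  have hN : ({[none]} : Lang (Option (Fin (m + 2)))) ∈ B (Option (Fin (m + 2))) 0 :=
    Or.inl (Set.finite_singleton _)
  have h1 : (cat {[none]} (cat Set.univ {[none]}) : Lang (Option (Fin (m + 2)))) ∈
      B (Option (Fin (m + 2))) 1 := by
    refine MonCl_sub_B (i := 0) (Or.inr ⟨{[none]}, hN, [Set.univ, {[none]}], ?_, rfl⟩)
    intro K hK
    simp only [List.mem_cons, List.not_mem_nil, or_false] at hK
    rcases hK with rfl | rfl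
    · exact univ_mem_B 0
    · exact hN
  have h2 := img_B (good_chi m) (le_refl 1) (B_union (B_succ hN) h1)
  have h3 : SEQ m = img (chi m) ({[none]} ∪ cat {[none]} (cat Set.univ {[none]})) := by
    ext w
    constructor
    · rintro ⟨ys, rfl⟩
      refine ⟨blk m ys ++ [none], ?_, sq_ext m ys⟩
      cases ys with
      | nil => exact Or.inl rfl
      | cons y ys =>
        refine Or.inr ⟨[none], rfl, (y.map some ++ blk m ys) ++ [none],
          ⟨y.map some ++ blk m ys, trivial, [none], rfl, rfl⟩, ?_⟩
        have h4 : blk m (y :: ys) = none :: (y.map some ++ blk m ys) := rfl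
        rw [h4]
        rfl
    · rintro ⟨v, hv, rfl⟩
      rcases hv with hv | ⟨a, ha, b, ⟨x, _, c, hc, rfl⟩, rfl⟩
      · refine ⟨[], ?_⟩
        rw [sq_ext]
        have h4 : v = [none] := hv
        rw [h4]
        rfl
      · obtain ⟨y, ys, h⟩ := sq_cut m x
        refine ⟨y :: ys, ?_⟩
        rw [sq_ext, h]
        have h4 : a = [none] := ha
        have h5 : c = [none] := hc
        rw [h4, h5]
        rfl
  rw [h3]
  exact h2

end Pool.Agent.HSP
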