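import Pool.Agent.HSP.Pad

/-!
# HSP-Snd: the check is sound

Plan.  Let `ψ s = htk a₀ (G.tk s)`.  Invariant, by induction on `y` from the right (`runT_append`): if the
state after `y` is `free s l` or `pad s j d` then no token of `y` is `dl` and `s = U.run 0 (ext ψ y)` (for
the tokens `lp w _` the loop fixes `s`); if it is `fin s d` then `y = y' ++ r :: z` with `r` a `dl`, no `dl`
in `y'`, `z` and `s = U.run 0 (ext ψ y')`.
-/

namespace Pool.Agent.HSP

open Pool.Agent.DD Pool.Agent.HLV

variable {A P S : Type}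

/-- The invariant. -/
private def Inv {N : ℕ} (G : Alph A P N S) (U : Aut A) (a₀ : A) (y : List S) : St → Prop
  | .free s _ => (∀ r ∈ y, ¬ IsDl (G.tk r)) ∧ s = U.run 0 (ext (fun r => htk a₀ (G.tk r)) y)
  | .pad s _ _ => (∀ r ∈ y, ¬ IsDl (G.tk r)) ∧ s = U.run 0 (ext (fun r => htk a₀ (G.tk r)) y)
  | .fin s _ => ∃ y' r z, y = y' ++ r :: z ∧ IsDl (G.tk r) ∧ (∀ q ∈ y', ¬ IsDl (G.tk q)) ∧
      (∀ q ∈ z, ¬ IsDl (G.tk q)) ∧ s = U.run 0 (ext (fun r => htk a₀ (G.tk r)) y')
  | .dead => True

private theorem run_ext {N : ℕ} (G : Alph A P N S) (U : Aut A) (a₀ : A) (y : List S) (r : S) :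
    U.run 0 (ext (fun r => htk a₀ (G.tk r)) (y ++ [r])) =
      U.run (U.run 0 (ext (fun r => htk a₀ (G.tk r)) y)) (htk a₀ (G.tk r)) := by
  rw [ext_append, ext_cons, ext_nil, List.append_nil]
  unfold Aut.run
  rw [List.foldl_append]

private theorem inv_step {N : ℕ} (G : Alph A P N S) (U : Aut A) (V : Dfa P) (a₀ : A) (y : List S) (r : S)
    (x : St) (h : Inv G U a₀ y x) : Inv G U a₀ (y ++ [r]) (step U V N x (G.tk r)) := by
  have hmem : (∀ q ∈ y, ¬ IsDl (G.tk q)) → ¬ IsDl (G.tk r) → ∀ q ∈ y ++ [r], ¬ IsDl (G.tk q) := by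
    intro h1 h2 q hq
    rw [List.mem_append, List.mem_singleton] at hq
    rcases hq with hq | hq
    · exact h1 q hq
    · rw [hq]
      exact h2
  have hrun := run_ext G U a₀ y r
  rcases hx : x with ⟨s, l⟩ | ⟨s, j, d⟩ | ⟨s, d⟩ | _
  · rw [hx] at h
    obtain ⟨h1, h2⟩ := h
    rcases ht : G.tk r with a | ⟨w, lb⟩ | _ | p
    · rw [ht] at hrun
      show Inv G U a₀ (y ++ [r]) (if l ≤ N then .free (U.δ s a) (l + 1) else .dead)
      split_ifs
      · refine ⟨hmem h1 (by rw [ht]; exact fun h => h), ?_⟩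
        rw [hrun, ← h2]
        rfl
      · trivial
    · rcases lb with _ | p | _ | _
      · rw [ht] at hrun
        show Inv G U a₀ (y ++ [r]) (if U.run s w = s then .pad s 0 0 else .dead)
        split_ifs with hw
        · refine ⟨hmem h1 (by rw [ht]; exact fun h => h), ?_⟩
          rw [hrun, ← h2]
          exact hw.symm
        · trivial
      · trivial
      · trivial
      · trivial
    · refine ⟨y, r, [], rfl, by rw [ht]; trivial, h1, fun q hq => absurd hq List.not_mem_nil, h2⟩
    · trivial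
  · rw [hx] at h
    obtain ⟨h1, h2⟩ := h
    rcases ht : G.tk r with a | ⟨w, lb⟩ | _ | p
    · trivial
    · rcases lb with _ | p | _ | _
      · trivial
      · rw [ht] at hrun
        show Inv G U a₀ (y ++ [r]) (if U.run s w = s then .pad s j (V.δ d p) else .dead)
        split_ifs with hw
        · refine ⟨hmem h1 (by rw [ht]; exact fun h => h), ?_⟩
          rw [hrun, ← h2]
          exact hw.symm
        · trivial
      · rw [ht] at hrun
        show Inv G U a₀ (y ++ [r])
          (if U.run s w = s ∧ j < U.b ∧ V.acc d = decide (j = s) then .pad s (j + 1) 0 else .dead)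
        split_ifs with hw
        · refine ⟨hmem h1 (by rw [ht]; exact fun h => h), ?_⟩
          rw [hrun, ← h2]
          exact hw.1.symm
        · trivial
      · rw [ht] at hrun
        show Inv G U a₀ (y ++ [r]) (if U.run s w = s ∧ j = U.b then .free s 0 else .dead)
        split_ifs with hw
        · refine ⟨hmem h1 (by rw [ht]; exact fun h => h), ?_⟩
          rw [hrun, ← h2]
          exact hw.1.symm
        · trivial
    · trivial
    · trivial
  · rw [hx] at h
    rcases ht : G.tk r with a | ⟨w, lb⟩ | _ | p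
    · trivial
    · rcases lb with _ | p | _ | _ <;> trivial
    · trivial
    · obtain ⟨y', r', z, h1, h2, h3, h4, h5⟩ := h
      refine ⟨y', r', z ++ [r], ?_, h2, h3, ?_, h5⟩
      · rw [h1, List.append_assoc, List.cons_append]
      · intro q hq
        rw [List.mem_append, List.mem_singleton] at hq
        rcases hq with hq | hq
        · exact h4 q hq
        · rw [hq, ht]
          exact fun h => h
  · rcases ht : G.tk r with a | ⟨w, lb⟩ | _ | p
    · trivial
    · rcases lb with _ | p | _ | _ <;> trivial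
    · trivial
    · trivial

private theorem inv_run {N : ℕ} (G : Alph A P N S) (U : Aut A) (V : Dfa P) (a₀ : A) (y : List S) :
    Inv G U a₀ y (runT G U V (.free 0 0) y) := by
  induction y using List.reverseRecOn with
  | nil => exact ⟨fun r hr => absurd hr List.not_mem_nil, rfl⟩
  | append_singleton y r ih =>
    have h : runT G U V (.free 0 0) (y ++ [r]) = step U V N (runT G U V (.free 0 0) y) (G.tk r) := by
      unfold runT
      rw [List.foldl_append]
      rfl
    rw [h]
    exact inv_step G U V a₀ y r _ ih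

/-- Main result of this module. -/
theorem cert_sound {N : ℕ} (G : Alph A P N S) (U : Aut A) (V : Dfa P) (a₀ : A) {t : Bool}
    {x : List S} (hx : x ∈ Cert G U V t) :
    ∃ y r z, x = y ++ r :: z ∧ IsDl (G.tk r) ∧ (∀ s ∈ y, ¬ IsDl (G.tk s)) ∧
      (∀ s ∈ z, ¬ IsDl (G.tk s)) ∧ ext (fun s => htk a₀ (G.tk s)) y ∈ U.lang t := by
  obtain ⟨s, d, h1, -, h3⟩ := hx
  have h := inv_run G U V a₀ x
  rw [h1] at h
  obtain ⟨y, r, z, e1, e2, e3, e4, e5⟩ := h
  refine ⟨y, r, z, e1, e2, e3, e4, ?_⟩
  show U.F t (U.run 0 _) = true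
  rw [← e5]
  exact h3

end Pool.Agent.HSP
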