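import Pool.Agent.HSP.Defs

/-!
# HSP-Stab: stable places
-/

namespace Pool.Agent.HSP

open Pool.Agent.DD Pool.Agent.HLV

variable {A P S : Type}

theorem run_append (U : Aut A) (q : ℕ) (u v : List A) : U.run q (u ++ v) = U.run (U.run q u) v := by
  unfold Aut.run
  exact List.foldl_append

theorem run_lt (U : Aut A) {q : ℕ} (hq : q < U.b) (u : List A) : U.run q u < U.b := by
  induction u generalizing q with
  | nil => exact hq
  | cons a u ih => exact ih (U.lt q a)

theorem stab_left (U : Aut A) {N : ℕ} {x w : List A} (h : Stab U N x w) (t : List A) :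
    Stab U N (t ++ x) w := by
  obtain ⟨h1, h2, h3⟩ := h
  refine ⟨h1, h2, fun q hq => ?_⟩
  rw [List.append_assoc, run_append U q t (x ++ w), run_append U q t x, h3 _ (run_lt U hq t)]

private theorem stab_of_lt (U : Aut A) {N i i' : ℕ} {x : List A} (hx : x.length = N) (hlt : i < i')
    (hi' : i' ≤ N) (h : ∀ q, q < U.b → U.run q (x.take i) = U.run q (x.take i')) :
    ∃ x₁ x₂ w, x = x₁ ++ x₂ ∧ Stab U N x₁ w := by
  have h1 : x.take i ++ (x.take i').drop i = x.take i' := by
    have h2 := List.take_append_drop i (x.take i')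
    rwa [List.take_take, min_eq_left hlt.le] at h2
  have hlen : ((x.take i').drop i).length = i' - i := by
    rw [List.length_drop, List.length_take, hx, min_eq_left hi']
  refine ⟨x.take i, x.drop i, (x.take i').drop i, (List.take_append_drop i x).symm, ?_, ?_, ?_⟩
  · intro h2
    rw [h2, List.length_nil] at hlen
    omega
  · omega
  · intro q hq
    rw [h1, h q hq]

/-- Main result of this module. -/
theorem exists_stab (U : Aut A) {N : ℕ} (hN : U.b ^ U.b ≤ N) {x : List A} (hx : x.length = N) :
    ∃ x₁ x₂ w, x = x₁ ++ x₂ ∧ Stab U N x₁ w := by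
  obtain ⟨f, hf⟩ : ∃ f : Fin (N + 1) → (Fin U.b → Fin U.b), ∀ i q, ((f i q : Fin U.b) : ℕ) =
      U.run q (x.take i) :=
    ⟨fun i q => ⟨U.run q (x.take i), run_lt U q.2 _⟩, fun _ _ => rfl⟩
  have hcard : Fintype.card (Fin U.b → Fin U.b) < Fintype.card (Fin (N + 1)) := by
    rw [Fintype.card_fun, Fintype.card_fin, Fintype.card_fin]
    omega
  obtain ⟨i, i', hne, heq⟩ := Fintype.exists_ne_map_eq_of_card_lt f hcard
  have key : ∀ q, q < U.b → U.run q (x.take i) = U.run q (x.take i') := by
    intro q hq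
    rw [← hf i ⟨q, hq⟩, ← hf i' ⟨q, hq⟩, heq]
  have h1 := i.2
  have h2 := i'.2
  rcases lt_or_gt_of_ne hne with hlt | hlt
  · exact stab_of_lt U hx (show (i : ℕ) < i' from hlt) (by omega) key
  · exact stab_of_lt U hx (show (i' : ℕ) < i from hlt) (by omega) fun q hq => (key q hq).symm

theorem exists_loops (U : Aut A) (N : ℕ) : ∃ lw, Loops U N lw := by
  have h : ∀ c : List A, ∃ o : Option (List A), (∀ w, o = some w → Stab U N c w) ∧
      ((∃ w, Stab U N c w) → o ≠ none) := by
    intro c
    by_cases h : ∃ w, Stab U N c w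
    · obtain ⟨w, hw⟩ := h
      refine ⟨some w, ?_, fun _ => by simp⟩
      intro w' hw'
      rw [← Option.some.inj hw']
      exact hw
    · exact ⟨none, fun w hw => absurd hw (by simp), fun h' => absurd h' h⟩
  choose f hf1 hf2 using h
  exact ⟨f, hf1, hf2⟩

end Pool.Agent.HSP
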