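import Pool.Agent.HSP.Defs
import Pool.Agent.HLV.Cut

/-!
# HSP-Win: the word of windows
-/

namespace Pool.Agent.HSP

open Pool.Agent.DD Pool.Agent.HLV

variable {A P S : Type}

private theorem win_sfx_append (N : ℕ) (x u : List A) : sfx N (sfx N x ++ u) = sfx N (x ++ u) := by
  unfold sfx
  by_cases h : N ≤ x.length
  · have h1 : x.drop (x.length - N) ++ u = (x ++ u).drop (x.length - N) := by
      rw [List.drop_append_of_le_length (by omega)]
    rw [h1, List.drop_drop]
    congr 1
    simp only [List.length_drop, List.length_append]
    omega
  · have h1 : x.drop (x.length - N) = x := by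
      have : x.length - N = 0 := by omega
      rw [this, List.drop_zero]
    rw [h1]

private theorem win_c (N : ℕ) (c v : List A) : win N (sfx N c) v = win N c v := by
  cases v with
  | nil => rfl
  | cons a u =>
    have h := win_sfx_append N c [a]
    show (⟨sfx N (sfx N c ++ [a]), _⟩ : Wd A N) :: win N (sfx N (sfx N c ++ [a])) u =
      ⟨sfx N (c ++ [a]), _⟩ :: win N (sfx N (c ++ [a])) u
    simp only [h]

private theorem win_append (N : ℕ) (c u v : List A) :
    win N c (u ++ v) = win N c u ++ win N (sfx N (c ++ u)) v := by
  induction u generalizing c with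
  | nil =>
    rw [List.append_nil, win_c]
    rfl
  | cons a u ih =>
    show (⟨sfx N (c ++ [a]), _⟩ : Wd A N) :: win N (sfx N (c ++ [a])) (u ++ v) =
      (⟨sfx N (c ++ [a]), _⟩ : Wd A N) :: (win N (sfx N (c ++ [a])) u ++ win N (sfx N (c ++ a :: u)) v)
    rw [ih, win_sfx_append]
    have h : c ++ [a] ++ u = c ++ a :: u := by simp
    rw [h]

private theorem win_length (N : ℕ) (c u : List A) : (win N c u).length = u.length := by
  induction u generalizing c with
  | nil => rfl
  | cons a u ih =>
    show (win N (sfx N (c ++ [a])) u).length + 1 = u.length + 1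
    rw [ih]

private theorem sfx_pol [Finite A] (N n : ℕ) (c d : List A) :
    Pol (B A n) {u | sfx N (c ++ u) = d} := by
  have hfin : ({u | sfx N (c ++ u) = d ∧ u.length < N} : Lang A).Finite :=
    (List.finite_length_lt A N).subset fun u hu => hu.2
  have h1 : Pol (B A n) ({u | sfx N (c ++ u) = d ∧ u.length < N} : Lang A) :=
    Pol.base (finite_mem_B hfin n)
  have hs : ∀ u : List A, N ≤ u.length → sfx N (c ++ u) = u.drop (u.length - N) := by
    intro u hu
    unfold sfx
    rw [List.length_append]
    have e : c.length + u.length - N = c.length + (u.length - N) := by omega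
    rw [e, ← List.drop_drop, List.drop_left]
  by_cases hd : d.length = N
  · have h2 : Pol (B A n) (cat Set.univ {d} : Lang A) :=
      Pol.cat (Pol.base (univ_mem_B n)) (Pol.base (finite_mem_B (Set.finite_singleton d) n))
    have e : ({u | sfx N (c ++ u) = d} : Lang A) =
        {u | sfx N (c ++ u) = d ∧ u.length < N} ∪ cat Set.univ {d} := by
      ext u
      constructor
      · intro hu
        by_cases hl : u.length < N
        · exact Or.inl ⟨hu, hl⟩
        · refine Or.inr ⟨u.take (u.length - N), Set.mem_univ _, d, rfl, ?_⟩
          have h3 := hs u (by omega)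
          have h4 : sfx N (c ++ u) = d := hu
          rw [h4] at h3
          rw [h3, List.take_append_drop]
      · rintro (hu | ⟨x, _, y, hy, rfl⟩)
        · exact hu.1
        · have hy' : y = d := hy
          subst hy'
          show sfx N (c ++ (x ++ y)) = y
          rw [hs (x ++ y) (by rw [List.length_append]; omega), List.length_append]
          have e2 : x.length + y.length - N = x.length := by omega
          rw [e2, List.drop_left]
    rw [e]
    exact Pol.union h1 h2
  · have e : ({u | sfx N (c ++ u) = d} : Lang A) =
        {u | sfx N (c ++ u) = d ∧ u.length < N} := by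
      ext u
      constructor
      · intro hu
        refine ⟨hu, ?_⟩
        by_contra hl
        have h3 := hs u (by omega)
        have h4 : sfx N (c ++ u) = d := hu
        rw [h4] at h3
        apply hd
        rw [h3, List.length_drop]
        omega
      · intro hu
        exact hu.1
    rw [e]
    exact h1

private theorem win_pol_of [Finite A] {n N : ℕ}
    (h : ∀ K ∈ B (Wd A N) n, ∀ c : List A, {u | win N c u ∈ K} ∈ B A n) {K : Lang (Wd A N)}
    (hK : Pol (B (Wd A N) n) K) : ∀ c : List A, Pol (B A n) {u | win N c u ∈ K} := by
  induction hK with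
  | base hK => exact fun c => Pol.base (h _ hK c)
  | @union K L hK hL ihK ihL =>
    intro c
    have e : ({u | win N c u ∈ K ∪ L} : Lang A) = {u | win N c u ∈ K} ∪ {u | win N c u ∈ L} := rfl
    rw [e]
    exact Pol.union (ihK c) (ihL c)
  | @cat K L hK hL ihK ihL =>
    intro c
    have hfin : Finite (Wd A N) := (List.finite_length_le A N).to_subtype
    have e : ({u | win N c u ∈ cat K L} : Lang A) =
        {u | ∃ d : Wd A N, u ∈ cat ({u | win N c u ∈ K} ∩ {u | sfx N (c ++ u) = d.1})
          {u | win N d.1 u ∈ L}} := by
      ext u
      constructor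
      · rintro ⟨x, hx, y, hy, hxy⟩
        have hlen : x.length ≤ u.length := by
          rw [← win_length N c u, hxy, List.length_append]
          omega
        have h1 : win N c u = win N c (u.take x.length) ++
            win N (sfx N (c ++ u.take x.length)) (u.drop x.length) := by
          rw [← win_append, List.take_append_drop]
        rw [hxy] at h1
        have h2 := List.append_inj h1.symm (by
          rw [win_length, List.length_take]
          omega)
        refine ⟨⟨sfx N (c ++ u.take x.length), sfx_length N _⟩, u.take x.length, ⟨?_, rfl⟩,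
          u.drop x.length, ?_, (List.take_append_drop _ _).symm⟩
        · show win N c (u.take x.length) ∈ K
          rw [h2.1]
          exact hx
        · show win N (sfx N (c ++ u.take x.length)) (u.drop x.length) ∈ L
          rw [h2.2]
          exact hy
      · rintro ⟨d, p, ⟨hp, hd⟩, q, hq, rfl⟩
        have hd' : sfx N (c ++ p) = d.1 := hd
        show win N c (p ++ q) ∈ cat K L
        rw [win_append, hd']
        exact append_mem_cat hp hq
    rw [e]
    exact pol_finite_union _ fun d => Pol.cat (inter_pol (ihK c) (sfx_pol N n c d.1)) (ihL d.1)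

private theorem win_B [Finite A] (n N : ℕ) :
    ∀ K ∈ B (Wd A N) n, ∀ c : List A, {u | win N c u ∈ K} ∈ B A n := by
  induction n with
  | zero =>
    have key : ∀ K : Lang (Wd A N), K.Finite → ∀ c : List A, ({u | win N c u ∈ K} : Lang A).Finite := by
      intro K hK c
      obtain ⟨M, hM⟩ := (hK.image List.length).bddAbove
      refine (List.finite_length_le A M).subset ?_
      intro u hu
      have h1 := hM (Set.mem_image_of_mem List.length hu)
      rw [win_length] at h1
      exact h1
    intro K hK c
    rcases hK with hK | hK
    · exact Or.inl (key K hK c)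
    · exact Or.inr (key Kᶜ hK c)
  | succ n ih =>
    intro K hK c
    have hK' : BoolCl (MonCl (B (Wd A N) n)) K := hK
    clear hK
    induction hK' with
    | base h => exact pol_sub_B (win_pol_of ih (pol_of_monCl h) c)
    | compl _ ihL => exact B_compl ihL
    | union _ _ ihK ihL => exact B_union ihK ihL
    | inter _ _ ihK ihL => exact B_inter ihK ihL

/-- Main result of this module. -/
theorem win_pol [Finite A] {n N : ℕ} {K : Lang (Wd A N)} (hK : Pol (B (Wd A N) n) K) (c : List A) :
    Pol (B A n) {u | win N c u ∈ K} := win_pol_of (win_B n N) hK c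

end Pool.Agent.HSP
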